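import Mathlib

/-!
# MP_4da8b1_gt, Q1 in full: one `Prop` per block

See `PROOF.md` in this folder.  Every block file proves `theorem stmt_X : Stmt_X`.
-/

set_option autoImplicit false

open Matrix Finset
open scoped RealInnerProductSpace BigOperators

namespace Pool.Agent.MP4da8b1Q1

/-- Euclidean space. -/
abbrev E (n : ℕ) := EuclideanSpace ℝ (Fin n)

/-! ## 1. Half of the trace norm -/

/-- A symmetric matrix `H` with `-1 ≤ H ≤ 1` as quadratic forms. -/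
def Contr {m : Type} [Fintype m] (H : Matrix m m ℝ) : Prop :=
  H.IsSymm ∧ ∀ x : m → ℝ, |x ⬝ᵥ (H *ᵥ x)| ≤ x ⬝ᵥ x

/-- `nuc B` is half of the trace norm of the symmetric matrix `B`. -/
noncomputable def nuc {m : Type} [Fintype m] (B : Matrix m m ℝ) : ℝ :=
  sSup {r : ℝ | ∃ H : Matrix m m ℝ, Contr H ∧ r = (B * H).trace / 2}

/-- The Gram matrix with the diagonal replaced by zeros. -/
noncomputable def offGram {m : Type} [DecidableEq m] {n : ℕ} (v : m → E n) : Matrix m m ℝ :=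
  fun i j => if i = j then 0 else ⟪v i, v j⟫

/-- Rows and columns scaled by `c`. -/
def scal {m : Type} (c : m → ℝ) (B : Matrix m m ℝ) : Matrix m m ℝ := fun i j => c i * B i j * c j

/-- **NUC**: the supremum is bounded and attained (compactness), and nonnegative. -/
def Stmt_NUC : Prop :=
  ∀ (m : Type) [Fintype m] [DecidableEq m] (B : Matrix m m ℝ),
    (∀ H : Matrix m m ℝ, Contr H → (B * H).trace / 2 ≤ nuc B) ∧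
    (∃ H : Matrix m m ℝ, Contr H ∧ (B * H).trace / 2 = nuc B) ∧ 0 ≤ nuc B

/-- **SPE**: for symmetric `B` of trace zero, `nuc B` is the sum of the positive eigenvalues. -/
def Stmt_SPE : Prop :=
  ∀ (m : Type) [Fintype m] [DecidableEq m] (B : Matrix m m ℝ) (hB : B.IsHermitian),
    B.trace = 0 → nuc B = ∑ k, max (hB.eigenvalues k) 0

/-- **SGN**: a symmetric matrix with zero diagonal takes a value `≥ nuc B` at a sign vector. -/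
def Stmt_SGN : Prop :=
  ∀ (m : Type) [Fintype m] [DecidableEq m] (B : Matrix m m ℝ), B.IsSymm → (∀ i, B i i = 0) →
    ∃ ε : m → ℝ, (∀ i, ε i = 1 ∨ ε i = -1) ∧ nuc B ≤ ε ⬝ᵥ (B *ᵥ ε)

/-- **FRO**: the Frobenius norm of the off-diagonal Gram matrix in terms of `nuc`. -/
def Stmt_FRO : Prop :=
  ∀ (m : Type) [Fintype m] [DecidableEq m] (n : ℕ) (v : m → E n) (o : m),
    (∀ i, i ≠ o → ‖v i‖ ^ 2 ≤ 1) →
    ∑ i, ∑ j, (offGram v i j) ^ 2 ≤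
      nuc (offGram v) ^ 2 + nuc (offGram v) + max (‖v o‖ ^ 2 - 1) 0 / 2 * nuc (offGram v)

/-- **MON**: `nuc` does not increase when rows and columns are scaled by numbers of `[-1,1]`. -/
def Stmt_MON : Prop :=
  ∀ (m : Type) [Fintype m] [DecidableEq m] (B : Matrix m m ℝ) (c : m → ℝ), (∀ i, |c i| ≤ 1) →
    nuc (scal c B) ≤ nuc B

/-- **CHD**: the chord inequality. -/
def Stmt_CHD : Prop :=
  ∀ (m : Type) [Fintype m] [DecidableEq m] (B : Matrix m m ℝ) (o : m) (t : ℝ), B.IsSymm →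
    B o o = 0 → 0 ≤ t → t ≤ 1 →
    (1 - t ^ 2) * nuc (scal (Function.update 1 o 0) B) ^ 2 + t ^ 2 * nuc B ^ 2 ≤
      nuc (scal (Function.update 1 o t) B) ^ 2

/-- **KER**: unit vectors indexed by `J ⊆ m`, the other rows and columns erased. -/
def Stmt_KER : Prop :=
  ∀ (m : Type) [Fintype m] [DecidableEq m] (n : ℕ) (v : m → E n) (J : Finset m),
    (∀ i ∈ J, ‖v i‖ = 1) →
    (J.card : ℝ) - n ≤ nuc (fun i j => if i ∈ J ∧ j ∈ J ∧ i ≠ j then ⟪v i, v j⟫ else 0)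

/-- **C2**: the main lower bound for `n + 2` vectors of `ℝⁿ`. -/
def Stmt_C2 : Prop :=
  ∀ (m : Type) [Fintype m] [DecidableEq m] (n : ℕ) (v : m → E n), Fintype.card m = n + 2 →
    ∀ (o₁ o₂ : m), o₁ ≠ o₂ → ∀ x y z : ℝ, 0 ≤ x → x ≤ y → y ≤ z → x ≤ ‖v o₁‖ ^ 2 →
    y ≤ ‖v o₂‖ ^ 2 → (∀ j, j ≠ o₁ → j ≠ o₂ → z ≤ ‖v j‖ ^ 2) →
    x * z + y * z + 2 * x * y ≤ nuc (offGram v) ^ 2

/-! ## 2. Finite product laws -/

section Laws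

variable {ι Ω : Type} [Fintype ι] [DecidableEq ι] [Fintype Ω] {n : ℕ}

/-- Expectation for the product of the laws `p i`. -/
noncomputable def Ex (p : ι → Ω → ℝ) (F : (ι → Ω) → ℝ) : ℝ :=
  ∑ ω : ι → Ω, (∏ i, p i (ω i)) * F ω

/-- Every `p i` is a probability on `Ω`. -/
structure IsLaw (p : ι → Ω → ℝ) : Prop where
  nonneg : ∀ i w, 0 ≤ p i w
  sum_one : ∀ i, ∑ w, p i w = 1

/-- second moments -/
noncomputable def mom (q : Ω → ℝ) (f : Ω → E n) : Matrix (Fin n) (Fin n) ℝ :=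
  fun k l => ∑ w, q w * (f w k * f w l)

/-- the quadratic form of a matrix -/
noncomputable def quad (A : Matrix (Fin n) (Fin n) ℝ) (c : E n) : ℝ :=
  ∑ k, ∑ l, A k l * (c k * c l)

/-- `X = |∑ a_i - c|² - ∑ |a_i|²` -/
noncomputable def Xv (a : Ω → E n) (c : E n) (ω : ι → Ω) : ℝ :=
  ‖(∑ i, a (ω i)) - c‖ ^ 2 - ∑ i, ‖a (ω i)‖ ^ 2

/-- `Λ = ∑ |a_i|²` -/
noncomputable def Lv (a : Ω → E n) (ω : ι → Ω) : ℝ := ∑ i, ‖a (ω i)‖ ^ 2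

/-- squared Frobenius norm of the off-diagonal Gram matrix of `(μ, d_1, …, d_N)` -/
noncomputable def Fv (a d : Ω → E n) (c : E n) (ω : ι → Ω) : ℝ :=
  (∑ i, ∑ j, if i = j then 0 else ⟪d (ω i), d (ω j)⟫ ^ 2) +
    2 * ∑ j, ⟪(∑ i, a (ω i)) - c, d (ω j)⟫ ^ 2

/-- the pointwise certificate -/
noncomputable def psi (α : ι → ℝ) : ℝ :=
  2 / 5 * ∑ i, α i * (1 - α i) -
    1 / 2 * ∑ i, ∑ j, if i = j then 0 else
      α i * α j * (3 / 20 + 17 / 20 * (α i ^ 2 + α j ^ 2))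

end Laws

/-- **EXB**: basic facts on `Ex`: total mass one, an `ω` in the support with `F ω ≥ 0` when
`Ex F ≥ 0`, comparison on the support, resampling of one coordinate. -/
def Stmt_EXB : Prop :=
  ∀ (ι Ω : Type) [Fintype ι] [DecidableEq ι] [Fintype Ω] (p : ι → Ω → ℝ), IsLaw p →
    Ex p (fun _ => 1) = 1 ∧
    (∀ F : (ι → Ω) → ℝ, 0 ≤ Ex p F → ∃ ω, (∀ i, 0 < p i (ω i)) ∧ 0 ≤ F ω) ∧
    (∀ F G : (ι → Ω) → ℝ, (∀ ω, (∀ i, 0 < p i (ω i)) → F ω ≤ G ω) → Ex p F ≤ Ex p G) ∧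
    (∀ (i : ι) (F : (ι → Ω) → ℝ),
      Ex p F = Ex p (fun ω => ∑ w, p i w * F (Function.update ω i w)))

/-- **EX1**: the mean of `X` for arbitrary means of the `a_i`. -/
def Stmt_EX1 : Prop :=
  ∀ (ι Ω : Type) [Fintype ι] [DecidableEq ι] [Fintype Ω] (n : ℕ) (p : ι → Ω → ℝ), IsLaw p →
    ∀ (a : Ω → E n) (c : E n),
    Ex p (Xv a c) = ‖(∑ i, ∑ w, p i w • a w) - c‖ ^ 2 - ∑ i, ‖∑ w, p i w • a w‖ ^ 2

/-- **EPS**: the mean of the certificate. -/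
def Stmt_EPS : Prop :=
  ∀ (ι Ω : Type) [Fintype ι] [DecidableEq ι] [Fintype Ω] (p : ι → Ω → ℝ), IsLaw p →
    ∀ (g : Ω → ℝ) (m : ℕ → ι → ℝ), (∀ k i, m k i = ∑ w, p i w * g w ^ k) →
    Ex p (fun ω => psi (fun i => g (ω i))) =
      2 / 5 * ∑ i, (m 1 i - m 2 i) - 1 / 2 * ∑ i, ∑ j, if i = j then 0 else
        3 / 20 * (m 1 i * m 1 j) + 17 / 20 * (m 3 i * m 1 j + m 1 i * m 3 j)

/-- **EX2**: second moment of `X` when all `a_i` have mean zero. -/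
def Stmt_EX2 : Prop :=
  ∀ (ι Ω : Type) [Fintype ι] [DecidableEq ι] [Fintype Ω] (n : ℕ) (p : ι → Ω → ℝ), IsLaw p →
    ∀ (a : Ω → E n) (c : E n), (∀ i, ∑ w, p i w • a w = 0) →
    Ex p (fun ω => Xv a c ω ^ 2) = (‖c‖ ^ 2) ^ 2 + 4 * ∑ i, quad (mom (p i) a) c +
      2 * ∑ i, ∑ j, if i = j then 0 else (mom (p i) a * mom (p j) a).trace

/-- **EXL**: mean of `X Λ`. -/
def Stmt_EXL : Prop :=
  ∀ (ι Ω : Type) [Fintype ι] [DecidableEq ι] [Fintype Ω] (n : ℕ) (p : ι → Ω → ℝ), IsLaw p →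
    ∀ (a : Ω → E n) (c : E n), (∀ i, ∑ w, p i w • a w = 0) →
    Ex p (fun ω => Xv a c ω * Lv a ω) = ‖c‖ ^ 2 * ∑ i, ∑ w, p i w * ‖a w‖ ^ 2 -
      2 * ∑ i, ⟪c, ∑ w, (p i w * ‖a w‖ ^ 2) • a w⟫

/-- **EL2**: mean and second moment of `Λ`. -/
def Stmt_EL2 : Prop :=
  ∀ (ι Ω : Type) [Fintype ι] [DecidableEq ι] [Fintype Ω] (n : ℕ) (p : ι → Ω → ℝ), IsLaw p →
    ∀ (a : Ω → E n), Ex p (Lv a) = ∑ i, ∑ w, p i w * ‖a w‖ ^ 2 ∧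
    Ex p (fun ω => Lv a ω ^ 2) = (∑ i, ∑ w, p i w * ‖a w‖ ^ 2) ^ 2 +
      ∑ i, ((∑ w, p i w * (‖a w‖ ^ 2) ^ 2) - (∑ w, p i w * ‖a w‖ ^ 2) ^ 2)

/-- **EF2**: mean of the squared Frobenius norm. -/
def Stmt_EF2 : Prop :=
  ∀ (ι Ω : Type) [Fintype ι] [DecidableEq ι] [Fintype Ω] (n : ℕ) (p : ι → Ω → ℝ), IsLaw p →
    ∀ (a d : Ω → E n) (c : E n), (∀ i, ∑ w, p i w • a w = 0) → (∀ w, ⟪a w, d w⟫ = (0 : ℝ)) →
    Ex p (Fv a d c) =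
      (∑ i, ∑ j, if i = j then 0 else ((mom (p i) d * mom (p j) d).trace +
        2 * (mom (p i) a * mom (p j) d).trace)) + 2 * ∑ j, quad (mom (p j) d) c

/-! ## 3. One family -/

section Families

variable {κ : Type} [Fintype κ] {n : ℕ}

/-- unit vectors with probability weights and barycentre `0` -/
structure IsFam (s : κ → E n) (w : κ → ℝ) : Prop where
  unit : ∀ k, ‖s k‖ = 1
  nonneg : ∀ k, 0 ≤ w k
  sum_one : ∑ k, w k = 1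
  bal : ∑ k, w k • s k = 0

/-- midpoint of an edge -/
noncomputable def mid (s : κ → E n) (e : κ × κ) : E n := (1 / 2 : ℝ) • (s e.1 + s e.2)

/-- half difference of an edge -/
noncomputable def dif (s : κ → E n) (e : κ × κ) : E n := (1 / 2 : ℝ) • (s e.1 - s e.2)

/-- moments of the scalar product of two independent members -/
noncomputable def TT (s : κ → E n) (w : κ → ℝ) (k : ℕ) : ℝ :=
  ∑ u, ∑ v, w u * w v * ⟪s u, s v⟫ ^ k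

/-- the canonical coupling -/
noncomputable def law0 (s : κ → E n) (w : κ → ℝ) (e : κ × κ) : ℝ :=
  w e.1 * w e.2 * (1 - ⟪s e.1, s e.2⟫)

/-- the tilted coupling -/
noncomputable def law1 (s : κ → E n) (w : κ → ℝ) (e : κ × κ) : ℝ :=
  w e.1 * w e.2 * (1 - ⟪s e.1, s e.2⟫) * (1 - ⟪s e.1, s e.2⟫ / 2) / (1 + TT s w 2 / 2)

end Families

/-- **CAN**: the canonical coupling. -/
def Stmt_CAN : Prop :=
  ∀ (κ : Type) [Fintype κ] (n : ℕ) (s : κ → E n) (w : κ → ℝ), IsFam s w →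
    ∀ S : Matrix (Fin n) (Fin n) ℝ, S = mom w s → ∀ y : ℝ, y = (1 - (S * S).trace) / 2 →
    S.PosSemidef ∧ S.trace = 1 ∧ (∀ e, 0 ≤ law0 s w e) ∧ ∑ e, law0 s w e = 1 ∧
    ∑ e, law0 s w e • mid s e = 0 ∧
    mom (law0 s w) (mid s) = (1 / 2 : ℝ) • (S - S * S) ∧
    mom (law0 s w) (dif s) = (1 / 2 : ℝ) • (S + S * S) ∧
    ∑ e, law0 s w e * ‖mid s e‖ ^ 2 = y ∧
    ∑ e, law0 s w e * (‖mid s e‖ ^ 2) ^ 2 ≤ y / 2 ∧
    ∀ c : E n, ⟪c, ∑ e, (law0 s w e * ‖mid s e‖ ^ 2) • mid s e⟫ ^ 2 ≤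
      quad ((1 / 2 : ℝ) • (S - S * S)) c * (y / 2 - y ^ 2)

/-- **TIL**: the tilted coupling. -/
def Stmt_TIL : Prop :=
  ∀ (κ : Type) [Fintype κ] (n : ℕ) (s : κ → E n) (w : κ → ℝ), IsFam s w →
    ∀ y T D Z : ℝ, y = (1 - TT s w 2) / 2 → T = TT s w 3 → D = TT s w 2 - TT s w 4 →
    Z = 3 / 2 - y →
    0 ≤ y ∧ y ≤ 1 / 2 ∧ 0 ≤ T ∧ T ≤ 2 * y ∧ 0 ≤ D ∧ D ≤ 2 * y ∧
    (∀ e, 0 ≤ law1 s w e) ∧ ∑ e, law1 s w e = 1 ∧
    ‖∑ e, law1 s w e • mid s e‖ ^ 2 ≤ (1 - 2 * y) * T / (4 * Z ^ 2) ∧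
    ∑ e, law1 s w e * ‖mid s e‖ ^ 2 = (y + T / 4) / Z ∧
    ∑ e, law1 s w e * (‖mid s e‖ ^ 2 - (‖mid s e‖ ^ 2) ^ 2) =
      (y / 2 + 3 / 8 * T + D / 8) / Z ∧
    ∑ e, law1 s w e * (‖mid s e‖ ^ 2) ^ 3 ≤ (y / 4 - 3 / 16 * T + D / 16) / Z

/-! ## 4. Region A -/

/-- **EA**: the scalar inequality for the expectation of the certificate. -/
def Stmt_EA : Prop :=
  ∀ (ι : Type) [Fintype ι] [DecidableEq ι] (y T D m1 dm m3 : ι → ℝ),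
    (∀ i, 0 ≤ y i) → (∀ i, y i ≤ 1 / 2) → (∀ i, 0 ≤ T i) → (∀ i, T i ≤ 2 * y i) →
    (∀ i, 0 ≤ D i) → (∀ i, D i ≤ 2 * y i) → ∑ i, y i ≤ 9 / 10 →
    (∀ i, m1 i = (y i + T i / 4) / (3 / 2 - y i)) →
    (∀ i, dm i = (y i / 2 + 3 / 8 * T i + D i / 8) / (3 / 2 - y i)) →
    (∀ i, m3 i ≤ (y i / 4 - 3 / 16 * T i + D i / 16) / (3 / 2 - y i)) →
    ∑ i, (1 - 2 * y i) * T i / (4 * (3 / 2 - y i) ^ 2) ≤
      2 / 5 * ∑ i, dm i - 1 / 2 * ∑ i, ∑ j, if i = j then 0 else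
        3 / 20 * (m1 i * m1 j) + 17 / 20 * (m3 i * m1 j + m1 i * m3 j)

/-- **PW**: the pointwise inequality.  `f` is any number satisfying the conclusion of **C2** for
the squared lengths `M` and `1 - α_i`. -/
def Stmt_PW : Prop :=
  ∀ (ι : Type) [Fintype ι] [DecidableEq ι] (α : ι → ℝ) (M f : ℝ), 2 ≤ Fintype.card ι →
    (∀ i, 0 ≤ α i) → (∀ i, α i ≤ 1) → 0 ≤ M → 0 ≤ f →
    (∀ len : Option ι → ℝ, len none = M → (∀ i, len (some i) = 1 - α i) →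
      ∀ o₁ o₂ : Option ι, o₁ ≠ o₂ → ∀ x y z : ℝ, 0 ≤ x → x ≤ y → y ≤ z → x ≤ len o₁ →
      y ≤ len o₂ → (∀ j, j ≠ o₁ → j ≠ o₂ → z ≤ len j) →
      x * z + y * z + 2 * x * y ≤ f ^ 2) →
    -psi α ≤ M - ∑ i, α i → 1 ≤ M - ∑ i, α i + f

/-- **H1** -/
def Stmt_H1 : Prop :=
  ∀ a b v : ℝ, 0 ≤ b → b ≤ a → a ≤ 1 →
    v = 2 / 5 * (a - a ^ 2 + b - b ^ 2) - a * b * (3 / 20 + 17 / 20 * (a ^ 2 + b ^ 2)) →
    -1 ≤ v → 0 ≤ 2 * a + 2 * b - 2 * a ^ 2 - 2 * a * b - b ^ 2 - v * (5 - 2 * a - b) - v ^ 2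

/-- **H2** -/
def Stmt_H2 : Prop :=
  ∀ a b v : ℝ, 0 ≤ b → b ≤ a → a ≤ 1 →
    v = 2 / 5 * (a - a ^ 2 + b - b ^ 2) - a * b * (3 / 20 + 17 / 20 * (a ^ 2 + b ^ 2)) →
    -1 ≤ v → 0 ≤ 1 - a ^ 2 - b ^ 2 - v * (4 - a - b) - v ^ 2

/-- **H3** (numerically the left side is `≥ 0.017 (1 - a + b + c)`) -/
def Stmt_H3 : Prop :=
  ∀ a b c : ℝ, 0 ≤ c → c ≤ b → b ≤ a → a ≤ 1 →
    0 ≤ (1 - a) * (1 - 2 / 5 * a) - (b + c) * (9 / 10 - 3 / 20 * a - 17 / 20 * a ^ 3) +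
      3 / 20 * (b ^ 2 + c ^ 2) + 2 / 5 * (b * c) + 17 / 20 * a * (b ^ 3 + c ^ 3) +
      17 / 20 * (b * c) * (b ^ 2 + c ^ 2)

/-- **H4** (numerically the difference is `≥ 0.029`) -/
def Stmt_H4 : Prop :=
  ∀ a b c s : ℝ, 0 ≤ c → c ≤ b → b ≤ a → a ≤ 1 →
    s = 2 / 5 - 3 / 20 * (a + b + c) - 17 / 20 * (a ^ 3 + b ^ 3 + c ^ 3) → 0 ≤ s →
    s ^ 2 / (3 / 10) ≤
      (1 - a) * (1 - 2 / 5 * a) - (b + c) * (9 / 10 - 3 / 20 * a - 17 / 20 * a ^ 3) +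
      3 / 20 * (b ^ 2 + c ^ 2) + 2 / 5 * (b * c) + 17 / 20 * a * (b ^ 3 + c ^ 3) +
      17 / 20 * (b * c) * (b ^ 2 + c ^ 2)

/-! ## 5. Region B -/

/-- **SM**: facts on one positive semidefinite matrix of trace one. -/
def Stmt_SM : Prop :=
  ∀ (n : ℕ) (S W : Matrix (Fin n) (Fin n) ℝ) (y : ℝ), S.PosSemidef → S.trace = 1 →
    W = S - S * S → y = W.trace / 2 →
    W.PosSemidef ∧ 0 ≤ y ∧ y ≤ 1 / 2 ∧ (S * S).trace = 1 - 2 * y ∧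
    (1 - 2 * y) * (1 - √(1 - 2 * y)) ≤ (W * S).trace ∧ (W * W).trace ≤ 1 - 2 * y ∧
    ∃ ω ρ : ℝ, 0 ≤ ω ∧ ω ≤ y ∧ ω ≤ 1 / 4 ∧ (ω • (1 : Matrix (Fin n) (Fin n) ℝ) - W).PosSemidef ∧
      (W - y • S).PosSemidef ∧ 0 ≤ ρ ∧ ρ ≤ 1 ∧
      ρ * (2 * y - (W * S).trace) ≤ 283 / 250 * y ∧
      ∀ h t : ℝ, 0 ≤ h → h * y ≤ t * y - (y - ω) → h * y ≤ 2 * ω - y → h * y ≤ ρ * t * y

section RegionB

variable {ι : Type} [Fintype ι] [DecidableEq ι] {n : ℕ}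

/-- `W_i = S_i - S_i²` -/
def Wm (S : ι → Matrix (Fin n) (Fin n) ℝ) (i : ι) : Matrix (Fin n) (Fin n) ℝ :=
  S i - S i * S i

/-- `y_i = ½ tr W_i` -/
noncomputable def yy (S : ι → Matrix (Fin n) (Fin n) ℝ) (i : ι) : ℝ := (Wm S i).trace / 2

/-- `V = ½ ∑_{i≠j} tr W_i W_j` -/
noncomputable def VV (S : ι → Matrix (Fin n) (Fin n) ℝ) : ℝ :=
  1 / 2 * ∑ i, ∑ j, if i = j then 0 else (Wm S i * Wm S j).trace

/-- `E = ∑ S_i - 1` -/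
noncomputable def EE (S : ι → Matrix (Fin n) (Fin n) ℝ) : Matrix (Fin n) (Fin n) ℝ :=
  (∑ i, S i) - 1

end RegionB

/-- **V1** -/
def Stmt_V1 : Prop :=
  ∀ (ι : Type) [Fintype ι] [DecidableEq ι] (n : ℕ) (S : ι → Matrix (Fin n) (Fin n) ℝ),
    (∀ i, (S i).PosSemidef) → (∀ i, (S i).trace = 1) →
    ∃ K : Matrix (Fin n) (Fin n) ℝ, K.PosSemidef ∧
      (K * K).trace ≤ (∑ i, yy S i) / 2 * ∑ i, yy S i ^ 2 ∧
      (((∑ i, yy S i) / 4) • (1 : Matrix (Fin n) (Fin n) ℝ) - K).PosSemidef ∧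
      VV S ≤ (∑ i, yy S i) ^ 2 / 2 + 33 / 500 * (∑ i, yy S i ^ 2) + (K * EE S).trace / 2

/-- **V2** -/
def Stmt_V2 : Prop :=
  ∀ (ι : Type) [Fintype ι] [DecidableEq ι] (n : ℕ) (S : ι → Matrix (Fin n) (Fin n) ℝ) (κ θ : ℝ),
    (∀ i, (S i).PosSemidef) → (∀ i, (S i).trace = 1) → 0 ≤ κ → κ ≤ 1 / 2 → 0 ≤ θ →
    (1 + θ) ^ 2 * (1 - 2 * κ) ^ 2 / 8 ≤ θ →
    VV S - (EE S * EE S).trace ≤
      (1 + θ) * ∑ i, ((1 - 2 * κ) * (yy S i - (Wm S i * S i).trace / 2) +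
        (∑ j, yy S j - yy S i) * min (κ ^ 2) (2 * κ * yy S i)) +
      θ / 2 * ∑ i, (Wm S i * Wm S i).trace

/-- **V3**: the numerical consequence of **V2** and **SM** for `y ≥ 33/20`. -/
def Stmt_V3 : Prop :=
  ∀ (ι : Type) [Fintype ι] [DecidableEq ι] (n : ℕ) (S : ι → Matrix (Fin n) (Fin n) ℝ) (y : ℝ),
    (∀ i, (S i).PosSemidef) → (∀ i, (S i).trace = 1) → y = ∑ i, yy S i → 33 / 20 ≤ y →
    VV S - (EE S * EE S).trace + y * (y / 2 - ∑ i, yy S i ^ 2) / (16 + 4 * y) ≤ 3 / 2 * y - 1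

/-- **RB**: the matrix inequality of region B. -/
def Stmt_RB : Prop :=
  ∀ (n : ℕ) (S : Fin (n + 1) → Matrix (Fin n) (Fin n) ℝ) (c : E n) (x y Y₂ γ V : ℝ),
    (∀ i, (S i).PosSemidef) → (∀ i, (S i).trace = 1) → x = ‖c‖ ^ 2 → x ≤ 1 →
    y = ∑ i, yy S i → Y₂ = ∑ i, yy S i ^ 2 → V = VV S → 9 / 10 ≤ y →
    (γ / 2) ^ 2 ≤ (∑ i, quad (Wm S i) c) / 2 * (y / 2 - Y₂) →
    (2 - 3 * x + x ^ 2 + V + 2 * ∑ i, quad (Wm S i) c + (y ^ 2 + y / 2 - Y₂) / 8 ≤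
      (∑ i, ∑ j, if i = j then 0 else (S i * S j).trace) - V / 2 +
        ∑ i, quad (S i + S i * S i) c) ∨
    (3 / 2 * (1 - x) + 1 / 2 * ((1 - x) ^ 2 + V + 2 * ∑ i, quad (Wm S i) c) +
      1 / 2 * ((1 - x) * y - γ) ≤
      (∑ i, ∑ j, if i = j then 0 else (S i * S j).trace) - V / 2 +
        ∑ i, quad (S i + S i * S i) c)

/-! ## 6. The end -/

/-- **MAIN**: weighted form. -/
def Stmt_MAIN : Prop :=
  ∀ (κ : Type) [Fintype κ] (n : ℕ), 1 ≤ n → ∀ (s : κ → E n) (w : Fin (n + 1) → κ → ℝ),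
    (∀ i, IsFam s (w i)) → ∀ c : E n,
    ∃ k : Fin (n + 1) → κ, (∀ i, 0 < w i (k i)) ∧ (n : ℝ) + 2 ≤ ‖(∑ i, s (k i)) - c‖ ^ 2

end Pool.Agent.MP4da8b1Q1
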