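import Mathlib
import Pool.Agent.Work.MP_4da8b1_Q1_helper46.Interface

set_option autoImplicit false

open Matrix Finset
open scoped RealInnerProductSpace BigOperators

namespace Pool.Agent.MP4da8b1Q1

theorem nuc_smul_ge (hN : Stmt_NUC) {m : Type} [Fintype m] [DecidableEq m] (B : Matrix m m ℝ)
    (z : ℝ) : z * nuc B ≤ nuc (z • B) := by
  obtain ⟨H, hH, hval⟩ := (hN m B).2.1
  have h := (hN m (z • B)).1 H hH
  rw [Matrix.smul_mul, Matrix.trace_smul, smul_eq_mul] at h
  rw [← hval]
  linarith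

theorem scal_scal {m : Type} (c e : m → ℝ) (B : Matrix m m ℝ) :
    scal c (scal e B) = scal (fun i => c i * e i) B := by
  funext i j
  simp only [scal]
  ring

/-- `nuc` of the off-diagonal Gram matrix of unit vectors, some rows and columns erased -/
theorem nuc_erase_ge (hK : Stmt_KER) {m : Type} [Fintype m] [DecidableEq m] {n : ℕ} (u : m → E n)
    (hu : ∀ i, ‖u i‖ = 1) (o : m) :
    (Fintype.card m : ℝ) - 1 - n ≤ nuc (scal (Function.update 1 o 0) (offGram u)) := by
  have h := hK m n u (Finset.univ.erase o) (fun i _ => hu i)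
  have e : (fun i j => if i ∈ Finset.univ.erase o ∧ j ∈ Finset.univ.erase o ∧ i ≠ j then
      ⟪u i, u j⟫ else 0) = scal (Function.update 1 o 0) (offGram u) := by
    funext i j
    simp only [scal, offGram, Finset.mem_erase, Finset.mem_univ, and_true, Function.update_apply,
      Pi.one_apply]
    by_cases hi : i = o <;> by_cases hj : j = o <;> by_cases hij : i = j <;> simp_all
  rw [e, Finset.card_erase_of_mem (Finset.mem_univ _), Finset.card_univ] at h
  have h1 : 1 ≤ Fintype.card m := Fintype.card_pos_iff.2 ⟨o⟩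
  push_cast [Nat.cast_sub h1] at h
  exact h

theorem nuc_full_ge (hK : Stmt_KER) {m : Type} [Fintype m] [DecidableEq m] {n : ℕ} (u : m → E n)
    (hu : ∀ i, ‖u i‖ = 1) :
    (Fintype.card m : ℝ) - n ≤ nuc (offGram u) := by
  have h := hK m n u Finset.univ (fun i _ => hu i)
  have e : (fun i j => if i ∈ (Finset.univ : Finset m) ∧ j ∈ (Finset.univ : Finset m) ∧ i ≠ j then
      ⟪u i, u j⟫ else 0) = offGram u := by
    funext i j
    by_cases hij : i = j <;> simp [offGram, hij]
  rw [e, Finset.card_univ] at h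
  exact h

theorem scal_symm {m : Type} (c : m → ℝ) (B : Matrix m m ℝ) (hB : B.IsSymm) :
    (scal c B).IsSymm := by
  ext i j
  simp only [Matrix.transpose_apply, scal]
  rw [hB.apply i j]
  ring

theorem offGram_symm {m : Type} [DecidableEq m] {n : ℕ} (v : m → E n) :
    (offGram v).IsSymm := by
  ext i j
  simp only [Matrix.transpose_apply, offGram]
  by_cases h : i = j
  · simp [h]
  · rw [if_neg h, if_neg (fun h' => h h'.symm), real_inner_comm]

/-- the unit case -/
theorem C2_unit (hN : Stmt_NUC) (hC : Stmt_CHD) (hK : Stmt_KER) {m : Type} [Fintype m]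
    [DecidableEq m] {n : ℕ} (hcard : Fintype.card m = n + 2) (u : m → E n)
    (hu : ∀ i, ‖u i‖ = 1) (o₁ o₂ : m) (_h12 : o₁ ≠ o₂) (s t : ℝ) (hs0 : 0 ≤ s) (hs1 : s ≤ 1)
    (ht0 : 0 ≤ t) (ht1 : t ≤ 1) :
    s ^ 2 + t ^ 2 + 2 * s ^ 2 * t ^ 2 ≤
      nuc (scal (Function.update 1 o₁ s) (scal (Function.update 1 o₂ t) (offGram u))) ^ 2 := by
  have hs2 : s ^ 2 ≤ 1 := by nlinarith
  have ht2 : t ^ 2 ≤ 1 := by nlinarith
  have hcard' : (Fintype.card m : ℝ) = n + 2 := by rw [hcard]; push_cast; ring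
  have hG := offGram_symm u
  have hdiag : ∀ i, offGram u i i = 0 := fun i => by simp [offGram]
  have f2 : (2 : ℝ) ≤ nuc (offGram u) := by
    have := nuc_full_ge hK u hu
    linarith
  have f1 : ∀ o, (1 : ℝ) ≤ nuc (scal (Function.update 1 o 0) (offGram u)) := by
    intro o
    have := nuc_erase_ge hK u hu o
    linarith
  -- `C`
  have c1 := hC m (offGram u) o₂ t hG (hdiag _) ht0 ht1
  have hC1 : 1 + 3 * t ^ 2 ≤ nuc (scal (Function.update 1 o₂ t) (offGram u)) ^ 2 := by
    have a1 : 1 ≤ nuc (scal (Function.update 1 o₂ 0) (offGram u)) ^ 2 := by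
      nlinarith [f1 o₂]
    have a2 : 4 ≤ nuc (offGram u) ^ 2 := by nlinarith [f2]
    nlinarith [sq_nonneg t]
  -- `C` with `o₁` erased
  have hcomm : scal (Function.update 1 o₁ 0) (scal (Function.update 1 o₂ t) (offGram u)) =
      scal (Function.update 1 o₂ t) (scal (Function.update 1 o₁ 0) (offGram u)) := by
    rw [scal_scal, scal_scal]
    congr 1
    funext i
    ring
  have c2 := hC m (scal (Function.update 1 o₁ 0) (offGram u)) o₂ t (scal_symm _ _ hG)
    (by simp [scal, hdiag]) ht0 ht1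
  have hC2 : t ^ 2 ≤
      nuc (scal (Function.update 1 o₁ 0) (scal (Function.update 1 o₂ t) (offGram u))) ^ 2 := by
    rw [hcomm]
    have a1 : 1 ≤ nuc (scal (Function.update 1 o₁ 0) (offGram u)) ^ 2 := by
      nlinarith [f1 o₁]
    have a2 : 0 ≤ (1 - t ^ 2) * nuc (scal (Function.update 1 o₂ 0)
        (scal (Function.update 1 o₁ 0) (offGram u))) ^ 2 :=
      mul_nonneg (by linarith) (sq_nonneg _)
    nlinarith [sq_nonneg t]
  have c3 := hC m (scal (Function.update 1 o₂ t) (offGram u)) o₁ s (scal_symm _ _ hG)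
    (by simp [scal, hdiag]) hs0 hs1
  have b1 : (1 - s ^ 2) * t ^ 2 ≤ (1 - s ^ 2) *
      nuc (scal (Function.update 1 o₁ 0) (scal (Function.update 1 o₂ t) (offGram u))) ^ 2 :=
    mul_le_mul_of_nonneg_left hC2 (by linarith)
  have b2 : s ^ 2 * (1 + 3 * t ^ 2) ≤ s ^ 2 *
      nuc (scal (Function.update 1 o₂ t) (offGram u)) ^ 2 :=
    mul_le_mul_of_nonneg_left hC1 (sq_nonneg _)
  have _ := hN
  nlinarith [b1, b2, c3]

theorem stmt_C2_of (hN : Stmt_NUC) (hM : Stmt_MON) (hC : Stmt_CHD) (hK : Stmt_KER) :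
    Stmt_C2 := by
  intro m _ _ n v hcard o₁ o₂ h12 x y z hx hxy hyz h1 h2 hj
  have hnn : 0 ≤ nuc (offGram v) := (hN m _).2.2
  rcases eq_or_lt_of_le (le_trans (le_trans hx hxy) hyz) with hz | hz
  · have hy0 : y = 0 := le_antisymm (by rw [hz]; exact hyz) (le_trans hx hxy)
    have hx0 : x = 0 := le_antisymm (by rw [← hy0]; exact hxy) hx
    rw [hx0, hy0]
    nlinarith [sq_nonneg (nuc (offGram v))]
  rcases Nat.eq_zero_or_pos n with hn | hn
  · subst hn
    have hv0 : ∀ i, ‖v i‖ ^ 2 = 0 := by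
      intro i
      have : v i = 0 := Subsingleton.elim _ _
      rw [this]; simp
    have hx0 : x = 0 := le_antisymm (by rw [← hv0 o₁]; exact h1) hx
    have hy0 : y = 0 := le_antisymm (by rw [← hv0 o₂]; exact h2) (le_trans hx hxy)
    rw [hx0, hy0]
    nlinarith [sq_nonneg (nuc (offGram v))]
  -- a unit vector
  let e0 : E n := EuclideanSpace.single ⟨0, hn⟩ (1 : ℝ)
  have he0 : ‖e0‖ = 1 := by simp [e0]
  let u : m → E n := fun i => if v i = 0 then e0 else ‖v i‖⁻¹ • v i
  have hu : ∀ i, ‖u i‖ = 1 := by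
    intro i
    by_cases hi : v i = 0
    · simp only [u, if_pos hi, he0]
    · simp only [u, if_neg hi, norm_smul, norm_inv, norm_norm]
      exact inv_mul_cancel₀ (norm_ne_zero_iff.2 hi)
  have hvu : ∀ i, v i = ‖v i‖ • u i := by
    intro i
    by_cases hi : v i = 0
    · simp [hi]
    · simp only [u, if_neg hi, smul_smul]
      rw [mul_inv_cancel₀ (norm_ne_zero_iff.2 hi), one_smul]
  have hoff : offGram v = scal (fun i => ‖v i‖) (offGram u) := by
    funext i j
    simp only [offGram, scal]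
    by_cases hij : i = j
    · simp [hij]
    · rw [if_neg hij, if_neg hij]
      conv_lhs => rw [hvu i, hvu j]
      rw [real_inner_smul_left, real_inner_smul_right]
      ring
  -- the target lengths
  set c : m → ℝ := fun i => if i = o₁ then √x else if i = o₂ then √y else √z with hcdef
  have hc0 : ∀ i, 0 ≤ c i := by
    intro i
    simp only [hcdef]
    split_ifs <;> exact Real.sqrt_nonneg _
  have hcv : ∀ i, c i ≤ ‖v i‖ := by
    intro i
    simp only [hcdef]
    split_ifs with hi1 hi2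
    · rw [hi1]; exact Real.sqrt_le_iff.2 ⟨norm_nonneg _, h1⟩
    · rw [hi2]; exact Real.sqrt_le_iff.2 ⟨norm_nonneg _, h2⟩
    · exact Real.sqrt_le_iff.2 ⟨norm_nonneg _, hj i hi1 hi2⟩
  have hsc : scal c (offGram u) = scal (fun i => c i / ‖v i‖) (offGram v) := by
    rw [hoff, scal_scal]
    congr 1
    funext i
    rcases eq_or_ne ‖v i‖ 0 with h0 | h0
    · have : c i = 0 := le_antisymm (by rw [← h0]; exact hcv i) (hc0 i)
      simp [this]
    · rw [div_mul_cancel₀ _ h0]
  have hmon : nuc (scal c (offGram u)) ≤ nuc (offGram v) := by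
    rw [hsc]
    refine hM m _ _ fun i => ?_
    rw [abs_of_nonneg (div_nonneg (hc0 i) (norm_nonneg _))]
    exact div_le_one_of_le₀ (hcv i) (norm_nonneg _)
  set s := √(x / z) with hs
  set t := √(y / z) with ht
  have hs0 : 0 ≤ s := Real.sqrt_nonneg _
  have ht0 : 0 ≤ t := Real.sqrt_nonneg _
  have hs2 : s ^ 2 = x / z := Real.sq_sqrt (div_nonneg hx hz.le)
  have ht2 : t ^ 2 = y / z := Real.sq_sqrt (div_nonneg (le_trans hx hxy) hz.le)
  have hs1 : s ≤ 1 := by
    rw [hs, Real.sqrt_le_one]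
    exact div_le_one_of_le₀ (le_trans hxy hyz) hz.le
  have ht1 : t ≤ 1 := by
    rw [ht, Real.sqrt_le_one]
    exact div_le_one_of_le₀ hyz hz.le
  have hzz : √z * √z = z := Real.mul_self_sqrt hz.le
  have hfac : scal c (offGram u) = z • scal (Function.update 1 o₁ s)
      (scal (Function.update 1 o₂ t) (offGram u)) := by
    have hcs : ∀ i, c i = √z * (Function.update (1 : m → ℝ) o₁ s i *
        Function.update (1 : m → ℝ) o₂ t i) := by
      intro i
      simp only [hcdef, Function.update_apply, Pi.one_apply]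
      by_cases hi1 : i = o₁
      · have hi2 : i ≠ o₂ := fun h => h12 (hi1.symm.trans h)
        rw [if_pos hi1, if_pos hi1, if_neg hi2, mul_one, hs, ← Real.sqrt_mul hz.le,
          mul_div_cancel₀ _ hz.ne']
      · by_cases hi2 : i = o₂
        · rw [if_neg hi1, if_pos hi2, if_neg hi1, if_pos hi2, one_mul, ht,
            ← Real.sqrt_mul hz.le, mul_div_cancel₀ _ hz.ne']
        · rw [if_neg hi1, if_neg hi2, if_neg hi1, if_neg hi2]; ring
    rw [scal_scal]
    ext i j
    rw [Matrix.smul_apply]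
    simp only [scal, smul_eq_mul]
    rw [hcs i, hcs j]
    calc _ = (√z * √z) * (Function.update (1 : m → ℝ) o₁ s i *
        Function.update (1 : m → ℝ) o₂ t i * offGram u i j *
        (Function.update (1 : m → ℝ) o₁ s j * Function.update (1 : m → ℝ) o₂ t j)) := by ring
      _ = _ := by rw [hzz]
  have hunit := C2_unit hN hC hK hcard u hu o₁ o₂ h12 s t hs0 hs1 ht0 ht1
  set M := scal (Function.update 1 o₁ s) (scal (Function.update 1 o₂ t) (offGram u)) with hMdef
  have hMnn : 0 ≤ nuc M := (hN m M).2.2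
  have hge := nuc_smul_ge hN M z
  have hfin : z * nuc M ≤ nuc (offGram v) := by
    calc z * nuc M ≤ nuc (z • M) := hge
      _ = nuc (scal c (offGram u)) := by rw [hfac]
      _ ≤ _ := hmon
  have hsq : (z * nuc M) ^ 2 ≤ nuc (offGram v) ^ 2 :=
    pow_le_pow_left₀ (mul_nonneg hz.le hMnn) hfin 2
  have hval : z ^ 2 * (s ^ 2 + t ^ 2 + 2 * s ^ 2 * t ^ 2) = x * z + y * z + 2 * x * y := by
    rw [hs2, ht2]
    field_simp
  have : z ^ 2 * (s ^ 2 + t ^ 2 + 2 * s ^ 2 * t ^ 2) ≤ z ^ 2 * nuc M ^ 2 :=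
    mul_le_mul_of_nonneg_left hunit (sq_nonneg _)
  rw [hval] at this
  nlinarith

end Pool.Agent.MP4da8b1Q1
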