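import Pool.Agent.Work.MP_4da8b1_Q1_helper46.Interface

/-!
# Block CHD (helper26): the chord inequality by a symmetric Parrott lemma
-/

set_option autoImplicit false

open Matrix Finset
open scoped BigOperators

namespace Pool.Agent.MP4da8b1Q1

namespace CHD

variable {m : Type} [Fintype m]

theorem dot_nonneg (x : m → ℝ) : 0 ≤ x ⬝ᵥ x :=
  Finset.sum_nonneg fun i _ => mul_self_nonneg (x i)

theorem symm_dot {H : Matrix m m ℝ} (h : H.IsSymm) (x y : m → ℝ) :
    x ⬝ᵥ (H *ᵥ y) = y ⬝ᵥ (H *ᵥ x) := by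
  rw [Matrix.dotProduct_mulVec, ← Matrix.mulVec_transpose, h.eq, dotProduct_comm]

theorem amgm (x y : m → ℝ) : |x ⬝ᵥ y| ≤ (x ⬝ᵥ x + y ⬝ᵥ y) / 2 := by
  have h1 := dot_nonneg (x + y)
  have h2 := dot_nonneg (x - y)
  simp only [add_dotProduct, dotProduct_add, sub_dotProduct, dotProduct_sub] at h1 h2
  rw [dotProduct_comm y x] at h1 h2
  rw [abs_le]
  constructor <;> linarith

theorem contr_norm {H : Matrix m m ℝ} (hH : Contr H) (x : m → ℝ) :
    (H *ᵥ x) ⬝ᵥ (H *ᵥ x) ≤ x ⬝ᵥ x := by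
  set y := H *ᵥ x with hy
  have h1 := hH.2 (x + y)
  have h2 := hH.2 (x - y)
  rw [abs_le] at h1 h2
  simp only [mulVec_add, mulVec_sub, add_dotProduct, dotProduct_add, sub_dotProduct,
    dotProduct_sub] at h1 h2
  rw [symm_dot hH.1 x y, dotProduct_comm y x, ← hy] at h1 h2
  linarith [h1.1, h1.2, h2.1, h2.2]

/-- Symmetric Parrott lemma with one corner. -/
theorem parrott [DecidableEq m] {H : Matrix m m ℝ} (hs : H.IsSymm) (o : m)
    (hc : ∀ p : m → ℝ, p o = 0 → (H *ᵥ p) ⬝ᵥ (H *ᵥ p) ≤ p ⬝ᵥ p) :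
    ∃ a : ℝ, Contr (fun i j => H i j + if i = o ∧ j = o then a else 0) := by
  classical
  -- the key inequality
  have key : ∀ x y : m → ℝ, x o = 1 → y o = 1 →
      -(x ⬝ᵥ x) - x ⬝ᵥ (H *ᵥ x) ≤ y ⬝ᵥ y - y ⬝ᵥ (H *ᵥ y) := by
    intro x y hx hy
    have h1 := hc (x - y) (by simp [hx, hy])
    have h2 := amgm (x + y) (H *ᵥ (x - y))
    rw [abs_le] at h2
    have h3 : (x + y) ⬝ᵥ (H *ᵥ (x - y)) = x ⬝ᵥ (H *ᵥ x) - y ⬝ᵥ (H *ᵥ y) := by
      simp only [mulVec_sub, add_dotProduct, dotProduct_sub]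
      rw [symm_dot hs y x]
      ring
    have h4 : (x + y) ⬝ᵥ (x + y) + (x - y) ⬝ᵥ (x - y) = 2 * (x ⬝ᵥ x + y ⬝ᵥ y) := by
      simp only [add_dotProduct, dotProduct_add, sub_dotProduct, dotProduct_sub]
      ring
    rw [h3] at h2
    linarith [h2.1]
  set T : Set ℝ := {r | ∃ x : m → ℝ, x o = 1 ∧ r = -(x ⬝ᵥ x) - x ⬝ᵥ (H *ᵥ x)} with hT
  have hne : T.Nonempty := ⟨_, Pi.single o 1, by simp, rfl⟩
  have hbd : BddAbove T := by
    refine ⟨(Pi.single o 1 : m → ℝ) ⬝ᵥ (Pi.single o 1) -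
      (Pi.single o 1 : m → ℝ) ⬝ᵥ (H *ᵥ (Pi.single o 1)), ?_⟩
    rintro r ⟨x, hx, rfl⟩
    exact key x _ hx (by simp)
  refine ⟨sSup T, ?_, ?_⟩
  · refine Matrix.IsSymm.ext fun i j => ?_
    have h := hs.apply i j
    simp only [h]
    congr 1
    by_cases h1 : i = o <;> by_cases h2 : j = o <;> simp [h1, h2]
  · set a := sSup T with ha
    have hlo : ∀ x : m → ℝ, x o = 1 → -(x ⬝ᵥ x) ≤ a + x ⬝ᵥ (H *ᵥ x) := by
      intro x hx
      have := le_csSup hbd (show -(x ⬝ᵥ x) - x ⬝ᵥ (H *ᵥ x) ∈ T from ⟨x, hx, rfl⟩)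
      linarith
    have hhi : ∀ x : m → ℝ, x o = 1 → a + x ⬝ᵥ (H *ᵥ x) ≤ x ⬝ᵥ x := by
      intro x hx
      have : a ≤ x ⬝ᵥ x - x ⬝ᵥ (H *ᵥ x) := by
        refine csSup_le hne ?_
        rintro r ⟨y, hy, rfl⟩
        exact key y x hy hx
      linarith
    intro x
    have hform : x ⬝ᵥ ((fun i j => H i j + if i = o ∧ j = o then a else 0 : Matrix m m ℝ) *ᵥ x) =
        x ⬝ᵥ (H *ᵥ x) + a * (x o * x o) := by
      simp only [dotProduct, mulVec, add_mul, Finset.sum_add_distrib, mul_add]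
      congr 1
      have : ∀ i, x i * ∑ j, (if i = o ∧ j = o then a else 0) * x j =
          if i = o then a * (x o * x o) else 0 := by
        intro i
        by_cases hi : i = o
        · subst hi
          simp only [true_and, ite_mul, zero_mul, Finset.sum_ite_eq', Finset.mem_univ, if_true]
          ring
        · simp [hi]
      simp only [this, Finset.sum_ite_eq', Finset.mem_univ, if_true]
    rw [hform]
    by_cases hx : x o = 0
    · rw [hx]
      have h1 := hc x hx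
      have h2 := amgm x (H *ᵥ x)
      simp only [mul_zero, add_zero]
      linarith
    · set y : m → ℝ := (x o)⁻¹ • x with hy
      have hyo : y o = 1 := by simp [hy, hx]
      have hxy : x = x o • y := by
        rw [hy, smul_smul, mul_inv_cancel₀ hx, one_smul]
      have hxx : x ⬝ᵥ x = (x o * x o) * (y ⬝ᵥ y) := by
        conv_lhs => rw [hxy]
        simp only [smul_dotProduct, dotProduct_smul, smul_eq_mul]
        ring
      have hxH : x ⬝ᵥ (H *ᵥ x) = (x o * x o) * (y ⬝ᵥ (H *ᵥ y)) := by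
        conv_lhs => rw [hxy]
        simp only [mulVec_smul, smul_dotProduct, dotProduct_smul, smul_eq_mul]
        ring
      have hpos := mul_self_nonneg (x o)
      have e1 := mul_le_mul_of_nonneg_left (hlo y hyo) hpos
      have e2 := mul_le_mul_of_nonneg_left (hhi y hyo) hpos
      rw [abs_le, hxx, hxH]
      constructor <;> nlinarith [e1, e2]

end CHD

theorem stmt_CHD_of (h : Stmt_NUC) : Stmt_CHD := by
  intro m _ _ B o t hB hoo ht0 ht1
  classical
  set Bt := scal (Function.update 1 o t) B with hBt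
  set B0 := scal (Function.update 1 o 0) B with hB0
  obtain ⟨-, ⟨H1, hH1, he1⟩, hn1⟩ := h m B
  obtain ⟨-, ⟨H0, hH0, he0⟩, hn0⟩ := h m B0
  set r := √(1 - t ^ 2) with hr
  have hr2 : r ^ 2 = 1 - t ^ 2 := Real.sq_sqrt (by nlinarith)
  have hr0 : 0 ≤ r := Real.sqrt_nonneg _
  -- the main inequality
  have main : ∀ s k : ℝ, 0 ≤ s → 0 ≤ k → s ^ 2 + k ^ 2 = 1 →
      k * r * nuc B0 + s * t * nuc B ≤ nuc Bt := by
    intro s k hs hk hsk
    set Hz : Matrix m m ℝ := fun i j =>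
      if i = o then (if j = o then 0 else s * H1 i j)
      else if j = o then s * H1 i j else k * r * H0 i j + s * t * H1 i j with hHz
    have hsym : Hz.IsSymm := by
      refine Matrix.IsSymm.ext fun i j => ?_
      have h0 := hH0.1.apply i j
      have h1 := hH1.1.apply i j
      simp only [hHz]
      by_cases hi : i = o <;> by_cases hj : j = o <;> simp [hi, hj, h0, h1]
      · rw [hi] at h1; exact Or.inl h1
      · rw [hj] at h1; exact Or.inl h1
    have hcon : ∀ p : m → ℝ, p o = 0 → (Hz *ᵥ p) ⬝ᵥ (Hz *ᵥ p) ≤ p ⬝ᵥ p := by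
      intro p hp
      have hb1 := CHD.contr_norm hH1 p
      have hb0 := CHD.contr_norm hH0 p
      have hcomp : ∀ i, (Hz *ᵥ p) i = if i = o then s * (H1 *ᵥ p) i
          else k * r * (H0 *ᵥ p) i + s * t * (H1 *ᵥ p) i := by
        intro i
        simp only [mulVec, dotProduct, hHz]
        by_cases hi : i = o
        · simp only [hi, if_true, Finset.mul_sum]
          refine Finset.sum_congr rfl fun j _ => ?_
          by_cases hj : j = o
          · simp [hj, hp]
          · simp only [hj, if_false]; ring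
        · simp only [hi, if_false, Finset.mul_sum, ← Finset.sum_add_distrib]
          refine Finset.sum_congr rfl fun j _ => ?_
          by_cases hj : j = o
          · simp [hj, hp]
          · simp only [hj, if_false]; ring
      have hle : ∀ i, (Hz *ᵥ p) i * (Hz *ᵥ p) i ≤
          s ^ 2 * ((H1 *ᵥ p) i * (H1 *ᵥ p) i) + k ^ 2 * ((H0 *ᵥ p) i * (H0 *ᵥ p) i) := by
        intro i
        rw [hcomp i]
        by_cases hi : i = o
        · simp only [hi, if_true]
          nlinarith [mul_nonneg (sq_nonneg k) (mul_self_nonneg ((H0 *ᵥ p) o))]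
        · simp only [hi, if_false]
          have hx : r ^ 2 + t ^ 2 = 1 := by rw [hr2]; ring
          set P := k * (H0 *ᵥ p) i
          set Q := s * (H1 *ᵥ p) i
          have e1 : k * r * (H0 *ᵥ p) i + s * t * (H1 *ᵥ p) i = r * P + t * Q := by
            simp only [P, Q]; ring
          have e2 : s ^ 2 * ((H1 *ᵥ p) i * (H1 *ᵥ p) i) + k ^ 2 * ((H0 *ᵥ p) i * (H0 *ᵥ p) i)
              = (r ^ 2 + t ^ 2) * (P ^ 2 + Q ^ 2) := by
            rw [hx]; simp only [P, Q]; ring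
          rw [e1, e2]
          nlinarith [sq_nonneg (r * Q - t * P)]
      calc (Hz *ᵥ p) ⬝ᵥ (Hz *ᵥ p) ≤ ∑ i, (s ^ 2 * ((H1 *ᵥ p) i * (H1 *ᵥ p) i) +
            k ^ 2 * ((H0 *ᵥ p) i * (H0 *ᵥ p) i)) := Finset.sum_le_sum fun i _ => hle i
        _ = s ^ 2 * ((H1 *ᵥ p) ⬝ᵥ (H1 *ᵥ p)) + k ^ 2 * ((H0 *ᵥ p) ⬝ᵥ (H0 *ᵥ p)) := by
            simp only [dotProduct, Finset.sum_add_distrib, Finset.mul_sum]
        _ ≤ s ^ 2 * (p ⬝ᵥ p) + k ^ 2 * (p ⬝ᵥ p) :=
            add_le_add (mul_le_mul_of_nonneg_left hb1 (sq_nonneg s))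
              (mul_le_mul_of_nonneg_left hb0 (sq_nonneg k))
        _ = p ⬝ᵥ p := by rw [← add_mul, hsk, one_mul]
    obtain ⟨a, ha⟩ := CHD.parrott hsym o hcon
    have hfin := (h m Bt).1 _ ha
    refine le_trans (le_of_eq ?_) hfin
    rw [← he0, ← he1]
    have htr : ∀ K : Matrix m m ℝ, (∀ i j, K i j = Hz i j + if i = o ∧ j = o then a else 0) →
        (Bt * K).trace = k * r * (B0 * H0).trace + s * t * (B * H1).trace := by
      intro K hK
      simp only [hK, Matrix.trace, Matrix.diag, Matrix.mul_apply, Finset.mul_sum,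
        ← Finset.sum_add_distrib]
      refine Finset.sum_congr rfl fun i _ => Finset.sum_congr rfl fun j _ => ?_
      simp only [hBt, hB0, hHz, scal, Function.update_apply, Pi.one_apply]
      by_cases hi : i = o <;> by_cases hj : j = o
      · simp [hi, hj, hoo]
      · simp only [hi, hj, if_true, if_false, false_and]
        ring
      · simp only [hi, hj, if_true, if_false, and_false]
        ring
      · simp only [hi, hj, if_false, and_false]
        ring
    rw [htr _ fun _ _ => rfl]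
    ring
  -- choice of `(s, k)`
  set N := √(t ^ 2 * nuc B ^ 2 + (1 - t ^ 2) * nuc B0 ^ 2) with hN
  have hNarg : 0 ≤ t ^ 2 * nuc B ^ 2 + (1 - t ^ 2) * nuc B0 ^ 2 := by
    have : 0 ≤ 1 - t ^ 2 := by nlinarith
    positivity
  have hN2 : N ^ 2 = t ^ 2 * nuc B ^ 2 + (1 - t ^ 2) * nuc B0 ^ 2 := Real.sq_sqrt hNarg
  have hN0 : 0 ≤ N := Real.sqrt_nonneg _
  have hNle : N ≤ nuc Bt := by
    rcases hN0.eq_or_lt with h0 | h0
    · rw [← h0]; exact (h m Bt).2.2
    · have hm := main (t * nuc B / N) (r * nuc B0 / N) (by positivity) (by positivity) (by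
        rw [div_pow, div_pow, ← add_div, div_eq_one_iff_eq (by positivity), hN2, mul_pow, mul_pow,
          hr2])
      refine le_trans (le_of_eq ?_) hm
      have : r * nuc B0 / N * r * nuc B0 + t * nuc B / N * t * nuc B = N ^ 2 / N := by
        rw [hN2, ← hr2]; ring
      rw [this, sq, mul_div_assoc, div_self h0.ne', mul_one]
  calc (1 - t ^ 2) * nuc B0 ^ 2 + t ^ 2 * nuc B ^ 2 = N ^ 2 := by rw [hN2]; ring
    _ ≤ nuc Bt ^ 2 := pow_le_pow_left₀ hN0 hNle 2

end Pool.Agent.MP4da8b1Q1
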