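import Pool.Agent.Work.MP_4da8b1_Q1_helper46.Interface

/-!
# Block EA: the scalar inequality for the expectation of the certificate
-/

set_option autoImplicit false

open Finset

namespace Pool.Agent.MP4da8b1Q1

namespace EAAux

/-- off-diagonal double sum -/
theorem offdiag {ι : Type} [Fintype ι] [DecidableEq ι] (g : ι → ι → ℝ) :
    (∑ i, ∑ j, if i = j then 0 else g i j) = (∑ i, ∑ j, g i j) - ∑ i, g i i := by
  rw [← Finset.sum_sub_distrib]
  refine Finset.sum_congr rfl fun i _ => ?_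
  have : ∀ j, (if i = j then (0 : ℝ) else g i j) = g i j - if i = j then g i j else 0 := by
    intro j
    by_cases h : i = j <;> simp [h]
  rw [Finset.sum_congr rfl fun j _ => this j, Finset.sum_sub_distrib]
  simp

theorem prodsum {ι : Type} [Fintype ι] (f g : ι → ℝ) :
    ∑ i, ∑ j, f i * g j = (∑ i, f i) * ∑ j, g j := by
  rw [Finset.sum_mul_sum]

/-- the final scalar inequality -/
theorem final (A Y Q P R U W : ℝ) (hA : 0 ≤ A) (hAY : A ≤ Y) (hY : Y ≤ 9 / 10)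
    (hQ : 0 ≤ Q) (hQ2 : A - 2 / 3 * Y ≤ Q) (hP : 0 ≤ P) (hR : 0 ≤ R) (hU : 0 ≤ U)
    (hU2 : U ≤ 2 * A) (hW : 0 ≤ W) :
    0 ≤ 1 / 5 * A + 3 / 20 * U + 1 / 20 * W - (U - 2 * P) / 6 -
      1 / 2 * (23 / 40 * (A ^ 2 - Q) - 27 / 320 * (A * U - P) + 17 / 160 * (A * W - R)) := by
  have hA9 : A ≤ 9 / 10 := le_trans hAY hY
  have hWc : 0 ≤ W * (1 / 20 - 17 / 320 * A) := mul_nonneg hW (by linarith)
  have key : 0 ≤ 1 / 5 * A - 23 / 80 * A ^ 2 + 23 / 80 * Q + U * (-1 / 60 + 27 / 640 * A) := by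
    rcases le_total A (2 / 5) with h | h
    · -- small A
      have h1 : -(1 / 30) * A ≤ U * (-1 / 60 + 27 / 640 * A) := by
        have : 0 ≤ U * (27 / 640 * A) := by positivity
        nlinarith
      nlinarith
    · have h1 : 0 ≤ U * (-1 / 60 + 27 / 640 * A) := mul_nonneg hU (by linarith)
      rcases le_total A (3 / 5) with h2 | h2
      · nlinarith
      · have h3 : A - 3 / 5 ≤ Q := by linarith
        nlinarith [mul_nonneg (sub_nonneg.2 h2) (sub_nonneg.2 hA9)]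
  nlinarith

end EAAux

open EAAux in
theorem stmt_EA : Stmt_EA := by
  intro ι _ _ y T D m1 dm m3 hy0 hy1 hT0 hT1 hD0 hD1 hY hm1 hdm hm3
  have hZ : ∀ i, 0 < 3 / 2 - y i := fun i => by linarith [hy1 i]
  obtain ⟨a, ha⟩ : ∃ a : ι → ℝ, ∀ i, a i = y i / (3 / 2 - y i) := ⟨_, fun _ => rfl⟩
  obtain ⟨t, ht⟩ : ∃ t : ι → ℝ, ∀ i, t i = T i / (3 / 2 - y i) := ⟨_, fun _ => rfl⟩
  obtain ⟨d, hd⟩ : ∃ d : ι → ℝ, ∀ i, d i = D i / (3 / 2 - y i) := ⟨_, fun _ => rfl⟩
  have ha0 : ∀ i, 0 ≤ a i := fun i => by rw [ha]; exact div_nonneg (hy0 i) (hZ i).le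
  have ht0 : ∀ i, 0 ≤ t i := fun i => by rw [ht]; exact div_nonneg (hT0 i) (hZ i).le
  have hd0 : ∀ i, 0 ≤ d i := fun i => by rw [hd]; exact div_nonneg (hD0 i) (hZ i).le
  have hay : ∀ i, a i ≤ y i := fun i => by
    rw [ha, div_le_iff₀ (hZ i)]
    nlinarith [hy0 i, hy1 i]
  have ht2 : ∀ i, t i ≤ 2 * a i := fun i => by
    rw [ha, ht, mul_div_assoc']
    exact div_le_div_of_nonneg_right (hT1 i) (hZ i).le
  have hd2 : ∀ i, d i ≤ 2 * a i := fun i => by
    rw [ha, hd, mul_div_assoc']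
    exact div_le_div_of_nonneg_right (hD1 i) (hZ i).le
  have hsq : ∀ i, a i - 2 / 3 * y i ≤ a i ^ 2 := fun i => by
    have h1 : a i * (3 / 2 - y i) = y i := by rw [ha, div_mul_cancel₀ _ (hZ i).ne']
    have h2 : y i * (1 + a i) = 3 / 2 * a i := by linarith
    have h3 : 0 < 1 + a i := by linarith [ha0 i]
    have h4 : (a i - 2 / 3 * y i) * (1 + a i) = a i ^ 2 := by nlinarith
    have h5 : a i ^ 2 ≤ a i ^ 2 * (1 + a i) := by nlinarith [ha0 i, sq_nonneg (a i)]
    nlinarith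
  have hM1 : ∀ i, m1 i = a i + t i / 4 := fun i => by
    rw [hm1, ha, ht]; have := (hZ i).ne'; field_simp
  have hDM : ∀ i, dm i = a i / 2 + 3 / 8 * t i + d i / 8 := fun i => by
    rw [hdm, ha, ht, hd]; have := (hZ i).ne'; field_simp
  have hM3 : ∀ i, m3 i ≤ a i / 4 - 3 / 16 * t i + d i / 16 := fun i => by
    refine (hm3 i).trans (le_of_eq ?_)
    rw [ha, ht, hd]; have := (hZ i).ne'; field_simp
  have hcost : ∀ i, (1 - 2 * y i) * T i / (4 * (3 / 2 - y i) ^ 2) =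
      (t i - 2 * (a i * t i)) / 6 := fun i => by
    rw [ha, ht]; have := (hZ i).ne'; field_simp; ring
  have hbr : ∀ i j, 3 / 20 * (m1 i * m1 j) + 17 / 20 * (m3 i * m1 j + m1 i * m3 j) ≤
      23 / 40 * (a i * a j) - 27 / 640 * (a i * t j + t i * a j) +
        17 / 320 * (a i * d j + d i * a j) := by
    intro i j
    have hp : ∀ i, 0 ≤ m1 i := fun i => by rw [hM1]; linarith [ha0 i, ht0 i]
    have e1 : m3 i * m1 j ≤ (a i / 4 - 3 / 16 * t i + d i / 16) * m1 j :=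
      mul_le_mul_of_nonneg_right (hM3 i) (hp j)
    have e2 : m1 i * m3 j ≤ m1 i * (a j / 4 - 3 / 16 * t j + d j / 16) :=
      mul_le_mul_of_nonneg_left (hM3 j) (hp i)
    have e3 : t i * d j ≤ t i * (2 * a j) := mul_le_mul_of_nonneg_left (hd2 j) (ht0 i)
    have e4 : d i * t j ≤ (2 * a i) * t j := mul_le_mul_of_nonneg_right (hd2 i) (ht0 j)
    have e5 : 0 ≤ t i * t j := mul_nonneg (ht0 i) (ht0 j)
    have e6 : 3 / 20 * (m1 i * m1 j) + 17 / 20 * (m3 i * m1 j + m1 i * m3 j) ≤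
        3 / 20 * (m1 i * m1 j) + 17 / 20 * ((a i / 4 - 3 / 16 * t i + d i / 16) * m1 j +
          m1 i * (a j / 4 - 3 / 16 * t j + d j / 16)) := by linarith
    refine e6.trans ?_
    rw [hM1 i, hM1 j]
    nlinarith
  -- sums
  have hS : (∑ i, ∑ j, if i = j then 0 else
        3 / 20 * (m1 i * m1 j) + 17 / 20 * (m3 i * m1 j + m1 i * m3 j)) ≤
      23 / 40 * ((∑ i, a i) ^ 2 - ∑ i, a i ^ 2) -
        27 / 320 * ((∑ i, a i) * (∑ i, t i) - ∑ i, a i * t i) +
        17 / 160 * ((∑ i, a i) * (∑ i, d i) - ∑ i, a i * d i) := by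
    have h1 : (∑ i, ∑ j, if i = j then 0 else
        3 / 20 * (m1 i * m1 j) + 17 / 20 * (m3 i * m1 j + m1 i * m3 j)) ≤
        ∑ i, ∑ j, if i = j then 0 else
          (23 / 40 * (a i * a j) - 27 / 640 * (a i * t j + t i * a j) +
          17 / 320 * (a i * d j + d i * a j)) := by
      refine Finset.sum_le_sum fun i _ => Finset.sum_le_sum fun j _ => ?_
      by_cases h : i = j
      · simp [h]
      · simp only [h, if_false]
        exact hbr i j
    refine h1.trans (le_of_eq ?_)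
    rw [offdiag]
    have h2 : ∑ i, ∑ j, (23 / 40 * (a i * a j) - 27 / 640 * (a i * t j + t i * a j) +
          17 / 320 * (a i * d j + d i * a j)) =
        23 / 40 * ((∑ i, a i) * ∑ i, a i) -
        27 / 640 * ((∑ i, a i) * (∑ i, t i) + (∑ i, t i) * ∑ i, a i) +
        17 / 320 * ((∑ i, a i) * (∑ i, d i) + (∑ i, d i) * ∑ i, a i) := by
      rw [← prodsum, ← prodsum, ← prodsum, ← prodsum, ← prodsum]
      simp only [Finset.mul_sum, ← Finset.sum_add_distrib, ← Finset.sum_sub_distrib]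
    have h3 : ∑ i, (23 / 40 * (a i * a i) - 27 / 640 * (a i * t i + t i * a i) +
          17 / 320 * (a i * d i + d i * a i)) =
        23 / 40 * (∑ i, a i ^ 2) - 27 / 320 * (∑ i, a i * t i) + 17 / 160 * ∑ i, a i * d i := by
      simp only [Finset.mul_sum, ← Finset.sum_add_distrib, ← Finset.sum_sub_distrib]
      exact Finset.sum_congr rfl fun i _ => by ring
    rw [h2, h3]
    ring
  have hC : ∑ i, (1 - 2 * y i) * T i / (4 * (3 / 2 - y i) ^ 2) =
      ((∑ i, t i) - 2 * ∑ i, a i * t i) / 6 := by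
    rw [Finset.sum_congr rfl fun i _ => hcost i, ← Finset.sum_div, Finset.sum_sub_distrib,
      Finset.mul_sum]
  have hE : ∑ i, dm i = (∑ i, a i) / 2 + 3 / 8 * (∑ i, t i) + (∑ i, d i) / 8 := by
    rw [Finset.sum_congr rfl fun i _ => hDM i, Finset.sum_add_distrib, Finset.sum_add_distrib,
      Finset.mul_sum, Finset.sum_div, Finset.sum_div]
  have hfin := final (∑ i, a i) (∑ i, y i) (∑ i, a i ^ 2) (∑ i, a i * t i) (∑ i, a i * d i)
    (∑ i, t i) (∑ i, d i) (Finset.sum_nonneg fun i _ => ha0 i)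
    (Finset.sum_le_sum fun i _ => hay i) hY (Finset.sum_nonneg fun i _ => sq_nonneg _)
    (by
      rw [Finset.mul_sum, ← Finset.sum_sub_distrib]
      exact Finset.sum_le_sum fun i _ => hsq i)
    (Finset.sum_nonneg fun i _ => mul_nonneg (ha0 i) (ht0 i))
    (Finset.sum_nonneg fun i _ => mul_nonneg (ha0 i) (hd0 i))
    (Finset.sum_nonneg fun i _ => ht0 i)
    (by rw [Finset.mul_sum]; exact Finset.sum_le_sum fun i _ => ht2 i)
    (Finset.sum_nonneg fun i _ => hd0 i)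
  rw [hC, hE]
  linarith

end Pool.Agent.MP4da8b1Q1
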