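import Pool.Agent.Work.MP_4da8b1_Q1_helper46.EX2

/-!
# Block EF2: mean of the squared Frobenius norm
-/

set_option autoImplicit false

open Matrix Finset
open scoped RealInnerProductSpace BigOperators

namespace Pool.Agent.MP4da8b1Q1

open EXH

theorem stmt_EF2 : Stmt_EF2 := by
  intro ι Ω _ _ _ n p hp a d c ha had
  have hj : ∀ j, Ex p (fun ω => ⟪(∑ i, a (ω i)) - c, d (ω j)⟫ ^ 2) =
      (∑ i, if i = j then 0 else (mom (p i) a * mom (p j) d).trace) +
        quad (mom (p j) d) c := by
    intro j
    have h : (fun ω : ι → Ω => ⟪(∑ i, a (ω i)) - c, d (ω j)⟫ ^ 2) = fun ω =>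
        ((∑ i, ∑ k, (if i = j then 0 else ⟪a (ω i), d (ω j)⟫) *
          (if k = j then 0 else ⟪a (ω k), d (ω j)⟫)) +
          ⟪c, d (ω j)⟫ ^ 2) - ∑ i, 2 * ((if i = j then 0 else ⟪a (ω i), d (ω j)⟫) *
            ⟪c, d (ω j)⟫) := by
      funext ω
      have h1 : ⟪∑ i, a (ω i), d (ω j)⟫ = ∑ i, if i = j then 0 else ⟪a (ω i), d (ω j)⟫ := by
        rw [sum_inner]
        refine Finset.sum_congr rfl fun i _ => ?_
        split_ifs with hij
        · subst hij; exact had _
        · rfl
      rw [inner_sub_left, h1, ← Finset.mul_sum, ← Finset.sum_mul, ← Finset.sum_mul_sum]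
      ring
    rw [h, ex_sub, ex_add, ex_quad hp d c j, ex_sum, ex_sum]
    have h2 : ∀ i, Ex p (fun ω => 2 * ((if i = j then 0 else ⟪a (ω i), d (ω j)⟫) *
        ⟪c, d (ω j)⟫)) = 0 := by
      intro i
      rw [ex_smul]
      by_cases hij : i = j
      · simp only [if_pos hij, zero_mul]
        rw [ex_const hp 0, mul_zero]
      · simp only [if_neg hij]
        have h : (fun ω : ι → Ω => ⟪a (ω i), d (ω j)⟫ * ⟪c, d (ω j)⟫) =
            fun ω => ⟪a (ω i), ⟪c, d (ω j)⟫ • d (ω j)⟫ := by
          funext ω; rw [real_inner_smul_right]; ring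
        rw [h, ex_inner_zero hp a i (ha i), mul_zero]
        intro ω w
        simp only [Function.update_of_ne (Ne.symm hij)]
    rw [Finset.sum_eq_zero (fun i _ => h2 i), sub_zero]
    congr 1
    refine Finset.sum_congr rfl fun i _ => ?_
    rw [ex_sum]
    by_cases hij : i = j
    · simp only [if_pos hij, zero_mul]
      rw [ex_const hp 0]
      simp
    · simp only [if_neg hij]
      have h3 : ∀ k, Ex p (fun ω => ⟪a (ω i), d (ω j)⟫ *
          (if k = j then 0 else ⟪a (ω k), d (ω j)⟫)) =
          if k = i then (mom (p i) a * mom (p j) d).trace else 0 := by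
        intro k
        by_cases hkj : k = j
        · subst hkj
          rw [if_neg (Ne.symm hij)]
          simp only [if_true, mul_zero]
          exact ex_const hp 0
        · simp only [if_neg hkj]
          by_cases hki : k = i
          · subst hki
            rw [if_pos rfl, ← ex_sq hp a d hkj]
            congr 1
            funext ω; ring
          · rw [if_neg hki]
            have h : (fun ω : ι → Ω => ⟪a (ω i), d (ω j)⟫ * ⟪a (ω k), d (ω j)⟫) =
                fun ω => ⟪a (ω i), ⟪a (ω k), d (ω j)⟫ • d (ω j)⟫ := by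
              funext ω; rw [real_inner_smul_right]; ring
            rw [h]
            refine ex_inner_zero hp a i (ha i) _ fun ω w => ?_
            simp only [Function.update_of_ne (Ne.symm hij), Function.update_of_ne hki]
      simp only [h3]
      simp
  have h0 : (fun ω : ι → Ω => Fv a d c ω) = fun ω =>
      (∑ i, ∑ j, if i = j then 0 else ⟪d (ω i), d (ω j)⟫ ^ 2) +
        2 * ∑ j, ⟪(∑ i, a (ω i)) - c, d (ω j)⟫ ^ 2 := rfl
  show Ex p (fun ω => Fv a d c ω) = _
  rw [h0, ex_add, ex_smul, ex_sum, ex_sum]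
  have h1 : ∀ i, Ex p (fun ω => ∑ j, if i = j then 0 else ⟪d (ω i), d (ω j)⟫ ^ 2) =
      ∑ j, if i = j then 0 else (mom (p i) d * mom (p j) d).trace := by
    intro i
    rw [ex_sum]
    refine Finset.sum_congr rfl fun j _ => ?_
    rw [ex_if0 hp]
    split_ifs with hij
    · rfl
    · exact ex_sq hp d d hij
  simp only [h1, hj]
  rw [Finset.sum_add_distrib, mul_add, ← add_assoc]
  congr 1
  rw [Finset.sum_comm (f := fun j i => if i = j then 0 else (mom (p i) a * mom (p j) d).trace),
    Finset.mul_sum, ← Finset.sum_add_distrib]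
  refine Finset.sum_congr rfl fun i _ => ?_
  rw [Finset.mul_sum, ← Finset.sum_add_distrib]
  refine Finset.sum_congr rfl fun j _ => ?_
  split_ifs
  · simp
  · rfl

end Pool.Agent.MP4da8b1Q1
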