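import Pool.Agent.Work.MP_4da8b1_Q1_helper46.EXB

/-!
# Block EL2: mean and second moment of `Λ`
-/

set_option autoImplicit false

open Matrix Finset
open scoped RealInnerProductSpace BigOperators

namespace Pool.Agent.MP4da8b1Q1

open EXH

theorem stmt_EL2 : Stmt_EL2 := by
  intro ι Ω _ _ _ n p hp a
  have h1 : ∀ i, Ex p (fun ω => ‖a (ω i)‖ ^ 2) = ∑ w, p i w * ‖a w‖ ^ 2 := fun i =>
    ex_coord hp i (fun w => ‖a w‖ ^ 2)
  constructor
  · show Ex p (fun ω => ∑ i, ‖a (ω i)‖ ^ 2) = _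
    rw [ex_sum]
    exact Finset.sum_congr rfl fun i _ => h1 i
  · have h : (fun ω : ι → Ω => Lv a ω ^ 2) = fun ω =>
        ∑ i, ∑ j, ‖a (ω i)‖ ^ 2 * ‖a (ω j)‖ ^ 2 := by
      funext ω; unfold Lv; rw [sq, Finset.sum_mul_sum]
    rw [h, ex_sum, sq, Finset.sum_mul_sum, ← Finset.sum_add_distrib]
    refine Finset.sum_congr rfl fun i _ => ?_
    rw [ex_sum]
    have h2 : ∀ j, Ex p (fun ω => ‖a (ω i)‖ ^ 2 * ‖a (ω j)‖ ^ 2) =
        (∑ w, p i w * ‖a w‖ ^ 2) * (∑ w, p j w * ‖a w‖ ^ 2) +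
          if i = j then (∑ w, p i w * (‖a w‖ ^ 2) ^ 2) - (∑ w, p i w * ‖a w‖ ^ 2) ^ 2 else 0 := by
      intro j
      by_cases hij : i = j
      · subst hij
        rw [if_pos rfl, ex_coord hp i (fun w => ‖a w‖ ^ 2 * ‖a w‖ ^ 2)]
        have : ∑ w, p i w * (‖a w‖ ^ 2 * ‖a w‖ ^ 2) = ∑ w, p i w * (‖a w‖ ^ 2) ^ 2 :=
          Finset.sum_congr rfl fun w _ => by ring
        rw [this]
        ring
      · rw [if_neg hij, ex_coord2 hp hij (fun w v => ‖a w‖ ^ 2 * ‖a v‖ ^ 2), add_zero,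
          Finset.sum_mul_sum]
        exact Finset.sum_congr rfl fun w _ => Finset.sum_congr rfl fun v _ => by ring
    simp only [h2, Finset.sum_add_distrib]
    simp

end Pool.Agent.MP4da8b1Q1
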