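import Pool.Agent.Work.MP_4da8b1_Q1_helper46.EX1

/-!
# Block EPS: mean of the certificate
-/

set_option autoImplicit false

open Matrix Finset
open scoped RealInnerProductSpace BigOperators

namespace Pool.Agent.MP4da8b1Q1

open EXH

theorem stmt_EPS : Stmt_EPS := by
  intro ι Ω _ _ _ p hp g m hm
  unfold psi
  rw [ex_sub, ex_smul, ex_smul, ex_sum, ex_sum]
  congr 1
  · congr 1
    refine Finset.sum_congr rfl fun i _ => ?_
    rw [ex_coord hp i (fun w => g w * (1 - g w)), hm, hm, ← Finset.sum_sub_distrib]
    exact Finset.sum_congr rfl fun w _ => by ring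
  · congr 1
    refine Finset.sum_congr rfl fun i _ => ?_
    rw [ex_sum]
    refine Finset.sum_congr rfl fun j _ => ?_
    rw [ex_if0 hp]
    by_cases hij : i = j
    · simp [hij]
    · rw [if_neg hij, if_neg hij,
        ex_coord2 hp hij (fun w v => g w * g v * (3 / 20 + 17 / 20 * (g w ^ 2 + g v ^ 2)))]
      have h : ∀ k l : ℕ, m k i * m l j = ∑ w, ∑ v, p i w * p j v * (g w ^ k * g v ^ l) := by
        intro k l
        rw [hm, hm, Finset.sum_mul_sum]
        exact Finset.sum_congr rfl fun w _ => Finset.sum_congr rfl fun v _ => by ring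
      rw [h, h, h]
      simp only [Finset.mul_sum, ← Finset.sum_add_distrib]
      exact Finset.sum_congr rfl fun w _ => Finset.sum_congr rfl fun v _ => by ring

end Pool.Agent.MP4da8b1Q1
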