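import Pool.Agent.Work.MP_4da8b1_Q1_helper46.EXB

/-!
# Blocks EX1, EPS: means; and tools for the second moments
-/

set_option autoImplicit false

open Matrix Finset
open scoped RealInnerProductSpace BigOperators

namespace Pool.Agent.MP4da8b1Q1

namespace EXH

variable {ι Ω : Type} [Fintype ι] [DecidableEq ι] [Fintype Ω] {p : ι → Ω → ℝ} {n : ℕ}

theorem sum_offdiag (f : ι → ι → ℝ) :
    (∑ i, ∑ j, f i j) = (∑ i, ∑ j, if i = j then 0 else f i j) + ∑ i, f i i := by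
  rw [← Finset.sum_add_distrib]
  refine Finset.sum_congr rfl fun i _ => ?_
  have h : ∀ j, f i j = (if i = j then 0 else f i j) + if i = j then f i i else 0 := by
    intro j
    by_cases hij : i = j
    · subst hij; simp
    · simp [hij]
  calc ∑ j, f i j = ∑ j, ((if i = j then 0 else f i j) + if i = j then f i i else 0) :=
        Finset.sum_congr rfl fun j _ => h j
    _ = _ := by rw [Finset.sum_add_distrib]; simp

theorem x_expand (u : ι → E n) (c : E n) :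
    ‖(∑ i, u i) - c‖ ^ 2 - ∑ i, ‖u i‖ ^ 2 =
      ‖c‖ ^ 2 - 2 * ∑ i, ⟪c, u i⟫ + ∑ i, ∑ j, if i = j then 0 else ⟪u i, u j⟫ := by
  have h1 : ‖(∑ i, u i) - c‖ ^ 2 = ‖∑ i, u i‖ ^ 2 - 2 * ⟪∑ i, u i, c⟫ + ‖c‖ ^ 2 :=
    norm_sub_sq_real _ _
  have h2 : ‖∑ i, u i‖ ^ 2 = ∑ i, ∑ j, ⟪u i, u j⟫ := by
    rw [← real_inner_self_eq_norm_sq, sum_inner]
    exact Finset.sum_congr rfl fun i _ => by rw [inner_sum]
  have h3 : ⟪∑ i, u i, c⟫ = ∑ i, ⟪c, u i⟫ := by
    rw [real_inner_comm, inner_sum]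
  rw [h1, h2, h3, sum_offdiag]
  have h4 : ∑ i, ⟪u i, u i⟫ = ∑ i, ‖u i‖ ^ 2 :=
    Finset.sum_congr rfl fun i _ => real_inner_self_eq_norm_sq _
  rw [h4]
  ring

theorem xv_expand (a : Ω → E n) (c : E n) (ω : ι → Ω) :
    Xv a c ω = ‖c‖ ^ 2 - 2 * ∑ i, ⟪c, a (ω i)⟫ +
      ∑ i, ∑ j, if i = j then 0 else ⟪a (ω i), a (ω j)⟫ :=
  x_expand (fun i => a (ω i)) c

theorem ex_ite {P : Prop} [Decidable P] (F G : (ι → Ω) → ℝ) :
    Ex p (fun ω => if P then F ω else G ω) = if P then Ex p F else Ex p G := by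
  split_ifs <;> rfl

theorem ex_if0 (hp : IsLaw p) {P : Prop} [Decidable P] (G : (ι → Ω) → ℝ) :
    Ex p (fun ω => if P then 0 else G ω) = if P then 0 else Ex p G := by
  split_ifs
  · exact ex_const hp 0
  · rfl

theorem ex_inner (hp : IsLaw p) (a : Ω → E n) (c : E n) (i : ι) :
    Ex p (fun ω => ⟪c, a (ω i)⟫) = ⟪c, ∑ w, p i w • a w⟫ := by
  rw [ex_coord hp i (fun w => ⟪c, a w⟫), inner_sum]
  exact Finset.sum_congr rfl fun w _ => by rw [real_inner_smul_right]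

theorem ex_inner2 (hp : IsLaw p) (a : Ω → E n) {i j : ι} (hij : i ≠ j) :
    Ex p (fun ω => ⟪a (ω i), a (ω j)⟫) = ⟪∑ w, p i w • a w, ∑ w, p j w • a w⟫ := by
  rw [ex_coord2 hp hij (fun w v => ⟪a w, a v⟫), sum_inner]
  refine Finset.sum_congr rfl fun w _ => ?_
  rw [inner_sum]
  refine Finset.sum_congr rfl fun v _ => ?_
  rw [real_inner_smul_left, real_inner_smul_right]
  ring

end EXH

open EXH

theorem stmt_EX1 : Stmt_EX1 := by
  intro ι Ω _ _ _ n p hp a c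
  have h : (fun ω : ι → Ω => Xv a c ω) = fun ω => (‖c‖ ^ 2 - 2 * ∑ i, ⟪c, a (ω i)⟫) +
      ∑ i, ∑ j, if i = j then 0 else ⟪a (ω i), a (ω j)⟫ := by
    funext ω; exact xv_expand a c ω
  show Ex p (fun ω => Xv a c ω) = _
  rw [h, ex_add, ex_sub, ex_const hp, ex_smul, ex_sum, ex_sum, x_expand]
  congr 1
  · congr 2
    exact Finset.sum_congr rfl fun i _ => ex_inner hp a c i
  · refine Finset.sum_congr rfl fun i _ => ?_
    rw [ex_sum]
    refine Finset.sum_congr rfl fun j _ => ?_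
    rw [ex_if0 hp]
    by_cases hij : i = j
    · simp [hij]
    · rw [if_neg hij, if_neg hij, ex_inner2 hp a hij]

end Pool.Agent.MP4da8b1Q1
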