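import Pool.Agent.Work.MP_4da8b1_Q1_helper46.EX1

/-!
# Block EX2: second moment of `X`; tools for EXL, EF2
-/

set_option autoImplicit false

open Matrix Finset
open scoped RealInnerProductSpace BigOperators

namespace Pool.Agent.MP4da8b1Q1

namespace EXH

variable {ι Ω : Type} [Fintype ι] [DecidableEq ι] [Fintype Ω] {p : ι → Ω → ℝ} {n : ℕ}

theorem inner_eq (x y : E n) : ⟪x, y⟫ = ∑ k, x k * y k := by
  rw [PiLp.inner_apply]
  exact Finset.sum_congr rfl fun k _ => by simp [mul_comm]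

theorem quad_mom (q : Ω → ℝ) (f : Ω → E n) (c : E n) :
    quad (mom q f) c = ∑ w, q w * ⟪c, f w⟫ ^ 2 := by
  have h : ∀ w, q w * ⟪c, f w⟫ ^ 2 = ∑ k, ∑ l, q w * (f w k * f w l) * (c k * c l) := by
    intro w
    rw [inner_eq, sq, Finset.sum_mul_sum, Finset.mul_sum]
    refine Finset.sum_congr rfl fun k _ => ?_
    rw [Finset.mul_sum]
    exact Finset.sum_congr rfl fun l _ => by ring
  simp only [h]
  unfold quad mom
  symm
  rw [Finset.sum_comm]
  refine Finset.sum_congr rfl fun k _ => ?_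
  rw [Finset.sum_comm]
  refine Finset.sum_congr rfl fun l _ => ?_
  rw [Finset.sum_mul]

theorem trace_mom (q r : Ω → ℝ) (f g : Ω → E n) :
    (mom q f * mom r g).trace = ∑ w, ∑ v, q w * r v * ⟪f w, g v⟫ ^ 2 := by
  have h : ∀ w v, q w * r v * ⟪f w, g v⟫ ^ 2 =
      ∑ k, ∑ l, (q w * (f w k * f w l)) * (r v * (g v l * g v k)) := by
    intro w v
    rw [inner_eq, sq, Finset.sum_mul_sum, Finset.mul_sum]
    refine Finset.sum_congr rfl fun k _ => ?_
    rw [Finset.mul_sum]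
    exact Finset.sum_congr rfl fun l _ => by ring
  have h2 : (mom q f * mom r g).trace =
      ∑ k, ∑ l, ∑ w, ∑ v, (q w * (f w k * f w l)) * (r v * (g v l * g v k)) := by
    unfold Matrix.trace
    refine Finset.sum_congr rfl fun k _ => ?_
    rw [Matrix.diag_apply, Matrix.mul_apply]
    refine Finset.sum_congr rfl fun l _ => ?_
    unfold mom
    rw [Finset.sum_mul_sum]
  rw [h2]
  simp only [h]
  calc ∑ k, ∑ l, ∑ w, ∑ v, (q w * (f w k * f w l)) * (r v * (g v l * g v k))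
      = ∑ k, ∑ w, ∑ l, ∑ v, (q w * (f w k * f w l)) * (r v * (g v l * g v k)) :=
        Finset.sum_congr rfl fun k _ => Finset.sum_comm
    _ = ∑ w, ∑ k, ∑ l, ∑ v, (q w * (f w k * f w l)) * (r v * (g v l * g v k)) :=
        Finset.sum_comm
    _ = ∑ w, ∑ k, ∑ v, ∑ l, (q w * (f w k * f w l)) * (r v * (g v l * g v k)) :=
        Finset.sum_congr rfl fun w _ => Finset.sum_congr rfl fun k _ => Finset.sum_comm
    _ = _ := Finset.sum_congr rfl fun w _ => Finset.sum_comm

theorem ex_inner_zero (hp : IsLaw p) (a : Ω → E n) (i : ι) (ha : ∑ w, p i w • a w = 0)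
    (G : (ι → Ω) → E n) (hG : ∀ ω w, G (Function.update ω i w) = G ω) :
    Ex p (fun ω => ⟪a (ω i), G ω⟫) = 0 := by
  refine ex_zero hp i _ fun ω => ?_
  simp only [hG, Function.update_self]
  have h : ∑ w, p i w * ⟪a w, G ω⟫ = ⟪∑ w, p i w • a w, G ω⟫ := by
    rw [sum_inner]
    exact Finset.sum_congr rfl fun w _ => by rw [real_inner_smul_left]
  rw [h, ha, inner_zero_left]

/-- square of a scalar product of two different coordinates -/
theorem ex_sq (hp : IsLaw p) (f g : Ω → E n) {i j : ι} (hij : i ≠ j) :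
    Ex p (fun ω => ⟪f (ω i), g (ω j)⟫ ^ 2) = (mom (p i) f * mom (p j) g).trace := by
  rw [ex_coord2 hp hij (fun w v => ⟪f w, g v⟫ ^ 2), trace_mom]

theorem ex_quad (hp : IsLaw p) (f : Ω → E n) (c : E n) (i : ι) :
    Ex p (fun ω => ⟪c, f (ω i)⟫ ^ 2) = quad (mom (p i) f) c := by
  rw [ex_coord hp i (fun w => ⟪c, f w⟫ ^ 2), quad_mom]

/-- four coordinates, the first one different from the others -/
theorem ex_four_zero (hp : IsLaw p) (a : Ω → E n) (ha : ∀ i, ∑ w, p i w • a w = 0)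
    {i j k l : ι} (hij : i ≠ j) (hik : i ≠ k) (hil : i ≠ l) :
    Ex p (fun ω => ⟪a (ω i), a (ω j)⟫ * ⟪a (ω k), a (ω l)⟫) = 0 := by
  have h : (fun ω : ι → Ω => ⟪a (ω i), a (ω j)⟫ * ⟪a (ω k), a (ω l)⟫) =
      fun ω => ⟪a (ω i), ⟪a (ω k), a (ω l)⟫ • a (ω j)⟫ := by
    funext ω; rw [real_inner_smul_right]; ring
  rw [h]
  refine ex_inner_zero hp a i (ha i) _ fun ω w => ?_
  simp only [Function.update_of_ne hij.symm, Function.update_of_ne hik.symm,
    Function.update_of_ne hil.symm]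

theorem ex_four (hp : IsLaw p) (a : Ω → E n) (ha : ∀ i, ∑ w, p i w • a w = 0)
    {i j k l : ι} (hij : i ≠ j) (hkl : k ≠ l) :
    Ex p (fun ω => ⟪a (ω i), a (ω j)⟫ * ⟪a (ω k), a (ω l)⟫) =
      (if k = i ∧ l = j then (mom (p i) a * mom (p j) a).trace else 0) +
      (if k = j ∧ l = i then (mom (p i) a * mom (p j) a).trace else 0) := by
  by_cases hik : i = k
  · subst hik
    have h2 : ¬ (i = j ∧ l = i) := fun h => hij h.1
    rw [if_neg h2, add_zero]
    by_cases hjl : j = l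
    · subst hjl
      rw [if_pos ⟨rfl, rfl⟩, ← ex_sq hp a a hij]
      congr 1
      funext ω; ring
    · rw [if_neg (fun h => hjl h.2.symm)]
      have h := ex_four_zero hp a ha (i := j) (j := i) (k := i) (l := l) hij.symm hij.symm hjl
      rw [← h]
      congr 1
      funext ω; rw [real_inner_comm (a (ω i)) (a (ω j))]
  · rw [if_neg (fun h => hik h.1.symm), zero_add]
    by_cases hil : i = l
    · subst hil
      by_cases hjk : j = k
      · subst hjk
        rw [if_pos ⟨rfl, rfl⟩, ← ex_sq hp a a hij]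
        congr 1
        funext ω; rw [real_inner_comm (a (ω i)) (a (ω j))]; ring
      · rw [if_neg (fun h => hjk h.1.symm)]
        have h := ex_four_zero hp a ha (i := j) (j := i) (k := k) (l := i) hij.symm hjk hij.symm
        rw [← h]
        congr 1
        funext ω; rw [real_inner_comm (a (ω i)) (a (ω j))]
    · rw [if_neg (fun h => hil h.2.symm)]
      exact ex_four_zero hp a ha hij hik hil

/-- one linear coordinate against a pair -/
theorem ex_three_zero (hp : IsLaw p) (a : Ω → E n) (ha : ∀ i, ∑ w, p i w • a w = 0)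
    (c : E n) {i j : ι} (k : ι) (hij : i ≠ j) :
    Ex p (fun ω => ⟪c, a (ω k)⟫ * ⟪a (ω i), a (ω j)⟫) = 0 := by
  by_cases hik : i = k
  · subst hik
    have h : (fun ω : ι → Ω => ⟪c, a (ω i)⟫ * ⟪a (ω i), a (ω j)⟫) =
        fun ω => ⟪a (ω j), ⟪c, a (ω i)⟫ • a (ω i)⟫ := by
      funext ω; rw [real_inner_smul_right, real_inner_comm (a (ω i)) (a (ω j))]
    rw [h]
    refine ex_inner_zero hp a j (ha j) _ fun ω w => ?_
    simp only [Function.update_of_ne hij]
  · have h : (fun ω : ι → Ω => ⟪c, a (ω k)⟫ * ⟪a (ω i), a (ω j)⟫) =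
        fun ω => ⟪a (ω i), ⟪c, a (ω k)⟫ • a (ω j)⟫ := by
      funext ω; rw [real_inner_smul_right]
    rw [h]
    refine ex_inner_zero hp a i (ha i) _ fun ω w => ?_
    simp only [Function.update_of_ne hij.symm, Function.update_of_ne (Ne.symm hik)]

theorem ex_two (hp : IsLaw p) (a : Ω → E n) (ha : ∀ i, ∑ w, p i w • a w = 0)
    (c : E n) (i j : ι) :
    Ex p (fun ω => ⟪c, a (ω i)⟫ * ⟪c, a (ω j)⟫) =
      if i = j then quad (mom (p i) a) c else 0 := by
  by_cases hij : i = j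
  · subst hij
    rw [if_pos rfl, ← ex_quad hp a c i]
    congr 1
    funext ω; ring
  · rw [if_neg hij]
    have h : (fun ω : ι → Ω => ⟪c, a (ω i)⟫ * ⟪c, a (ω j)⟫) =
        fun ω => ⟪a (ω i), ⟪c, a (ω j)⟫ • c⟫ := by
      funext ω; rw [real_inner_smul_right, real_inner_comm c (a (ω i))]; ring
    rw [h]
    refine ex_inner_zero hp a i (ha i) _ fun ω w => ?_
    simp only [Function.update_of_ne (Ne.symm hij)]

/-- the linear part -/
noncomputable def Lp (a : Ω → E n) (c : E n) (ω : ι → Ω) : ℝ := ∑ i, ⟪c, a (ω i)⟫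

/-- the quadratic part -/
noncomputable def Qp (a : Ω → E n) (ω : ι → Ω) : ℝ :=
  ∑ i, ∑ j, if i = j then 0 else ⟪a (ω i), a (ω j)⟫

theorem xv_eq (a : Ω → E n) (c : E n) (ω : ι → Ω) :
    Xv a c ω = ‖c‖ ^ 2 - 2 * Lp a c ω + Qp a ω := xv_expand a c ω

theorem ex_Lp (hp : IsLaw p) (a : Ω → E n) (ha : ∀ i, ∑ w, p i w • a w = 0) (c : E n) :
    Ex p (Lp a c) = 0 := by
  unfold Lp
  rw [ex_sum]
  exact Finset.sum_eq_zero fun i _ => by rw [ex_inner hp, ha, inner_zero_right]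

theorem ex_Qp (hp : IsLaw p) (a : Ω → E n) (ha : ∀ i, ∑ w, p i w • a w = 0) :
    Ex p (Qp a) = 0 := by
  unfold Qp
  rw [ex_sum]
  refine Finset.sum_eq_zero fun i _ => ?_
  rw [ex_sum]
  refine Finset.sum_eq_zero fun j _ => ?_
  rw [ex_if0 hp]
  split_ifs with hij
  · rfl
  · rw [ex_inner2 hp a hij, ha, inner_zero_left]

theorem ex_LL (hp : IsLaw p) (a : Ω → E n) (ha : ∀ i, ∑ w, p i w • a w = 0) (c : E n) :
    Ex p (fun ω => Lp a c ω * Lp a c ω) = ∑ i, quad (mom (p i) a) c := by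
  unfold Lp
  simp only [Finset.sum_mul_sum]
  rw [ex_sum]
  refine Finset.sum_congr rfl fun i _ => ?_
  rw [ex_sum]
  simp only [ex_two hp a ha c i]
  simp

theorem ex_LQ (hp : IsLaw p) (a : Ω → E n) (ha : ∀ i, ∑ w, p i w • a w = 0) (c : E n) :
    Ex p (fun ω => Lp a c ω * Qp a ω) = 0 := by
  have h1 : ∀ ω : ι → Ω, Lp a c ω * Qp a ω = ∑ k, ∑ i, ∑ j,
      (if i = j then 0 else ⟪c, a (ω k)⟫ * ⟪a (ω i), a (ω j)⟫) := by
    intro ω
    unfold Lp Qp
    rw [Finset.sum_mul]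
    refine Finset.sum_congr rfl fun k _ => ?_
    rw [Finset.mul_sum]
    refine Finset.sum_congr rfl fun i _ => ?_
    rw [Finset.mul_sum]
    refine Finset.sum_congr rfl fun j _ => ?_
    rw [mul_ite, mul_zero]
  simp only [h1]
  rw [ex_sum]
  refine Finset.sum_eq_zero fun k _ => ?_
  rw [ex_sum]
  refine Finset.sum_eq_zero fun i _ => ?_
  rw [ex_sum]
  refine Finset.sum_eq_zero fun j _ => ?_
  rw [ex_if0 hp]
  split_ifs with hij
  · rfl
  · exact ex_three_zero hp a ha c k hij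

theorem ex_QQ (hp : IsLaw p) (a : Ω → E n) (ha : ∀ i, ∑ w, p i w • a w = 0) :
    Ex p (fun ω => Qp a ω * Qp a ω) =
      2 * ∑ i, ∑ j, if i = j then 0 else (mom (p i) a * mom (p j) a).trace := by
  have h1 : ∀ ω : ι → Ω, Qp a ω * Qp a ω = ∑ i, ∑ j, ∑ k, ∑ l,
      (if i = j then 0 else ⟪a (ω i), a (ω j)⟫) * (if k = l then 0 else ⟪a (ω k), a (ω l)⟫) := by
    intro ω
    unfold Qp
    rw [Finset.sum_mul]
    refine Finset.sum_congr rfl fun i _ => ?_
    rw [Finset.sum_mul]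
    refine Finset.sum_congr rfl fun j _ => ?_
    rw [Finset.mul_sum]
    refine Finset.sum_congr rfl fun k _ => ?_
    rw [Finset.mul_sum]
  simp only [h1]
  rw [ex_sum, Finset.mul_sum]
  refine Finset.sum_congr rfl fun i _ => ?_
  rw [ex_sum, Finset.mul_sum]
  refine Finset.sum_congr rfl fun j _ => ?_
  by_cases hij : i = j
  · simp only [if_pos hij, zero_mul, Finset.sum_const_zero, mul_zero]
    exact ex_const hp 0
  · simp only [if_neg hij]
    rw [ex_sum]
    have h2 : ∀ k, Ex p (fun ω => ∑ l, ⟪a (ω i), a (ω j)⟫ *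
        (if k = l then 0 else ⟪a (ω k), a (ω l)⟫)) =
        ∑ l, ((if k = i ∧ l = j then (mom (p i) a * mom (p j) a).trace else 0) +
          (if k = j ∧ l = i then (mom (p i) a * mom (p j) a).trace else 0)) := by
      intro k
      rw [ex_sum]
      refine Finset.sum_congr rfl fun l _ => ?_
      by_cases hkl : k = l
      · subst hkl
        rw [if_neg (fun h => hij (h.1.symm.trans h.2)), if_neg (fun h => hij (h.2.symm.trans h.1))]
        simp only [if_true, mul_zero]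
        rw [ex_const hp 0, add_zero]
      · simp only [if_neg hkl]
        exact ex_four hp a ha hij hkl
    simp only [h2, Finset.sum_add_distrib, ite_and]
    simp
    ring

end EXH

open EXH

theorem stmt_EX2 : Stmt_EX2 := by
  intro ι Ω _ _ _ n p hp a c ha
  have h : (fun ω : ι → Ω => Xv a c ω ^ 2) = fun ω =>
      ((((‖c‖ ^ 2) ^ 2 + 4 * (Lp a c ω * Lp a c ω)) + Qp a ω * Qp a ω) +
        (-(4 * ‖c‖ ^ 2)) * Lp a c ω) + (2 * ‖c‖ ^ 2 * Qp a ω + (-4) * (Lp a c ω * Qp a ω)) := by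
    funext ω; rw [xv_eq]; ring
  rw [h, ex_add, ex_add, ex_add, ex_add, ex_add, ex_const hp, ex_smul, ex_smul, ex_smul, ex_smul,
    ex_LL hp a ha, ex_QQ hp a ha, ex_LQ hp a ha]
  have h1 : Ex p (fun ω => Lp a c ω) = 0 := ex_Lp hp a ha c
  have h2 : Ex p (fun ω => Qp a ω) = 0 := ex_Qp hp a ha
  rw [h1, h2]
  ring

end Pool.Agent.MP4da8b1Q1
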