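import Pool.Agent.Work.MP_4da8b1_Q1_helper46.Interface

/-!
# Block EXB: finite product expectations
-/

set_option autoImplicit false

open Matrix Finset
open scoped RealInnerProductSpace BigOperators

namespace Pool.Agent.MP4da8b1Q1

namespace EXH

variable {ι Ω : Type} [Fintype ι] [DecidableEq ι] [Fintype Ω] {p : ι → Ω → ℝ}

theorem ex_add (F G : (ι → Ω) → ℝ) : Ex p (fun ω => F ω + G ω) = Ex p F + Ex p G := by
  unfold Ex
  rw [← Finset.sum_add_distrib]
  exact Finset.sum_congr rfl fun ω _ => mul_add _ _ _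

theorem ex_sub (F G : (ι → Ω) → ℝ) : Ex p (fun ω => F ω - G ω) = Ex p F - Ex p G := by
  unfold Ex
  rw [← Finset.sum_sub_distrib]
  exact Finset.sum_congr rfl fun ω _ => mul_sub _ _ _

theorem ex_smul (r : ℝ) (F : (ι → Ω) → ℝ) : Ex p (fun ω => r * F ω) = r * Ex p F := by
  unfold Ex
  rw [Finset.mul_sum]
  exact Finset.sum_congr rfl fun ω _ => by ring

theorem ex_sum {κ : Type*} (s : Finset κ) (F : κ → (ι → Ω) → ℝ) :
    Ex p (fun ω => ∑ k ∈ s, F k ω) = ∑ k ∈ s, Ex p (F k) := by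
  unfold Ex
  rw [Finset.sum_comm]
  exact Finset.sum_congr rfl fun ω _ => by rw [Finset.mul_sum]

theorem ex_one (hp : IsLaw p) : Ex p (fun _ => 1) = 1 := by
  unfold Ex
  have h : ∑ ω : ι → Ω, (∏ i, p i (ω i)) * 1 = ∏ i, ∑ w, p i w := by
    rw [Finset.prod_univ_sum]
    simp
  rw [h]
  exact Finset.prod_eq_one fun i _ => hp.sum_one i

theorem ex_const (hp : IsLaw p) (r : ℝ) : Ex p (fun _ => r) = r := by
  have h := ex_smul (p := p) r (fun _ => 1)
  rw [ex_one hp] at h
  simpa using h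

theorem prod_update (i : ι) (ω : ι → Ω) (w : Ω) :
    (∏ j, p j (Function.update ω i w j)) * p i (ω i) = (∏ j, p j (ω j)) * p i w := by
  have h1 : ∏ j, p j (Function.update ω i w j) = p i w * ∏ j ∈ univ.erase i, p j (ω j) := by
    rw [← Finset.mul_prod_erase univ _ (Finset.mem_univ i)]
    congr 1
    · simp
    · exact Finset.prod_congr rfl fun j hj => by
        rw [Function.update_of_ne (Finset.ne_of_mem_erase hj)]
  rw [h1, ← Finset.mul_prod_erase univ _ (Finset.mem_univ i)]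
  ring

theorem resample (hp : IsLaw p) (i : ι) (F : (ι → Ω) → ℝ) :
    Ex p F = Ex p (fun ω => ∑ w, p i w * F (Function.update ω i w)) := by
  have h1 : Ex p (fun ω => ∑ w, p i w * F (Function.update ω i w)) =
      ∑ x : (ι → Ω) × Ω, ((∏ j, p j (x.1 j)) * p i x.2) * F (Function.update x.1 i x.2) := by
    unfold Ex
    rw [Fintype.sum_prod_type]
    exact Finset.sum_congr rfl fun ω _ => by
      rw [Finset.mul_sum]
      exact Finset.sum_congr rfl fun w _ => by ring
  have h2 : Ex p F = ∑ x : (ι → Ω) × Ω, ((∏ j, p j (x.1 j)) * p i x.2) * F x.1 := by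
    unfold Ex
    rw [Fintype.sum_prod_type]
    refine Finset.sum_congr rfl fun ω _ => ?_
    have : ∑ w, ((∏ j, p j (ω j)) * p i w) * F ω = (∏ j, p j (ω j)) * F ω * ∑ w, p i w := by
      rw [Finset.mul_sum]
      exact Finset.sum_congr rfl fun w _ => by ring
    rw [this, hp.sum_one i, mul_one]
  rw [h1, h2]
  let e : ((ι → Ω) × Ω) ≃ ((ι → Ω) × Ω) :=
    { toFun := fun x => (Function.update x.1 i x.2, x.1 i)
      invFun := fun x => (Function.update x.1 i x.2, x.1 i)
      left_inv := fun x => by simp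
      right_inv := fun x => by simp }
  symm
  refine Fintype.sum_equiv e _ _ fun x => ?_
  show _ = ((∏ j, p j (Function.update x.1 i x.2 j)) * p i (x.1 i)) * F (Function.update x.1 i x.2)
  rw [prod_update]

theorem ex_zero (hp : IsLaw p) (i : ι) (F : (ι → Ω) → ℝ)
    (h : ∀ ω, ∑ w, p i w * F (Function.update ω i w) = 0) : Ex p F = 0 := by
  rw [resample hp i]
  simp only [h]
  exact ex_const hp 0

theorem ex_coord (hp : IsLaw p) (i : ι) (f : Ω → ℝ) :
    Ex p (fun ω => f (ω i)) = ∑ w, p i w * f w := by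
  rw [resample hp i]
  simp only [Function.update_self]
  exact ex_const hp _

theorem ex_coord2 (hp : IsLaw p) {i j : ι} (hij : i ≠ j) (f : Ω → Ω → ℝ) :
    Ex p (fun ω => f (ω i) (ω j)) = ∑ w, ∑ v, p i w * p j v * f w v := by
  rw [resample hp j]
  simp only [Function.update_self, Function.update_of_ne hij]
  rw [ex_coord hp i (fun w => ∑ v, p j v * f w v)]
  refine Finset.sum_congr rfl fun w _ => ?_
  rw [Finset.mul_sum]
  exact Finset.sum_congr rfl fun v _ => by ring

theorem ex_mono (hp : IsLaw p) (F G : (ι → Ω) → ℝ)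
    (h : ∀ ω, (∀ i, 0 < p i (ω i)) → F ω ≤ G ω) : Ex p F ≤ Ex p G := by
  unfold Ex
  refine Finset.sum_le_sum fun ω _ => ?_
  by_cases hω : ∀ i, 0 < p i (ω i)
  · exact mul_le_mul_of_nonneg_left (h ω hω) (Finset.prod_nonneg fun i _ => hp.nonneg i _)
  · push Not at hω
    obtain ⟨i, hi⟩ := hω
    have h0 : p i (ω i) = 0 := le_antisymm hi (hp.nonneg i _)
    rw [Finset.prod_eq_zero (Finset.mem_univ i) h0]
    simp

theorem ex_exists (hp : IsLaw p) (F : (ι → Ω) → ℝ) (hF : 0 ≤ Ex p F) :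
    ∃ ω, (∀ i, 0 < p i (ω i)) ∧ 0 ≤ F ω := by
  by_contra hne
  push Not at hne
  have hlt : Ex p F < 0 := by
    have hpos : ∃ ω : ι → Ω, 0 < ∏ i, p i (ω i) := by
      by_contra hno
      push Not at hno
      have h1 := ex_one hp
      unfold Ex at h1
      have : ∑ ω : ι → Ω, (∏ i, p i (ω i)) * (1 : ℝ) ≤ 0 :=
        Finset.sum_nonpos fun ω _ => by rw [mul_one]; exact hno ω
      linarith
    obtain ⟨ω₀, hω₀⟩ := hpos
    have hsupp : ∀ ω : ι → Ω, 0 < ∏ i, p i (ω i) → ∀ i, 0 < p i (ω i) := by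
      intro ω hω i
      rcases (hp.nonneg i (ω i)).lt_or_eq with h | h
      · exact h
      · rw [Finset.prod_eq_zero (Finset.mem_univ i) h.symm] at hω
        exact absurd hω (lt_irrefl _)
    unfold Ex
    have : ∑ ω : ι → Ω, (∏ i, p i (ω i)) * F ω < ∑ ω : ι → Ω, (0 : ℝ) := by
      refine Finset.sum_lt_sum (fun ω _ => ?_) ⟨ω₀, Finset.mem_univ _, ?_⟩
      · rcases (Finset.prod_nonneg fun i (_ : i ∈ univ) => hp.nonneg i (ω i)).lt_or_eq with h | h
        · exact (mul_neg_of_pos_of_neg h (hne ω (hsupp ω h))).le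
        · rw [← h]; simp
      · exact mul_neg_of_pos_of_neg hω₀ (hne ω₀ (hsupp ω₀ hω₀))
    simpa using this
  linarith

end EXH

theorem stmt_EXB : Stmt_EXB := by
  intro ι Ω _ _ _ p hp
  exact ⟨EXH.ex_one hp, EXH.ex_exists hp, EXH.ex_mono hp, EXH.resample hp⟩

end Pool.Agent.MP4da8b1Q1
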