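import Pool.Agent.Work.MP_4da8b1_Q1_helper46.EX2

/-!
# Block EXL: mean of `X Λ`
-/

set_option autoImplicit false

open Matrix Finset
open scoped RealInnerProductSpace BigOperators

namespace Pool.Agent.MP4da8b1Q1

open EXH

theorem stmt_EXL : Stmt_EXL := by
  intro ι Ω _ _ _ n p hp a c ha
  have h : (fun ω : ι → Ω => Xv a c ω * Lv a ω) = fun ω =>
      ((∑ k, ‖c‖ ^ 2 * ‖a (ω k)‖ ^ 2) - ∑ i, ∑ k, 2 * (⟪c, a (ω i)⟫ * ‖a (ω k)‖ ^ 2)) +
        ∑ i, ∑ j, if i = j then 0 else ∑ k, ⟪a (ω i), a (ω j)⟫ * ‖a (ω k)‖ ^ 2 := by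
    funext ω
    rw [xv_expand, add_mul, sub_mul]
    unfold Lv
    congr 1
    · congr 1
      · rw [Finset.mul_sum]
      · rw [mul_assoc, Finset.sum_mul_sum, Finset.mul_sum]
        exact Finset.sum_congr rfl fun i _ => by rw [Finset.mul_sum]
    · rw [Finset.sum_mul]
      refine Finset.sum_congr rfl fun i _ => ?_
      rw [Finset.sum_mul]
      refine Finset.sum_congr rfl fun j _ => ?_
      rw [ite_mul, zero_mul, Finset.mul_sum]
  have hQ : Ex p (fun ω => ∑ i, ∑ j, if i = j then 0 else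
      ∑ k, ⟪a (ω i), a (ω j)⟫ * ‖a (ω k)‖ ^ 2) = 0 := by
    rw [ex_sum]
    refine Finset.sum_eq_zero fun i _ => ?_
    rw [ex_sum]
    refine Finset.sum_eq_zero fun j _ => ?_
    rw [ex_if0 hp]
    split_ifs with hij
    · rfl
    · rw [ex_sum]
      refine Finset.sum_eq_zero fun k _ => ?_
      by_cases hik : i = k
      · subst hik
        have h : (fun ω : ι → Ω => ⟪a (ω i), a (ω j)⟫ * ‖a (ω i)‖ ^ 2) =
            fun ω => ⟪a (ω j), ‖a (ω i)‖ ^ 2 • a (ω i)⟫ := by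
          funext ω; rw [real_inner_smul_right, real_inner_comm (a (ω j)) (a (ω i))]; ring
        rw [h]
        refine ex_inner_zero hp a j (ha j) _ fun ω w => ?_
        simp only [Function.update_of_ne hij]
      · have h : (fun ω : ι → Ω => ⟪a (ω i), a (ω j)⟫ * ‖a (ω k)‖ ^ 2) =
            fun ω => ⟪a (ω i), ‖a (ω k)‖ ^ 2 • a (ω j)⟫ := by
          funext ω; rw [real_inner_smul_right]; ring
        rw [h]
        refine ex_inner_zero hp a i (ha i) _ fun ω w => ?_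
        simp only [Function.update_of_ne (Ne.symm hij), Function.update_of_ne (Ne.symm hik)]
  have hL : Ex p (fun ω => ∑ i, ∑ k, 2 * (⟪c, a (ω i)⟫ * ‖a (ω k)‖ ^ 2)) =
      2 * ∑ i, ⟪c, ∑ w, (p i w * ‖a w‖ ^ 2) • a w⟫ := by
    rw [ex_sum, Finset.mul_sum]
    refine Finset.sum_congr rfl fun i _ => ?_
    rw [ex_sum]
    have h2 : ∀ k, Ex p (fun ω => 2 * (⟪c, a (ω i)⟫ * ‖a (ω k)‖ ^ 2)) =
        if i = k then 2 * ⟪c, ∑ w, (p i w * ‖a w‖ ^ 2) • a w⟫ else 0 := by
      intro k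
      rw [ex_smul]
      by_cases hik : i = k
      · subst hik
        rw [if_pos rfl, ex_coord hp i (fun w => ⟪c, a w⟫ * ‖a w‖ ^ 2), inner_sum]
        congr 1
        refine Finset.sum_congr rfl fun w _ => ?_
        rw [real_inner_smul_right]
        ring
      · rw [if_neg hik]
        have h : (fun ω : ι → Ω => ⟪c, a (ω i)⟫ * ‖a (ω k)‖ ^ 2) =
            fun ω => ⟪a (ω i), ‖a (ω k)‖ ^ 2 • c⟫ := by
          funext ω; rw [real_inner_smul_right, real_inner_comm c (a (ω i))]; ring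
        rw [h, ex_inner_zero hp a i (ha i), mul_zero]
        intro ω w
        simp only [Function.update_of_ne (Ne.symm hik)]
    simp only [h2]
    simp
  rw [h, ex_add, ex_sub, hQ, hL, add_zero, ex_sum]
  congr 1
  rw [Finset.mul_sum]
  refine Finset.sum_congr rfl fun k _ => ?_
  rw [ex_smul, ex_coord hp k (fun w => ‖a w‖ ^ 2)]

end Pool.Agent.MP4da8b1Q1
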