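import Pool.Agent.Work.MP_4da8b1_Q1_helper46.Interface

/-!
# MP_4da8b1_gt, Q1: from the weighted form to the families of the problem
-/

set_option autoImplicit false

open Finset
open scoped RealInnerProductSpace BigOperators

namespace Pool.Agent.MP4da8b1Q1

/-- **Q1 from MAIN** -/
theorem far_sum_of (hM : Stmt_MAIN) (n : ℕ) (hn : 1 ≤ n) (U : Fin (n + 1) → Finset (E n))
    (hU1 : ∀ i, ∀ u ∈ U i, ‖u‖ = 1) (hU2 : ∀ i, (U i).Nonempty)
    (hU3 : ∀ i, ∃ lam : E n → ℝ, (∀ u ∈ U i, 0 < lam u) ∧ ∑ u ∈ U i, lam u • u = 0) (c : E n) :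
    ∃ u : Fin (n + 1) → E n, (∀ i, u i ∈ U i) ∧ (n : ℝ) + 2 ≤ ‖(∑ i, u i) - c‖ ^ 2 := by
  classical
  choose lam hl hb using hU3
  set V : Finset (E n) := Finset.univ.biUnion U with hV
  have hsub : ∀ i, U i ⊆ V := fun i u hu => Finset.mem_biUnion.2 ⟨i, Finset.mem_univ i, hu⟩
  set Lam : Fin (n + 1) → ℝ := fun i => ∑ u ∈ U i, lam i u with hLam
  have hLpos : ∀ i, 0 < Lam i := fun i => Finset.sum_pos (hl i) (hU2 i)
  set w : Fin (n + 1) → {x // x ∈ V} → ℝ := fun i k =>
    if k.1 ∈ U i then lam i k.1 / Lam i else 0 with hw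
  have hsum : ∀ (i : Fin (n + 1)) (M : Type) [AddCommMonoid M] (f : E n → M),
      ∑ k : {x // x ∈ V}, (if k.1 ∈ U i then f k.1 else 0) = ∑ u ∈ U i, f u := by
    intro i M _ f
    rw [Finset.sum_coe_sort V (fun x => if x ∈ U i then f x else 0), ← Finset.sum_filter]
    refine Finset.sum_congr ?_ fun _ _ => rfl
    ext x
    simp only [Finset.mem_filter]
    exact ⟨fun h => h.2, fun h => ⟨hsub i h, h⟩⟩
  have hfam : ∀ i, IsFam (fun k : {x // x ∈ V} => k.1) (w i) := by
    intro i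
    refine ⟨fun k => ?_, fun k => ?_, ?_, ?_⟩
    · obtain ⟨j, _, hj⟩ := Finset.mem_biUnion.1 k.2
      exact hU1 j _ hj
    · simp only [hw]
      split_ifs with h
      · exact div_nonneg (hl i _ h).le (hLpos i).le
      · exact le_rfl
    · simp only [hw]
      rw [hsum i ℝ (fun x => lam i x / Lam i), ← Finset.sum_div]
      exact div_self (hLpos i).ne'
    · have h1 : ∀ k : {x // x ∈ V}, w i k • k.1 =
          if k.1 ∈ U i then (lam i k.1 / Lam i) • k.1 else 0 := by
        intro k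
        simp only [hw]
        split_ifs
        · rfl
        · rw [zero_smul]
      rw [Finset.sum_congr rfl fun k _ => h1 k, hsum i (E n) (fun x => (lam i x / Lam i) • x)]
      have h2 : ∀ u ∈ U i, (lam i u / Lam i) • u = (1 / Lam i) • (lam i u • u) := fun u _ => by
        rw [smul_smul]; congr 1; ring
      rw [Finset.sum_congr rfl h2, ← Finset.smul_sum, hb, smul_zero]
  obtain ⟨k, hk, h⟩ := hM {x // x ∈ V} n hn (fun k => k.1) w hfam c
  refine ⟨fun i => (k i).1, fun i => ?_, h⟩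
  by_contra h1
  have h2 := hk i
  simp only [hw, if_neg h1] at h2
  exact lt_irrefl _ h2

end Pool.Agent.MP4da8b1Q1
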