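import Pool.Agent.Work.MP_4da8b1_Q1_helper46.SPE

/-!
# MP_4da8b1_gt, Q1, block FRO (helper23)
-/

set_option autoImplicit false

open Matrix Finset
open scoped RealInnerProductSpace BigOperators

namespace Pool.Agent.MP4da8b1Q1

namespace FROAux

variable {m : Type} [Fintype m] [DecidableEq m]

theorem gram_quad {n : ℕ} (v : m → E n) (x : m → ℝ) :
    ‖∑ i, x i • v i‖ ^ 2 = x ⬝ᵥ (offGram v *ᵥ x) + ∑ i, ‖v i‖ ^ 2 * x i ^ 2 := by
  rw [← real_inner_self_eq_norm_sq, sum_inner]
  simp only [inner_sum, real_inner_smul_left, real_inner_smul_right, dotProduct, mulVec,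
    Finset.mul_sum]
  rw [← Finset.sum_add_distrib]
  refine Finset.sum_congr rfl fun i _ => ?_
  have h1 : ∀ j, x j * (x i * ⟪v i, v j⟫) =
      x i * (offGram v i j * x j) + if i = j then ‖v i‖ ^ 2 * x i ^ 2 else 0 := by
    intro j
    simp only [offGram]
    by_cases h : i = j
    · subst h
      rw [if_pos rfl, if_pos rfl, real_inner_self_eq_norm_sq]
      ring
    · rw [if_neg h, if_neg h]
      ring
  rw [Finset.sum_congr rfl fun j _ => h1 j, Finset.sum_add_distrib, Finset.sum_ite_eq]
  simp

end FROAux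

open SPEAux NUCAux FROAux in
theorem stmt_FRO : Stmt_FRO := by
  intro m _ _ n v o hv
  set B := offGram v with hBdef
  have hB : B.IsHermitian := by
    ext i j
    rw [Matrix.conjTranspose_apply]
    simp only [hBdef, offGram]
    by_cases h : i = j
    · subst h
      simp
    · rw [if_neg h, if_neg (Ne.symm h), real_inner_comm]
      simp
  have htr : B.trace = 0 := by
    simp [Matrix.trace, hBdef, offGram]
  have hf := stmt_SPE m B hB htr
  obtain ⟨φ, h1, h2, h3⟩ := spec B hB
  set l := hB.eigenvalues with hl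
  have hBc : B = comb φ l := by
    ext i j
    exact h1 i j
  have hsum : ∑ k, l k = 0 := by
    have h := hB.trace_eq_sum_eigenvalues
    rw [htr] at h
    have h' : (0 : ℝ) = ∑ k, hB.eigenvalues k := by simpa using h
    exact h'.symm
  set f := nuc B with hfdef
  have hneg : ∑ k, max (-l k) 0 = f := by
    rw [hf]
    have : ∀ k, max (-l k) 0 = max (l k) 0 - l k := by
      intro k
      rcases le_total 0 (l k) with h | h
      · rw [max_eq_left h, max_eq_right (by linarith)]; ring
      · rw [max_eq_right h, max_eq_left (by linarith)]; ring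
    simp only [this, Finset.sum_sub_distrib, hsum, sub_zero]
  have hpk : ∀ k, max (l k) 0 ≤ f := by
    intro k
    rw [hf]
    exact Finset.single_le_sum (f := fun k => max (l k) 0) (fun i _ => le_max_right _ _)
      (Finset.mem_univ k)
  have hnk : ∀ k, max (-l k) 0 ≤ f := by
    intro k
    rw [← hneg]
    exact Finset.single_le_sum (f := fun k => max (-l k) 0) (fun i _ => le_max_right _ _)
      (Finset.mem_univ k)
  -- action on eigenvectors
  have hBφ : ∀ k, φ k ⬝ᵥ (B *ᵥ φ k) = l k := by
    intro k
    conv_lhs => rw [hBc]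
    rw [comb_mulVec h2]
    have h6 : (fun i => l k * φ k i) = l k • φ k := rfl
    rw [h6, dotProduct_smul, self_dot h2, smul_eq_mul, mul_one]
  -- Frobenius norm
  have hfro : ∑ i, ∑ j, (B i j) ^ 2 = ∑ k, l k ^ 2 := by
    have h4 : (comb φ l * B).trace = ∑ k, l k ^ 2 := by
      rw [trace_comb_mul]
      refine Finset.sum_congr rfl fun k _ => ?_
      rw [hBφ]
      ring
    rw [← h4, ← hBc]
    simp only [Matrix.trace, Matrix.diag_apply, Matrix.mul_apply]
    refine Finset.sum_congr rfl fun i _ => Finset.sum_congr rfl fun j _ => ?_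
    have h5 : B j i = B i j := by
      have := congrFun (congrFun hB i) j
      rw [Matrix.conjTranspose_apply] at this
      simpa using this
    rw [h5]
    ring
  set M := max (‖v o‖ ^ 2 - 1) 0 with hM
  have hM0 : 0 ≤ M := le_max_right _ _
  -- bound for the negative eigenvalues
  have hk : ∀ k, max (-l k) 0 ≤ 1 + M * φ k o ^ 2 := by
    intro k
    have h4 := gram_quad v (φ k)
    rw [← hBdef, hBφ] at h4
    have h5 : 0 ≤ ‖∑ i, φ k i • v i‖ ^ 2 := sq_nonneg _
    have h6 : ∑ i, ‖v i‖ ^ 2 * φ k i ^ 2 ≤ 1 + M * φ k o ^ 2 := by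
      have h7 : (1 : ℝ) + M * φ k o ^ 2 =
          ∑ i, (φ k i ^ 2 + if i = o then M * φ k o ^ 2 else 0) := by
        rw [Finset.sum_add_distrib, Finset.sum_ite_eq']
        simp only [Finset.mem_univ, if_true]
        have h8 := self_dot h2 k
        simp only [dotProduct] at h8
        rw [← h8]
        congr 1
        exact Finset.sum_congr rfl fun i _ => (sq _).symm
      rw [h7]
      refine Finset.sum_le_sum fun i _ => ?_
      by_cases h : i = o
      · subst h
        rw [if_pos rfl]
        have h9 : ‖v i‖ ^ 2 ≤ 1 + M := by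
          have := le_max_left (‖v i‖ ^ 2 - 1) 0
          rw [← hM] at this
          linarith
        have := mul_le_mul_of_nonneg_right h9 (sq_nonneg (φ k i))
        linarith
      · rw [if_neg h, add_zero]
        exact mul_le_of_le_one_left (sq_nonneg _) (hv i h)
    have h10 : 0 ≤ M * φ k o ^ 2 := mul_nonneg hM0 (sq_nonneg _)
    exact max_le (by linarith) (by linarith)
  -- the diagonal entries at `o`
  have hdiag : ∑ k, l k * φ k o ^ 2 = 0 := by
    have h4 := h1 o o
    have h5 : B o o = 0 := by simp [hBdef, offGram]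
    rw [h5] at h4
    rw [h4]
    exact Finset.sum_congr rfl fun k _ => by ring
  have hone : ∑ k, φ k o ^ 2 = 1 := by
    have h4 := h3 o o
    rw [if_pos rfl] at h4
    rw [← h4]
    exact Finset.sum_congr rfl fun k _ => by ring
  have hR : 2 * ∑ k, max (-l k) 0 * φ k o ^ 2 ≤ f := by
    have h4 : ∀ k, 2 * (max (-l k) 0 * φ k o ^ 2) ≤ f * φ k o ^ 2 - l k * φ k o ^ 2 := by
      intro k
      have h5 : 2 * max (-l k) 0 ≤ f - l k := by
        rcases le_total 0 (l k) with h | h
        · rw [max_eq_right (by linarith)]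
          have := hpk k
          rw [max_eq_left h] at this
          linarith
        · have h6 := hnk k
          rw [max_eq_left (by linarith)] at h6 ⊢
          linarith
      have := mul_le_mul_of_nonneg_right h5 (sq_nonneg (φ k o))
      linarith
    rw [Finset.mul_sum]
    refine (Finset.sum_le_sum fun k _ => h4 k).trans ?_
    rw [Finset.sum_sub_distrib, hdiag, ← Finset.mul_sum, hone]
    linarith
  rw [hfro]
  have hsplit : ∀ k, l k ^ 2 = max (l k) 0 ^ 2 + max (-l k) 0 ^ 2 := by
    intro k
    rcases le_total 0 (l k) with h | h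
    · rw [max_eq_left h, max_eq_right (by linarith)]; ring
    · rw [max_eq_right h, max_eq_left (by linarith)]; ring
  simp only [hsplit, Finset.sum_add_distrib]
  have hpos : ∑ k, max (l k) 0 ^ 2 ≤ f ^ 2 := by
    have h4 : ∀ k, max (l k) 0 ^ 2 ≤ max (l k) 0 * f := by
      intro k
      rw [sq]
      exact mul_le_mul_of_nonneg_left (hpk k) (le_max_right _ _)
    refine (Finset.sum_le_sum fun k _ => h4 k).trans ?_
    rw [← Finset.sum_mul, ← hf, sq]
  have hnegs : ∑ k, max (-l k) 0 ^ 2 ≤ f + M * ∑ k, max (-l k) 0 * φ k o ^ 2 := by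
    have h4 : ∀ k, max (-l k) 0 ^ 2 ≤ max (-l k) 0 + M * (max (-l k) 0 * φ k o ^ 2) := by
      intro k
      have := mul_le_mul_of_nonneg_left (hk k) (le_max_right (-l k) 0)
      calc max (-l k) 0 ^ 2 = max (-l k) 0 * max (-l k) 0 := sq _
        _ ≤ max (-l k) 0 * (1 + M * φ k o ^ 2) := this
        _ = _ := by ring
    refine (Finset.sum_le_sum fun k _ => h4 k).trans ?_
    rw [Finset.sum_add_distrib, hneg, ← Finset.mul_sum]
  have h11 : M * ∑ k, max (-l k) 0 * φ k o ^ 2 ≤ M / 2 * f := by
    have := mul_le_mul_of_nonneg_left hR hM0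
    linarith
  linarith

end Pool.Agent.MP4da8b1Q1
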