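import Pool.Agent.Work.MP_4da8b1_Q1_helper46.Interface

/-!
# MP_4da8b1_gt, Q1: the block H1

Two polynomial inequalities on the triangle `0 ≤ b ≤ a ≤ 1`, one for each sign of `v`, with
nonnegative coefficients in the barycentric coordinates.
-/

set_option autoImplicit false

namespace Pool.Agent.MP4da8b1Q1

namespace BlockH1

private lemma neg_case_pos {x y z : ℝ} (hx : 0 ≤ x) (hy : 0 ≤ y) (hz : 0 ≤ z) : 0 ≤
    2 / 5 * x ^ 4 * y + 4 / 5 * x ^ 4 * z + 2 * x ^ 3 * y ^ 2 + 27 / 5 * x ^ 3 * y * z +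
    22 / 5 * x ^ 3 * z ^ 2 + 14 / 5 * x ^ 2 * y ^ 3 + 19 / 2 * x ^ 2 * y ^ 2 * z +
    253 / 20 * x ^ 2 * y * z ^ 2 + 111 / 20 * x ^ 2 * z ^ 3 + 6 / 5 * x * y ^ 4 +
    39 / 5 * x * y ^ 3 * z + 173 / 10 * x * y ^ 2 * z ^ 2 + 93 / 5 * x * y * z ^ 3 +
    79 / 10 * x * z ^ 4 + 6 / 5 * y ^ 4 * z + 4 * y ^ 3 * z ^ 2 + 61 / 10 * y ^ 2 * z ^ 3 +
    83 / 20 * y * z ^ 4 + 17 / 20 * z ^ 5 := by
  positivity

/-- a polynomial inequality on the triangle -/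
lemma neg_case {a b : ℝ} (hb : 0 ≤ b) (hba : b ≤ a) (ha : a ≤ 1) :
    0 ≤ 2 * a + 2 * b - 2 * a ^ 2 - 2 * a * b - b ^ 2 -
      (2 / 5 * (a - a ^ 2 + b - b ^ 2) - a * b * (3 / 20 + 17 / 20 * (a ^ 2 + b ^ 2))) *
        (4 - 2 * a - b) := by
  have h := neg_case_pos (sub_nonneg.2 ha) (sub_nonneg.2 hba) hb
  ring_nf at h ⊢
  exact h

private lemma pos_case_pos {x y z : ℝ} (hx : 0 ≤ x) (hy : 0 ≤ y) (hz : 0 ≤ z) : 0 ≤
    16 / 25 * x ^ 3 * y ^ 2 + 91 / 100 * x ^ 3 * y * z + 151 / 100 * x ^ 3 * z ^ 2 +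
    32 / 25 * x ^ 2 * y ^ 3 + 9 / 4 * x ^ 2 * y ^ 2 * z + 73 / 20 * x ^ 2 * y * z ^ 2 +
    61 / 25 * x ^ 2 * z ^ 3 + 16 / 25 * x * y ^ 4 + 237 / 50 * x * y ^ 3 * z +
    316 / 25 * x * y ^ 2 * z ^ 2 + 1739 / 100 * x * y * z ^ 3 + 177 / 20 * x * z ^ 4 +
    51 / 25 * y ^ 4 * z + 204 / 25 * y ^ 3 * z ^ 2 + 1489 / 100 * y ^ 2 * z ^ 3 +
    259 / 20 * y * z ^ 4 + 209 / 50 * z ^ 5 := by
  positivity

/-- a polynomial inequality on the triangle -/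
lemma pos_case {a b : ℝ} (hb : 0 ≤ b) (hba : b ≤ a) (ha : a ≤ 1) :
    0 ≤ 2 * a + 2 * b - 2 * a ^ 2 - 2 * a * b - b ^ 2 -
      (2 / 5 * (a - a ^ 2 + b - b ^ 2) - a * b * (3 / 20 + 17 / 20 * (a ^ 2 + b ^ 2))) *
        (5 - 8 / 5 * a - 3 / 5 * b) := by
  have h := pos_case_pos (sub_nonneg.2 ha) (sub_nonneg.2 hba) hb
  ring_nf at h ⊢
  exact h

end BlockH1

/-- **H1** -/
theorem stmt_H1 : Stmt_H1 := by
  intro a b v hb hba ha hv hv1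
  have h1 := BlockH1.neg_case hb hba ha
  have h2 := BlockH1.pos_case hb hba ha
  rw [← hv] at h1 h2
  have hv2 : v ≤ 2 / 5 * (a + b) := by
    have : 0 ≤ a * b * (3 / 20 + 17 / 20 * (a ^ 2 + b ^ 2)) := by
      have : 0 ≤ a := hb.trans hba
      positivity
    rw [hv]
    nlinarith [sq_nonneg a, sq_nonneg b]
  rcases le_total v 0 with h | h
  · have : 0 ≤ -v * (1 + v) := mul_nonneg (by linarith) (by linarith)
    nlinarith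
  · have : 0 ≤ v * (2 / 5 * (a + b) - v) := mul_nonneg h (by linarith)
    nlinarith

end Pool.Agent.MP4da8b1Q1
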