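import Pool.Agent.Work.MP_4da8b1_Q1_helper46.Interface

/-!
# MP_4da8b1_gt, Q1: the block H2

Two polynomial inequalities on the triangle `0 ≤ b ≤ a ≤ 1`, one for each sign of `v`, with
nonnegative coefficients in the barycentric coordinates.
-/

set_option autoImplicit false

namespace Pool.Agent.MP4da8b1Q1

namespace BlockH2

private lemma neg_case_pos {x y z : ℝ} (hx : 0 ≤ x) (hy : 0 ≤ y) (hz : 0 ≤ z) : 0 ≤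
    1 * x ^ 5 + 19 / 5 * x ^ 4 * y + 13 / 5 * x ^ 4 * z + 29 / 5 * x ^ 3 * y ^ 2 +
    161 / 20 * x ^ 3 * y * z + 57 / 20 * x ^ 3 * z ^ 2 + 21 / 5 * x ^ 2 * y ^ 3 +
    43 / 5 * x ^ 2 * y ^ 2 * z + 117 / 20 * x ^ 2 * y * z ^ 2 + 21 / 20 * x ^ 2 * z ^ 3 +
    6 / 5 * x * y ^ 4 + 26 / 5 * x * y ^ 3 * z + 91 / 10 * x * y ^ 2 * z ^ 2 +
    183 / 20 * x * y * z ^ 3 + 81 / 20 * x * z ^ 4 + 6 / 5 * y ^ 4 * z + 4 * y ^ 3 * z ^ 2 +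
    61 / 10 * y ^ 2 * z ^ 3 + 83 / 20 * y * z ^ 4 + 17 / 20 * z ^ 5 := by
  positivity

/-- a polynomial inequality on the triangle -/
lemma neg_case {a b : ℝ} (hb : 0 ≤ b) (hba : b ≤ a) (ha : a ≤ 1) :
    0 ≤ 1 - a ^ 2 - b ^ 2 -
      (2 / 5 * (a - a ^ 2 + b - b ^ 2) - a * b * (3 / 20 + 17 / 20 * (a ^ 2 + b ^ 2))) *
        (3 - a - b) := by
  have h := neg_case_pos (sub_nonneg.2 ha) (sub_nonneg.2 hba) hb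
  ring_nf at h ⊢
  exact h

private lemma pos_case_pos {x y z : ℝ} (hx : 0 ≤ x) (hy : 0 ≤ y) (hz : 0 ≤ z) : 0 ≤
    1 * x ^ 8 + 32 / 5 * x ^ 7 * y + 24 / 5 * x ^ 7 * z + 441 / 25 * x ^ 6 * y ^ 2 +
    629 / 25 * x ^ 6 * y * z + 209 / 25 * x ^ 6 * z ^ 2 + 136 / 5 * x ^ 5 * y ^ 3 +
    1083 / 20 * x ^ 5 * y ^ 2 * z + 3141 / 100 * x ^ 5 * y * z ^ 2 + 211 / 50 * x ^ 5 * z ^ 3 +
    127 / 5 * x ^ 4 * y ^ 4 + 1271 / 20 * x ^ 4 * y ^ 3 * z + 246 / 5 * x ^ 4 * y ^ 2 * z ^ 2 +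
    231 / 20 * x ^ 4 * y * z ^ 3 + 1 / 2 * x ^ 4 * z ^ 4 + 72 / 5 * x ^ 3 * y ^ 5 +
    4739 / 100 * x ^ 3 * y ^ 4 * z + 1171 / 20 * x ^ 3 * y ^ 3 * z ^ 2 +
    46 * x ^ 3 * y ^ 2 * z ^ 3 + 167 / 5 * x ^ 3 * y * z ^ 4 + 324 / 25 * x ^ 3 * z ^ 5 +
    23 / 5 * x ^ 2 * y ^ 6 + 2577 / 100 * x ^ 2 * y ^ 5 * z + 3381 / 50 * x ^ 2 * y ^ 4 * z ^ 2 +
    485 / 4 * x ^ 2 * y ^ 3 * z ^ 3 + 726 / 5 * x ^ 2 * y ^ 2 * z ^ 4 +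
    2397 / 25 * x ^ 2 * y * z ^ 5 + 637 / 25 * x ^ 2 * z ^ 6 + 16 / 25 * x * y ^ 7 +
    509 / 50 * x * y ^ 6 * z + 99 / 2 * x * y ^ 5 * z ^ 2 + 12807 / 100 * x * y ^ 4 * z ^ 3 +
    3939 / 20 * x * y ^ 3 * z ^ 4 + 17817 / 100 * x * y ^ 2 * z ^ 5 +
    8687 / 100 * x * y * z ^ 6 + 877 / 50 * x * z ^ 7 + 51 / 25 * y ^ 7 * z +
    357 / 25 * y ^ 6 * z ^ 2 + 4549 / 100 * y ^ 5 * z ^ 3 + 4207 / 50 * y ^ 4 * z ^ 4 +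
    4793 / 50 * y ^ 3 * z ^ 5 + 1657 / 25 * y ^ 2 * z ^ 6 + 2549 / 100 * y * z ^ 7 +
    209 / 50 * z ^ 8 := by
  positivity

/-- a polynomial inequality on the triangle -/
lemma pos_case {a b : ℝ} (hb : 0 ≤ b) (hba : b ≤ a) (ha : a ≤ 1) :
    0 ≤ 1 - a ^ 2 - b ^ 2 -
      (2 / 5 * (a - a ^ 2 + b - b ^ 2) - a * b * (3 / 20 + 17 / 20 * (a ^ 2 + b ^ 2))) *
        (4 - 3 / 5 * a - 3 / 5 * b) := by
  have h := pos_case_pos (sub_nonneg.2 ha) (sub_nonneg.2 hba) hb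
  ring_nf at h ⊢
  exact h

end BlockH2

/-- **H2** -/
theorem stmt_H2 : Stmt_H2 := by
  intro a b v hb hba ha hv hv1
  have h1 := BlockH2.neg_case hb hba ha
  have h2 := BlockH2.pos_case hb hba ha
  rw [← hv] at h1 h2
  have hv2 : v ≤ 2 / 5 * (a + b) := by
    have : 0 ≤ a * b * (3 / 20 + 17 / 20 * (a ^ 2 + b ^ 2)) := by
      have : 0 ≤ a := hb.trans hba
      positivity
    rw [hv]
    nlinarith [sq_nonneg a, sq_nonneg b]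
  rcases le_total v 0 with h | h
  · have : 0 ≤ -v * (1 + v) := mul_nonneg (by linarith) (by linarith)
    nlinarith
  · have : 0 ≤ v * (2 / 5 * (a + b) - v) := mul_nonneg h (by linarith)
    nlinarith

end Pool.Agent.MP4da8b1Q1
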