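import Pool.Agent.Work.MP_4da8b1_Q1_helper46.Interface

/-!
# MP_4da8b1_gt, Q1: block H3

The simplex `0 ≤ c ≤ b ≤ a ≤ 1` is bisected into small simplices; on each of them the polynomial
is a combination of monomials in the barycentric coordinates with nonnegative coefficients.
-/

set_option autoImplicit false

namespace Pool.Agent.MP4da8b1Q1
namespace H3Aux

/-- left side of **H3** -/
noncomputable def pol (a b c : ℝ) : ℝ :=
  (1 - a) * (1 - 2 / 5 * a) - (b + c) * (9 / 10 - 3 / 20 * a - 17 / 20 * a ^ 3) +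
      3 / 20 * (b ^ 2 + c ^ 2) + 2 / 5 * (b * c) + 17 / 20 * a * (b ^ 3 + c ^ 3) +
      17 / 20 * (b * c) * (b ^ 2 + c ^ 2)

theorem t4 (a b c u v w z : ℝ) (hu : 0 ≤ u) (hv : 0 ≤ v) (hw : 0 ≤ w) (hz : 0 ≤ z)
    (h1 : u + v + w + z = 1) (ha : a = (1/2) * v + (1/2) * w + (1/4) * z)
    (hb : b = (1/2) * w + (1/4) * z)
    (hc : c = (1/4) * z) :
    0 ≤ pol a b c := by
  have hz1 : z = 1 - u - v - w := by linarith
  have e : pol a b c = 1 * (u ^ 4) + (33/10) * (u ^ 3 * v) + (57/20) * (u ^ 3 * w) +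
    (16/5) * (u ^ 3 * z) + 4 * (u ^ 2 * v ^ 2) + (107/16) * (u ^ 2 * v * w) +
    (611/80) * (u ^ 2 * v * z) + (109/40) * (u ^ 2 * w ^ 2) + (1023/160) * (u ^ 2 * w * z) +
    (59/16) * (u ^ 2 * z ^ 2) + (21/10) * (u * v ^ 3) + (201/40) * (u * v ^ 2 * w) +
    (47/8) * (u * v ^ 2 * z) + (153/40) * (u * v * w ^ 2) + (747/80) * (u * v * w * z) +
    (111/20) * (u * v * z ^ 2) + (9/10) * (u * w ^ 3) + (283/80) * (u * w ^ 2 * z) +
    (353/80) * (u * w * z ^ 2) + (71/40) * (u * z ^ 3) + (2/5) * (v ^ 4) +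
    (397/320) * (v ^ 3 * w) + (477/320) * (v ^ 3 * z) + (87/64) * (v ^ 2 * w ^ 2) +
    (433/128) * (v ^ 2 * w * z) + (1307/640) * (v ^ 2 * z ^ 2) + (13/20) * (v * w ^ 3) +
    (1567/640) * (v * w ^ 2 * z) + (1961/640) * (v * w * z ^ 2) + (81/64) * (v * z ^ 3) +
    (21/160) * (w ^ 4) + (39/64) * (w ^ 3 * z) + (729/640) * (w ^ 2 * z ^ 2) +
    (39/40) * (w * z ^ 3) + (787/2560) * (z ^ 4) := by
    rw [ha, hb, hc, hz1]; unfold pol; ring
  rw [e]; positivity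

theorem t6 (a b c u v w z : ℝ) (hu : 0 ≤ u) (hv : 0 ≤ v) (hw : 0 ≤ w) (hz : 0 ≤ z)
    (h1 : u + v + w + z = 1) (ha : a = (1/4) * u + (1/2) * v + (1/2) * w + (1/2) * z)
    (hb : b = (1/4) * u + (1/2) * w + (1/4) * z)
    (hc : c = (1/4) * u + (1/4) * z) :
    0 ≤ pol a b c := by
  have hz1 : z = 1 - u - v - w := by linarith
  have e : pol a b c = (787/2560) * (u ^ 4) + (81/64) * (u ^ 3 * v) + (39/40) * (u ^ 3 * w) +
    (39/40) * (u ^ 3 * z) + (1307/640) * (u ^ 2 * v ^ 2) + (1961/640) * (u ^ 2 * v * w) +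
    (1961/640) * (u ^ 2 * v * z) + (729/640) * (u ^ 2 * w ^ 2) + (2881/1280) * (u ^ 2 * w * z) +
    (2881/2560) * (u ^ 2 * z ^ 2) + (477/320) * (u * v ^ 3) + (433/128) * (u * v ^ 2 * w) +
    (433/128) * (u * v ^ 2 * z) + (1567/640) * (u * v * w ^ 2) + (3099/640) * (u * v * w * z) +
    (3099/1280) * (u * v * z ^ 2) + (39/64) * (u * w ^ 3) + (2219/1280) * (u * w ^ 2 * z) +
    (4317/2560) * (u * w * z ^ 2) + (1439/2560) * (u * z ^ 3) + (2/5) * (v ^ 4) +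
    (397/320) * (v ^ 3 * w) + (397/320) * (v ^ 3 * z) + (87/64) * (v ^ 2 * w ^ 2) +
    (437/160) * (v ^ 2 * w * z) + (437/320) * (v ^ 2 * z ^ 2) + (13/20) * (v * w ^ 3) +
    (1213/640) * (v * w ^ 2 * z) + (2391/1280) * (v * w * z ^ 2) + (797/1280) * (v * z ^ 3) +
    (21/160) * (w ^ 4) + (31/64) * (w ^ 3 * z) + (211/320) * (w ^ 2 * z ^ 2) +
    (267/640) * (w * z ^ 3) + (267/2560) * (z ^ 4) := by
    rw [ha, hb, hc, hz1]; unfold pol; ring
  rw [e]; positivity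

theorem t7 (a b c u v w z : ℝ) (hu : 0 ≤ u) (hv : 0 ≤ v) (hw : 0 ≤ w) (hz : 0 ≤ z)
    (h1 : u + v + w + z = 1) (ha : a = (1/4) * u + (1/2) * v + (1/2) * w + (1/2) * z)
    (hb : b = (1/4) * u + (1/4) * v + (1/2) * w + (1/2) * z)
    (hc : c = (1/4) * u + (1/4) * v + (1/2) * z) :
    0 ≤ pol a b c := by
  have hz1 : z = 1 - u - v - w := by linarith
  have e : pol a b c = (787/2560) * (u ^ 4) + (39/40) * (u ^ 3 * v) + (39/40) * (u ^ 3 * w) +
    (219/320) * (u ^ 3 * z) + (2881/2560) * (u ^ 2 * v ^ 2) + (2881/1280) * (u ^ 2 * v * w) +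
    (23/16) * (u ^ 2 * v * z) + (729/640) * (u ^ 2 * w ^ 2) + (23/16) * (u ^ 2 * w * z) +
    (133/320) * (u ^ 2 * z ^ 2) + (1439/2560) * (u * v ^ 3) + (4317/2560) * (u * v ^ 2 * w) +
    (609/640) * (u * v ^ 2 * z) + (2219/1280) * (u * v * w ^ 2) + (609/320) * (u * v * w * z) +
    (71/160) * (u * v * z ^ 2) + (39/64) * (u * w ^ 3) + (163/160) * (u * w ^ 2 * z) +
    (71/160) * (u * w * z ^ 2) + (7/80) * (u * z ^ 3) + (267/2560) * (v ^ 4) +
    (267/640) * (v ^ 3 * w) + (271/1280) * (v ^ 3 * z) + (211/320) * (v ^ 2 * w ^ 2) +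
    (813/1280) * (v ^ 2 * w * z) + (17/128) * (v ^ 2 * z ^ 2) + (31/64) * (v * w ^ 3) +
    (95/128) * (v * w ^ 2 * z) + (17/64) * (v * w * z ^ 2) + (7/80) * (v * z ^ 3) +
    (21/160) * (w ^ 4) + (51/160) * (w ^ 3 * z) + (33/160) * (w ^ 2 * z ^ 2) +
    (7/80) * (w * z ^ 3) + (11/160) * (z ^ 4) := by
    rw [ha, hb, hc, hz1]; unfold pol; ring
  rw [e]; positivity

theorem t5 (a b c u v w z : ℝ) (hu : 0 ≤ u) (hv : 0 ≤ v) (hw : 0 ≤ w) (hz : 0 ≤ z)
    (h1 : u + v + w + z = 1) (ha : a = (1/4) * u + (1/2) * v + (1/2) * w + (1/2) * z)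
    (hb : b = (1/4) * u + (1/2) * w + (1/2) * z)
    (hc : c = (1/4) * u + (1/2) * z) :
    0 ≤ pol a b c := by
  rcases le_total z v with h | h
  · exact t6 a b c u (v - z) w (2 * z) (by linarith) (by linarith) (by linarith) (by linarith) (by linarith) (by linarith) (by linarith) (by linarith)
  · exact t7 a b c u (2 * v) w (z - v) (by linarith) (by linarith) (by linarith) (by linarith) (by linarith) (by linarith) (by linarith) (by linarith)

theorem t3 (a b c u v w z : ℝ) (hu : 0 ≤ u) (hv : 0 ≤ v) (hw : 0 ≤ w) (hz : 0 ≤ z)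
    (h1 : u + v + w + z = 1) (ha : a = (1/2) * v + (1/2) * w + (1/2) * z)
    (hb : b = (1/2) * w + (1/2) * z)
    (hc : c = (1/2) * z) :
    0 ≤ pol a b c := by
  rcases le_total z u with h | h
  · exact t4 a b c (u - z) v w (2 * z) (by linarith) (by linarith) (by linarith) (by linarith) (by linarith) (by linarith) (by linarith) (by linarith)
  · exact t5 a b c (2 * u) v w (z - u) (by linarith) (by linarith) (by linarith) (by linarith) (by linarith) (by linarith) (by linarith) (by linarith)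

theorem t9 (a b c u v w z : ℝ) (hu : 0 ≤ u) (hv : 0 ≤ v) (hw : 0 ≤ w) (hz : 0 ≤ z)
    (h1 : u + v + w + z = 1) (ha : a = (1/2) * u + v + (1/2) * w + (3/4) * z)
    (hb : b = (1/2) * w + (1/4) * z)
    (hc : c = (1/4) * z) :
    0 ≤ pol a b c := by
  have hz1 : z = 1 - u - v - w := by linarith
  have e : pol a b c = (2/5) * (u ^ 4) + (11/10) * (u ^ 3 * v) + (397/320) * (u ^ 3 * w) +
    (317/320) * (u ^ 3 * z) + 1 * (u ^ 2 * v ^ 2) + (387/160) * (u ^ 2 * v * w) +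
    (283/160) * (u ^ 2 * v * z) + (87/64) * (u ^ 2 * w ^ 2) + (1331/640) * (u ^ 2 * w * z) +
    (473/640) * (u ^ 2 * z ^ 2) + (3/10) * (u * v ^ 3) + (59/40) * (u * v ^ 2 * w) +
    (37/40) * (u * v ^ 2 * z) + (129/80) * (u * v * w ^ 2) + (369/160) * (u * v * w * z) +
    (117/160) * (u * v * z ^ 2) + (13/20) * (u * w ^ 3) + (859/640) * (u * w ^ 2 * z) +
    (109/128) * (u * w * z ^ 2) + (51/320) * (u * z ^ 3) + (7/20) * (v ^ 3 * w) +
    (1/5) * (v ^ 3 * z) + (41/80) * (v ^ 2 * w ^ 2) + (33/40) * (v ^ 2 * w * z) +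
    (53/160) * (v ^ 2 * z ^ 2) + (2/5) * (v * w ^ 3) + (247/320) * (v * w ^ 2 * z) +
    (173/320) * (v * w * z ^ 2) + (27/160) * (v * z ^ 3) + (21/160) * (w ^ 4) +
    (23/64) * (w ^ 3 * z) + (99/320) * (w ^ 2 * z ^ 2) + (19/160) * (w * z ^ 3) +
    (79/2560) * (z ^ 4) := by
    rw [ha, hb, hc, hz1]; unfold pol; ring
  rw [e]; positivity

theorem t11 (a b c u v w z : ℝ) (hu : 0 ≤ u) (hv : 0 ≤ v) (hw : 0 ≤ w) (hz : 0 ≤ z)
    (h1 : u + v + w + z = 1) (ha : a = (1/2) * u + (3/4) * v + (1/2) * w + (1/2) * z)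
    (hb : b = (1/4) * v + (1/2) * w + (1/4) * z)
    (hc : c = (1/4) * v + (1/4) * z) :
    0 ≤ pol a b c := by
  have hz1 : z = 1 - u - v - w := by linarith
  have e : pol a b c = (2/5) * (u ^ 4) + (317/320) * (u ^ 3 * v) + (397/320) * (u ^ 3 * w) +
    (397/320) * (u ^ 3 * z) + (473/640) * (u ^ 2 * v ^ 2) + (1331/640) * (u ^ 2 * v * w) +
    (1331/640) * (u ^ 2 * v * z) + (87/64) * (u ^ 2 * w ^ 2) + (437/160) * (u ^ 2 * w * z) +
    (437/320) * (u ^ 2 * z ^ 2) + (51/320) * (u * v ^ 3) + (109/128) * (u * v ^ 2 * w) +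
    (109/128) * (u * v ^ 2 * z) + (859/640) * (u * v * w ^ 2) + (1683/640) * (u * v * w * z) +
    (1683/1280) * (u * v * z ^ 2) + (13/20) * (u * w ^ 3) + (1213/640) * (u * w ^ 2 * z) +
    (2391/1280) * (u * w * z ^ 2) + (797/1280) * (u * z ^ 3) + (79/2560) * (v ^ 4) +
    (19/160) * (v ^ 3 * w) + (19/160) * (v ^ 3 * z) + (99/320) * (v ^ 2 * w ^ 2) +
    (131/256) * (v ^ 2 * w * z) + (131/512) * (v ^ 2 * z ^ 2) + (23/64) * (v * w ^ 3) +
    (1157/1280) * (v * w ^ 2 * z) + (2091/2560) * (v * w * z ^ 2) + (697/2560) * (v * z ^ 3) +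
    (21/160) * (w ^ 4) + (31/64) * (w ^ 3 * z) + (211/320) * (w ^ 2 * z ^ 2) +
    (267/640) * (w * z ^ 3) + (267/2560) * (z ^ 4) := by
    rw [ha, hb, hc, hz1]; unfold pol; ring
  rw [e]; positivity

theorem t12 (a b c u v w z : ℝ) (hu : 0 ≤ u) (hv : 0 ≤ v) (hw : 0 ≤ w) (hz : 0 ≤ z)
    (h1 : u + v + w + z = 1) (ha : a = (1/2) * u + (3/4) * v + (1/2) * w + (1/2) * z)
    (hb : b = (1/4) * u + (1/4) * v + (1/2) * w + (1/2) * z)
    (hc : c = (1/4) * u + (1/4) * v + (1/2) * z) :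
    0 ≤ pol a b c := by
  have hz1 : z = 1 - u - v - w := by linarith
  have e : pol a b c = (267/2560) * (u ^ 4) + (697/2560) * (u ^ 3 * v) + (267/640) * (u ^ 3 * w) +
    (271/1280) * (u ^ 3 * z) + (131/512) * (u ^ 2 * v ^ 2) + (2091/2560) * (u ^ 2 * v * w) +
    (51/160) * (u ^ 2 * v * z) + (211/320) * (u ^ 2 * w ^ 2) + (813/1280) * (u ^ 2 * w * z) +
    (17/128) * (u ^ 2 * z ^ 2) + (19/160) * (u * v ^ 3) + (131/256) * (u * v ^ 2 * w) +
    (11/64) * (u * v ^ 2 * z) + (1157/1280) * (u * v * w ^ 2) + (51/80) * (u * v * w * z) +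
    (7/80) * (u * v * z ^ 2) + (31/64) * (u * w ^ 3) + (95/128) * (u * w ^ 2 * z) +
    (17/64) * (u * w * z ^ 2) + (7/80) * (u * z ^ 3) + (79/2560) * (v ^ 4) +
    (19/160) * (v ^ 3 * w) + (5/64) * (v ^ 3 * z) + (99/320) * (v ^ 2 * w ^ 2) +
    (11/64) * (v ^ 2 * w * z) + (19/320) * (v ^ 2 * z ^ 2) + (23/64) * (v * w ^ 3) +
    (149/320) * (v * w ^ 2 * z) + (7/80) * (v * w * z ^ 2) + (7/80) * (v * z ^ 3) +
    (21/160) * (w ^ 4) + (51/160) * (w ^ 3 * z) + (33/160) * (w ^ 2 * z ^ 2) +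
    (7/80) * (w * z ^ 3) + (11/160) * (z ^ 4) := by
    rw [ha, hb, hc, hz1]; unfold pol; ring
  rw [e]; positivity

theorem t10 (a b c u v w z : ℝ) (hu : 0 ≤ u) (hv : 0 ≤ v) (hw : 0 ≤ w) (hz : 0 ≤ z)
    (h1 : u + v + w + z = 1) (ha : a = (1/2) * u + (3/4) * v + (1/2) * w + (1/2) * z)
    (hb : b = (1/4) * v + (1/2) * w + (1/2) * z)
    (hc : c = (1/4) * v + (1/2) * z) :
    0 ≤ pol a b c := by
  rcases le_total z u with h | h
  · exact t11 a b c (u - z) v w (2 * z) (by linarith) (by linarith) (by linarith) (by linarith) (by linarith) (by linarith) (by linarith) (by linarith)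
  · exact t12 a b c (2 * u) v w (z - u) (by linarith) (by linarith) (by linarith) (by linarith) (by linarith) (by linarith) (by linarith) (by linarith)

theorem t8 (a b c u v w z : ℝ) (hu : 0 ≤ u) (hv : 0 ≤ v) (hw : 0 ≤ w) (hz : 0 ≤ z)
    (h1 : u + v + w + z = 1) (ha : a = (1/2) * u + v + (1/2) * w + (1/2) * z)
    (hb : b = (1/2) * w + (1/2) * z)
    (hc : c = (1/2) * z) :
    0 ≤ pol a b c := by
  rcases le_total z v with h | h
  · exact t9 a b c u (v - z) w (2 * z) (by linarith) (by linarith) (by linarith) (by linarith) (by linarith) (by linarith) (by linarith) (by linarith)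
  · exact t10 a b c u (2 * v) w (z - v) (by linarith) (by linarith) (by linarith) (by linarith) (by linarith) (by linarith) (by linarith) (by linarith)

theorem t2 (a b c u v w z : ℝ) (hu : 0 ≤ u) (hv : 0 ≤ v) (hw : 0 ≤ w) (hz : 0 ≤ z)
    (h1 : u + v + w + z = 1) (ha : a = v + (1/2) * w + (1/2) * z)
    (hb : b = (1/2) * w + (1/2) * z)
    (hc : c = (1/2) * z) :
    0 ≤ pol a b c := by
  rcases le_total v u with h | h
  · exact t3 a b c (u - v) (2 * v) w z (by linarith) (by linarith) (by linarith) (by linarith) (by linarith) (by linarith) (by linarith) (by linarith)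
  · exact t8 a b c (2 * u) (v - u) w z (by linarith) (by linarith) (by linarith) (by linarith) (by linarith) (by linarith) (by linarith) (by linarith)

theorem t15 (a b c u v w z : ℝ) (hu : 0 ≤ u) (hv : 0 ≤ v) (hw : 0 ≤ w) (hz : 0 ≤ z)
    (h1 : u + v + w + z = 1) (ha : a = (1/2) * u + v + w + (3/4) * z)
    (hb : b = (1/2) * u + (1/2) * w + (1/4) * z)
    (hc : c = (1/4) * z) :
    0 ≤ pol a b c := by
  have hz1 : z = 1 - u - v - w := by linarith
  have e : pol a b c = (21/160) * (u ^ 4) + (2/5) * (u ^ 3 * v) + (11/40) * (u ^ 3 * w) +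
    (23/64) * (u ^ 3 * z) + (41/80) * (u ^ 2 * v ^ 2) + (49/80) * (u ^ 2 * v * w) +
    (247/320) * (u ^ 2 * v * z) + (19/64) * (u ^ 2 * w ^ 2) + (65/128) * (u ^ 2 * w * z) +
    (99/320) * (u ^ 2 * z ^ 2) + (7/20) * (u * v ^ 3) + (3/5) * (u * v ^ 2 * w) +
    (33/40) * (u * v ^ 2 * z) + (87/160) * (u * v * w ^ 2) + (71/80) * (u * v * w * z) +
    (173/320) * (u * v * z ^ 2) + (111/320) * (u * w ^ 3) + (343/640) * (u * w ^ 2 * z) +
    (197/640) * (u * w * z ^ 2) + (19/160) * (u * z ^ 3) + (1/20) * (v ^ 3 * w) +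
    (1/5) * (v ^ 3 * z) + (3/16) * (v ^ 2 * w ^ 2) + (1/2) * (v ^ 2 * w * z) +
    (53/160) * (v ^ 2 * z ^ 2) + (53/160) * (v * w ^ 3) + (203/320) * (v * w ^ 2 * z) +
    (151/320) * (v * w * z ^ 2) + (27/160) * (v * z ^ 3) + (31/160) * (w ^ 4) +
    (141/320) * (w ^ 3 * z) + (27/80) * (w ^ 2 * z ^ 2) + (41/320) * (w * z ^ 3) +
    (79/2560) * (z ^ 4) := by
    rw [ha, hb, hc, hz1]; unfold pol; ring
  rw [e]; positivity

theorem t16 (a b c u v w z : ℝ) (hu : 0 ≤ u) (hv : 0 ≤ v) (hw : 0 ≤ w) (hz : 0 ≤ z)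
    (h1 : u + v + w + z = 1) (ha : a = (1/2) * u + (3/4) * v + w + (1/2) * z)
    (hb : b = (1/2) * u + (1/4) * v + (1/2) * w + (1/2) * z)
    (hc : c = (1/4) * v + (1/2) * z) :
    0 ≤ pol a b c := by
  have hz1 : z = 1 - u - v - w := by linarith
  have e : pol a b c = (21/160) * (u ^ 4) + (23/64) * (u ^ 3 * v) + (11/40) * (u ^ 3 * w) +
    (51/160) * (u ^ 3 * z) + (99/320) * (u ^ 2 * v ^ 2) + (65/128) * (u ^ 2 * v * w) +
    (149/320) * (u ^ 2 * v * z) + (19/64) * (u ^ 2 * w ^ 2) + (129/320) * (u ^ 2 * w * z) +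
    (33/160) * (u ^ 2 * z ^ 2) + (19/160) * (u * v ^ 3) + (197/640) * (u * v ^ 2 * w) +
    (11/64) * (u * v ^ 2 * z) + (343/640) * (u * v * w ^ 2) + (11/32) * (u * v * w * z) +
    (7/80) * (u * v * z ^ 2) + (111/320) * (u * w ^ 3) + (169/320) * (u * w ^ 2 * z) +
    (9/160) * (u * w * z ^ 2) + (7/80) * (u * z ^ 3) + (79/2560) * (v ^ 4) +
    (41/320) * (v ^ 3 * w) + (5/64) * (v ^ 3 * z) + (27/80) * (v ^ 2 * w ^ 2) +
    (19/64) * (v ^ 2 * w * z) + (19/320) * (v ^ 2 * z ^ 2) + (141/320) * (v * w ^ 3) +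
    (229/320) * (v * w ^ 2 * z) + (3/20) * (v * w * z ^ 2) + (7/80) * (v * z ^ 3) +
    (31/160) * (w ^ 4) + (11/20) * (w ^ 3 * z) + (43/160) * (w ^ 2 * z ^ 2) +
    (7/80) * (w * z ^ 3) + (11/160) * (z ^ 4) := by
    rw [ha, hb, hc, hz1]; unfold pol; ring
  rw [e]; positivity

theorem t14 (a b c u v w z : ℝ) (hu : 0 ≤ u) (hv : 0 ≤ v) (hw : 0 ≤ w) (hz : 0 ≤ z)
    (h1 : u + v + w + z = 1) (ha : a = (1/2) * u + v + w + (1/2) * z)
    (hb : b = (1/2) * u + (1/2) * w + (1/2) * z)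
    (hc : c = (1/2) * z) :
    0 ≤ pol a b c := by
  rcases le_total z v with h | h
  · exact t15 a b c u (v - z) w (2 * z) (by linarith) (by linarith) (by linarith) (by linarith) (by linarith) (by linarith) (by linarith) (by linarith)
  · exact t16 a b c u (2 * v) w (z - v) (by linarith) (by linarith) (by linarith) (by linarith) (by linarith) (by linarith) (by linarith) (by linarith)

theorem t17 (a b c u v w z : ℝ) (hu : 0 ≤ u) (hv : 0 ≤ v) (hw : 0 ≤ w) (hz : 0 ≤ z)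
    (h1 : u + v + w + z = 1) (ha : a = (1/2) * u + v + w + (1/2) * z)
    (hb : b = (1/2) * u + (1/2) * v + w + (1/2) * z)
    (hc : c = (1/2) * z) :
    0 ≤ pol a b c := by
  have hz1 : z = 1 - u - v - w := by linarith
  have e : pol a b c = (21/160) * (u ^ 4) + (11/40) * (u ^ 3 * v) + (3/20) * (u ^ 3 * w) +
    (51/160) * (u ^ 3 * z) + (19/64) * (u ^ 2 * v ^ 2) + (23/40) * (u ^ 2 * v * w) +
    (129/320) * (u ^ 2 * v * z) + (19/40) * (u ^ 2 * w ^ 2) + (23/80) * (u ^ 2 * w * z) +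
    (33/160) * (u ^ 2 * z ^ 2) + (111/320) * (u * v ^ 3) + (123/80) * (u * v ^ 2 * w) +
    (169/320) * (u * v ^ 2 * z) + (207/80) * (u * v * w ^ 2) + (123/80) * (u * v * w * z) +
    (9/160) * (u * v * z ^ 2) + (29/20) * (u * w ^ 3) + (25/16) * (u * w ^ 2 * z) +
    (1/5) * (u * w * z ^ 2) + (7/80) * (u * z ^ 3) + (31/160) * (v ^ 4) +
    (39/32) * (v ^ 3 * w) + (11/20) * (v ^ 3 * z) + (57/20) * (v ^ 2 * w ^ 2) +
    (77/32) * (v ^ 2 * w * z) + (43/160) * (v ^ 2 * z ^ 2) + (117/40) * (v * w ^ 3) +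
    (31/8) * (v * w ^ 2 * z) + (83/80) * (v * w * z ^ 2) + (7/80) * (v * z ^ 3) +
    (11/10) * (w ^ 4) + (17/8) * (w ^ 3 * z) + (9/8) * (w ^ 2 * z ^ 2) +
    (11/40) * (w * z ^ 3) + (11/160) * (z ^ 4) := by
    rw [ha, hb, hc, hz1]; unfold pol; ring
  rw [e]; positivity

theorem t13 (a b c u v w z : ℝ) (hu : 0 ≤ u) (hv : 0 ≤ v) (hw : 0 ≤ w) (hz : 0 ≤ z)
    (h1 : u + v + w + z = 1) (ha : a = (1/2) * u + v + w + (1/2) * z)
    (hb : b = (1/2) * u + w + (1/2) * z)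
    (hc : c = (1/2) * z) :
    0 ≤ pol a b c := by
  rcases le_total w v with h | h
  · exact t14 a b c u (v - w) (2 * w) z (by linarith) (by linarith) (by linarith) (by linarith) (by linarith) (by linarith) (by linarith) (by linarith)
  · exact t17 a b c u (2 * v) (w - v) z (by linarith) (by linarith) (by linarith) (by linarith) (by linarith) (by linarith) (by linarith) (by linarith)

theorem t1 (a b c u v w z : ℝ) (hu : 0 ≤ u) (hv : 0 ≤ v) (hw : 0 ≤ w) (hz : 0 ≤ z)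
    (h1 : u + v + w + z = 1) (ha : a = v + w + (1/2) * z)
    (hb : b = w + (1/2) * z)
    (hc : c = (1/2) * z) :
    0 ≤ pol a b c := by
  rcases le_total w u with h | h
  · exact t2 a b c (u - w) v (2 * w) z (by linarith) (by linarith) (by linarith) (by linarith) (by linarith) (by linarith) (by linarith) (by linarith)
  · exact t13 a b c (2 * u) v (w - u) z (by linarith) (by linarith) (by linarith) (by linarith) (by linarith) (by linarith) (by linarith) (by linarith)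

theorem t21 (a b c u v w z : ℝ) (hu : 0 ≤ u) (hv : 0 ≤ v) (hw : 0 ≤ w) (hz : 0 ≤ z)
    (h1 : u + v + w + z = 1) (ha : a = (1/2) * u + (3/4) * v + w + z)
    (hb : b = (1/2) * u + (1/4) * v + (1/2) * w + (1/2) * z)
    (hc : c = (1/2) * u + (1/4) * v + (1/2) * z) :
    0 ≤ pol a b c := by
  have hz1 : z = 1 - u - v - w := by linarith
  have e : pol a b c = (11/160) * (u ^ 4) + (7/80) * (u ^ 3 * v) + (7/80) * (u ^ 3 * w) +
    (11/40) * (u ^ 3 * z) + (19/320) * (u ^ 2 * v ^ 2) + (3/20) * (u ^ 2 * v * w) +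
    (13/40) * (u ^ 2 * v * z) + (43/160) * (u ^ 2 * w ^ 2) + (119/160) * (u ^ 2 * w * z) +
    (133/160) * (u ^ 2 * z ^ 2) + (5/64) * (u * v ^ 3) + (19/64) * (u * v ^ 2 * w) +
    (39/160) * (u * v ^ 2 * z) + (229/320) * (u * v * w ^ 2) + (111/80) * (u * v * w * z) +
    (49/40) * (u * v * z ^ 2) + (11/20) * (u * w ^ 3) + (531/320) * (u * w ^ 2 * z) +
    (711/320) * (u * w * z ^ 2) + (39/32) * (u * z ^ 3) + (79/2560) * (v ^ 4) +
    (41/320) * (v ^ 3 * w) + (7/80) * (v ^ 3 * z) + (27/80) * (v ^ 2 * w ^ 2) +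
    (85/128) * (v ^ 2 * w * z) + (67/128) * (v ^ 2 * z ^ 2) + (141/320) * (v * w ^ 3) +
    (961/640) * (v * w ^ 2 * z) + (1277/640) * (v * w * z ^ 2) + (333/320) * (v * z ^ 3) +
    (31/160) * (w ^ 4) + (313/320) * (w ^ 3 * z) + (579/320) * (w ^ 2 * z ^ 2) +
    (259/160) * (w * z ^ 3) + (19/32) * (z ^ 4) := by
    rw [ha, hb, hc, hz1]; unfold pol; ring
  rw [e]; positivity

theorem t22 (a b c u v w z : ℝ) (hu : 0 ≤ u) (hv : 0 ≤ v) (hw : 0 ≤ w) (hz : 0 ≤ z)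
    (h1 : u + v + w + z = 1) (ha : a = (3/4) * u + v + w + z)
    (hb : b = (1/4) * u + (1/2) * w + (1/2) * z)
    (hc : c = (1/4) * u + (1/2) * z) :
    0 ≤ pol a b c := by
  have hz1 : z = 1 - u - v - w := by linarith
  have e : pol a b c = (79/2560) * (u ^ 4) + (27/160) * (u ^ 3 * v) + (41/320) * (u ^ 3 * w) +
    (7/80) * (u ^ 3 * z) + (53/160) * (u ^ 2 * v ^ 2) + (151/320) * (u ^ 2 * v * w) +
    (9/32) * (u ^ 2 * v * z) + (27/80) * (u ^ 2 * w ^ 2) + (85/128) * (u ^ 2 * w * z) +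
    (67/128) * (u ^ 2 * z ^ 2) + (1/5) * (u * v ^ 3) + (1/2) * (u * v ^ 2 * w) +
    (2/5) * (u * v ^ 2 * z) + (203/320) * (u * v * w ^ 2) + (203/160) * (u * v * w * z) +
    (139/160) * (u * v * z ^ 2) + (141/320) * (u * w ^ 3) + (961/640) * (u * w ^ 2 * z) +
    (1277/640) * (u * w * z ^ 2) + (333/320) * (u * z ^ 3) + (1/20) * (v ^ 3 * w) +
    (1/10) * (v ^ 3 * z) + (3/16) * (v ^ 2 * w ^ 2) + (5/8) * (v ^ 2 * w * z) +
    (19/40) * (v ^ 2 * z ^ 2) + (53/160) * (v * w ^ 3) + (43/32) * (v * w ^ 2 * z) +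
    (283/160) * (v * w * z ^ 2) + (69/80) * (v * z ^ 3) + (31/160) * (w ^ 4) +
    (313/320) * (w ^ 3 * z) + (579/320) * (w ^ 2 * z ^ 2) + (259/160) * (w * z ^ 3) +
    (19/32) * (z ^ 4) := by
    rw [ha, hb, hc, hz1]; unfold pol; ring
  rw [e]; positivity

theorem t20 (a b c u v w z : ℝ) (hu : 0 ≤ u) (hv : 0 ≤ v) (hw : 0 ≤ w) (hz : 0 ≤ z)
    (h1 : u + v + w + z = 1) (ha : a = (1/2) * u + v + w + z)
    (hb : b = (1/2) * u + (1/2) * w + (1/2) * z)
    (hc : c = (1/2) * u + (1/2) * z) :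
    0 ≤ pol a b c := by
  rcases le_total v u with h | h
  · exact t21 a b c (u - v) (2 * v) w z (by linarith) (by linarith) (by linarith) (by linarith) (by linarith) (by linarith) (by linarith) (by linarith)
  · exact t22 a b c (2 * u) (v - u) w z (by linarith) (by linarith) (by linarith) (by linarith) (by linarith) (by linarith) (by linarith) (by linarith)

theorem t23 (a b c u v w z : ℝ) (hu : 0 ≤ u) (hv : 0 ≤ v) (hw : 0 ≤ w) (hz : 0 ≤ z)
    (h1 : u + v + w + z = 1) (ha : a = (1/2) * u + v + w + z)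
    (hb : b = (1/2) * u + (1/2) * v + w + (1/2) * z)
    (hc : c = (1/2) * u + (1/2) * z) :
    0 ≤ pol a b c := by
  have hz1 : z = 1 - u - v - w := by linarith
  have e : pol a b c = (11/160) * (u ^ 4) + (7/80) * (u ^ 3 * v) + (11/40) * (u ^ 3 * w) +
    (11/40) * (u ^ 3 * z) + (43/160) * (u ^ 2 * v ^ 2) + (83/80) * (u ^ 2 * v * w) +
    (119/160) * (u ^ 2 * v * z) + (9/8) * (u ^ 2 * w ^ 2) + (133/80) * (u ^ 2 * w * z) +
    (133/160) * (u ^ 2 * z ^ 2) + (11/20) * (u * v ^ 3) + (77/32) * (u * v ^ 2 * w) +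
    (531/320) * (u * v ^ 2 * z) + (31/8) * (u * v * w ^ 2) + (107/20) * (u * v * w * z) +
    (711/320) * (u * v * z ^ 2) + (17/8) * (u * w ^ 3) + (73/16) * (u * w ^ 2 * z) +
    (117/32) * (u * w * z ^ 2) + (39/32) * (u * z ^ 3) + (31/160) * (v ^ 4) +
    (39/32) * (v ^ 3 * w) + (313/320) * (v ^ 3 * z) + (57/20) * (v ^ 2 * w ^ 2) +
    (181/40) * (v ^ 2 * w * z) + (579/320) * (v ^ 2 * z ^ 2) + (117/40) * (v * w ^ 3) +
    (559/80) * (v * w ^ 2 * z) + (175/32) * (v * w * z ^ 2) + (259/160) * (v * z ^ 3) +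
    (11/10) * (w ^ 4) + (18/5) * (w ^ 3 * z) + (167/40) * (w ^ 2 * z ^ 2) +
    (19/8) * (w * z ^ 3) + (19/32) * (z ^ 4) := by
    rw [ha, hb, hc, hz1]; unfold pol; ring
  rw [e]; positivity

theorem t19 (a b c u v w z : ℝ) (hu : 0 ≤ u) (hv : 0 ≤ v) (hw : 0 ≤ w) (hz : 0 ≤ z)
    (h1 : u + v + w + z = 1) (ha : a = (1/2) * u + v + w + z)
    (hb : b = (1/2) * u + w + (1/2) * z)
    (hc : c = (1/2) * u + (1/2) * z) :
    0 ≤ pol a b c := by
  rcases le_total w v with h | h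
  · exact t20 a b c u (v - w) (2 * w) z (by linarith) (by linarith) (by linarith) (by linarith) (by linarith) (by linarith) (by linarith) (by linarith)
  · exact t23 a b c u (2 * v) (w - v) z (by linarith) (by linarith) (by linarith) (by linarith) (by linarith) (by linarith) (by linarith) (by linarith)

theorem t24 (a b c u v w z : ℝ) (hu : 0 ≤ u) (hv : 0 ≤ v) (hw : 0 ≤ w) (hz : 0 ≤ z)
    (h1 : u + v + w + z = 1) (ha : a = (1/2) * u + v + w + z)
    (hb : b = (1/2) * u + (1/2) * v + w + z)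
    (hc : c = (1/2) * u + (1/2) * v + z) :
    0 ≤ pol a b c := by
  have hz1 : z = 1 - u - v - w := by linarith
  have e : pol a b c = (11/160) * (u ^ 4) + (11/40) * (u ^ 3 * v) + (11/40) * (u ^ 3 * w) +
    (13/20) * (u ^ 3 * z) + (133/160) * (u ^ 2 * v ^ 2) + (133/80) * (u ^ 2 * v * w) +
    (7/2) * (u ^ 2 * v * z) + (9/8) * (u ^ 2 * w ^ 2) + (7/2) * (u ^ 2 * w * z) +
    (19/5) * (u ^ 2 * z ^ 2) + (39/32) * (u * v ^ 3) + (117/32) * (u * v ^ 2 * w) +
    (261/40) * (u * v ^ 2 * z) + (73/16) * (u * v * w ^ 2) + (261/20) * (u * v * w * z) +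
    (479/40) * (u * v * z ^ 2) + (17/8) * (u * w ^ 3) + (31/4) * (u * w ^ 2 * z) +
    (479/40) * (u * w * z ^ 2) + (36/5) * (u * z ^ 3) + (19/32) * (v ^ 4) +
    (19/8) * (v ^ 3 * w) + (311/80) * (v ^ 3 * z) + (167/40) * (v ^ 2 * w ^ 2) +
    (933/80) * (v ^ 2 * w * z) + (191/20) * (v ^ 2 * z ^ 2) + (18/5) * (v * w ^ 3) +
    (541/40) * (v * w ^ 2 * z) + (191/10) * (v * w * z ^ 2) + (209/20) * (v * z ^ 3) +
    (11/10) * (w ^ 4) + (23/4) * (w ^ 3 * z) + (54/5) * (w ^ 2 * z ^ 2) +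
    (209/20) * (w * z ^ 3) + (43/10) * (z ^ 4) := by
    rw [ha, hb, hc, hz1]; unfold pol; ring
  rw [e]; positivity

theorem t18 (a b c u v w z : ℝ) (hu : 0 ≤ u) (hv : 0 ≤ v) (hw : 0 ≤ w) (hz : 0 ≤ z)
    (h1 : u + v + w + z = 1) (ha : a = (1/2) * u + v + w + z)
    (hb : b = (1/2) * u + w + z)
    (hc : c = (1/2) * u + z) :
    0 ≤ pol a b c := by
  rcases le_total z v with h | h
  · exact t19 a b c u (v - z) w (2 * z) (by linarith) (by linarith) (by linarith) (by linarith) (by linarith) (by linarith) (by linarith) (by linarith)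
  · exact t24 a b c u (2 * v) w (z - v) (by linarith) (by linarith) (by linarith) (by linarith) (by linarith) (by linarith) (by linarith) (by linarith)

theorem t0 (a b c u v w z : ℝ) (hu : 0 ≤ u) (hv : 0 ≤ v) (hw : 0 ≤ w) (hz : 0 ≤ z)
    (h1 : u + v + w + z = 1) (ha : a = v + w + z)
    (hb : b = w + z)
    (hc : c = z) :
    0 ≤ pol a b c := by
  rcases le_total z u with h | h
  · exact t1 a b c (u - z) v w (2 * z) (by linarith) (by linarith) (by linarith) (by linarith) (by linarith) (by linarith) (by linarith) (by linarith)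
  · exact t18 a b c (2 * u) v w (z - u) (by linarith) (by linarith) (by linarith) (by linarith) (by linarith) (by linarith) (by linarith) (by linarith)

end H3Aux

theorem stmt_H3 : Stmt_H3 := by
  intro a b c hc hcb hba ha
  have := H3Aux.t0 a b c (1 - a) (a - b) (b - c) c (by linarith) (by linarith) (by linarith)
    (by linarith) (by linarith) (by linarith) (by linarith) (by linarith)
  simpa only [H3Aux.pol] using this

end Pool.Agent.MP4da8b1Q1
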