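import Pool.Agent.Work.MP_4da8b1_Q1_helper46.Interface

/-!
# MP_4da8b1_gt, Q1: block H4

The simplex `0 ≤ c ≤ b ≤ a ≤ 1` is bisected into small simplices; on each of them the polynomial
is a combination of monomials in the barycentric coordinates with nonnegative coefficients.
-/

set_option autoImplicit false

namespace Pool.Agent.MP4da8b1Q1
namespace H4Aux

/-- left side of **H3** minus `10/3 s L`, where `s ≤ L` -/
noncomputable def pol (a b c : ℝ) : ℝ :=
  (1 - a) * (1 - 2 / 5 * a) - (b + c) * (9 / 10 - 3 / 20 * a - 17 / 20 * a ^ 3) +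
      3 / 20 * (b ^ 2 + c ^ 2) + 2 / 5 * (b * c) + 17 / 20 * a * (b ^ 3 + c ^ 3) +
      17 / 20 * (b * c) * (b ^ 2 + c ^ 2) -
      10 / 3 * (2 / 5 - 3 / 20 * (a + b + c) - 17 / 20 * (a ^ 3 + b ^ 3 + c ^ 3)) *
      (2 / 5 - 3 / 20 * (a + b + c) - 17 / 20 * (3 / 16 * (a + b + c) - 6 / 64))

theorem t3 (a b c u v w z : ℝ) (hu : 0 ≤ u) (hv : 0 ≤ v) (hw : 0 ≤ w) (hz : 0 ≤ z)
    (h1 : u + v + w + z = 1) (ha : a = (1/2) * v + (1/2) * w + (1/2) * z)
    (hb : b = (1/2) * w + (1/2) * z)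
    (hc : c = (1/2) * z) :
    0 ≤ pol a b c := by
  have hz1 : z = 1 - u - v - w := by linarith
  have e : pol a b c = (173/480) * (u ^ 4) + (8201/7680) * (u ^ 3 * v) + (725/768) * (u ^ 3 * w) +
    (6299/7680) * (u ^ 3 * z) + (1411/1280) * (u ^ 2 * v ^ 2) + (4591/2560) * (u ^ 2 * v * w) +
    (1769/1280) * (u ^ 2 * v * z) + (883/1280) * (u ^ 2 * w ^ 2) + (2537/2560) * (u ^ 2 * w * z) +
    (3/10) * (u ^ 2 * z ^ 2) + (18823/30720) * (u * v ^ 3) + (14203/10240) * (u * v ^ 2 * w) +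
    (9583/10240) * (u * v ^ 2 * z) + (9559/10240) * (u * v * w ^ 2) + (5171/5120) * (u * v * w * z) +
    (759/10240) * (u * v * z ^ 2) + (337/1024) * (u * w ^ 3) + (2977/5120) * (u * w ^ 2 * z) +
    (887/5120) * (u * w * z ^ 2) + (2789/30720) * (u * z ^ 3) + (313/1920) * (v ^ 4) +
    (14953/30720) * (v ^ 3 * w) + (4937/15360) * (v ^ 3 * z) + (985/2048) * (v ^ 2 * w ^ 2) +
    (5003/10240) * (v ^ 2 * w * z) + (33/5120) * (v ^ 2 * z ^ 2) + (3297/10240) * (v * w ^ 3) +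
    (1319/2560) * (v * w ^ 2 * z) + (637/10240) * (v * w * z ^ 2) + (571/15360) * (v * z ^ 3) +
    (563/5120) * (w ^ 4) + (1513/5120) * (w ^ 3 * z) + (231/1024) * (w ^ 2 * z ^ 2) +
    (1051/6144) * (w * z ^ 3) + (1171/15360) * (z ^ 4) := by
    rw [ha, hb, hc, hz1]; unfold pol; ring
  rw [e]; positivity

theorem t5 (a b c u v w z : ℝ) (hu : 0 ≤ u) (hv : 0 ≤ v) (hw : 0 ≤ w) (hz : 0 ≤ z)
    (h1 : u + v + w + z = 1) (ha : a = (1/2) * u + v + (1/2) * w + (3/4) * z)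
    (hb : b = (1/2) * w + (1/4) * z)
    (hc : c = (1/4) * z) :
    0 ≤ pol a b c := by
  have hz1 : z = 1 - u - v - w := by linarith
  have e : pol a b c = (313/1920) * (u ^ 4) + (21241/30720) * (u ^ 3 * v) + (14953/30720) * (u ^ 3 * w) +
    (6223/12288) * (u ^ 3 * z) + (6853/5120) * (u ^ 2 * v ^ 2) + (15703/10240) * (u ^ 2 * v * w) +
    (37577/20480) * (u ^ 2 * v * z) + (985/2048) * (u ^ 2 * w ^ 2) + (10353/10240) * (u ^ 2 * w * z) +
    (23937/40960) * (u ^ 2 * z ^ 2) + (1543/1280) * (u * v ^ 3) + (5341/2560) * (u * v ^ 2 * w) +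
    (13087/5120) * (u * v ^ 2 * z) + (10141/10240) * (u * v * w ^ 2) + (26199/10240) * (u * v * w * z) +
    (67169/40960) * (u * v * z ^ 2) + (3297/10240) * (u * w ^ 3) + (15417/20480) * (u * w ^ 2 * z) +
    (31671/40960) * (u * w * z ^ 2) + (82637/245760) * (u * z ^ 3) + (109/320) * (v ^ 4) +
    (2531/2560) * (v ^ 3 * w) + (683/640) * (v ^ 3 * z) + (3823/5120) * (v ^ 2 * w ^ 2) +
    (4981/2560) * (v ^ 2 * w * z) + (23229/20480) * (v ^ 2 * z ^ 2) + (403/1280) * (v * w ^ 3) +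
    (1989/2048) * (v * w ^ 2 * z) + (6103/5120) * (v * w * z ^ 2) + (24679/49152) * (v * z ^ 3) +
    (563/5120) * (w ^ 4) + (625/2048) * (w ^ 3 * z) + (7277/20480) * (w ^ 2 * z ^ 2) +
    (12511/49152) * (w * z ^ 3) + (41467/491520) * (z ^ 4) := by
    rw [ha, hb, hc, hz1]; unfold pol; ring
  rw [e]; positivity

theorem t6 (a b c u v w z : ℝ) (hu : 0 ≤ u) (hv : 0 ≤ v) (hw : 0 ≤ w) (hz : 0 ≤ z)
    (h1 : u + v + w + z = 1) (ha : a = (1/2) * u + (3/4) * v + (1/2) * w + (1/2) * z)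
    (hb : b = (1/4) * v + (1/2) * w + (1/2) * z)
    (hc : c = (1/4) * v + (1/2) * z) :
    0 ≤ pol a b c := by
  have hz1 : z = 1 - u - v - w := by linarith
  have e : pol a b c = (313/1920) * (u ^ 4) + (6223/12288) * (u ^ 3 * v) + (14953/30720) * (u ^ 3 * w) +
    (4937/15360) * (u ^ 3 * z) + (23937/40960) * (u ^ 2 * v ^ 2) + (10353/10240) * (u ^ 2 * v * w) +
    (10297/20480) * (u ^ 2 * v * z) + (985/2048) * (u ^ 2 * w ^ 2) + (5003/10240) * (u ^ 2 * w * z) +
    (33/5120) * (u ^ 2 * z ^ 2) + (82637/245760) * (u * v ^ 3) + (31671/40960) * (u * v ^ 2 * w) +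
    (3867/10240) * (u * v ^ 2 * z) + (15417/20480) * (u * v * w ^ 2) + (171/320) * (u * v * w * z) +
    (647/20480) * (u * v * z ^ 2) + (3297/10240) * (u * w ^ 3) + (1319/2560) * (u * w ^ 2 * z) +
    (637/10240) * (u * w * z ^ 2) + (571/15360) * (u * z ^ 3) + (41467/491520) * (v ^ 4) +
    (12511/49152) * (v ^ 3 * w) + (42473/245760) * (v ^ 3 * z) + (7277/20480) * (v ^ 2 * w ^ 2) +
    (13731/40960) * (v ^ 2 * w * z) + (5997/40960) * (v ^ 2 * z ^ 2) + (625/2048) * (v * w ^ 3) +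
    (4609/10240) * (v * w ^ 2 * z) + (951/4096) * (v * w * z ^ 2) + (8863/61440) * (v * z ^ 3) +
    (563/5120) * (w ^ 4) + (1513/5120) * (w ^ 3 * z) + (231/1024) * (w ^ 2 * z ^ 2) +
    (1051/6144) * (w * z ^ 3) + (1171/15360) * (z ^ 4) := by
    rw [ha, hb, hc, hz1]; unfold pol; ring
  rw [e]; positivity

theorem t4 (a b c u v w z : ℝ) (hu : 0 ≤ u) (hv : 0 ≤ v) (hw : 0 ≤ w) (hz : 0 ≤ z)
    (h1 : u + v + w + z = 1) (ha : a = (1/2) * u + v + (1/2) * w + (1/2) * z)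
    (hb : b = (1/2) * w + (1/2) * z)
    (hc : c = (1/2) * z) :
    0 ≤ pol a b c := by
  rcases le_total z v with h | h
  · exact t5 a b c u (v - z) w (2 * z) (by linarith) (by linarith) (by linarith) (by linarith) (by linarith) (by linarith) (by linarith) (by linarith)
  · exact t6 a b c u (2 * v) w (z - v) (by linarith) (by linarith) (by linarith) (by linarith) (by linarith) (by linarith) (by linarith) (by linarith)

theorem t2 (a b c u v w z : ℝ) (hu : 0 ≤ u) (hv : 0 ≤ v) (hw : 0 ≤ w) (hz : 0 ≤ z)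
    (h1 : u + v + w + z = 1) (ha : a = v + (1/2) * w + (1/2) * z)
    (hb : b = (1/2) * w + (1/2) * z)
    (hc : c = (1/2) * z) :
    0 ≤ pol a b c := by
  rcases le_total v u with h | h
  · exact t3 a b c (u - v) (2 * v) w z (by linarith) (by linarith) (by linarith) (by linarith) (by linarith) (by linarith) (by linarith) (by linarith)
  · exact t4 a b c (2 * u) (v - u) w z (by linarith) (by linarith) (by linarith) (by linarith) (by linarith) (by linarith) (by linarith) (by linarith)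

theorem t9 (a b c u v w z : ℝ) (hu : 0 ≤ u) (hv : 0 ≤ v) (hw : 0 ≤ w) (hz : 0 ≤ z)
    (h1 : u + v + w + z = 1) (ha : a = (1/2) * u + v + w + (3/4) * z)
    (hb : b = (1/2) * u + (1/2) * w + (1/4) * z)
    (hc : c = (1/4) * z) :
    0 ≤ pol a b c := by
  have hz1 : z = 1 - u - v - w := by linarith
  have e : pol a b c = (563/5120) * (u ^ 4) + (403/1280) * (u ^ 3 * v) + (4431/10240) * (u ^ 3 * w) +
    (625/2048) * (u ^ 3 * z) + (3823/5120) * (u ^ 2 * v ^ 2) + (14823/10240) * (u ^ 2 * v * w) +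
    (1989/2048) * (u ^ 2 * v * z) + (8967/10240) * (u ^ 2 * w ^ 2) + (23223/20480) * (u ^ 2 * w * z) +
    (7277/20480) * (u ^ 2 * z ^ 2) + (2531/2560) * (u * v ^ 3) + (1215/512) * (u * v ^ 2 * w) +
    (4981/2560) * (u * v ^ 2 * z) + (23321/10240) * (u * v * w ^ 2) + (33539/10240) * (u * v * w * z) +
    (6103/5120) * (u * v * z ^ 2) + (25871/30720) * (u * w ^ 3) + (8963/5120) * (u * w ^ 2 * z) +
    (46261/40960) * (u * w * z ^ 2) + (12511/49152) * (u * z ^ 3) + (109/320) * (v ^ 4) +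
    (2933/2560) * (v ^ 3 * w) + (683/640) * (v ^ 3 * z) + (891/640) * (v ^ 2 * w ^ 2) +
    (13267/5120) * (v ^ 2 * w * z) + (23229/20480) * (v ^ 2 * z ^ 2) + (26921/30720) * (v * w ^ 3) +
    (45637/20480) * (v * w ^ 2 * z) + (74571/40960) * (v * w * z ^ 2) + (24679/49152) * (v * z ^ 3) +
    (3601/15360) * (w ^ 4) + (46777/61440) * (w ^ 3 * z) + (34933/40960) * (w ^ 2 * z ^ 2) +
    (103313/245760) * (w * z ^ 3) + (41467/491520) * (z ^ 4) := by
    rw [ha, hb, hc, hz1]; unfold pol; ring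
  rw [e]; positivity

theorem t10 (a b c u v w z : ℝ) (hu : 0 ≤ u) (hv : 0 ≤ v) (hw : 0 ≤ w) (hz : 0 ≤ z)
    (h1 : u + v + w + z = 1) (ha : a = (1/2) * u + (3/4) * v + w + (1/2) * z)
    (hb : b = (1/2) * u + (1/4) * v + (1/2) * w + (1/2) * z)
    (hc : c = (1/4) * v + (1/2) * z) :
    0 ≤ pol a b c := by
  have hz1 : z = 1 - u - v - w := by linarith
  have e : pol a b c = (563/5120) * (u ^ 4) + (625/2048) * (u ^ 3 * v) + (4431/10240) * (u ^ 3 * w) +
    (1513/5120) * (u ^ 3 * z) + (7277/20480) * (u ^ 2 * v ^ 2) + (23223/20480) * (u ^ 2 * v * w) +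
    (4609/10240) * (u ^ 2 * v * z) + (8967/10240) * (u ^ 2 * w ^ 2) + (105/128) * (u ^ 2 * w * z) +
    (231/1024) * (u ^ 2 * z ^ 2) + (12511/49152) * (u * v ^ 3) + (46261/40960) * (u * v ^ 2 * w) +
    (13731/40960) * (u * v ^ 2 * z) + (8963/5120) * (u * v * w ^ 2) + (6361/5120) * (u * v * w * z) +
    (951/4096) * (u * v * z ^ 2) + (25871/30720) * (u * w ^ 3) + (12531/10240) * (u * w ^ 2 * z) +
    (3483/10240) * (u * w * z ^ 2) + (1051/6144) * (u * z ^ 3) + (41467/491520) * (v ^ 4) +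
    (103313/245760) * (v ^ 3 * w) + (42473/245760) * (v ^ 3 * z) + (34933/40960) * (v ^ 2 * w ^ 2) +
    (14371/20480) * (v ^ 2 * w * z) + (5997/40960) * (v ^ 2 * z ^ 2) + (46777/61440) * (v * w ^ 3) +
    (24229/20480) * (v * w ^ 2 * z) + (7239/20480) * (v * w * z ^ 2) + (8863/61440) * (v * z ^ 3) +
    (3601/15360) * (w ^ 4) + (1241/1920) * (w ^ 3 * z) + (111/320) * (w ^ 2 * z ^ 2) +
    (451/3840) * (w * z ^ 3) + (1171/15360) * (z ^ 4) := by
    rw [ha, hb, hc, hz1]; unfold pol; ring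
  rw [e]; positivity

theorem t8 (a b c u v w z : ℝ) (hu : 0 ≤ u) (hv : 0 ≤ v) (hw : 0 ≤ w) (hz : 0 ≤ z)
    (h1 : u + v + w + z = 1) (ha : a = (1/2) * u + v + w + (1/2) * z)
    (hb : b = (1/2) * u + (1/2) * w + (1/2) * z)
    (hc : c = (1/2) * z) :
    0 ≤ pol a b c := by
  rcases le_total z v with h | h
  · exact t9 a b c u (v - z) w (2 * z) (by linarith) (by linarith) (by linarith) (by linarith) (by linarith) (by linarith) (by linarith) (by linarith)
  · exact t10 a b c u (2 * v) w (z - v) (by linarith) (by linarith) (by linarith) (by linarith) (by linarith) (by linarith) (by linarith) (by linarith)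

theorem t11 (a b c u v w z : ℝ) (hu : 0 ≤ u) (hv : 0 ≤ v) (hw : 0 ≤ w) (hz : 0 ≤ z)
    (h1 : u + v + w + z = 1) (ha : a = (1/2) * u + v + w + (1/2) * z)
    (hb : b = (1/2) * u + (1/2) * v + w + (1/2) * z)
    (hc : c = (1/2) * z) :
    0 ≤ pol a b c := by
  have hz1 : z = 1 - u - v - w := by linarith
  have e : pol a b c = (563/5120) * (u ^ 4) + (4431/10240) * (u ^ 3 * v) + (2819/5120) * (u ^ 3 * w) +
    (1513/5120) * (u ^ 3 * z) + (8967/10240) * (u ^ 2 * v ^ 2) + (4209/2048) * (u ^ 2 * v * w) +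
    (105/128) * (u ^ 2 * v * z) + (3467/2560) * (u ^ 2 * w ^ 2) + (6101/5120) * (u ^ 2 * w * z) +
    (231/1024) * (u ^ 2 * z ^ 2) + (25871/30720) * (u * v ^ 3) + (28421/10240) * (u * v ^ 2 * w) +
    (12531/10240) * (u * v ^ 2 * z) + (1725/512) * (u * v * w ^ 2) + (15823/5120) * (u * v * w * z) +
    (3483/10240) * (u * v * z ^ 2) + (2659/1920) * (u * w ^ 3) + (5661/2560) * (u * w ^ 2 * z) +
    (3733/5120) * (u * w * z ^ 2) + (1051/6144) * (u * z ^ 3) + (3601/15360) * (v ^ 4) +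
    (6139/6144) * (v ^ 3 * w) + (1241/1920) * (v ^ 3 * z) + (1803/1024) * (v ^ 2 * w ^ 2) +
    (22587/10240) * (v ^ 2 * w * z) + (111/320) * (v ^ 2 * z ^ 2) + (5411/3840) * (v * w ^ 3) +
    (7199/2560) * (v * w ^ 2 * z) + (10577/10240) * (v * w * z ^ 2) + (451/3840) * (v * z ^ 3) +
    (43/120) * (w ^ 4) + (9217/7680) * (w ^ 3 * z) + (2191/2560) * (w ^ 2 * z ^ 2) +
    (7721/30720) * (w * z ^ 3) + (1171/15360) * (z ^ 4) := by
    rw [ha, hb, hc, hz1]; unfold pol; ring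
  rw [e]; positivity

theorem t7 (a b c u v w z : ℝ) (hu : 0 ≤ u) (hv : 0 ≤ v) (hw : 0 ≤ w) (hz : 0 ≤ z)
    (h1 : u + v + w + z = 1) (ha : a = (1/2) * u + v + w + (1/2) * z)
    (hb : b = (1/2) * u + w + (1/2) * z)
    (hc : c = (1/2) * z) :
    0 ≤ pol a b c := by
  rcases le_total w v with h | h
  · exact t8 a b c u (v - w) (2 * w) z (by linarith) (by linarith) (by linarith) (by linarith) (by linarith) (by linarith) (by linarith) (by linarith)
  · exact t11 a b c u (2 * v) (w - v) z (by linarith) (by linarith) (by linarith) (by linarith) (by linarith) (by linarith) (by linarith) (by linarith)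

theorem t1 (a b c u v w z : ℝ) (hu : 0 ≤ u) (hv : 0 ≤ v) (hw : 0 ≤ w) (hz : 0 ≤ z)
    (h1 : u + v + w + z = 1) (ha : a = v + w + (1/2) * z)
    (hb : b = w + (1/2) * z)
    (hc : c = (1/2) * z) :
    0 ≤ pol a b c := by
  rcases le_total w u with h | h
  · exact t2 a b c (u - w) v (2 * w) z (by linarith) (by linarith) (by linarith) (by linarith) (by linarith) (by linarith) (by linarith) (by linarith)
  · exact t7 a b c (2 * u) v (w - u) z (by linarith) (by linarith) (by linarith) (by linarith) (by linarith) (by linarith) (by linarith) (by linarith)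

theorem t15 (a b c u v w z : ℝ) (hu : 0 ≤ u) (hv : 0 ≤ v) (hw : 0 ≤ w) (hz : 0 ≤ z)
    (h1 : u + v + w + z = 1) (ha : a = (1/2) * u + (3/4) * v + w + z)
    (hb : b = (1/2) * u + (1/4) * v + (1/2) * w + (1/2) * z)
    (hc : c = (1/2) * u + (1/4) * v + (1/2) * z) :
    0 ≤ pol a b c := by
  have hz1 : z = 1 - u - v - w := by linarith
  have e : pol a b c = (1171/15360) * (u ^ 4) + (8863/61440) * (u ^ 3 * v) + (451/3840) * (u ^ 3 * w) +
    (7721/30720) * (u ^ 3 * z) + (5997/40960) * (u ^ 2 * v ^ 2) + (7239/20480) * (u ^ 2 * v * w) +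
    (11347/20480) * (u ^ 2 * v * z) + (111/320) * (u ^ 2 * w ^ 2) + (7229/10240) * (u ^ 2 * w * z) +
    (677/1280) * (u ^ 2 * z ^ 2) + (42473/245760) * (u * v ^ 3) + (14371/20480) * (u * v ^ 2 * w) +
    (5401/8192) * (u * v ^ 2 * z) + (24229/20480) * (u * v * w ^ 2) + (9373/5120) * (u * v * w * z) +
    (10917/10240) * (u * v * z ^ 2) + (1241/1920) * (u * w ^ 3) + (14429/10240) * (u * w ^ 2 * z) +
    (3511/2560) * (u * w * z ^ 2) + (8543/15360) * (u * z ^ 3) + (41467/491520) * (v ^ 4) +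
    (103313/245760) * (v ^ 3 * w) + (83231/245760) * (v ^ 3 * z) + (34933/40960) * (v ^ 2 * w ^ 2) +
    (52347/40960) * (v ^ 2 * w * z) + (12117/20480) * (v ^ 2 * z ^ 2) + (46777/61440) * (v * w ^ 3) +
    (17577/10240) * (v * w ^ 2 * z) + (28549/20480) * (v * w * z ^ 2) + (119/240) * (v * z ^ 3) +
    (3601/15360) * (w ^ 4) + (22793/30720) * (w ^ 3 * z) + (8377/10240) * (w ^ 2 * z ^ 2) +
    (15757/30720) * (w * z ^ 3) + (2267/15360) * (z ^ 4) := by
    rw [ha, hb, hc, hz1]; unfold pol; ring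
  rw [e]; positivity

theorem t16 (a b c u v w z : ℝ) (hu : 0 ≤ u) (hv : 0 ≤ v) (hw : 0 ≤ w) (hz : 0 ≤ z)
    (h1 : u + v + w + z = 1) (ha : a = (3/4) * u + v + w + z)
    (hb : b = (1/4) * u + (1/2) * w + (1/2) * z)
    (hc : c = (1/4) * u + (1/2) * z) :
    0 ≤ pol a b c := by
  have hz1 : z = 1 - u - v - w := by linarith
  have e : pol a b c = (41467/491520) * (u ^ 4) + (24679/49152) * (u ^ 3 * v) + (103313/245760) * (u ^ 3 * w) +
    (83231/245760) * (u ^ 3 * z) + (23229/20480) * (u ^ 2 * v ^ 2) + (74571/40960) * (u ^ 2 * v * w) +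
    (28113/20480) * (u ^ 2 * v * z) + (34933/40960) * (u ^ 2 * w ^ 2) + (52347/40960) * (u ^ 2 * w * z) +
    (12117/20480) * (u ^ 2 * z ^ 2) + (683/640) * (u * v ^ 3) + (13267/5120) * (u * v ^ 2 * w) +
    (5071/2560) * (u * v ^ 2 * z) + (45637/20480) * (u * v * w ^ 2) + (33601/10240) * (u * v * w * z) +
    (13317/10240) * (u * v * z ^ 2) + (46777/61440) * (u * w ^ 3) + (17577/10240) * (u * w ^ 2 * z) +
    (28549/20480) * (u * w * z ^ 2) + (119/240) * (u * z ^ 3) + (109/320) * (v ^ 4) +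
    (2933/2560) * (v ^ 3 * w) + (1189/1280) * (v ^ 3 * z) + (891/640) * (v ^ 2 * w ^ 2) +
    (5521/2560) * (v ^ 2 * w * z) + (977/1280) * (v ^ 2 * z ^ 2) + (26921/30720) * (v * w ^ 3) +
    (4145/2048) * (v * w ^ 2 * z) + (2901/2048) * (v * w * z ^ 2) + (6689/15360) * (v * z ^ 3) +
    (3601/15360) * (w ^ 4) + (22793/30720) * (w ^ 3 * z) + (8377/10240) * (w ^ 2 * z ^ 2) +
    (15757/30720) * (w * z ^ 3) + (2267/15360) * (z ^ 4) := by
    rw [ha, hb, hc, hz1]; unfold pol; ring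
  rw [e]; positivity

theorem t14 (a b c u v w z : ℝ) (hu : 0 ≤ u) (hv : 0 ≤ v) (hw : 0 ≤ w) (hz : 0 ≤ z)
    (h1 : u + v + w + z = 1) (ha : a = (1/2) * u + v + w + z)
    (hb : b = (1/2) * u + (1/2) * w + (1/2) * z)
    (hc : c = (1/2) * u + (1/2) * z) :
    0 ≤ pol a b c := by
  rcases le_total v u with h | h
  · exact t15 a b c (u - v) (2 * v) w z (by linarith) (by linarith) (by linarith) (by linarith) (by linarith) (by linarith) (by linarith) (by linarith)
  · exact t16 a b c (2 * u) (v - u) w z (by linarith) (by linarith) (by linarith) (by linarith) (by linarith) (by linarith) (by linarith) (by linarith)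

theorem t17 (a b c u v w z : ℝ) (hu : 0 ≤ u) (hv : 0 ≤ v) (hw : 0 ≤ w) (hz : 0 ≤ z)
    (h1 : u + v + w + z = 1) (ha : a = (1/2) * u + v + w + z)
    (hb : b = (1/2) * u + (1/2) * v + w + (1/2) * z)
    (hc : c = (1/2) * u + (1/2) * z) :
    0 ≤ pol a b c := by
  have hz1 : z = 1 - u - v - w := by linarith
  have e : pol a b c = (1171/15360) * (u ^ 4) + (451/3840) * (u ^ 3 * v) + (7721/30720) * (u ^ 3 * w) +
    (7721/30720) * (u ^ 3 * z) + (111/320) * (u ^ 2 * v ^ 2) + (10577/10240) * (u ^ 2 * v * w) +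
    (7229/10240) * (u ^ 2 * v * z) + (2191/2560) * (u ^ 2 * w ^ 2) + (677/640) * (u ^ 2 * w * z) +
    (677/1280) * (u ^ 2 * z ^ 2) + (1241/1920) * (u * v ^ 3) + (22587/10240) * (u * v ^ 2 * w) +
    (14429/10240) * (u * v ^ 2 * z) + (7199/2560) * (u * v * w ^ 2) + (17341/5120) * (u * v * w * z) +
    (3511/2560) * (u * v * z ^ 2) + (9217/7680) * (u * w ^ 3) + (37/16) * (u * w ^ 2 * z) +
    (8543/5120) * (u * w * z ^ 2) + (8543/15360) * (u * z ^ 3) + (3601/15360) * (v ^ 4) +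
    (6139/6144) * (v ^ 3 * w) + (22793/30720) * (v ^ 3 * z) + (1803/1024) * (v ^ 2 * w ^ 2) +
    (24861/10240) * (v ^ 2 * w * z) + (8377/10240) * (v ^ 2 * z ^ 2) + (5411/3840) * (v * w ^ 3) +
    (7589/2560) * (v * w ^ 2 * z) + (19003/10240) * (v * w * z ^ 2) + (15757/30720) * (v * z ^ 3) +
    (43/120) * (w ^ 4) + (9403/7680) * (w ^ 3 * z) + (6157/5120) * (w ^ 2 * z ^ 2) +
    (2267/3840) * (w * z ^ 3) + (2267/15360) * (z ^ 4) := by
    rw [ha, hb, hc, hz1]; unfold pol; ring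
  rw [e]; positivity

theorem t13 (a b c u v w z : ℝ) (hu : 0 ≤ u) (hv : 0 ≤ v) (hw : 0 ≤ w) (hz : 0 ≤ z)
    (h1 : u + v + w + z = 1) (ha : a = (1/2) * u + v + w + z)
    (hb : b = (1/2) * u + w + (1/2) * z)
    (hc : c = (1/2) * u + (1/2) * z) :
    0 ≤ pol a b c := by
  rcases le_total w v with h | h
  · exact t14 a b c u (v - w) (2 * w) z (by linarith) (by linarith) (by linarith) (by linarith) (by linarith) (by linarith) (by linarith) (by linarith)
  · exact t17 a b c u (2 * v) (w - v) z (by linarith) (by linarith) (by linarith) (by linarith) (by linarith) (by linarith) (by linarith) (by linarith)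

theorem t18 (a b c u v w z : ℝ) (hu : 0 ≤ u) (hv : 0 ≤ v) (hw : 0 ≤ w) (hz : 0 ≤ z)
    (h1 : u + v + w + z = 1) (ha : a = (1/2) * u + v + w + z)
    (hb : b = (1/2) * u + (1/2) * v + w + z)
    (hc : c = (1/2) * u + (1/2) * v + z) :
    0 ≤ pol a b c := by
  have hz1 : z = 1 - u - v - w := by linarith
  have e : pol a b c = (1171/15360) * (u ^ 4) + (7721/30720) * (u ^ 3 * v) + (7721/30720) * (u ^ 3 * w) +
    (15947/30720) * (u ^ 3 * z) + (677/1280) * (u ^ 2 * v ^ 2) + (677/640) * (u ^ 2 * v * w) +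
    (9019/5120) * (u ^ 2 * v * z) + (2191/2560) * (u ^ 2 * w ^ 2) + (9019/5120) * (u ^ 2 * w * z) +
    (1623/1024) * (u ^ 2 * z ^ 2) + (8543/15360) * (u * v ^ 3) + (8543/5120) * (u * v ^ 2 * w) +
    (2317/1024) * (u * v ^ 2 * z) + (37/16) * (u * v * w ^ 2) + (2317/512) * (u * v * w * z) +
    (2273/640) * (u * v * z ^ 2) + (9217/7680) * (u * w ^ 3) + (6659/2560) * (u * w ^ 2 * z) +
    (2273/640) * (u * w * z ^ 2) + (6643/3840) * (u * z ^ 3) + (2267/15360) * (v ^ 4) +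
    (2267/3840) * (v ^ 3 * w) + (11447/15360) * (v ^ 3 * z) + (6157/5120) * (v ^ 2 * w ^ 2) +
    (11447/5120) * (v ^ 2 * w * z) + (4333/2560) * (v ^ 2 * z ^ 2) + (9403/7680) * (v * w ^ 3) +
    (6539/2560) * (v * w ^ 2 * z) + (4333/1280) * (v * w * z ^ 2) + (3113/1920) * (v * z ^ 3) +
    (43/120) * (w ^ 4) + (817/768) * (w ^ 3 * z) + (1327/1280) * (w ^ 2 * z ^ 2) +
    (3113/1920) * (w * z ^ 3) + (397/960) * (z ^ 4) := by
    rw [ha, hb, hc, hz1]; unfold pol; ring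
  rw [e]; positivity

theorem t12 (a b c u v w z : ℝ) (hu : 0 ≤ u) (hv : 0 ≤ v) (hw : 0 ≤ w) (hz : 0 ≤ z)
    (h1 : u + v + w + z = 1) (ha : a = (1/2) * u + v + w + z)
    (hb : b = (1/2) * u + w + z)
    (hc : c = (1/2) * u + z) :
    0 ≤ pol a b c := by
  rcases le_total z v with h | h
  · exact t13 a b c u (v - z) w (2 * z) (by linarith) (by linarith) (by linarith) (by linarith) (by linarith) (by linarith) (by linarith) (by linarith)
  · exact t18 a b c u (2 * v) w (z - v) (by linarith) (by linarith) (by linarith) (by linarith) (by linarith) (by linarith) (by linarith) (by linarith)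

theorem t0 (a b c u v w z : ℝ) (hu : 0 ≤ u) (hv : 0 ≤ v) (hw : 0 ≤ w) (hz : 0 ≤ z)
    (h1 : u + v + w + z = 1) (ha : a = v + w + z)
    (hb : b = w + z)
    (hc : c = z) :
    0 ≤ pol a b c := by
  rcases le_total z u with h | h
  · exact t1 a b c (u - z) v w (2 * z) (by linarith) (by linarith) (by linarith) (by linarith) (by linarith) (by linarith) (by linarith) (by linarith)
  · exact t12 a b c (2 * u) v w (z - u) (by linarith) (by linarith) (by linarith) (by linarith) (by linarith) (by linarith) (by linarith) (by linarith)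

end H4Aux

theorem stmt_H4 : Stmt_H4 := by
  intro a b c s hc hcb hba ha hs hs0
  have h := H4Aux.t0 a b c (1 - a) (a - b) (b - c) c (by linarith) (by linarith) (by linarith)
    (by linarith) (by linarith) (by linarith) (by linarith) (by linarith)
  simp only [H4Aux.pol] at h
  rw [← hs] at h
  have hb : 0 ≤ b := le_trans hc hcb
  have ha0 : 0 ≤ a := le_trans hb hba
  have key : ∀ x : ℝ, 0 ≤ x → 3 / 16 * x - 2 / 64 ≤ x ^ 3 := by
    intro x hx
    nlinarith [mul_nonneg (sq_nonneg (x - 1 / 4)) (by linarith : (0 : ℝ) ≤ x + 1 / 2)]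
  have k1 := key a ha0
  have k2 := key b hb
  have k3 := key c hc
  have hL : s ≤ 2 / 5 - 3 / 20 * (a + b + c) - 17 / 20 * (3 / 16 * (a + b + c) - 6 / 64) := by
    rw [hs]; linarith
  have hm := mul_le_mul_of_nonneg_left hL hs0
  have e : s ^ 2 / (3 / 10) = 10 / 3 * (s * s) := by ring
  rw [e]
  nlinarith [h, hm]

end Pool.Agent.MP4da8b1Q1
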