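import Pool.Agent.Work.MP_4da8b1_Q1_helper46.Interface

/-!
# Block MON (helper26)
-/

set_option autoImplicit false

open Matrix Finset
open scoped BigOperators

namespace Pool.Agent.MP4da8b1Q1

namespace MON

variable {m : Type} [Fintype m]

theorem dot_scal (c : m → ℝ) (H : Matrix m m ℝ) (x : m → ℝ) :
    x ⬝ᵥ (scal c H *ᵥ x) = (fun i => c i * x i) ⬝ᵥ (H *ᵥ (fun i => c i * x i)) := by
  simp only [dotProduct, mulVec, scal, Finset.mul_sum]
  refine Finset.sum_congr rfl fun i _ => Finset.sum_congr rfl fun j _ => ?_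
  ring

theorem contr_scal {H : Matrix m m ℝ} (hH : Contr H) {c : m → ℝ} (hc : ∀ i, |c i| ≤ 1) :
    Contr (scal c H) := by
  refine ⟨?_, fun x => ?_⟩
  · refine Matrix.IsSymm.ext fun i j => ?_
    have h := hH.1.apply i j
    simp only [scal, h]
    ring
  · rw [dot_scal]
    refine (hH.2 _).trans ?_
    simp only [dotProduct]
    refine Finset.sum_le_sum fun i _ => ?_
    have h1 : c i * c i ≤ 1 := by
      have := hc i
      rw [abs_le] at this
      nlinarith [this.1, this.2]
    nlinarith [mul_self_nonneg (x i), mul_nonneg (sub_nonneg.2 h1) (mul_self_nonneg (x i))]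

theorem trace_scal (c : m → ℝ) (B H : Matrix m m ℝ) :
    (scal c B * H).trace = (B * scal c H).trace := by
  simp only [Matrix.trace, Matrix.diag, Matrix.mul_apply, scal]
  refine Finset.sum_congr rfl fun i _ => Finset.sum_congr rfl fun j _ => ?_
  ring

end MON

theorem stmt_MON_of (h : Stmt_NUC) : Stmt_MON := by
  intro m _ _ B c hc
  obtain ⟨-, ⟨H, hH, he⟩, -⟩ := h m (scal c B)
  rw [← he, MON.trace_scal]
  exact (h m B).1 _ (MON.contr_scal hH hc)

end Pool.Agent.MP4da8b1Q1
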