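import Pool.Agent.Work.MP_4da8b1_Q1_helper46.Interface

/-!
# MP_4da8b1_gt, Q1, block NUC (helper23)
-/

set_option autoImplicit false

open Matrix Finset
open scoped RealInnerProductSpace BigOperators

namespace Pool.Agent.MP4da8b1Q1

namespace NUCAux

variable {m : Type} [Fintype m] [DecidableEq m]

theorem contr_zero : Contr (0 : Matrix m m ℝ) := by
  refine ⟨Matrix.isSymm_zero, fun x => ?_⟩
  rw [zero_mulVec, dotProduct_zero, abs_zero]
  exact Finset.sum_nonneg fun i _ => mul_self_nonneg (x i)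

theorem quad_pair (H : Matrix m m ℝ) (i j : m) (a b : ℝ) :
    (a • Pi.single i (1 : ℝ) + b • Pi.single j (1 : ℝ)) ⬝ᵥ
      (H *ᵥ (a • Pi.single i (1 : ℝ) + b • Pi.single j (1 : ℝ))) =
      a * a * H i i + a * b * H i j + b * a * H j i + b * b * H j j := by
  simp only [mulVec_add, mulVec_smul, mulVec_single_one, add_dotProduct, dotProduct_add,
    smul_dotProduct, dotProduct_smul, single_dotProduct, smul_eq_mul, one_mul, Matrix.col_apply]
  ring

theorem self_pair (i j : m) (a b : ℝ) :
    (a • Pi.single i (1 : ℝ) + b • Pi.single j (1 : ℝ)) ⬝ᵥ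
      (a • Pi.single i (1 : ℝ) + b • Pi.single j (1 : ℝ)) =
      a * a + b * b + 2 * (a * b * if i = j then 1 else 0) := by
  have h := quad_pair (1 : Matrix m m ℝ) i j a b
  rw [one_mulVec] at h
  rw [h]
  by_cases hij : i = j
  · subst hij
    simp
    ring
  · rw [if_neg hij, Matrix.one_apply_eq, Matrix.one_apply_eq, Matrix.one_apply_ne hij,
      Matrix.one_apply_ne (Ne.symm hij)]
    ring

/-- entries of a contraction -/
theorem entry_le {H : Matrix m m ℝ} (hH : Contr H) (i j : m) : |H i j| ≤ 1 := by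
  have hs : H j i = H i j := hH.1.apply i j
  by_cases hij : i = j
  · subst hij
    have h1 := hH.2 (1 • Pi.single i (1 : ℝ) + (0 : ℝ) • Pi.single i (1 : ℝ))
    have h2 := quad_pair H i i 1 0
    have h3 := self_pair i i (1 : ℝ) 0
    rw [one_smul] at h1
    rw [one_smul] at h2 h3
    rw [h2, h3] at h1
    simpa using h1
  · have h1 := hH.2 ((1 : ℝ) • Pi.single i (1 : ℝ) + (1 : ℝ) • Pi.single j (1 : ℝ))
    have h2 := hH.2 ((1 : ℝ) • Pi.single i (1 : ℝ) + (-1 : ℝ) • Pi.single j (1 : ℝ))
    rw [quad_pair, self_pair, if_neg hij, hs] at h1 h2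
    rw [abs_le] at h1 h2 ⊢
    constructor <;> linarith [h1.1, h1.2, h2.1, h2.2]

/-- the set of contractions is compact -/
theorem isCompact_contr : IsCompact {H : Matrix m m ℝ | Contr H} := by
  have h1 : IsCompact {H : Matrix m m ℝ | ∀ i j, H i j ∈ Set.Icc (-1 : ℝ) 1} := by
    have h2 : IsCompact (Set.pi Set.univ fun _ : m => Set.pi Set.univ fun _ : m =>
        Set.Icc (-1 : ℝ) 1) :=
      isCompact_univ_pi fun _ => isCompact_univ_pi fun _ => isCompact_Icc
    change @IsCompact (m → m → ℝ) _ {H | ∀ i j, H i j ∈ Set.Icc (-1 : ℝ) 1}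
    have h3 : {H : m → m → ℝ | ∀ i j, H i j ∈ Set.Icc (-1 : ℝ) 1} =
        (Set.pi Set.univ fun _ : m => Set.pi Set.univ fun _ : m => Set.Icc (-1 : ℝ) 1) := by
      ext H
      constructor
      · intro h i _ j _
        exact h i j
      · intro h i j
        exact h i trivial j trivial
    rw [h3]
    exact h2
  refine h1.of_isClosed_subset ?_ ?_
  · have e : {H : Matrix m m ℝ | Contr H} =
        {H : Matrix m m ℝ | Hᵀ = H} ∩ ⋂ x : m → ℝ, {H : Matrix m m ℝ | |x ⬝ᵥ (H *ᵥ x)| ≤ x ⬝ᵥ x} := by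
      ext H
      simp only [Contr, Matrix.IsSymm, Set.mem_inter_iff, Set.mem_iInter, Set.mem_ofPred_eq]
    rw [e]
    refine (isClosed_eq (by fun_prop) continuous_id).inter (isClosed_iInter fun x => ?_)
    refine isClosed_le ?_ continuous_const
    exact (Continuous.dotProduct continuous_const
      (Continuous.matrix_mulVec continuous_id continuous_const)).abs
  · intro H hH i j
    exact abs_le.1 (entry_le hH i j)

end NUCAux

open NUCAux in
theorem stmt_NUC : Stmt_NUC := by
  intro m _ _ B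
  have hcont : Continuous fun H : Matrix m m ℝ => (B * H).trace / 2 := by
    refine Continuous.div_const ?_ 2
    exact Continuous.matrix_trace (Continuous.matrix_mul continuous_const continuous_id)
  obtain ⟨H₀, hH₀, hmax⟩ := isCompact_contr.exists_isMaxOn ⟨0, contr_zero⟩ hcont.continuousOn
    (s := {H : Matrix m m ℝ | Contr H})
  have hg : IsGreatest {r : ℝ | ∃ H : Matrix m m ℝ, Contr H ∧ r = (B * H).trace / 2}
      ((B * H₀).trace / 2) := by
    refine ⟨⟨H₀, hH₀, rfl⟩, ?_⟩
    rintro r ⟨H, hH, rfl⟩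
    exact hmax hH
  have hn : nuc B = (B * H₀).trace / 2 := hg.csSup_eq
  have h1 : ∀ H : Matrix m m ℝ, Contr H → (B * H).trace / 2 ≤ nuc B := by
    intro H hH
    rw [hn]
    exact hmax hH
  refine ⟨h1, ⟨H₀, hH₀, hn.symm⟩, ?_⟩
  have := h1 0 contr_zero
  simpa using this

end Pool.Agent.MP4da8b1Q1
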