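import Pool.Agent.Work.MP_4da8b1_Q1_helper46.Interface

/-!
# MP_4da8b1_gt, Q1: block PW (pointwise inequality of region A)
-/

set_option autoImplicit false

open Finset
open scoped BigOperators

namespace Pool.Agent.MP4da8b1Q1
namespace PWAux

section Psi

variable {ι : Type} [Fintype ι] [DecidableEq ι]

/-- `psi` in terms of power sums -/
theorem psi_eq (α : ι → ℝ) :
    psi α = 2 / 5 * (∑ i, α i - ∑ i, α i ^ 2) - 3 / 40 * ((∑ i, α i) ^ 2 - ∑ i, α i ^ 2) -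
      17 / 20 * ((∑ i, α i ^ 3) * (∑ i, α i) - ∑ i, α i ^ 4) := by
  unfold psi
  have key : ∀ i, (∑ j, if i = j then (0 : ℝ) else
      α i * α j * (3 / 20 + 17 / 20 * (α i ^ 2 + α j ^ 2))) =
      (∑ j, α i * α j * (3 / 20 + 17 / 20 * (α i ^ 2 + α j ^ 2))) -
        α i * α i * (3 / 20 + 17 / 20 * (α i ^ 2 + α i ^ 2)) := by
    intro i
    have h1 : ∑ j, (if i = j then α i * α j * (3 / 20 + 17 / 20 * (α i ^ 2 + α j ^ 2)) else 0) =
        α i * α i * (3 / 20 + 17 / 20 * (α i ^ 2 + α i ^ 2)) := by simp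
    rw [← h1, ← Finset.sum_sub_distrib]
    refine Finset.sum_congr rfl fun j _ => ?_
    split_ifs <;> simp
  have k2 : ∑ i, (∑ j, α i * α j * (3 / 20 + 17 / 20 * (α i ^ 2 + α j ^ 2))) =
      3 / 20 * ((∑ i, α i) * (∑ i, α i)) + 17 / 20 * ((∑ i, α i ^ 3) * (∑ i, α i)) +
        17 / 20 * ((∑ i, α i) * (∑ i, α i ^ 3)) := by
    rw [Finset.sum_mul_sum, Finset.sum_mul_sum, Finset.sum_mul_sum]
    simp only [Finset.mul_sum, ← Finset.sum_add_distrib]
    refine Finset.sum_congr rfl fun i _ => Finset.sum_congr rfl fun j _ => ?_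
    ring
  have k3 : ∑ i, α i * α i * (3 / 20 + 17 / 20 * (α i ^ 2 + α i ^ 2)) =
      3 / 20 * (∑ i, α i ^ 2) + 17 / 10 * ∑ i, α i ^ 4 := by
    simp only [Finset.mul_sum, ← Finset.sum_add_distrib]
    refine Finset.sum_congr rfl fun i _ => ?_
    ring
  have k4 : ∑ i, α i * (1 - α i) = ∑ i, α i - ∑ i, α i ^ 2 := by
    rw [← Finset.sum_sub_distrib]
    refine Finset.sum_congr rfl fun i _ => ?_
    ring
  rw [Finset.sum_congr rfl fun i _ => key i, Finset.sum_sub_distrib, k2, k3, k4]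
  ring

theorem pow_facts (α : ι → ℝ) (h0 : ∀ i, 0 ≤ α i) (s : Finset ι) :
    0 ≤ ∑ i ∈ s, α i ∧ 0 ≤ ∑ i ∈ s, α i ^ 2 ∧ 0 ≤ ∑ i ∈ s, α i ^ 3 ∧
    ∑ i ∈ s, α i ^ 2 ≤ (∑ i ∈ s, α i) ^ 2 ∧
    ∑ i ∈ s, α i ^ 4 ≤ (∑ i ∈ s, α i ^ 3) * (∑ i ∈ s, α i) := by
  refine ⟨Finset.sum_nonneg fun i _ => h0 i, Finset.sum_nonneg fun i _ => by positivity,
    Finset.sum_nonneg fun i _ => pow_nonneg (h0 i) 3, ?_, ?_⟩
  · rw [pow_two, Finset.mul_sum]
    refine Finset.sum_le_sum fun i hi => ?_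
    rw [pow_two]
    exact mul_le_mul_of_nonneg_right
      (Finset.single_le_sum (f := α) (fun j _ => h0 j) hi) (h0 i)
  · rw [Finset.mul_sum]
    refine Finset.sum_le_sum fun i hi => ?_
    have h := Finset.single_le_sum (f := fun j => α j ^ 3) (fun j _ => pow_nonneg (h0 j) 3) hi
    have := mul_le_mul_of_nonneg_right h (h0 i)
    calc α i ^ 4 = α i ^ 3 * α i := by ring
      _ ≤ _ := this

end Psi

/-- `v₀` -/
noncomputable def v0 (a b : ℝ) : ℝ :=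
  2 / 5 * (a - a ^ 2 + b - b ^ 2) - a * b * (3 / 20 + 17 / 20 * (a ^ 2 + b ^ 2))

/-- `v₁` -/
noncomputable def v1 (a b : ℝ) : ℝ := 2 / 5 - 3 / 20 * (a + b) - 17 / 20 * (a ^ 3 + b ^ 3)

/-- `v₃` -/
noncomputable def v3 (a b c : ℝ) : ℝ :=
  2 / 5 * (a - a ^ 2 + b - b ^ 2 + c - c ^ 2) - a * b * (3 / 20 + 17 / 20 * (a ^ 2 + b ^ 2)) -
    a * c * (3 / 20 + 17 / 20 * (a ^ 2 + c ^ 2)) - b * c * (3 / 20 + 17 / 20 * (b ^ 2 + c ^ 2))

/-- `s` -/
noncomputable def s3 (a b c : ℝ) : ℝ :=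
  2 / 5 - 3 / 20 * (a + b + c) - 17 / 20 * (a ^ 3 + b ^ 3 + c ^ 3)

theorem num2 (a b r1 r2 r3 r4 : ℝ) (ha : 0 ≤ a) (hb : 0 ≤ b) (h2 : 0 ≤ r2) (h3 : 0 ≤ r3)
    (h12 : r2 ≤ r1 ^ 2) (h34 : r4 ≤ r3 * r1) :
    2 / 5 * ((a + b + r1) - (a ^ 2 + b ^ 2 + r2)) -
      3 / 40 * ((a + b + r1) ^ 2 - (a ^ 2 + b ^ 2 + r2)) -
      17 / 20 * ((a ^ 3 + b ^ 3 + r3) * (a + b + r1) - (a ^ 4 + b ^ 4 + r4)) ≤
    v0 a b + v1 a b * r1 := by
  unfold v0 v1
  nlinarith [mul_nonneg ha h3, mul_nonneg hb h3]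

theorem num3 (a b c r1 r2 r3 r4 : ℝ) (ha : 0 ≤ a) (hb : 0 ≤ b) (hc : 0 ≤ c) (h2 : 0 ≤ r2)
    (h3 : 0 ≤ r3) (h34 : r4 ≤ r3 * r1) :
    2 / 5 * ((a + b + c + r1) - (a ^ 2 + b ^ 2 + c ^ 2 + r2)) -
      3 / 40 * ((a + b + c + r1) ^ 2 - (a ^ 2 + b ^ 2 + c ^ 2 + r2)) -
      17 / 20 * ((a ^ 3 + b ^ 3 + c ^ 3 + r3) * (a + b + c + r1) -
        (a ^ 4 + b ^ 4 + c ^ 4 + r4)) ≤
    v3 a b c + s3 a b c * r1 - 3 / 40 * r1 ^ 2 := by
  unfold v3 s3
  nlinarith [mul_nonneg ha h3, mul_nonneg hb h3, mul_nonneg hc h3]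

/-- the case `M ≤ 1 - c`, second bracket -/
theorem bracket (a b v R : ℝ) (hb : 0 ≤ b) (hba : b ≤ a) (ha : a ≤ 1) (hR : 0 ≤ R)
    (hR2 : a + b + R ≤ 5 / 3) (hv : -1 ≤ v) (hvb : v ≤ v0 a b + v1 a b * R) :
    -1 ≤ v0 a b ∧ 0 ≤ (2 - a - b) - v1 a b * (4 - a - b + (v0 a b + (v0 a b + v1 a b * R))) ∧
    v1 a b ≤ 2 / 5 := by
  have ha0 : 0 ≤ a := le_trans hb hba
  have hv1 : v1 a b ≤ 2 / 5 := by
    unfold v1
    have := pow_nonneg ha0 3
    have := pow_nonneg hb 3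
    linarith
  rcases le_or_gt (v1 a b) 0 with h | h
  · have h0 : v1 a b * R ≤ 0 := mul_nonpos_of_nonpos_of_nonneg h hR
    refine ⟨by linarith, ?_, hv1⟩
    have : v1 a b * (4 - a - b + (v0 a b + (v0 a b + v1 a b * R))) ≤ 0 :=
      mul_nonpos_of_nonpos_of_nonneg h (by linarith)
    linarith
  · have h3 : 17 / 20 * (a ^ 3 + b ^ 3) < 2 / 5 - 3 / 20 * (a + b) := by
      unfold v1 at h; linarith
    have hab : 0 ≤ a * b := mul_nonneg ha0 hb
    have hb1 : b ≤ 1 := le_trans hba ha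
    have e1 : a * b * (a ^ 2 + b ^ 2) ≤ a ^ 3 + b ^ 3 := by
      have k1 : a ^ 3 * b ≤ a ^ 3 * 1 := mul_le_mul_of_nonneg_left hb1 (pow_nonneg ha0 3)
      have k2 : b ^ 3 * a ≤ b ^ 3 * 1 := mul_le_mul_of_nonneg_left ha (pow_nonneg hb 3)
      nlinarith
    have e2 : a * b ≤ 1 := by nlinarith
    have hv0 : -1 ≤ v0 a b := by
      unfold v0
      nlinarith [mul_nonneg ha0 (by linarith : (0 : ℝ) ≤ 1 - a),
        mul_nonneg hb (by linarith : (0 : ℝ) ≤ 1 - b)]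
    refine ⟨hv0, ?_, hv1⟩
    -- upper bounds by functions of `σ = a + b`
    obtain ⟨σ, hσ⟩ : ∃ σ : ℝ, σ = a + b := ⟨_, rfl⟩
    have hσ0 : 0 ≤ σ := by linarith
    have hcub : σ ^ 3 / 4 ≤ a ^ 3 + b ^ 3 := by
      rw [hσ]
      nlinarith [mul_nonneg (by linarith : (0 : ℝ) ≤ a + b) (sq_nonneg (a - b))]
    have hσ1 : σ ≤ 11 / 10 := by
      by_contra hcon
      push Not at hcon
      have : (11 / 10 : ℝ) ^ 3 < σ ^ 3 := pow_lt_pow_left₀ hcon (by norm_num) (by norm_num)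
      nlinarith
    have hv0u : v0 a b ≤ 2 / 5 * σ - 1 / 5 * σ ^ 2 := by
      unfold v0
      rw [hσ]
      have : 0 ≤ a * b * (3 / 20 + 17 / 20 * (a ^ 2 + b ^ 2)) := by positivity
      nlinarith [sq_nonneg (a - b)]
    have hv1u : v1 a b ≤ 2 / 5 - 3 / 20 * σ := by
      unfold v1
      have := pow_nonneg ha0 3
      have := pow_nonneg hb 3
      rw [hσ]; linarith
    have hv1R : v1 a b * R ≤ 2 / 5 * (5 / 3 - σ) := by
      calc v1 a b * R ≤ 2 / 5 * R := mul_le_mul_of_nonneg_right hv1 hR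
        _ ≤ _ := by linarith
    have hY : 4 - a - b + (v0 a b + (v0 a b + v1 a b * R)) ≤ 14 / 3 - 3 / 5 * σ - 2 / 5 * σ ^ 2 := by
      linarith
    have hW : 0 ≤ 14 / 3 - 3 / 5 * σ - 2 / 5 * σ ^ 2 := by nlinarith
    have s1 : v1 a b * (4 - a - b + (v0 a b + (v0 a b + v1 a b * R))) ≤
        v1 a b * (14 / 3 - 3 / 5 * σ - 2 / 5 * σ ^ 2) := mul_le_mul_of_nonneg_left hY h.le
    have s2 : v1 a b * (14 / 3 - 3 / 5 * σ - 2 / 5 * σ ^ 2) ≤
        (2 / 5 - 3 / 20 * σ) * (14 / 3 - 3 / 5 * σ - 2 / 5 * σ ^ 2) :=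
      mul_le_mul_of_nonneg_right hv1u hW
    have s3 : (2 / 5 - 3 / 20 * σ) * (14 / 3 - 3 / 5 * σ - 2 / 5 * σ ^ 2) ≤ 2 - σ := by
      nlinarith [mul_nonneg hσ0 (by linarith : (0 : ℝ) ≤ 11 / 10 - σ),
        mul_nonneg (mul_nonneg hσ0 hσ0) (by linarith : (0 : ℝ) ≤ 11 / 10 - σ)]
    have : 2 - a - b = 2 - σ := by rw [hσ]; ring
    linarith

theorem aux (x : ℝ) (hx : 0 ≤ x) (hx1 : x ≤ 4 / 5) : 0 ≤ 1 - x / 2 - x ^ 2 / 4 ∧
    (1 - x / 2 - x ^ 2 / 4) ^ 2 ≤ 1 - x := by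
  have hx2 : x ^ 2 ≤ 4 / 5 * x := by nlinarith
  refine ⟨by linarith, ?_⟩
  have e : 1 - x - (1 - x / 2 - x ^ 2 / 4) ^ 2 = x ^ 2 * (4 - 4 * x - x ^ 2) / 16 := by ring
  have h4 : 0 ≤ 4 - 4 * x - x ^ 2 := by linarith
  have : 0 ≤ x ^ 2 * (4 - 4 * x - x ^ 2) / 16 := by positivity
  linarith

theorem aux2 (p q A B : ℝ) (hA : 0 ≤ A) (hB : 0 ≤ B) (hp : p ^ 2 ≤ A) (hq : q ^ 2 ≤ B)
    (w : ℝ) (hw : 0 ≤ w) (hwA : w ≤ A) :
    (w + p * q) ^ 2 ≤ (w + A) * B + 2 * w * A := by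
  have t1 : p ^ 2 * q ^ 2 ≤ A * B := mul_le_mul hp hq (sq_nonneg q) hA
  have t2 : 2 * (p * q) ≤ A + B := by nlinarith [sq_nonneg (p - q)]
  have t3 : w * (2 * (p * q)) ≤ w * (A + B) := mul_le_mul_of_nonneg_left t2 hw
  have t4 : w * w ≤ w * A := mul_le_mul_of_nonneg_left hwA hw
  linarith [t1, t3, t4]

theorem core (h1 : Stmt_H1) (h2 : Stmt_H2) (h3 : Stmt_H3) (h4 : Stmt_H4)
    (a b c R L M f ψ : ℝ) (hc : 0 ≤ c) (hcb : c ≤ b) (hba : b ≤ a) (ha : a ≤ 1) (hR : 0 ≤ R)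
    (hL : L = a + b + c + R) (hM : 0 ≤ M) (hf : 0 ≤ f)
    (p1 : ψ ≤ 2 / 5 * L) (p2 : ψ ≤ v0 a b + v1 a b * (c + R))
    (p3 : ψ ≤ v3 a b c + s3 a b c * R - 3 / 40 * R ^ 2)
    (c1 : M ≤ 1 - b → (M + (1 - a)) * (1 - b) + 2 * M * (1 - a) ≤ f ^ 2)
    (c2 : 1 - b ≤ M → M ≤ 1 - c → ((1 - a) + (1 - b)) * M + 2 * (1 - a) * (1 - b) ≤ f ^ 2)
    (c3 : 1 - c ≤ M → ((1 - a) + (1 - b)) * (1 - c) + 2 * (1 - a) * (1 - b) ≤ f ^ 2)
    (hψ : -ψ ≤ M - L) : 1 ≤ M - L + f := by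
  by_contra hcon
  push Not at hcon
  obtain ⟨v, hv⟩ : ∃ v : ℝ, v = L - M := ⟨_, rfl⟩
  have hvψ : v ≤ ψ := by linarith
  have hfv : f < 1 + v := by linarith
  have hv1 : -1 ≤ v := by linarith
  have hb : 0 ≤ b := le_trans hc hcb
  have ha0 : 0 ≤ a := le_trans hb hba
  have hf2 : f ^ 2 < (1 + v) ^ 2 := pow_lt_pow_left₀ hfv hf (by norm_num)
  rcases le_or_gt M (1 - c) with hMc | hMc
  · -- `M ≤ 1 - c`
    have hL53 : L ≤ 5 / 3 := by linarith
    have hR0 : 0 ≤ c + R := by linarith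
    obtain ⟨q1, q2, q3⟩ := bracket a b v (c + R) hb hba ha hR0 (by linarith) hv1 (by linarith)
    set vb : ℝ := v0 a b + v1 a b * (c + R) with hvb
    have hvvb : v ≤ vb := by linarith
    have hvb1 : -1 ≤ vb := by linarith
    rcases le_or_gt M (1 - b) with hMb | hMb
    · have k := c1 hMb
      have g0 := h1 a b (v0 a b) hb hba ha rfl q1
      have g1 : 0 ≤ (c + R) * ((3 - 2 * a - b) - v1 a b * (5 - 2 * a - b + (v0 a b + vb))) := by
        refine mul_nonneg hR0 ?_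
        have e : (3 - 2 * a - b) - v1 a b * (5 - 2 * a - b + (v0 a b + vb)) =
          ((2 - a - b) - v1 a b * (4 - a - b + (v0 a b + vb))) + (1 - a) * (1 - v1 a b) := by ring
        rw [e]
        have : 0 ≤ (1 - a) * (1 - v1 a b) := mul_nonneg (by linarith) (by linarith)
        linarith
      have g2 : 0 ≤ (vb - v) * ((5 - 2 * a - b) + (v + vb)) :=
        mul_nonneg (by linarith) (by linarith)
      have hM' : M = a + b + (c + R) - v := by linarith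
      have e1 : (M + (1 - a)) * (1 - b) + 2 * M * (1 - a) - (1 + v) ^ 2 =
          (2 * a + 2 * b - 2 * a ^ 2 - 2 * a * b - b ^ 2 - v0 a b * (5 - 2 * a - b) -
            v0 a b ^ 2) +
          (c + R) * ((3 - 2 * a - b) - v1 a b * (5 - 2 * a - b + (v0 a b + vb))) +
          (vb - v) * ((5 - 2 * a - b) + (v + vb)) := by
        rw [hM', hvb]; ring
      linarith
    · have k := c2 hMb.le hMc
      have g0 := h2 a b (v0 a b) hb hba ha rfl q1
      have g1 : 0 ≤ (c + R) * ((2 - a - b) - v1 a b * (4 - a - b + (v0 a b + vb))) :=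
        mul_nonneg hR0 q2
      have g2 : 0 ≤ (vb - v) * ((4 - a - b) + (v + vb)) :=
        mul_nonneg (by linarith) (by linarith)
      have hM' : M = a + b + (c + R) - v := by linarith
      have e1 : ((1 - a) + (1 - b)) * M + 2 * (1 - a) * (1 - b) - (1 + v) ^ 2 =
          (1 - a ^ 2 - b ^ 2 - v0 a b * (4 - a - b) - v0 a b ^ 2) +
          (c + R) * ((2 - a - b) - v1 a b * (4 - a - b + (v0 a b + vb))) +
          (vb - v) * ((4 - a - b) + (v + vb)) := by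
        rw [hM', hvb]; ring
      linarith
  · -- `M ≥ 1 - c`
    have k := c3 hMc.le
    rcases le_or_gt b (4 / 5) with hb45 | hb45
    · have hK : v ≤ 1 - a - (b + c) / 2 - (b ^ 2 + c ^ 2) / 4 + b * c / 4 := by
        rcases le_or_gt (s3 a b c) 0 with hs | hs
        · have g := h3 a b c hc hcb hba ha
          have : s3 a b c * R ≤ 0 := mul_nonpos_of_nonpos_of_nonneg hs hR
          have hv3 : v ≤ v3 a b c := by linarith [sq_nonneg R]
          unfold v3 at hv3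
          linarith
        · have g := h4 a b c (s3 a b c) hc hcb hba ha rfl hs.le
          have e : s3 a b c ^ 2 / (3 / 10) = 10 / 3 * s3 a b c ^ 2 := by ring
          rw [e] at g
          have hsq := sq_nonneg (s3 a b c - 3 / 20 * R)
          have hv3 : v ≤ v3 a b c + 10 / 3 * s3 a b c ^ 2 := by linarith
          clear hsq
          generalize s3 a b c ^ 2 = X at hv3 g
          unfold v3 at hv3
          linarith
      obtain ⟨p, hp⟩ : ∃ p : ℝ, p = 1 - b / 2 - b ^ 2 / 4 := ⟨_, rfl⟩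
      obtain ⟨q, hq⟩ : ∃ q : ℝ, q = 1 - c / 2 - c ^ 2 / 4 := ⟨_, rfl⟩
      have hc45 : c ≤ 4 / 5 := le_trans hcb hb45
      obtain ⟨hp0, hp2⟩ := aux b hb hb45
      obtain ⟨hq0, hq2⟩ := aux c hc hc45
      rw [← hp] at hp0 hp2
      rw [← hq] at hq0 hq2
      have hpq : 1 + v ≤ (1 - a) + p * q := by
        have e : p * q = 1 - (b + c) / 2 - (b ^ 2 + c ^ 2) / 4 + b * c / 4 +
            (b * c ^ 2 / 8 + b ^ 2 * c / 8 + b ^ 2 * c ^ 2 / 16) := by rw [hp, hq]; ring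
        have : 0 ≤ b * c ^ 2 / 8 + b ^ 2 * c / 8 + b ^ 2 * c ^ 2 / 16 := by positivity
        linarith
      have hw1 : 0 ≤ 1 - a := by linarith
      have hsq : (1 + v) ^ 2 ≤ ((1 - a) + p * q) ^ 2 :=
        pow_le_pow_left₀ (by linarith) hpq 2
      have t := aux2 p q (1 - b) (1 - c) (by linarith) (by linarith) hp2 hq2 (1 - a) hw1
        (by linarith)
      linarith
    · have hb1 : b ≤ 1 := le_trans hba ha
      have hv1n : v1 a b ≤ 0 := by
        unfold v1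
        have k1 : (4 / 5 : ℝ) ^ 3 ≤ b ^ 3 := pow_le_pow_left₀ (by norm_num) hb45.le 3
        have k2 : (4 / 5 : ℝ) ^ 3 ≤ a ^ 3 := pow_le_pow_left₀ (by norm_num) (by linarith) 3
        norm_num at k1 k2
        linarith
      have hv0' : v ≤ v0 a b := by
        have : v1 a b * (c + R) ≤ 0 :=
          mul_nonpos_of_nonpos_of_nonneg hv1n (by linarith)
        linarith
      have h5 : v0 a b ≤ 1 - a - b := by
        unfold v0
        obtain ⟨x, hx⟩ : ∃ x : ℝ, x = a - 4 / 5 := ⟨_, rfl⟩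
        obtain ⟨y, hy⟩ : ∃ y : ℝ, y = b - 4 / 5 := ⟨_, rfl⟩
        have hx0 : 0 ≤ x := by linarith
        have hy0 : 0 ≤ y := by linarith
        have ea : a = x + 4 / 5 := by linarith
        have eb : b = y + 4 / 5 := by linarith
        rw [ea, eb]
        have : 0 ≤ x * y := mul_nonneg hx0 hy0
        have : 0 ≤ x ^ 3 * y := by positivity
        have : 0 ≤ x * y ^ 3 := by positivity
        have : 0 ≤ x ^ 3 := by positivity
        have : 0 ≤ y ^ 3 := by positivity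
        have : 0 ≤ x ^ 2 * y := by positivity
        have : 0 ≤ x * y ^ 2 := by positivity
        nlinarith
      have hs : 1 + v ≤ (1 - a) + (1 - b) := by linarith
      have hsq : (1 + v) ^ 2 ≤ ((1 - a) + (1 - b)) ^ 2 := pow_le_pow_left₀ (by linarith) hs 2
      have t1 : (1 - a) * (1 - a) ≤ (1 - a) * (1 - c) :=
        mul_le_mul_of_nonneg_left (by linarith) (by linarith)
      have t2 : (1 - b) * (1 - b) ≤ (1 - b) * (1 - c) :=
        mul_le_mul_of_nonneg_left (by linarith) (by linarith)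
      linarith

end PWAux

open PWAux in
theorem stmt_PW_of (h1 : Stmt_H1) (h2 : Stmt_H2) (h3 : Stmt_H3) (h4 : Stmt_H4) : Stmt_PW := by
  intro ι _ _ α M f hcard h0 hle hM hf hC2 hψ
  -- the two largest members
  have hne : (univ : Finset ι).Nonempty := by
    rw [← Finset.card_pos, Finset.card_univ]; omega
  obtain ⟨i1, -, hi1⟩ := Finset.exists_max_image univ α hne
  have hcard1 : ((univ : Finset ι).erase i1).card = Fintype.card ι - 1 := by
    rw [Finset.card_erase_of_mem (mem_univ _), Finset.card_univ]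
  have hne2 : ((univ : Finset ι).erase i1).Nonempty := by
    rw [← Finset.card_pos, hcard1]; omega
  obtain ⟨i2, hi2m, hi2⟩ := Finset.exists_max_image _ α hne2
  have h21 : i2 ≠ i1 := Finset.ne_of_mem_erase hi2m
  obtain ⟨S, hS⟩ : ∃ S : Finset ι, S = ((univ : Finset ι).erase i1).erase i2 := ⟨_, rfl⟩
  have hsum : ∀ g : ι → ℝ, ∑ i, g i = g i1 + g i2 + ∑ i ∈ S, g i := by
    intro g
    rw [← Finset.add_sum_erase univ g (mem_univ i1), ← Finset.add_sum_erase _ g hi2m, hS]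
    ring
  have hmemS : ∀ j, j ≠ i1 → j ≠ i2 → j ∈ S := by
    intro j hj1 hj2
    rw [hS]
    exact Finset.mem_erase.2 ⟨hj2, Finset.mem_erase.2 ⟨hj1, mem_univ _⟩⟩
  have hb1 : α i2 ≤ α i1 := hi1 i2 (mem_univ _)
  have hSb : ∀ j ∈ S, α j ≤ α i2 := by
    intro j hj
    rw [hS] at hj
    exact hi2 j (Finset.mem_of_mem_erase hj)
  -- the third one
  obtain ⟨c, R, hc, hcb, hcS, hR, hL, p3⟩ : ∃ c R : ℝ, 0 ≤ c ∧ c ≤ α i2 ∧ (∀ j ∈ S, α j ≤ c) ∧
      0 ≤ R ∧ ∑ i ∈ S, α i = c + R ∧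
      psi α ≤ v3 (α i1) (α i2) c + s3 (α i1) (α i2) c * R - 3 / 40 * R ^ 2 := by
    rcases S.eq_empty_or_nonempty with hSe | hSn
    · refine ⟨0, 0, le_rfl, h0 i2, ?_, le_rfl, ?_, ?_⟩
      · intro j hj; rw [hSe] at hj; exact absurd hj (Finset.notMem_empty _)
      · rw [hSe]; simp
      · rw [psi_eq]
        have e : ∀ k : ℕ, ∑ i ∈ S, α i ^ k = 0 := by intro k; rw [hSe]; simp
        have e1 : ∑ i ∈ S, α i = 0 := by rw [hSe]; simp
        simp only [hsum, e, e1]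
        have := num3 (α i1) (α i2) 0 0 0 0 0 (h0 _) (h0 _) le_rfl le_rfl le_rfl (by norm_num)
        refine le_trans (le_of_eq ?_) this
        ring
    · obtain ⟨i3, hi3, hi3m⟩ := Finset.exists_max_image S α hSn
      have hs3 : ∀ g : ι → ℝ, ∑ i ∈ S, g i = g i3 + ∑ i ∈ S.erase i3, g i := by
        intro g
        rw [← Finset.add_sum_erase _ g hi3]
      obtain ⟨f1, f2, f3, f12, f34⟩ := pow_facts α h0 (S.erase i3)
      refine ⟨α i3, ∑ i ∈ S.erase i3, α i, h0 _, hSb i3 hi3, fun j hj => hi3m j hj, f1,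
        hs3 α, ?_⟩
      rw [psi_eq]
      simp only [hsum, hs3]
      have := num3 (α i1) (α i2) (α i3) (∑ i ∈ S.erase i3, α i) (∑ i ∈ S.erase i3, α i ^ 2)
        (∑ i ∈ S.erase i3, α i ^ 3) (∑ i ∈ S.erase i3, α i ^ 4) (h0 _) (h0 _) (h0 _) f2 f3 f34
      refine le_trans (le_of_eq ?_) this
      ring
  have hLs : ∑ i, α i = α i1 + α i2 + c + R := by rw [hsum, hL]; ring
  obtain ⟨f1, f2, f3, f12, f34⟩ := pow_facts α h0 S
  have p2 : psi α ≤ v0 (α i1) (α i2) + v1 (α i1) (α i2) * (c + R) := by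
    rw [← hL, psi_eq]
    simp only [hsum]
    exact num2 _ _ _ _ _ _ (h0 _) (h0 _) f2 f3 f12 f34
  obtain ⟨g1, g2, g3, g12, g34⟩ := pow_facts α h0 univ
  have p1 : psi α ≤ 2 / 5 * ∑ i, α i := by
    rw [psi_eq]; nlinarith
  have hlen : ∀ (o₁ o₂ : Option ι), o₁ ≠ o₂ → ∀ x y z : ℝ, 0 ≤ x → x ≤ y → y ≤ z →
      x ≤ Option.elim o₁ M (fun i => 1 - α i) → y ≤ Option.elim o₂ M (fun i => 1 - α i) →
      (∀ j : Option ι, j ≠ o₁ → j ≠ o₂ → z ≤ Option.elim j M (fun i => 1 - α i)) →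
      x * z + y * z + 2 * x * y ≤ f ^ 2 :=
    hC2 (fun o => Option.elim o M (fun i => 1 - α i)) rfl (fun i => rfl)
  have hothers : ∀ j, j ≠ i1 → 1 - α i2 ≤ 1 - α j := by
    intro j hj
    have := hi2 j (Finset.mem_erase.2 ⟨hj, mem_univ _⟩)
    linarith
  have hothers3 : ∀ j, j ≠ i1 → j ≠ i2 → 1 - c ≤ 1 - α j := by
    intro j hj1 hj2
    have := hcS j (hmemS j hj1 hj2)
    linarith
  have hane : (some i1 : Option ι) ≠ some i2 := by
    intro h; exact h21 (Option.some.inj h).symm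
  refine core h1 h2 h3 h4 (α i1) (α i2) c R (∑ i, α i) M f (psi α) hc hcb hb1 (hle i1) hR hLs
    hM hf p1 p2 p3 ?_ ?_ ?_ hψ
  · intro hMb
    rcases le_total M (1 - α i1) with hMa | hMa
    · have := hlen none (some i1) (by simp) M (1 - α i1) (1 - α i2) hM hMa (by linarith)
        le_rfl le_rfl ?_
      · nlinarith
      · intro j hj1 hj2
        cases j with
        | none => exact absurd rfl hj1
        | some j => exact hothers j (fun h => hj2 (by rw [h]))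
    · have := hlen (some i1) none (by simp) (1 - α i1) M (1 - α i2) (by linarith [hle i1]) hMa
        hMb le_rfl le_rfl ?_
      · nlinarith
      · intro j hj1 hj2
        cases j with
        | none => exact absurd rfl hj2
        | some j => exact hothers j (fun h => hj1 (by rw [h]))
  · intro hMb hMc
    have := hlen (some i1) (some i2) hane (1 - α i1) (1 - α i2) M (by linarith [hle i1])
      (by linarith) hMb le_rfl le_rfl ?_
    · nlinarith
    · intro j hj1 hj2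
      cases j with
      | none => exact le_rfl
      | some j =>
        exact le_trans hMc (hothers3 j (fun h => hj1 (by rw [h])) (fun h => hj2 (by rw [h])))
  · intro hMc
    have := hlen (some i1) (some i2) hane (1 - α i1) (1 - α i2) (1 - c) (by linarith [hle i1])
      (by linarith) (by linarith) le_rfl le_rfl ?_
    · nlinarith
    · intro j hj1 hj2
      cases j with
      | none => exact hMc
      | some j => exact hothers3 j (fun h => hj1 (by rw [h])) (fun h => hj2 (by rw [h]))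

end Pool.Agent.MP4da8b1Q1
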