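import Pool.Agent.Work.MP_4da8b1_Q1_helper46.V2

/-!
# Block RB: the matrix inequality of region B
-/

set_option autoImplicit false

open Matrix Finset

namespace Pool.Agent.MP4da8b1Q1

/-- the matrix `c cᵀ` -/
def CC {n : ℕ} (c : E n) : Matrix (Fin n) (Fin n) ℝ := vecMulVec (fun k => c k) (fun k => c k)

theorem quad_eq {n : ℕ} (A : Matrix (Fin n) (Fin n) ℝ) (c : E n) :
    quad A c = (A * CC c).trace := by
  unfold quad CC Matrix.trace
  refine Finset.sum_congr rfl fun k _ => ?_
  rw [Matrix.diag_apply, Matrix.mul_apply]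
  refine Finset.sum_congr rfl fun l _ => ?_
  rw [Matrix.vecMulVec_apply]
  ring

theorem CC_psd {n : ℕ} (c : E n) : (CC c).PosSemidef := by
  have h := Matrix.posSemidef_vecMulVec_self_star (fun k => c k)
  have e : star (fun k => c k) = fun k => c k := by
    funext k
    simp
  rw [e] at h
  exact h

theorem CC_tr {n : ℕ} (c : E n) : (CC c).trace = ‖c‖ ^ 2 := by
  unfold CC
  rw [Matrix.trace_vecMulVec, EuclideanSpace.norm_eq, Real.sq_sqrt (by positivity)]
  unfold dotProduct
  refine Finset.sum_congr rfl fun k _ => ?_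
  rw [Real.norm_eq_abs, sq_abs]
  ring

theorem CC_sq {n : ℕ} (c : E n) : (CC c * CC c).trace = (‖c‖ ^ 2) ^ 2 := by
  have h := CC_tr c
  unfold CC at h ⊢
  rw [Matrix.vecMulVec_mul_vecMulVec, Matrix.vecMulVec_smul, Matrix.trace_smul, h]
  rw [Matrix.trace_vecMulVec] at h
  rw [h, smul_eq_mul]
  ring

theorem stmt_RB_of (hSM : Stmt_SM) (hV1 : Stmt_V1) (hV3 : Stmt_V3) : Stmt_RB := by
  intro n S c x y Y₂ γ V hS hT hx hx1 hy hY hV hy9 hγ
  have h := fun i => hSM n (S i) (Wm S i) (yy S i) (hS i) (hT i) rfl rfl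
  choose hW hy0 hy2 hS2 hq hq2 ω ρ hω0 hωy hω4 hωW hWy hρ0 hρ1 hρq hρ using h
  have tW := trWm S
  have hx0 : 0 ≤ x := by
    rw [hx]
    positivity
  set C := CC c with hC
  have hCp : C.PosSemidef := CC_psd c
  have trC : C.trace = x := by rw [hC, CC_tr, hx]
  have trCC : (C * C).trace = x ^ 2 := by rw [hC, CC_sq, hx]
  -- `Y₂ ≤ y/2`
  have hY0 : 0 ≤ Y₂ := by
    rw [hY]
    positivity
  have hYy : Y₂ ≤ y / 2 := by
    rw [hY, hy, Finset.sum_div]
    refine Finset.sum_le_sum fun i _ => ?_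
    nlinarith [hy0 i, hy2 i]
  -- the sum of the traces
  have e0 : (∑ i, ∑ j, if i = j then 0 else (S i * S j).trace) =
      (EE S * EE S).trace + 1 + 2 * y := by
    rw [offdiag_sum]
    have e1 : ∑ i, ∑ j, (S i * S j).trace = ((EE S + 1) * (EE S + 1)).trace := by
      rw [← sumS, Finset.sum_mul_sum, Matrix.trace_sum]
      exact Finset.sum_congr rfl fun i _ => (Matrix.trace_sum _ _).symm
    have e2 : (EE S).trace = 1 := by
      unfold EE
      rw [Matrix.trace_sub, Matrix.trace_sum, Matrix.trace_one]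
      simp [hT]
    have e3 : ∑ i, (S i * S i).trace = (n + 1) - 2 * y := by
      simp_rw [hS2]
      rw [Finset.sum_sub_distrib, ← Finset.mul_sum, ← hy]
      simp
    rw [e1, e3, Matrix.add_mul, Matrix.mul_add, Matrix.mul_one, Matrix.one_mul,
      Matrix.trace_add, Matrix.trace_add, Matrix.trace_add, e2, Matrix.trace_one,
      Fintype.card_fin]
    ring
  -- the quadratic forms
  set s : ℝ := ∑ i, ((S i * S i) * C).trace with hs
  have hs0 : 0 ≤ s := by
    rw [hs]
    refine Finset.sum_nonneg fun i _ => ?_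
    have h1 : (S i * S i).PosSemidef := by
      have := Matrix.posSemidef_conjTranspose_mul_self (S i)
      rwa [(hS i).isHermitian.eq] at this
    exact tr_nn h1 hCp
  have e1 : ∑ i, (S i * C).trace = (EE S * C).trace + x := by
    rw [← Matrix.trace_sum, ← Finset.sum_mul, sumS, Matrix.add_mul, Matrix.one_mul,
      Matrix.trace_add, trC]
  have qW : ∑ i, quad (Wm S i) c = (EE S * C).trace + x - s := by
    simp_rw [quad_eq]
    rw [← hC]
    unfold Wm
    simp only [Matrix.sub_mul, Matrix.trace_sub, Finset.sum_sub_distrib]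
    rw [e1]
  have qS : ∑ i, quad (S i + S i * S i) c = (EE S * C).trace + x + s := by
    simp_rw [quad_eq]
    rw [← hC]
    simp only [Matrix.add_mul, Matrix.trace_add, Finset.sum_add_distrib]
    rw [e1]
  have qWle : ∑ i, quad (Wm S i) c ≤ y * x := by
    rw [hy, Finset.sum_mul]
    refine Finset.sum_le_sum fun i _ => ?_
    rw [quad_eq, ← hC]
    have h1 := tr_mono_left (hωW i) hCp
    rw [Matrix.smul_mul, Matrix.one_mul, Matrix.trace_smul, smul_eq_mul, trC] at h1
    exact h1.trans (mul_le_mul_of_nonneg_right (hωy i) hx0)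
  have hEH := EE_herm S hS
  rw [e0, qS]
  rcases le_total y (6 / 5) with hA | hA
  · -- first alternative
    left
    obtain ⟨K, hKp, hK2, hK4, hKV⟩ := hV1 (Fin (n + 1)) n S hS hT
    rw [← hy, ← hY] at hK2
    rw [← hy] at hK4
    rw [← hy, ← hY, ← hV] at hKV
    have hH : (EE S - (1 / 2 : ℝ) • (C + (3 / 4 : ℝ) • K)).IsHermitian := by
      have h1 : ((1 / 2 : ℝ) • (C + (3 / 4 : ℝ) • K)).PosSemidef :=
        (hCp.add (hKp.smul (by norm_num))).smul (by norm_num)
      exact hEH.sub h1.isHermitian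
    have hsq := tr_sq_nn hH
    have esq : ((EE S - (1 / 2 : ℝ) • (C + (3 / 4 : ℝ) • K)) *
        (EE S - (1 / 2 : ℝ) • (C + (3 / 4 : ℝ) • K))).trace =
        (EE S * EE S).trace - (EE S * C).trace - 3 / 4 * (K * EE S).trace +
          1 / 4 * ((C * C).trace + 3 / 2 * (K * C).trace + 9 / 16 * (K * K).trace) := by
      simp only [Matrix.sub_mul, Matrix.mul_sub, Matrix.smul_mul, Matrix.mul_smul,
        Matrix.add_mul, Matrix.mul_add, smul_add,
        Matrix.trace_sub, Matrix.trace_smul, Matrix.trace_add, smul_eq_mul]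
      rw [Matrix.trace_mul_comm (EE S) K, Matrix.trace_mul_comm C (EE S),
        Matrix.trace_mul_comm C K]
      ring
    rw [esq, trCC] at hsq
    have hKC : (K * C).trace ≤ y / 4 * x := by
      have h1 := tr_mono_left hK4 hCp
      rwa [Matrix.smul_mul, Matrix.one_mul, Matrix.trace_smul, smul_eq_mul, trC] at h1
    rw [qW]
    have num : 0 ≤ 2 * y - 1 - y ^ 2 / 8 - y / 16 - 3 / 4 * y ^ 2 +
        Y₂ * (1 / 8 - 99 / 1000 - 9 / 128 * y) + x * (2 - x - x / 4 - 3 / 32 * y) := by
      have n1 : 0 ≤ x * (2 - x - x / 4 - 3 / 32 * y) := by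
        apply mul_nonneg hx0
        linarith
      have n2 : y / 2 * (1 / 8 - 99 / 1000 - 9 / 128 * y) ≤
          Y₂ * (1 / 8 - 99 / 1000 - 9 / 128 * y) := by
        apply mul_le_mul_of_nonpos_right hYy
        linarith
      have n3 : 0 ≤ 2 * y - 1 - y ^ 2 / 8 - y / 16 - 3 / 4 * y ^ 2 +
          y / 2 * (1 / 8 - 99 / 1000 - 9 / 128 * y) := by
        nlinarith [mul_nonneg (sub_nonneg.2 hy9) (sub_nonneg.2 hA)]
      linarith
    nlinarith
  · right
    -- the lower bound of `γ/2`
    have hden : 0 < 16 + 4 * y := by linarith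
    have hYn : 0 ≤ y / 2 - Y₂ := by linarith
    set t : ℝ := y * (y / 2 - Y₂) / (16 + 4 * y) with ht
    have ht0 : 0 ≤ t := by
      rw [ht]
      apply div_nonneg _ hden.le
      apply mul_nonneg _ hYn
      linarith
    have hab : (2 + y / 2) * x * t = x * y * (y / 2 - Y₂) / 8 := by
      rw [ht]
      field_simp
      ring
    have hγ2 : (γ / 2) ^ 2 ≤ ((2 + y / 2) * x + t) ^ 2 := by
      have g1 : (∑ i, quad (Wm S i) c) / 2 * (y / 2 - Y₂) ≤ y * x / 2 * (y / 2 - Y₂) :=
        mul_le_mul_of_nonneg_right (by linarith) hYn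
      nlinarith [sq_nonneg ((2 + y / 2) * x - t)]
    have hγ3 : -((2 + y / 2) * x + t) ≤ γ / 2 := by
      have g2 : 0 ≤ (2 + y / 2) * x + t := by positivity
      exact (abs_le_of_sq_le_sq' hγ2 g2).1
    have B3 : 0 ≤ 3 / 2 * y - 1 - V + (EE S * EE S).trace - t →
        3 / 2 * (1 - x) + 1 / 2 * ((1 - x) ^ 2 + V + 2 * ∑ i, quad (Wm S i) c) +
          1 / 2 * ((1 - x) * y - γ) ≤
        (EE S * EE S).trace + 1 + 2 * y - V / 2 + ((EE S * C).trace + x + s) := by
      intro hB
      rw [qW]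
      nlinarith [mul_nonneg hx0 (sub_nonneg.2 hx1)]
    apply B3
    rcases le_total y (33 / 20) with hB | hB
    · obtain ⟨K, hKp, hK2, hK4, hKV⟩ := hV1 (Fin (n + 1)) n S hS hT
      rw [← hy, ← hY] at hK2
      rw [← hy, ← hY, ← hV] at hKV
      have hH : (EE S - (1 / 4 : ℝ) • K).IsHermitian :=
        hEH.sub (hKp.smul (by norm_num : (0 : ℝ) ≤ 1 / 4)).isHermitian
      have hsq := tr_sq_nn hH
      have esq : ((EE S - (1 / 4 : ℝ) • K) * (EE S - (1 / 4 : ℝ) • K)).trace =
          (EE S * EE S).trace - 1 / 2 * (K * EE S).trace + 1 / 16 * (K * K).trace := by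
        simp only [Matrix.sub_mul, Matrix.mul_sub, Matrix.smul_mul, Matrix.mul_smul,
          Matrix.trace_sub, Matrix.trace_smul, smul_eq_mul]
        rw [Matrix.trace_mul_comm (EE S) K]
        ring
      rw [esq] at hsq
      -- `t ≤ (y/2 - Y₂)/13`: compare with the coefficients of `Y₂`
      have ht1 : t = y / (16 + 4 * y) * (y / 2 - Y₂) := by
        rw [ht]
        ring
      have hc : y / (16 + 4 * y) ≤ 33 / 500 + y / 32 := by
        rw [div_le_iff₀ hden]
        nlinarith
      have ht2 : t ≤ (33 / 500 + y / 32) * (y / 2 - Y₂) := by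
        rw [ht1]
        exact mul_le_mul_of_nonneg_right hc hYn
      have num : 0 ≤ 3 / 2 * y - 1 - y ^ 2 / 2 - (33 / 500 + y / 32) * (y / 2) := by
        nlinarith [mul_nonneg (sub_nonneg.2 hA) (sub_nonneg.2 hB)]
      nlinarith
    · have hv := hV3 (Fin (n + 1)) n S y hS hT hy hB
      rw [← hY, ← hV, ← ht] at hv
      linarith

end Pool.Agent.MP4da8b1Q1
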