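import Pool.Agent.Work.MP_4da8b1_Q1_helper46.SPE
import Pool.Agent.Work.MP_4da8b1_gt_28.Cube

/-!
# MP_4da8b1_gt, Q1, block SGN (helper23)
-/

set_option autoImplicit false

open Matrix Finset
open scoped RealInnerProductSpace BigOperators

namespace Pool.Agent.MP4da8b1Q1

namespace SGNAux

variable {m : Type} [Fintype m] [DecidableEq m]

/-- the quadratic form is affine in each coordinate -/
theorem quad_update (B : Matrix m m ℝ) (hdiag : ∀ i, B i i = 0) (x : m → ℝ) (i : m) :
    ∃ A C : ℝ, ∀ t : ℝ, Function.update x i t ⬝ᵥ (B *ᵥ Function.update x i t) = A + t * C := by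
  set u : m → ℝ := Function.update x i 0 with hu
  set s : m → ℝ := Pi.single i (1 : ℝ) with hs
  refine ⟨u ⬝ᵥ (B *ᵥ u), u ⬝ᵥ (B *ᵥ s) + s ⬝ᵥ (B *ᵥ u), fun t => ?_⟩
  have h1 : Function.update x i t = u + t • s := by
    funext j
    by_cases h : j = i
    · subst h
      simp [hu, hs]
    · simp [hu, hs, h]
  have h2 : s ⬝ᵥ (B *ᵥ s) = 0 := by
    rw [hs, mulVec_single_one, single_dotProduct, Matrix.col_apply, hdiag, mul_zero]
  rw [h1]
  simp only [mulVec_add, mulVec_smul, add_dotProduct, dotProduct_add, smul_dotProduct,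
    dotProduct_smul, smul_eq_mul, h2]
  ring

theorem round_step (B : Matrix m m ℝ) (hdiag : ∀ i, B i i = 0) (x : m → ℝ) (i : m)
    (hx : |x i| ≤ 1) : ∃ t : ℝ, (t = 1 ∨ t = -1) ∧
      x ⬝ᵥ (B *ᵥ x) ≤ Function.update x i t ⬝ᵥ (B *ᵥ Function.update x i t) := by
  obtain ⟨A, C, h⟩ := quad_update B hdiag x i
  have h0 := h (x i)
  rw [Function.update_eq_self] at h0
  obtain ⟨h1, h2⟩ := abs_le.1 hx
  rcases le_total 0 C with hC | hC
  · refine ⟨1, Or.inl rfl, ?_⟩
    rw [h0, h 1]
    nlinarith
  · refine ⟨-1, Or.inr rfl, ?_⟩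
    rw [h0, h (-1)]
    nlinarith

theorem round_all (B : Matrix m m ℝ) (hdiag : ∀ i, B i i = 0) (y : m → ℝ) (hy : ∀ i, |y i| ≤ 1)
    (S : Finset m) : ∃ x : m → ℝ, (∀ i, |x i| ≤ 1) ∧ (∀ i ∈ S, x i = 1 ∨ x i = -1) ∧
      y ⬝ᵥ (B *ᵥ y) ≤ x ⬝ᵥ (B *ᵥ x) := by
  induction S using Finset.induction_on with
  | empty => exact ⟨y, hy, fun i hi => absurd hi (Finset.notMem_empty i), le_refl _⟩
  | insert i S hi ih =>
    obtain ⟨x, h1, h2, h3⟩ := ih
    obtain ⟨t, ht, h4⟩ := round_step B hdiag x i (h1 i)
    refine ⟨Function.update x i t, fun j => ?_, fun j hj => ?_, h3.trans h4⟩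
    · by_cases h : j = i
      · subst h
        rw [Function.update_self]
        rcases ht with rfl | rfl <;> simp
      · rw [Function.update_of_ne h]
        exact h1 j
    · by_cases h : j = i
      · subst h
        rw [Function.update_self]
        exact ht
      · rw [Function.update_of_ne h]
        exact h2 j ((Finset.mem_insert.1 hj).resolve_left h)

/-- the bilinear form of a matrix -/
noncomputable def bil (B : Matrix m m ℝ) :
    EuclideanSpace ℝ m →ₗ[ℝ] EuclideanSpace ℝ m →ₗ[ℝ] ℝ :=
  LinearMap.mk₂ ℝ (fun x y => x.ofLp ⬝ᵥ (B *ᵥ y.ofLp))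
    (fun x y z => by simp only [WithLp.ofLp_add, add_dotProduct])
    (fun c x y => by simp only [WithLp.ofLp_smul, smul_dotProduct])
    (fun x y z => by simp only [WithLp.ofLp_add, mulVec_add, dotProduct_add])
    (fun c x y => by simp only [WithLp.ofLp_smul, mulVec_smul, dotProduct_smul])

theorem bil_apply (B : Matrix m m ℝ) (x y : EuclideanSpace ℝ m) :
    bil B x y = x.ofLp ⬝ᵥ (B *ᵥ y.ofLp) := rfl

theorem bil_symm (B : Matrix m m ℝ) (hB : B.IsSymm) (x y : EuclideanSpace ℝ m) :
    bil B x y = bil B y x := by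
  rw [bil_apply, bil_apply, dotProduct_mulVec, ← mulVec_transpose, hB.eq, dotProduct_comm]

end SGNAux

open SPEAux NUCAux SGNAux in
theorem stmt_SGN : Stmt_SGN := by
  intro m _ _ B hsym hdiag
  have hB : B.IsHermitian := by
    ext i j
    rw [Matrix.conjTranspose_apply, star_trivial]
    exact hsym.apply i j
  have htr : B.trace = 0 := by
    simp [Matrix.trace, hdiag]
  have hf := stmt_SPE m B hB htr
  obtain ⟨φ, h1, h2, h3⟩ := spec B hB
  set l := hB.eigenvalues with hl
  have hBc : B = comb φ l := by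
    ext i j
    exact h1 i j
  set e : OrthonormalBasis m ℝ (EuclideanSpace ℝ m) := EuclideanSpace.basisFun m ℝ with he
  set p : m → EuclideanSpace ℝ m := fun k => WithLp.toLp 2 (φ k) with hp
  set F : Submodule ℝ (EuclideanSpace ℝ m) := Submodule.span ℝ (p '' {k | 0 < l k}) with hF
  have hpp : ∀ k k', ⟪p k, p k'⟫ = if k = k' then (1 : ℝ) else 0 := by
    intro k k'
    rw [← h2 k k', PiLp.inner_apply]
    refine Finset.sum_congr rfl fun i _ => ?_
    simp only [hp, RCLike.inner_apply, conj_trivial]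
    ring
  have hep : ∀ j k, ⟪e j, p k⟫ = φ k j := by
    intro j k
    rw [he, EuclideanSpace.basisFun_inner]
  have hproj : ∀ j, F.starProjection (e j) = ∑ k, if 0 < l k then φ k j • p k else 0 := by
    intro j
    apply Submodule.eq_starProjection_of_mem_of_inner_eq_zero
    · refine F.sum_mem fun k _ => ?_
      split_ifs with h
      · exact F.smul_mem _ (Submodule.subset_span ⟨k, h, rfl⟩)
      · exact F.zero_mem
    · intro w hw
      induction hw using Submodule.span_induction with
      | mem x hx =>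
        obtain ⟨k, hk, rfl⟩ := hx
        have hk' : 0 < l k := hk
        rw [inner_sub_left, hep, sum_inner, Finset.sum_eq_single k]
        · rw [if_pos hk', real_inner_smul_left, hpp, if_pos rfl, mul_one, sub_self]
        · intro k' _ hk'
          split_ifs
          · rw [real_inner_smul_left, hpp, if_neg hk', mul_zero]
          · rw [inner_zero_left]
        · intro h
          exact absurd (Finset.mem_univ k) h
      | zero => rw [inner_zero_right]
      | add x y _ _ hx hy => rw [inner_add_right, hx, hy, add_zero]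
      | smul c x _ hx => rw [inner_smul_right, hx, mul_zero]
  have hbpe : ∀ k j, bil B (p k) (e j) = l k * φ k j := by
    intro k j
    rw [bil_symm B hsym, bil_apply]
    have h4 : (B *ᵥ (p k).ofLp) = fun i => l k * φ k i := by
      conv_lhs => rw [hBc]
      exact comb_mulVec h2 l k
    rw [h4]
    have h5 : (e j).ofLp = Pi.single j (1 : ℝ) := by
      rw [he, EuclideanSpace.basisFun_apply]
      rfl
    rw [h5, single_dotProduct, one_mul]
  have htau : MP4da8b1.tau e (bil B) F = nuc B := by
    rw [hf, MP4da8b1.tau]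
    have h4 : ∀ j, bil B (F.starProjection (e j)) (e j) =
        ∑ k, max (l k) 0 * φ k j ^ 2 := by
      intro j
      rw [hproj, map_sum, LinearMap.sum_apply]
      refine Finset.sum_congr rfl fun k _ => ?_
      split_ifs with h
      · rw [map_smul, LinearMap.smul_apply, hbpe, max_eq_left h.le, smul_eq_mul]
        ring
      · rw [map_zero, LinearMap.zero_apply, max_eq_right (not_lt.1 h), zero_mul]
    rw [Finset.sum_congr rfl fun j _ => h4 j, Finset.sum_comm]
    refine Finset.sum_congr rfl fun k _ => ?_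
    rw [← Finset.mul_sum]
    have h5 := h2 k k
    rw [if_pos rfl] at h5
    have h6 : ∑ j, φ k j ^ 2 = 1 := by
      rw [← h5]
      exact Finset.sum_congr rfl fun j _ => sq _
    rw [h6, mul_one]
  obtain ⟨y, -, hy1, hy2⟩ := MP4da8b1.exists_mem_cube e _ F rfl (bil B) (bil_symm B hsym)
  rw [htau, bil_apply] at hy2
  have hy3 : ∀ i, |y.ofLp i| ≤ 1 := by
    intro i
    have h4 := hy1 i
    rwa [he, EuclideanSpace.basisFun_inner] at h4
  obtain ⟨x, -, hx1, hx2⟩ := round_all B hdiag y.ofLp hy3 Finset.univ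
  exact ⟨x, fun i => hx1 i (Finset.mem_univ i), hy2.trans hx2⟩

end Pool.Agent.MP4da8b1Q1
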