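import Pool.Agent.Work.MP_4da8b1_Q1_helper46.Interface

/-! # MP_4da8b1_gt, Q1: block SM (helper6): one positive semidefinite matrix of trace one -/

set_option autoImplicit false

open Matrix Finset
open scoped RealInnerProductSpace BigOperators

namespace Pool.Agent.MP4da8b1Q1

namespace SMaux

variable {n : ℕ}

/-- the matrix with eigenvalues `d` in the basis `U` -/
noncomputable def Mx (U : Matrix (Fin n) (Fin n) ℝ) (d : Fin n → ℝ) : Matrix (Fin n) (Fin n) ℝ :=
  U * diagonal d * star U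

variable {U : Matrix (Fin n) (Fin n) ℝ}

lemma Mx_mul (hU : star U * U = 1) (d e : Fin n → ℝ) :
    Mx U d * Mx U e = Mx U (fun k => d k * e k) := by
  unfold Mx
  calc U * diagonal d * star U * (U * diagonal e * star U)
      = U * diagonal d * (star U * U) * diagonal e * star U := by
        simp only [Matrix.mul_assoc]
    _ = U * (diagonal d * diagonal e) * star U := by
        rw [hU, Matrix.mul_one]
        simp only [Matrix.mul_assoc]
    _ = _ := by rw [diagonal_mul_diagonal]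

lemma Mx_sub (d e : Fin n → ℝ) : Mx U d - Mx U e = Mx U (fun k => d k - e k) := by
  unfold Mx
  rw [← Matrix.sub_mul, ← Matrix.mul_sub]
  congr 2
  ext i j
  by_cases h : i = j
  · subst h
    simp
  · simp [diagonal_apply_ne _ h]

lemma Mx_smul (c : ℝ) (d : Fin n → ℝ) : c • Mx U d = Mx U (fun k => c * d k) := by
  unfold Mx
  rw [← Matrix.smul_mul, ← Matrix.mul_smul]
  congr 2
  ext i j
  by_cases h : i = j
  · subst h
    simp
  · simp [diagonal_apply_ne _ h]

lemma Mx_one (hU : U * star U = 1) : (1 : Matrix (Fin n) (Fin n) ℝ) = Mx U (fun _ => 1) := by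
  unfold Mx
  rw [show (diagonal fun _ : Fin n => (1 : ℝ)) = 1 from diagonal_one, Matrix.mul_one, hU]

lemma Mx_trace (hU : star U * U = 1) (d : Fin n → ℝ) : (Mx U d).trace = ∑ k, d k := by
  unfold Mx
  rw [Matrix.trace_mul_comm, ← Matrix.mul_assoc, hU, Matrix.one_mul, trace_diagonal]

lemma Mx_psd (d : Fin n → ℝ) (hd : ∀ k, 0 ≤ d k) : (Mx U d).PosSemidef := by
  unfold Mx
  have h := (Matrix.PosSemidef.diagonal (n := Fin n) (R := ℝ) (d := d) (fun k => hd k))
  exact h.mul_mul_conjTranspose_same U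

/-- the polynomial inequality `(1 - 2 χ) (1 + 4 χ - χ²) ≤ 283/250 (1 - χ²)` -/
lemma poly (x : ℝ) (h1 : x ≤ 1 / 2) :
    (1 - 2 * x) * (1 + 4 * x - x ^ 2) ≤ 283 / 250 * (1 - x ^ 2) := by
  nlinarith [mul_nonneg (sq_nonneg (x - 0.134)) (show (0 : ℝ) ≤ 7.332 - 2 * x by linarith)]

/-- The scalar facts on the eigenvalues. -/
lemma scalar (σ : Fin n → ℝ) (h0 : ∀ k, 0 ≤ σ k) (h1 : ∑ k, σ k = 1) (i₀ : Fin n)
    (hmax : ∀ k, σ k ≤ σ i₀) (y : ℝ) (hy : y = (∑ k, (σ k - σ k * σ k)) / 2) :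
    (∀ k, 0 ≤ σ k - σ k * σ k) ∧ 0 ≤ y ∧ y ≤ 1 / 2 ∧ ∑ k, σ k * σ k = 1 - 2 * y ∧
    (1 - 2 * y) * (1 - √(1 - 2 * y)) ≤ ∑ k, (σ k - σ k * σ k) * σ k ∧
    ∑ k, (σ k - σ k * σ k) * (σ k - σ k * σ k) ≤ 1 - 2 * y ∧
    ∃ ω ρ : ℝ, 0 ≤ ω ∧ ω ≤ y ∧ ω ≤ 1 / 4 ∧ (∀ k, 0 ≤ ω * 1 - (σ k - σ k * σ k)) ∧
      (∀ k, 0 ≤ (σ k - σ k * σ k) - y * σ k) ∧ 0 ≤ ρ ∧ ρ ≤ 1 ∧
      ρ * (2 * y - ∑ k, (σ k - σ k * σ k) * σ k) ≤ 283 / 250 * y ∧
      ∀ h t : ℝ, 0 ≤ h → h * y ≤ t * y - (y - ω) → h * y ≤ 2 * ω - y → h * y ≤ ρ * t * y := by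
  classical
  -- pairwise sums are at most one
  have hle : ∀ k, σ k ≤ 1 := fun k => by
    rw [← h1]
    exact Finset.single_le_sum (f := σ) (fun i _ => h0 i) (Finset.mem_univ k)
  have hpair : ∀ k, k ≠ i₀ → σ k + σ i₀ ≤ 1 := fun k hk => by
    rw [← h1, ← Finset.sum_pair (f := σ) hk]
    exact Finset.sum_le_sum_of_subset_of_nonneg (Finset.subset_univ _) fun i _ _ => h0 i
  have hW : ∀ k, 0 ≤ σ k - σ k * σ k := fun k => by
    have := h0 k
    have := hle k
    nlinarith
  have hq : ∑ k, σ k * σ k = 1 - 2 * y := by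
    rw [hy, Finset.sum_sub_distrib, h1]
    ring
  have hq0 : 0 ≤ ∑ k, σ k * σ k := Finset.sum_nonneg fun k _ => mul_self_nonneg _
  have hy0 : 0 ≤ y := by
    rw [hy]
    exact div_nonneg (Finset.sum_nonneg fun k _ => hW k) (by norm_num)
  have hy1 : y ≤ 1 / 2 := by
    rw [hq] at hq0
    linarith
  -- splitting off the largest eigenvalue
  obtain ⟨r, hr⟩ : ∃ r, r = 1 - σ i₀ := ⟨_, rfl⟩
  have hr0 : 0 ≤ r := by
    have := hle i₀
    linarith
  have hr1 : r ≤ 1 := by
    have := h0 i₀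
    linarith
  have hσ0 : σ i₀ = 1 - r := by linarith
  have hsplit : ∀ g : Fin n → ℝ, ∑ k, g k = g i₀ + ∑ k ∈ univ.erase i₀, g k := fun g => by
    rw [Finset.add_sum_erase _ _ (Finset.mem_univ i₀)]
  have hr' : ∑ k ∈ univ.erase i₀, σ k = r := by
    have := hsplit σ
    linarith
  have hkr : ∀ k ∈ univ.erase i₀, σ k ≤ r := fun k hk => by
    have := hpair k (Finset.ne_of_mem_erase hk)
    linarith
  obtain ⟨s, hs⟩ : ∃ s, s = ∑ k ∈ univ.erase i₀, σ k * σ k := ⟨_, rfl⟩
  obtain ⟨s₃, hs₃⟩ : ∃ s₃, s₃ = ∑ k ∈ univ.erase i₀, σ k * σ k * σ k := ⟨_, rfl⟩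
  have hs0 : 0 ≤ s := by
    rw [hs]
    exact Finset.sum_nonneg fun k _ => mul_self_nonneg _
  have hs30 : 0 ≤ s₃ := by
    rw [hs₃]
    exact Finset.sum_nonneg fun k _ => mul_nonneg (mul_self_nonneg _) (h0 k)
  have hsr : s ≤ r * r := by
    calc s ≤ ∑ k ∈ univ.erase i₀, r * σ k := by
          rw [hs]
          exact Finset.sum_le_sum fun k hk => mul_le_mul_of_nonneg_right (hkr k hk) (h0 k)
      _ = r * r := by rw [← Finset.mul_sum, hr']
  have hs3r : s₃ ≤ r * s := by
    calc s₃ ≤ ∑ k ∈ univ.erase i₀, r * (σ k * σ k) := by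
          rw [hs₃]
          refine Finset.sum_le_sum fun k hk => ?_
          have := mul_le_mul_of_nonneg_left (hkr k hk) (mul_self_nonneg (σ k))
          linarith
      _ = r * s := by rw [← Finset.mul_sum, hs]
  have h2y : 2 * y = 2 * r - r ^ 2 - s := by
    have := hsplit fun k => σ k * σ k
    rw [hq, ← hs, hσ0] at this
    linarith
  -- the sum of `σ (1 - σ)²`
  have hcub : 2 * y - ∑ k, (σ k - σ k * σ k) * σ k = 2 * r - r ^ 2 - s - (r ^ 2 - 2 * r + 1 + s) +
      ((1 - r) ^ 3 + s₃) := by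
    have e1 : ∑ k, (σ k - σ k * σ k) * σ k = ∑ k, σ k * σ k - ∑ k, σ k * σ k * σ k := by
      rw [← Finset.sum_sub_distrib]
      exact Finset.sum_congr rfl fun k _ => by ring
    have e2 : ∑ k, σ k * σ k * σ k = (1 - r) ^ 3 + s₃ := by
      have := hsplit fun k => σ k * σ k * σ k
      rw [← hs₃, hσ0] at this
      rw [this]
      ring
    have e3 : ∑ k, σ k * σ k = (1 - r) * (1 - r) + s := by
      have := hsplit fun k => σ k * σ k
      rw [← hs, hσ0] at this
      exact this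
    rw [e1, e2, e3, h2y]
    ring
  refine ⟨hW, hy0, hy1, hq, ?_, ?_, ?_⟩
  · -- `tr W S ≥ q - q ^ (3/2)`
    rw [← hq]
    obtain ⟨q, hqq⟩ : ∃ q, q = ∑ k, σ k * σ k := ⟨_, rfl⟩
    rw [← hqq] at hq0 ⊢
    have hsq : √q * √q = q := Real.mul_self_sqrt hq0
    have hk : ∀ k, σ k ≤ √q := fun k => by
      apply Real.le_sqrt_of_sq_le
      rw [hqq]
      calc σ k ^ 2 = σ k * σ k := by ring
        _ ≤ _ := Finset.single_le_sum (f := fun k => σ k * σ k) (fun i _ => mul_self_nonneg _)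
          (Finset.mem_univ k)
    have h3 : ∑ k, σ k * σ k * σ k ≤ √q * q := by
      calc ∑ k, σ k * σ k * σ k ≤ ∑ k, √q * (σ k * σ k) :=
            Finset.sum_le_sum fun k _ => by
              have := mul_le_mul_of_nonneg_left (hk k) (mul_self_nonneg (σ k))
              linarith
        _ = √q * q := by rw [← Finset.mul_sum, hqq]
    have e1 : ∑ k, (σ k - σ k * σ k) * σ k = q - ∑ k, σ k * σ k * σ k := by
      rw [hqq, ← Finset.sum_sub_distrib]
      exact Finset.sum_congr rfl fun k _ => by ring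
    rw [e1]
    linarith
  · rw [← hq]
    refine Finset.sum_le_sum fun k _ => ?_
    have a1 := h0 k
    have a2 := hle k
    have a3 := hW k
    have a4 : σ k - σ k * σ k ≤ σ k := by nlinarith
    exact mul_self_le_mul_self a3 a4
  · obtain ⟨ω, hω⟩ : ∃ ω, ω = r * (1 - r) := ⟨_, rfl⟩
    have hω0 : 0 ≤ ω := by
      rw [hω]
      exact mul_nonneg hr0 (by linarith)
    have hyω : y - ω = (r ^ 2 - s) / 2 := by
      rw [hω]
      linarith
    have hωy : ω ≤ y := by
      have : 0 ≤ (r ^ 2 - s) / 2 := by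
        have : s ≤ r ^ 2 := by rw [sq]; exact hsr
        linarith
      linarith
    have hyr : y ≤ r := by nlinarith
    refine ⟨ω, max (2 * ω - y) 0 / ω, hω0, hωy, ?_, ?_, ?_, ?_, ?_, ?_, ?_⟩
    · rw [hω]
      nlinarith [sq_nonneg (r - 1 / 2)]
    · intro k
      by_cases hk : k = i₀
      · subst hk
        rw [hω, hσ0]
        nlinarith
      · have a1 := hpair k hk
        have a2 := hmax k
        have : 0 ≤ (σ i₀ - σ k) * (1 - σ i₀ - σ k) := mul_nonneg (by linarith) (by linarith)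
        rw [hω]
        rw [hσ0] at this
        nlinarith
    · intro k
      have a1 := h0 k
      have a2 := hmax k
      have : 0 ≤ σ k * (1 - y - σ k) := mul_nonneg a1 (by linarith)
      nlinarith
    · exact div_nonneg (le_max_right _ _) hω0
    · rcases hω0.eq_or_lt with h | h
      · rw [← h, div_zero]
        exact zero_le_one
      · rw [div_le_one h]
        exact max_le (by linarith) h.le
    · -- the bound with `283/250`
      rcases le_or_gt (2 * ω - y) 0 with hneg | hpos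
      · rw [max_eq_right hneg, zero_div, zero_mul]
        exact mul_nonneg (by norm_num) hy0
      · rw [max_eq_left hpos.le]
        have hypos : 0 < y := by
          by_contra hcon
          have : y = 0 := le_antisymm (not_lt.1 hcon) hy0
          have : ω = 0 := le_antisymm (by linarith) hω0
          linarith
        have hωpos : 0 < ω := by linarith
        -- `χ`
        obtain ⟨χ, hχ⟩ : ∃ χ, χ = (y - ω) / y := ⟨_, rfl⟩
        have hχy : χ * y = y - ω := by
          rw [hχ]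
          field_simp
        have hχ0 : 0 ≤ χ := by
          rw [hχ]
          exact div_nonneg (by linarith) hy0
        have hωχ : ω = (1 - χ) * y := by linarith
        have hχ2 : χ ≤ 1 / 2 := by
          by_contra hcon
          have : (1 / 2) * y < χ * y := mul_lt_mul_of_pos_right (not_le.1 hcon) hypos
          linarith
        -- `2 χ ≤ r (1 + χ)`
        have hrχ : 2 * χ ≤ r * (1 + χ) := by
          -- `χ (2 r - r² - s) = r² - s`
          have e1 : χ * (2 * r - r ^ 2 - s) = r ^ 2 - s := by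
            rw [← h2y]
            linarith
          have hrpos : 0 < r := lt_of_lt_of_le hypos hyr
          have e2 : χ * (2 - r) * r ≤ r * r := by nlinarith [mul_nonneg hs0 (sub_nonneg.2 (show χ ≤ 1 by linarith))]
          have e3 : χ * (2 - r) ≤ r := le_of_mul_le_mul_right e2 hrpos
          linarith
        -- the cubic sum is at most `y (1 + (3 - 2 r) χ)`
        have hc : 2 * y - ∑ k, (σ k - σ k * σ k) * σ k ≤ y * (1 + (3 - 2 * r) * χ) := by
          rw [hcub]
          have e1 : y * (1 + (3 - 2 * r) * χ) = y + (3 - 2 * r) * (y - ω) := by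
            rw [← hχy]
            ring
          rw [e1, hyω]
          nlinarith
        have hc2 : (2 * y - ∑ k, (σ k - σ k * σ k) * σ k) * (1 + χ) ≤
            y * (1 + 4 * χ - χ ^ 2) := by
          have b1 := mul_le_mul_of_nonneg_right hc (show (0 : ℝ) ≤ 1 + χ by linarith)
          have b2 : y * (1 + (3 - 2 * r) * χ) * (1 + χ) ≤ y * (1 + 4 * χ - χ ^ 2) := by
            rw [mul_assoc]
            refine mul_le_mul_of_nonneg_left ?_ hy0
            nlinarith
          exact b1.trans b2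
        rw [div_mul_eq_mul_div, div_le_iff₀ hωpos]
        have hp := poly χ hχ2
        have hA : (2 * ω - y) = (1 - 2 * χ) * y := by
          rw [hωχ]
          ring
        rw [hA, hωχ]
        have hfac : 0 < 1 + χ := by linarith
        refine le_of_mul_le_mul_right ?_ hfac
        have c1 := mul_le_mul_of_nonneg_left hc2
          (show 0 ≤ (1 - 2 * χ) * y from mul_nonneg (by linarith) hy0)
        have c2 : (1 - 2 * χ) * y * (y * (1 + 4 * χ - χ ^ 2)) ≤
            283 / 250 * y * ((1 - χ) * y) * (1 + χ) := by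
          have c3 := mul_le_mul_of_nonneg_right hp (mul_nonneg hy0 hy0)
          nlinarith
        calc (1 - 2 * χ) * y * (2 * y - ∑ k, (σ k - σ k * σ k) * σ k) * (1 + χ)
            = (1 - 2 * χ) * y * ((2 * y - ∑ k, (σ k - σ k * σ k) * σ k) * (1 + χ)) := by ring
          _ ≤ _ := c1.trans c2
    · intro h t h0' h1' h2'
      rcases hy0.eq_or_lt with hyz | hypos
      · rw [← hyz, mul_zero, mul_zero]
      · have hωpos : 0 < ω := by
          have : 0 ≤ h * y := mul_nonneg h0' hy0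
          have : 0 < 2 * ω := by linarith
          linarith
        have hpos : 0 ≤ 2 * ω - y := le_trans (mul_nonneg h0' hy0) h2'
        rw [max_eq_left hpos, div_mul_eq_mul_div, div_mul_eq_mul_div, le_div_iff₀ hωpos]
        -- `h y ω ≤ (2 ω - y) t y`
        have a1 : (2 * ω - y) * (h * y + (y - ω)) ≤ (2 * ω - y) * (t * y) :=
          mul_le_mul_of_nonneg_left (by linarith) hpos
        have a2 : 0 ≤ (y - ω) * (2 * ω - y - h * y) := mul_nonneg (by linarith) (by linarith)
        nlinarith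

end SMaux

open SMaux in
theorem stmt_SM : Stmt_SM := by
  classical
  intro n S W y hS htr hW hy
  have hH : S.IsHermitian := hS.1
  obtain ⟨U, hUdef⟩ : ∃ U : Matrix (Fin n) (Fin n) ℝ, U = (hH.eigenvectorUnitary : Matrix _ _ ℝ) :=
    ⟨_, rfl⟩
  have hU1 : star U * U = 1 := by
    rw [hUdef]
    exact Unitary.coe_star_mul_self _
  have hU2 : U * star U = 1 := by
    rw [hUdef]
    exact Unitary.coe_mul_star_self _
  obtain ⟨σ, hσ⟩ : ∃ σ : Fin n → ℝ, σ = hH.eigenvalues := ⟨_, rfl⟩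
  have hSM : S = Mx U σ := by
    have h := hH.spectral_theorem
    rw [Unitary.conjStarAlgAut_apply] at h
    rw [hUdef, hσ]
    exact h
  have h0 : ∀ k, 0 ≤ σ k := fun k => by
    rw [hσ]
    exact hS.eigenvalues_nonneg k
  have h1 : ∑ k, σ k = 1 := by
    rw [← Mx_trace hU1 σ, ← hSM, htr]
  have hne : (univ : Finset (Fin n)).Nonempty := by
    rw [Finset.nonempty_iff_ne_empty]
    intro he
    rw [he, Finset.sum_empty] at h1
    exact zero_ne_one h1
  obtain ⟨i₀, -, hi₀⟩ := Finset.exists_max_image univ σ hne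
  have hWM : W = Mx U (fun k => σ k - σ k * σ k) := by
    rw [hW, hSM, Mx_mul hU1, Mx_sub]
  obtain ⟨b1, b2, b3, b4, b5, b6, ω, ρ, c1, c2, c3, c4, c5, c6, c7, c8, c9⟩ :=
    scalar σ h0 h1 i₀ (fun k => hi₀ k (Finset.mem_univ k)) y (by rw [hy, hWM, Mx_trace hU1])
  have hWS : (W * S).trace = ∑ k, (σ k - σ k * σ k) * σ k := by
    rw [hWM, hSM, Mx_mul hU1, Mx_trace hU1]
  refine ⟨?_, b2, b3, ?_, ?_, ?_, ω, ρ, c1, c2, c3, ?_, ?_, c6, c7, ?_, c9⟩
  · rw [hWM]
    exact Mx_psd _ b1
  · rw [hSM, Mx_mul hU1, Mx_trace hU1]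
    exact b4
  · rw [hWS]
    exact b5
  · rw [hWM, Mx_mul hU1, Mx_trace hU1]
    exact b6
  · rw [Mx_one hU2, Mx_smul, hWM, Mx_sub]
    exact Mx_psd _ c4
  · rw [hWM, hSM, Mx_smul, Mx_sub]
    exact Mx_psd _ c5
  · rw [hWS]
    exact c8

end Pool.Agent.MP4da8b1Q1
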