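import Pool.Agent.Work.MP_4da8b1_Q1_helper46.NUC

/-!
# MP_4da8b1_gt, Q1, block SPE (helper23)
-/

set_option autoImplicit false

open Matrix Finset
open scoped RealInnerProductSpace BigOperators

namespace Pool.Agent.MP4da8b1Q1

namespace SPEAux

variable {m : Type} [Fintype m] [DecidableEq m]

/-- spectral decomposition in coordinates -/
theorem spec (B : Matrix m m ℝ) (hB : B.IsHermitian) : ∃ φ : m → m → ℝ,
    (∀ i j, B i j = ∑ k, hB.eigenvalues k * (φ k i * φ k j)) ∧
    (∀ k l, ∑ i, φ k i * φ l i = if k = l then 1 else 0) ∧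
    (∀ i j, ∑ k, φ k i * φ k j = if i = j then 1 else 0) := by
  set U : Matrix m m ℝ := (hB.eigenvectorUnitary : Matrix m m ℝ) with hU
  have h1 : star U * U = 1 := Unitary.coe_star_mul_self hB.eigenvectorUnitary
  have h2 : U * star U = 1 := Unitary.coe_mul_star_self hB.eigenvectorUnitary
  have h3 : B = U * diagonal hB.eigenvalues * star U := by
    have h := hB.spectral_theorem
    rw [Unitary.conjStarAlgAut_apply] at h
    exact h
  have hst : ∀ i j, (star U) i j = U j i := by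
    intro i j
    rw [Matrix.star_apply]
    rfl
  refine ⟨fun k i => U i k, ?_, ?_, ?_⟩
  · intro i j
    have h := congrFun (congrFun h3 i) j
    rw [h, Matrix.mul_apply]
    refine Finset.sum_congr rfl fun k _ => ?_
    rw [Matrix.mul_diagonal, hst]
    ring
  · intro k l
    have h := congrFun (congrFun h1 k) l
    rw [Matrix.mul_apply, Matrix.one_apply] at h
    rw [← h]
    refine Finset.sum_congr rfl fun i _ => ?_
    rw [hst]
  · intro i j
    have h := congrFun (congrFun h2 i) j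
    rw [Matrix.mul_apply, Matrix.one_apply] at h
    rw [← h]
    refine Finset.sum_congr rfl fun k _ => ?_
    rw [hst]

/-- `∑ σ_k φ_k φ_kᵀ` -/
def comb (φ : m → m → ℝ) (σ : m → ℝ) : Matrix m m ℝ := fun i j => ∑ k, σ k * (φ k i * φ k j)

theorem quad_comb (φ : m → m → ℝ) (σ x : m → ℝ) :
    x ⬝ᵥ (comb φ σ *ᵥ x) = ∑ k, σ k * (∑ i, x i * φ k i) ^ 2 := by
  have h1 : ∀ k, (∑ i, x i * φ k i) ^ 2 = ∑ i, ∑ j, x i * (φ k i * φ k j * x j) := by
    intro k
    rw [sq, Finset.sum_mul_sum]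
    refine Finset.sum_congr rfl fun i _ => Finset.sum_congr rfl fun j _ => ?_
    ring
  simp only [h1, dotProduct, mulVec, comb, Finset.mul_sum, Finset.sum_mul]
  calc ∑ i, ∑ j, ∑ k, x i * (σ k * (φ k i * φ k j) * x j)
      = ∑ i, ∑ k, ∑ j, x i * (σ k * (φ k i * φ k j) * x j) :=
        Finset.sum_congr rfl fun i _ => Finset.sum_comm
    _ = ∑ k, ∑ i, ∑ j, x i * (σ k * (φ k i * φ k j) * x j) := Finset.sum_comm
    _ = ∑ k, ∑ i, ∑ j, σ k * (x i * (φ k i * φ k j * x j)) := by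
        refine Finset.sum_congr rfl fun k _ => Finset.sum_congr rfl fun i _ =>
          Finset.sum_congr rfl fun j _ => ?_
        ring

theorem comb_one {φ : m → m → ℝ} (h : ∀ i j, ∑ k, φ k i * φ k j = if i = j then 1 else 0) :
    comb φ (fun _ => 1) = 1 := by
  ext i j
  simp only [comb, one_mul, h, Matrix.one_apply]

theorem parseval {φ : m → m → ℝ} (h : ∀ i j, ∑ k, φ k i * φ k j = if i = j then 1 else 0)
    (x : m → ℝ) : ∑ k, (∑ i, x i * φ k i) ^ 2 = x ⬝ᵥ x := by
  have h1 := quad_comb φ (fun _ => 1) x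
  rw [comb_one h, one_mulVec] at h1
  rw [h1]
  exact Finset.sum_congr rfl fun k _ => (one_mul _).symm

theorem contr_comb {φ : m → m → ℝ} (h : ∀ i j, ∑ k, φ k i * φ k j = if i = j then 1 else 0)
    {σ : m → ℝ} (hσ : ∀ k, |σ k| ≤ 1) : Contr (comb φ σ) := by
  refine ⟨?_, fun x => ?_⟩
  · ext i j
    rw [Matrix.transpose_apply]
    simp only [comb]
    exact Finset.sum_congr rfl fun k _ => by ring
  · rw [quad_comb, ← parseval h x]
    refine (Finset.abs_sum_le_sum_abs _ _).trans (Finset.sum_le_sum fun k _ => ?_)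
    rw [abs_mul, abs_of_nonneg (sq_nonneg (∑ i, x i * φ k i))]
    exact mul_le_of_le_one_left (sq_nonneg _) (hσ k)

theorem trace_comb_mul (φ : m → m → ℝ) (σ : m → ℝ) (H : Matrix m m ℝ) :
    (comb φ σ * H).trace = ∑ k, σ k * (φ k ⬝ᵥ (H *ᵥ φ k)) := by
  simp only [Matrix.trace, Matrix.diag_apply, Matrix.mul_apply, comb, dotProduct, mulVec,
    Finset.mul_sum, Finset.sum_mul]
  calc ∑ i, ∑ j, ∑ k, σ k * (φ k i * φ k j) * H j i
      = ∑ i, ∑ k, ∑ j, σ k * (φ k i * φ k j) * H j i :=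
        Finset.sum_congr rfl fun i _ => Finset.sum_comm
    _ = ∑ k, ∑ i, ∑ j, σ k * (φ k i * φ k j) * H j i := Finset.sum_comm
    _ = ∑ k, ∑ j, ∑ i, σ k * (φ k i * φ k j) * H j i :=
        Finset.sum_congr rfl fun k _ => Finset.sum_comm
    _ = ∑ k, ∑ j, ∑ i, σ k * (φ k j * (H j i * φ k i)) := by
        refine Finset.sum_congr rfl fun k _ => Finset.sum_congr rfl fun j _ =>
          Finset.sum_congr rfl fun i _ => ?_
        ring

theorem comb_mulVec {φ : m → m → ℝ} (h : ∀ k l, ∑ i, φ k i * φ l i = if k = l then 1 else 0)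
    (σ : m → ℝ) (k : m) : comb φ σ *ᵥ φ k = fun i => σ k * φ k i := by
  funext i
  simp only [mulVec, dotProduct, comb, Finset.sum_mul]
  rw [Finset.sum_comm]
  have h1 : ∀ l, ∑ j, σ l * (φ l i * φ l j) * φ k j = σ l * φ l i * if l = k then 1 else 0 := by
    intro l
    rw [← h l k, Finset.mul_sum]
    exact Finset.sum_congr rfl fun j _ => by ring
  simp only [h1]
  rw [Finset.sum_eq_single k]
  · simp
  · intro l _ hl
    rw [if_neg hl, mul_zero]
  · intro hk
    exact absurd (Finset.mem_univ k) hk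

theorem self_dot {φ : m → m → ℝ} (h : ∀ k l, ∑ i, φ k i * φ l i = if k = l then 1 else 0)
    (k : m) : φ k ⬝ᵥ φ k = 1 := by
  have := h k k
  rw [if_pos rfl] at this
  exact this

theorem sum_abs_of_sum_zero {l : m → ℝ} (h : ∑ k, l k = 0) :
    (∑ k, |l k|) / 2 = ∑ k, max (l k) 0 := by
  have h1 : ∀ k, |l k| = 2 * max (l k) 0 - l k := by
    intro k
    rcases le_total 0 (l k) with h | h
    · rw [abs_of_nonneg h, max_eq_left h]; ring
    · rw [abs_of_nonpos h, max_eq_right h]; ring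
  simp only [h1, Finset.sum_sub_distrib, h, ← Finset.mul_sum]
  ring

end SPEAux

open SPEAux NUCAux in
theorem stmt_SPE : Stmt_SPE := by
  intro m _ _ B hB htr
  obtain ⟨φ, h1, h2, h3⟩ := spec B hB
  have hBc : B = comb φ hB.eigenvalues := by
    ext i j
    exact h1 i j
  have hsum : ∑ k, hB.eigenvalues k = 0 := by
    have h := hB.trace_eq_sum_eigenvalues
    rw [htr] at h
    have h' : (0 : ℝ) = ∑ k, hB.eigenvalues k := by simpa using h
    exact h'.symm
  obtain ⟨n1, ⟨H₀, hH₀, n2⟩, n3⟩ := stmt_NUC m B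
  have htrH : ∀ H : Matrix m m ℝ, (B * H).trace =
      ∑ k, hB.eigenvalues k * (φ k ⬝ᵥ (H *ᵥ φ k)) := by
    intro H
    conv_lhs => rw [hBc]
    exact trace_comb_mul φ _ H
  apply le_antisymm
  · rw [← n2, ← sum_abs_of_sum_zero hsum]
    apply div_le_div_of_nonneg_right _ (by norm_num)
    rw [htrH]
    refine Finset.sum_le_sum fun k _ => ?_
    have h4 := hH₀.2 (φ k)
    rw [self_dot h2] at h4
    calc hB.eigenvalues k * (φ k ⬝ᵥ (H₀ *ᵥ φ k)) ≤ |hB.eigenvalues k * (φ k ⬝ᵥ (H₀ *ᵥ φ k))| :=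
          le_abs_self _
      _ = |hB.eigenvalues k| * |φ k ⬝ᵥ (H₀ *ᵥ φ k)| := abs_mul _ _
      _ ≤ |hB.eigenvalues k| := mul_le_of_le_one_right (abs_nonneg _) h4
  · set σ : m → ℝ := fun k => if 0 ≤ hB.eigenvalues k then 1 else -1 with hσ
    have hσ1 : ∀ k, |σ k| ≤ 1 := by
      intro k
      simp only [hσ]
      split_ifs <;> simp
    have h4 := n1 (comb φ σ) (contr_comb h3 hσ1)
    refine le_trans (le_of_eq ?_) h4
    rw [htrH, ← sum_abs_of_sum_zero hsum]
    congr 1
    refine Finset.sum_congr rfl fun k _ => ?_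
    rw [comb_mulVec h2]
    have h5 : (φ k ⬝ᵥ fun i => σ k * φ k i) = σ k := by
      have h6 : (fun i => σ k * φ k i) = σ k • φ k := rfl
      rw [h6, dotProduct_smul, self_dot h2, smul_eq_mul, mul_one]
    rw [h5]
    simp only [hσ]
    split_ifs with h
    · rw [abs_of_nonneg h, mul_one]
    · rw [abs_of_neg (not_le.1 h)]; ring

end Pool.Agent.MP4da8b1Q1
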