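import Pool.Agent.Work.MP_4da8b1_Q1_helper46.FamAux

/-!
# MP_4da8b1, Q1: block TIL (moments of the tilted coupling)
-/

set_option autoImplicit false

open Matrix Finset
open scoped RealInnerProductSpace BigOperators

namespace Pool.Agent.MP4da8b1Q1

namespace TILAux

open FamAux

variable {κ : Type} [Fintype κ] {n : ℕ} {s : κ → E n} {w : κ → ℝ}

/-- comparison of double sums -/
lemma dle (h : IsFam s w) (F G : κ → κ → ℝ) (hFG : ∀ u v, F u v ≤ G u v) :
    ∑ u, ∑ v, w u * w v * F u v ≤ ∑ u, ∑ v, w u * w v * G u v :=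
  Finset.sum_le_sum fun u _ => Finset.sum_le_sum fun v _ =>
    mul_le_mul_of_nonneg_left (hFG u v) (ww_nonneg h u v)

/-- comparison of polynomials in `t` -/
lemma poly_le (h : IsFam s w) (a0 a1 a2 a3 a4 a5 : ℝ)
    (hp : ∀ t : ℝ, -1 ≤ t → t ≤ 1 →
      0 ≤ a0 + a1 * t + a2 * t ^ 2 + a3 * t ^ 3 + a4 * t ^ 4 + a5 * t ^ 5) :
    0 ≤ a0 + a2 * TT s w 2 + a3 * TT s w 3 + a4 * TT s w 4 + a5 * TT s w 5 := by
  rw [← poly_sum h a0 a1 a2 a3 a4 a5]
  exact Finset.sum_nonneg fun u _ => Finset.sum_nonneg fun v _ =>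
    mul_nonneg (ww_nonneg h u v) (hp _ (le_inner h u v) (inner_le h u v))

lemma T2_le (h : IsFam s w) : TT s w 2 ≤ 1 := by
  have := poly_le h 1 0 (-1) 0 0 0 (fun t h1 h2 => by nlinarith)
  linarith

lemma T3_le (h : IsFam s w) : TT s w 3 ≤ 1 - TT s w 2 := by
  have := poly_le h 1 1 (-1) (-1) 0 0 (fun t h1 h2 => by
    have : 1 + 1 * t + -1 * t ^ 2 + -1 * t ^ 3 + 0 * t ^ 4 + 0 * t ^ 5 =
      (1 - t) * (1 + t) ^ 2 := by ring
    rw [this]
    exact mul_nonneg (by linarith) (sq_nonneg _))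
  linarith

lemma D_nonneg (h : IsFam s w) : 0 ≤ TT s w 2 - TT s w 4 := by
  have := poly_le h 0 0 1 0 (-1) 0 (fun t h1 h2 => by
    have : 0 + 0 * t + 1 * t ^ 2 + 0 * t ^ 3 + -1 * t ^ 4 + 0 * t ^ 5 =
      ((1 - t) * (1 + t)) * t ^ 2 := by ring
    rw [this]
    exact mul_nonneg (mul_nonneg (by linarith) (by linarith)) (sq_nonneg _))
  linarith

lemma D_le (h : IsFam s w) : TT s w 2 - TT s w 4 ≤ 1 - TT s w 2 := by
  have := poly_le h 1 0 (-2) 0 1 0 (fun t h1 h2 => by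
    have : 1 + 0 * t + -2 * t ^ 2 + 0 * t ^ 3 + 1 * t ^ 4 + 0 * t ^ 5 =
      (1 - t ^ 2) ^ 2 := by ring
    rw [this]
    exact sq_nonneg _)
  linarith

lemma T5_le (h : IsFam s w) : TT s w 5 ≤ TT s w 3 + (TT s w 2 - TT s w 4) := by
  have := poly_le h 0 0 1 1 (-1) (-1) (fun t h1 h2 => by
    have : 0 + 0 * t + 1 * t ^ 2 + 1 * t ^ 3 + -1 * t ^ 4 + -1 * t ^ 5 =
      (t ^ 2 * (1 - t)) * (1 + t) ^ 2 := by ring
    rw [this]
    exact mul_nonneg (mul_nonneg (sq_nonneg _) (by linarith)) (sq_nonneg _))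
  linarith

/-- the vector `g` -/
noncomputable def gv (s : κ → E n) (w : κ → ℝ) (k : Fin n) : ℝ :=
  ∑ u, ∑ v, w u * w v * (⟪s u, s v⟫ ^ 2 * s u k)

lemma gv_eq (k : Fin n) :
    gv s w k = ∑ l, ∑ m, (∑ u, w u * (s u k * (s u l * s u m))) * (∑ v, w v * (s v l * s v m)) := by
  unfold gv
  calc ∑ u, ∑ v, w u * w v * (⟪s u, s v⟫ ^ 2 * s u k)
      = ∑ u, ∑ v, ∑ l, w u * w v * (⟪s u, s v⟫ * ((s u l * s u k) * s v l)) := by
        refine Finset.sum_congr rfl fun u _ => Finset.sum_congr rfl fun v _ => ?_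
        have h1 : (⟪s u, s v⟫ : ℝ) ^ 2 * s u k = ∑ l, ⟪s u, s v⟫ * ((s u l * s u k) * s v l) := by
          have h2 : (⟪s u, s v⟫ : ℝ) ^ 2 * s u k =
              (∑ l, s u l * s v l) * (⟪s u, s v⟫ * s u k) := by
            rw [← inner_eq]; ring
          rw [h2, Finset.sum_mul]
          exact Finset.sum_congr rfl fun l _ => by ring
        rw [h1, Finset.mul_sum]
    _ = ∑ l, ∑ u, ∑ v, w u * w v * (⟪s u, s v⟫ * ((s u l * s u k) * s v l)) := by
        have : ∀ u, ∑ v, ∑ l, w u * w v * (⟪s u, s v⟫ * ((s u l * s u k) * s v l)) =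
            ∑ l, ∑ v, w u * w v * (⟪s u, s v⟫ * ((s u l * s u k) * s v l)) :=
          fun u => Finset.sum_comm
        simp only [this]
        rw [Finset.sum_comm]
    _ = _ := by
        refine Finset.sum_congr rfl fun l _ => ?_
        rw [A4 (fun u => s u l * s u k) (fun v => s v l)]
        refine Finset.sum_congr rfl fun m _ => ?_
        congr 1 <;> exact Finset.sum_congr rfl fun u _ => by ring

lemma gv_sq : ∑ k, gv s w k ^ 2 ≤ TT s w 2 * TT s w 3 := by
  have h1 : ∀ k, gv s w k ^ 2 ≤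
      (∑ l, ∑ m, (∑ u, w u * (s u k * (s u l * s u m))) ^ 2) * TT s w 2 := by
    intro k
    rw [gv_eq, T2_eq]
    have h2 := Finset.sum_mul_sq_le_sq_mul_sq (Finset.univ : Finset (Fin n × Fin n))
      (fun p => ∑ u, w u * (s u k * (s u p.1 * s u p.2)))
      (fun p => ∑ u, w u * (s u p.1 * s u p.2))
    simpa only [Fintype.sum_prod_type] using h2
  calc ∑ k, gv s w k ^ 2 ≤
      ∑ k, (∑ l, ∑ m, (∑ u, w u * (s u k * (s u l * s u m))) ^ 2) * TT s w 2 :=
        Finset.sum_le_sum fun k _ => h1 k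
    _ = _ := by rw [← Finset.sum_mul, ← T3_eq, mul_comm]

/-- expectation for the tilted law -/
lemma law1_sum (F : κ × κ → ℝ) :
    ∑ e, law1 s w e * F e =
      (∑ u, ∑ v, w u * w v * ((1 - ⟪s u, s v⟫) * (1 - ⟪s u, s v⟫ / 2) * F (u, v))) /
        (1 + TT s w 2 / 2) := by
  rw [Fintype.sum_prod_type, Finset.sum_div]
  refine Finset.sum_congr rfl fun u _ => ?_
  rw [Finset.sum_div]
  refine Finset.sum_congr rfl fun v _ => ?_
  simp only [law1]
  ring

lemma law1_lin (h : IsFam s w) (k : Fin n) :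
    ∑ e, law1 s w e * mid s e k = gv s w k / (2 * (1 + TT s w 2 / 2)) := by
  rw [law1_sum]
  simp only [mid_apply]
  have h1 : ∀ u v : κ, w u * w v * ((1 - ⟪s u, s v⟫) * (1 - ⟪s u, s v⟫ / 2) *
      (1 / 2 * (s u k + s v k))) =
      1 / 2 * (w u * w v * s u k) + 1 / 2 * (w u * w v * s v k)
        - 3 / 4 * (w u * w v * (⟪s u, s v⟫ * s u k)) -
        3 / 4 * (w u * w v * (⟪s u, s v⟫ * s v k)) +
        1 / 4 * (w u * w v * (⟪s u, s v⟫ ^ 2 * s u k)) +
        1 / 4 * (w u * w v * (⟪s u, s v⟫ ^ 2 * s v k)) := fun u v => by ring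
  simp only [h1, Finset.sum_add_distrib, Finset.sum_sub_distrib, ← Finset.mul_sum]
  have h2 : ∑ u, ∑ v, w u * w v * (⟪s u, s v⟫ ^ 2 * s v k) = gv s w k := by
    rw [fswap]
    unfold gv
    refine Finset.sum_congr rfl fun u _ => Finset.sum_congr rfl fun v _ => ?_
    rw [real_inner_comm]
  have h3 : ∑ u, ∑ v, w u * w v * (⟪s u, s v⟫ ^ 2 * s u k) = gv s w k := rfl
  rw [A1 h (fun u => s u k), A1' h (fun u => s u k), A3 h (fun u => s u k), A3' h (fun u => s u k),
    bal_k h, h2, h3]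
  have hZ : (1 + TT s w 2 / 2) ≠ 0 := by
    have := T2_nonneg (s := s) (w := w)
    positivity
  field_simp
  ring

end TILAux

open FamAux TILAux in
theorem stmt_TIL : Stmt_TIL := by
  intro κ _ n s w h y T D Z hy hT hD hZ
  have hT2 : TT s w 2 = 1 - 2 * y := by rw [hy]; ring
  have hZ' : 1 + TT s w 2 / 2 = Z := by rw [hZ, hT2]; ring
  have hT20 := T2_nonneg (s := s) (w := w)
  have hT21 := T2_le h
  have hZpos : 0 < Z := by rw [← hZ']; positivity
  have hT4 : TT s w 4 = TT s w 2 - D := by rw [hD]; ring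
  refine ⟨by linarith, by linarith, ?_, ?_, ?_, ?_, ?_, ?_, ?_, ?_, ?_, ?_⟩
  · rw [hT]; exact T3_nonneg
  · rw [hT]; have := T3_le h; linarith
  · rw [hD]; exact D_nonneg h
  · rw [hD]; have := D_le h; linarith
  · intro e
    unfold law1
    have h1 := inner_le h e.1 e.2
    refine div_nonneg (mul_nonneg (mul_nonneg (ww_nonneg h _ _) (by linarith)) (by linarith)) ?_
    positivity
  · have h1 := law1_sum (s := s) (w := w) (fun _ => 1)
    simp only [mul_one] at h1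
    rw [h1, hZ', div_eq_iff hZpos.ne', one_mul]
    have h2 := poly_sum h 1 (-3 / 2) (1 / 2) 0 0 0
    calc _ = _ := ?_
      _ = _ := h2
      _ = _ := by rw [← hZ']; ring
    refine Finset.sum_congr rfl fun u _ => Finset.sum_congr rfl fun v _ => ?_
    ring
  · have h1 : ‖∑ e, law1 s w e • mid s e‖ ^ 2 = ∑ k, (gv s w k / (2 * Z)) ^ 2 := by
      rw [EuclideanSpace.norm_sq_eq]
      refine Finset.sum_congr rfl fun k _ => ?_
      rw [sum_apply']
      have : ∀ e, (law1 s w e • mid s e) k = law1 s w e * mid s e k := fun e => by simp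
      simp only [this]
      rw [law1_lin h, hZ', Real.norm_eq_abs, sq_abs]
    rw [h1]
    have h2 : ∑ k, (gv s w k / (2 * Z)) ^ 2 = (∑ k, gv s w k ^ 2) / (4 * Z ^ 2) := by
      rw [Finset.sum_div]
      exact Finset.sum_congr rfl fun k _ => by rw [div_pow]; ring
    rw [h2, ← hT2, hT]
    exact div_le_div_of_nonneg_right gv_sq (by positivity)
  · rw [law1_sum, hZ']
    simp only [mid_sq h]
    congr 1
    have h2 := poly_sum h (1 / 2) (-1 / 4) (-1 / 2) (1 / 4) 0 0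
    calc _ = _ := ?_
      _ = _ := h2
      _ = _ := by rw [hT2, hT]; ring
    refine Finset.sum_congr rfl fun u _ => Finset.sum_congr rfl fun v _ => ?_
    ring
  · rw [law1_sum, hZ']
    simp only [mid_sq h]
    congr 1
    have h2 := poly_sum h (1 / 4) (-3 / 8) (-1 / 8) (3 / 8) (-1 / 8) 0
    calc _ = _ := ?_
      _ = _ := h2
      _ = _ := by rw [hT4, hT2, hT]; ring
    refine Finset.sum_congr rfl fun u _ => Finset.sum_congr rfl fun v _ => ?_
    ring
  · rw [law1_sum, hZ']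
    simp only [mid_sq h]
    refine div_le_div_of_nonneg_right ?_ hZpos.le
    have h2 := poly_sum h (1 / 8) (3 / 16) (-1 / 8) (-1 / 4) 0 (1 / 16)
    have h3 := T5_le h
    calc _ = _ := ?_
      _ = _ := h2
      _ ≤ _ := by rw [hT4] at h3; rw [hT2] at h3 ⊢; rw [hT]; linarith
    refine Finset.sum_congr rfl fun u _ => Finset.sum_congr rfl fun v _ => ?_
    ring

end Pool.Agent.MP4da8b1Q1
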