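import Pool.Agent.Work.MP_4da8b1_Q1_helper46.V1

/-!
# Block V2
-/

set_option autoImplicit false

open Matrix Finset

namespace Pool.Agent.MP4da8b1Q1

theorem EE_herm {ι : Type} [Fintype ι] [DecidableEq ι] {n : ℕ}
    (S : ι → Matrix (Fin n) (Fin n) ℝ) (hS : ∀ i, (S i).PosSemidef) : (EE S).IsHermitian := by
  unfold EE
  exact (Matrix.posSemidef_sum _ fun i _ => hS i).isHermitian.sub Matrix.isHermitian_one

theorem VV_eq {ι : Type} [Fintype ι] [DecidableEq ι] {n : ℕ}
    (S : ι → Matrix (Fin n) (Fin n) ℝ) :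
    ((∑ i, Wm S i) * (∑ i, Wm S i)).trace = 2 * VV S + ∑ i, (Wm S i * Wm S i).trace := by
  unfold VV
  rw [offdiag_sum, Finset.sum_mul_sum, Matrix.trace_sum]
  have e : ∀ i, (∑ j, Wm S i * Wm S j).trace = ∑ j, (Wm S i * Wm S j).trace := fun i =>
    Matrix.trace_sum _ _
  simp_rw [e]
  ring

theorem stmt_V2_of (hSM : Stmt_SM) : Stmt_V2 := by
  intro ι _ _ n S κ θ hS hT hκ0 hκ1 hθ hκθ
  have h := fun i => hSM n (S i) (Wm S i) (yy S i) (hS i) (hT i) rfl rfl
  choose hW hy0 hy1 hS2 hq hq2 ω ρ hω0 hωy hω4 hωW hWy hρ0 hρ1 hρq hρ using h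
  have tW := trWm S
  have hWyI : ∀ i, (yy S i • (1 : Matrix (Fin n) (Fin n) ℝ) - Wm S i).PosSemidef := by
    intro i
    have e : yy S i • (1 : Matrix (Fin n) (Fin n) ℝ) - Wm S i =
        (ω i • (1 : Matrix (Fin n) (Fin n) ℝ) - Wm S i) +
          (yy S i - ω i) • (1 : Matrix (Fin n) (Fin n) ℝ) := by
      rw [sub_smul]
      abel
    rw [e]
    exact (hωW i).add (Matrix.PosSemidef.one.smul (by linarith [hωy i]))
  have hWS : ∀ i, (S i - Wm S i).PosSemidef := by
    intro i
    have e : S i - Wm S i = (S i)ᴴ * S i := by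
      rw [(hS i).isHermitian.eq]
      unfold Wm
      abel
    rw [e]
    exact Matrix.posSemidef_conjTranspose_mul_self _
  have hA : ∀ i, ((1 - 2 * κ) • S i + (2 * κ * yy S i) • (1 : Matrix (Fin n) (Fin n) ℝ) -
      Wm S i).PosSemidef := by
    intro i
    have e : (1 - 2 * κ) • S i + (2 * κ * yy S i) • (1 : Matrix (Fin n) (Fin n) ℝ) - Wm S i =
        (1 - 2 * κ) • (S i - Wm S i) +
          (2 * κ) • (yy S i • (1 : Matrix (Fin n) (Fin n) ℝ) - Wm S i) := by
      module
    rw [e]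
    exact ((hWS i).smul (by linarith)).add ((hWyI i).smul (by linarith))
  have hB : ∀ i, ((1 - 2 * κ) • S i + (κ ^ 2) • (1 : Matrix (Fin n) (Fin n) ℝ) -
      Wm S i).PosSemidef := by
    intro i
    have hH : (S i - κ • (1 : Matrix (Fin n) (Fin n) ℝ)).IsHermitian :=
      (hS i).isHermitian.sub
        (Matrix.PosSemidef.one.smul hκ0).isHermitian
    have e : (1 - 2 * κ) • S i + (κ ^ 2) • (1 : Matrix (Fin n) (Fin n) ℝ) - Wm S i =
        (S i - κ • (1 : Matrix (Fin n) (Fin n) ℝ))ᴴ *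
          (S i - κ • (1 : Matrix (Fin n) (Fin n) ℝ)) := by
      rw [hH.eq]
      unfold Wm
      simp only [Matrix.sub_mul, Matrix.mul_sub, Matrix.smul_mul, Matrix.mul_smul,
        Matrix.one_mul, Matrix.mul_one]
      module
    rw [e]
    exact Matrix.posSemidef_conjTranspose_mul_self _
  set W : Matrix (Fin n) (Fin n) ℝ := ∑ i, Wm S i with hWd
  have trW : W.trace = 2 * ∑ i, yy S i := by
    rw [hWd, Matrix.trace_sum, Finset.mul_sum]
    exact Finset.sum_congr rfl fun i _ => tW i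
  have hWi : ∀ i, (W - Wm S i).PosSemidef := by
    intro i
    have e : W - Wm S i = ∑ j ∈ Finset.univ.erase i, Wm S j := by
      rw [hWd, ← Finset.add_sum_erase _ _ (Finset.mem_univ i)]
      abel
    rw [e]
    exact Matrix.posSemidef_sum _ fun j _ => hW j
  -- the bound for one index
  have one : ∀ i, (Wm S i * (W - Wm S i)).trace ≤
      (1 - 2 * κ) * (S i * (W - Wm S i)).trace +
        2 * ((∑ j, yy S j) - yy S i) * min (κ ^ 2) (2 * κ * yy S i) := by
    intro i
    have trWi : (W - Wm S i).trace = 2 * ((∑ j, yy S j) - yy S i) := by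
      rw [Matrix.trace_sub, trW, tW]
      ring
    rcases min_choice (κ ^ 2) (2 * κ * yy S i) with hm | hm
    · rw [hm]
      have h1 := tr_nn (hB i) (hWi i)
      rw [Matrix.sub_mul, Matrix.add_mul, Matrix.smul_mul, Matrix.smul_mul, Matrix.one_mul,
        Matrix.trace_sub, Matrix.trace_add, Matrix.trace_smul, Matrix.trace_smul, smul_eq_mul,
        smul_eq_mul, trWi] at h1
      linarith
    · rw [hm]
      have h1 := tr_nn (hA i) (hWi i)
      rw [Matrix.sub_mul, Matrix.add_mul, Matrix.smul_mul, Matrix.smul_mul, Matrix.one_mul,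
        Matrix.trace_sub, Matrix.trace_add, Matrix.trace_smul, Matrix.trace_smul, smul_eq_mul,
        smul_eq_mul, trWi] at h1
      linarith
  have hsum := Finset.sum_le_sum fun i (_ : i ∈ Finset.univ) => one i
  have eL : ∑ i, (Wm S i * (W - Wm S i)).trace = 2 * VV S := by
    have h1 := VV_eq S
    rw [← hWd] at h1
    have h2 : ∑ i, (Wm S i * (W - Wm S i)).trace =
        (W * W).trace - ∑ i, (Wm S i * Wm S i).trace := by
      simp only [Matrix.mul_sub, Matrix.trace_sub, Finset.sum_sub_distrib]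
      congr 1
      rw [← Matrix.trace_sum, ← Finset.sum_mul]
    rw [h2, h1]
    ring
  have eR : ∑ i, (S i * (W - Wm S i)).trace =
      (W * EE S).trace + 2 * (∑ i, yy S i) - ∑ i, (Wm S i * S i).trace := by
    have h2 : ∀ i, (S i * (W - Wm S i)).trace = (W * S i).trace - (Wm S i * S i).trace := by
      intro i
      rw [Matrix.mul_sub, Matrix.trace_sub, Matrix.trace_mul_comm (S i) W,
        Matrix.trace_mul_comm (S i) (Wm S i)]
    simp_rw [h2]
    rw [Finset.sum_sub_distrib, ← Matrix.trace_sum, ← Finset.mul_sum, sumS, Matrix.mul_add,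
      Matrix.mul_one, Matrix.trace_add, trW]
  rw [eL, Finset.sum_add_distrib, ← Finset.mul_sum, eR] at hsum
  set G : ℝ := ∑ i, ((1 - 2 * κ) * (yy S i - (Wm S i * S i).trace / 2) +
        (∑ j, yy S j - yy S i) * min (κ ^ 2) (2 * κ * yy S i)) with hG
  have eG : G = (1 - 2 * κ) * ((∑ i, yy S i) - (∑ i, (Wm S i * S i).trace) / 2) +
      (∑ i, 2 * ((∑ j, yy S j) - yy S i) * min (κ ^ 2) (2 * κ * yy S i)) / 2 := by
    rw [hG, Finset.sum_add_distrib, ← Finset.mul_sum, Finset.sum_sub_distrib, Finset.sum_div,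
      Finset.sum_div]
    congr 1
    refine Finset.sum_congr rfl fun i _ => ?_
    ring
  have hV1 : VV S ≤ (1 - 2 * κ) / 2 * (W * EE S).trace + G := by
    rw [eG]
    linarith
  -- completing the square
  set α : ℝ := (1 + θ) * (1 - 2 * κ) / 4 with hα
  have hH : (EE S - α • W).IsHermitian := by
    have h1 : W.PosSemidef := Matrix.posSemidef_sum _ fun i _ => hW i
    have hα0 : 0 ≤ α := by
      rw [hα]
      apply div_nonneg _ (by norm_num)
      apply mul_nonneg <;> linarith
    exact (EE_herm S hS).sub (h1.smul hα0).isHermitian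
  have hsq := tr_sq_nn hH
  have esq : ((EE S - α • W) * (EE S - α • W)).trace = (EE S * EE S).trace -
      2 * α * (W * EE S).trace + α ^ 2 * (W * W).trace := by
    simp only [Matrix.sub_mul, Matrix.mul_sub, Matrix.smul_mul, Matrix.mul_smul,
      Matrix.trace_sub, Matrix.trace_smul, smul_eq_mul]
    rw [Matrix.trace_mul_comm (EE S) W]
    ring
  rw [esq] at hsq
  have hWW := VV_eq S
  rw [← hWd] at hWW
  have hWWnn : 0 ≤ (W * W).trace := by
    have h1 : W.PosSemidef := Matrix.posSemidef_sum _ fun i _ => hW i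
    exact tr_sq_nn h1.isHermitian
  have hα2 : α ^ 2 ≤ θ / 2 := by
    rw [hα]
    nlinarith
  have h3 : α ^ 2 * (W * W).trace ≤ θ / 2 * (W * W).trace :=
    mul_le_mul_of_nonneg_right hα2 hWWnn
  have h4 : (1 + θ) * VV S ≤ (1 + θ) * ((1 - 2 * κ) / 2 * (W * EE S).trace + G) :=
    mul_le_mul_of_nonneg_left hV1 (by linarith)
  have h5 : (1 + θ) * ((1 - 2 * κ) / 2 * (W * EE S).trace) = 2 * α * (W * EE S).trace := by
    rw [hα]
    ring
  rw [hWW] at h3 hsq
  nlinarith

end Pool.Agent.MP4da8b1Q1
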