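import Mathlib

/-!
# Block V3: the numerical inequalities
-/

set_option autoImplicit false

namespace Pool.Agent.MP4da8b1Q1

/-- Bernstein products of degree four -/
theorem bern4 {a b r : ℝ} (h1 : a ≤ r) (h2 : r ≤ b) :
    0 ≤ (b - r) ^ 4 ∧ 0 ≤ (r - a) * (b - r) ^ 3 ∧ 0 ≤ (r - a) ^ 2 * (b - r) ^ 2 ∧
      0 ≤ (r - a) ^ 3 * (b - r) ∧ 0 ≤ (r - a) ^ 4 := by
  have h3 : 0 ≤ r - a := by linarith
  have h4 : 0 ≤ b - r := by linarith
  refine ⟨?_, ?_, ?_, ?_, ?_⟩ <;> positivity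

/-- Bernstein products of degree three -/
theorem bern3 {a b r : ℝ} (h1 : a ≤ r) (h2 : r ≤ b) :
    0 ≤ (b - r) ^ 3 ∧ 0 ≤ (r - a) * (b - r) ^ 2 ∧ 0 ≤ (r - a) ^ 2 * (b - r) ∧
      0 ≤ (r - a) ^ 3 := by
  have h3 : 0 ≤ r - a := by linarith
  have h4 : 0 ≤ b - r := by linarith
  refine ⟨?_, ?_, ?_, ?_⟩ <;> positivity

/-- the difference after bounding `1/y` by `ch` and `y/(4+y)` by `f` -/
noncomputable def GG (k th y ch f mz w r : ℝ) : ℝ :=
  (1 - r ^ 2) / 2 * (3 / 2 - ch) -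
    (1 + th) * ((1 - 2 * k) * ((1 - r) * (1 + r - r ^ 2) / 2) + (y - (1 - r ^ 2) / 2) * mz) -
    th / 2 * w - f / 8 * (r ^ 2 * ((1 - r ^ 2) / 2))

/-- reduction to the two ends of an interval of `y` -/
theorem red {k th y y1 y2 f0 f1 r z a w m mz ww : ℝ} (hk : k ≤ 1 / 2) (hth : 0 ≤ th)
    (hr0 : 0 ≤ r) (hr1 : r ≤ 1) (hz : z = (1 - r ^ 2) / 2)
    (hy0 : 0 < y1) (hy12 : y1 < y2) (hy1 : y1 ≤ y) (hy2 : y ≤ y2) (hzy : z ≤ y)
    (ha : r ^ 2 * (1 - r) ≤ a) (hm : m ≤ mz) (hw : w ≤ ww)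
    (hf : y / (4 + y) ≤ f0 + f1 * y)
    (g1 : 0 ≤ GG k th y1 (1 / y1) (f0 + f1 * y1) mz ww r)
    (g2 : 0 ≤ GG k th y2 (1 / y2) (f0 + f1 * y2) mz ww r) :
    (1 + th) * ((1 - 2 * k) * (z - a / 2) + (y - z) * m) + th / 2 * w +
      y * (z / 2 - z ^ 2) / (16 + 4 * y) ≤ z * (3 / 2 - 1 / y) := by
  have hy : 0 < y := by linarith
  have hy2p : 0 < y2 := by linarith
  have hz0 : 0 ≤ z := by
    rw [hz]
    nlinarith
  -- chord of `1/y`
  have hch : 1 / y ≤ (y1 + y2 - y) * (1 / y1) * (1 / y2) := by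
    rw [div_le_iff₀ hy]
    have h1 : (y1 + y2 - y) * (1 / y1) * (1 / y2) * y =
        ((y1 + y2 - y) * y) / (y1 * y2) := by
      field_simp
    rw [h1, le_div_iff₀ (by positivity)]
    nlinarith
  have e2 : y * (z / 2 - z ^ 2) / (16 + 4 * y) = y / (4 + y) * (r ^ 2 * z / 8) := by
    have h1 : z / 2 - z ^ 2 = r ^ 2 * z / 2 := by
      rw [hz]
      ring
    have h2 : (4 + y) ≠ 0 := by positivity
    have h3 : (16 + 4 * y) ≠ 0 := by positivity
    rw [h1]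
    field_simp
    ring
  rw [e2]
  have hrz : 0 ≤ r ^ 2 * z / 8 := by positivity
  have b1 : y / (4 + y) * (r ^ 2 * z / 8) ≤ (f0 + f1 * y) * (r ^ 2 * z / 8) :=
    mul_le_mul_of_nonneg_right hf hrz
  have b2 : z * (1 / y) ≤ z * ((y1 + y2 - y) * (1 / y1) * (1 / y2)) :=
    mul_le_mul_of_nonneg_left hch hz0
  have b3 : (y - z) * m ≤ (y - z) * mz := mul_le_mul_of_nonneg_left hm (by linarith)
  have b4 : th / 2 * w ≤ th / 2 * ww := mul_le_mul_of_nonneg_left hw (by linarith)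
  have b5 : (1 - 2 * k) * (z - a / 2) ≤ (1 - 2 * k) * ((1 - r) * (1 + r - r ^ 2) / 2) := by
    apply mul_le_mul_of_nonneg_left _ (by linarith)
    rw [hz]
    nlinarith
  have b6 : (1 + th) * ((1 - 2 * k) * (z - a / 2) + (y - z) * m) ≤
      (1 + th) * ((1 - 2 * k) * ((1 - r) * (1 + r - r ^ 2) / 2) + (y - z) * mz) :=
    mul_le_mul_of_nonneg_left (by linarith) (by linarith)
  -- the chord in `y` of the difference
  have hD : 0 < y2 - y1 := by linarith
  have hG : (y2 - y1) * GG k th y ((y1 + y2 - y) * (1 / y1) * (1 / y2)) (f0 + f1 * y) mz ww r =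
      (y2 - y) * GG k th y1 (1 / y1) (f0 + f1 * y1) mz ww r +
        (y - y1) * GG k th y2 (1 / y2) (f0 + f1 * y2) mz ww r := by
    unfold GG
    have hy1' : y1 ≠ 0 := hy0.ne'
    have hy2' : y2 ≠ 0 := by linarith
    field_simp
    ring
  have hG0 : 0 ≤ GG k th y ((y1 + y2 - y) * (1 / y1) * (1 / y2)) (f0 + f1 * y) mz ww r := by
    by_contra hneg
    push Not at hneg
    have h1 : 0 ≤ (y2 - y) * GG k th y1 (1 / y1) (f0 + f1 * y1) mz ww r +
        (y - y1) * GG k th y2 (1 / y2) (f0 + f1 * y2) mz ww r := by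
      have h2 : 0 ≤ y2 - y := by linarith
      have h3 : 0 ≤ y - y1 := by linarith
      positivity
    rw [← hG] at h1
    nlinarith
  unfold GG at hG0
  rw [← hz] at hG0
  linarith

/-- first range -/
theorem numA {r y z a w m : ℝ} (hr0 : 0 ≤ r) (hr1 : r ≤ 1) (hz : z = (1 - r ^ 2) / 2)
    (hy1 : 33 / 20 ≤ y) (hy2 : y ≤ 12 / 5) (ha : r ^ 2 * (1 - r) ≤ a) (hw1 : w ≤ r ^ 2)
    (hw2 : w ≤ 2 * z ^ 2) (hm1 : m ≤ (11 / 100) ^ 2) (hm2 : m ≤ 2 * (11 / 100) * z) :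
    (1 + 181 / 2000) * ((1 - 2 * (11 / 100)) * (z - a / 2) + (y - z) * m) +
      181 / 2000 / 2 * w + y * (z / 2 - z ^ 2) / (16 + 4 * y) ≤ z * (3 / 2 - 1 / y) := by
  have hzy : z ≤ y := by
    rw [hz]
    nlinarith
  have hf : y / (4 + y) ≤ 1 / 9 + 1 / 9 * y := by
    rw [div_le_iff₀ (by linarith)]
    nlinarith [sq_nonneg (y - 2)]
  rcases le_total r (1 / 2) with h | h
  · refine red (by norm_num) (by norm_num) hr0 hr1 hz (by norm_num) (by norm_num) hy1 hy2 hzy ha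
      hm1 hw1 hf ?_ ?_
    · obtain ⟨b0, b1, b2, b3, b4⟩ := bern4 hr0 h
      unfold GG
      nlinarith
    · obtain ⟨b0, b1, b2, b3, b4⟩ := bern4 hr0 h
      unfold GG
      nlinarith
  rcases le_total r (93 / 100) with h' | h'
  · rw [hz] at hw2
    refine red (by norm_num) (by norm_num) hr0 hr1 hz (by norm_num) (by norm_num) hy1 hy2 hzy ha
      hm1 hw2 hf ?_ ?_
    · obtain ⟨b0, b1, b2, b3, b4⟩ := bern4 h h'
      unfold GG
      nlinarith
    · obtain ⟨b0, b1, b2, b3, b4⟩ := bern4 h h'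
      unfold GG
      nlinarith
  · rw [hz] at hw2 hm2
    refine red (by norm_num) (by norm_num) hr0 hr1 hz (by norm_num) (by norm_num) hy1 hy2 hzy ha
      hm2 hw2 hf ?_ ?_
    · obtain ⟨b0, b1, b2, b3⟩ := bern3 h' hr1
      have hr : 0 ≤ 1 - r := by linarith
      have c0 := mul_nonneg hr b0
      have c1 := mul_nonneg hr b1
      have c2 := mul_nonneg hr b2
      have c3 := mul_nonneg hr b3
      unfold GG
      nlinarith
    · obtain ⟨b0, b1, b2, b3⟩ := bern3 h' hr1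
      have hr : 0 ≤ 1 - r := by linarith
      have c0 := mul_nonneg hr b0
      have c1 := mul_nonneg hr b1
      have c2 := mul_nonneg hr b2
      have c3 := mul_nonneg hr b3
      unfold GG
      nlinarith

/-- second range -/
theorem numB {r y z a w m : ℝ} (hr0 : 0 ≤ r) (hr1 : r ≤ 1) (hz : z = (1 - r ^ 2) / 2)
    (hy1 : 12 / 5 ≤ y) (hy2 : y ≤ 39 / 10) (ha : r ^ 2 * (1 - r) ≤ a)
    (hw3 : w ≤ z / 2) (hm1 : m ≤ (1 / 20) ^ 2) (hm2 : m ≤ 2 * (1 / 20) * z) :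
    (1 + 1291 / 10000) * ((1 - 2 * (1 / 20)) * (z - a / 2) + (y - z) * m) +
      1291 / 10000 / 2 * w + y * (z / 2 - z ^ 2) / (16 + 4 * y) ≤ z * (3 / 2 - 1 / y) := by
  have hzy : z ≤ y := by
    rw [hz]
    nlinarith
  have hf : y / (4 + y) ≤ 9 / 49 + 4 / 49 * y := by
    rw [div_le_iff₀ (by linarith)]
    nlinarith [sq_nonneg (y - 3)]
  rw [hz] at hw3
  rcases le_total r (4 / 5) with h | h
  · refine red (by norm_num) (by norm_num) hr0 hr1 hz (by norm_num) (by norm_num) hy1 hy2 hzy ha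
      hm1 hw3 hf ?_ ?_
    · obtain ⟨b0, b1, b2, b3, b4⟩ := bern4 hr0 h
      unfold GG
      nlinarith
    · obtain ⟨b0, b1, b2, b3, b4⟩ := bern4 hr0 h
      unfold GG
      nlinarith
  · rw [hz] at hm2
    refine red (by norm_num) (by norm_num) hr0 hr1 hz (by norm_num) (by norm_num) hy1 hy2 hzy ha
      hm2 hw3 hf ?_ ?_
    · obtain ⟨b0, b1, b2, b3⟩ := bern3 h hr1
      have hr : 0 ≤ 1 - r := by linarith
      have c0 := mul_nonneg hr b0
      have c1 := mul_nonneg hr b1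
      have c2 := mul_nonneg hr b2
      have c3 := mul_nonneg hr b3
      unfold GG
      nlinarith
    · obtain ⟨b0, b1, b2, b3⟩ := bern3 h hr1
      have hr : 0 ≤ 1 - r := by linarith
      have c0 := mul_nonneg hr b0
      have c1 := mul_nonneg hr b1
      have c2 := mul_nonneg hr b2
      have c3 := mul_nonneg hr b3
      unfold GG
      nlinarith

/-- third range -/
theorem numC {r y z a w m : ℝ} (hr0 : 0 ≤ r) (hr1 : r ≤ 1) (hz : z = (1 - r ^ 2) / 2)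
    (hy1 : 39 / 10 ≤ y) (ha : r ^ 2 * (1 - r) ≤ a)
    (hw3 : w ≤ z / 2) (hm1 : m ≤ 0) :
    (1 + 429 / 2500) * ((1 - 2 * 0) * (z - a / 2) + (y - z) * m) +
      429 / 2500 / 2 * w + y * (z / 2 - z ^ 2) / (16 + 4 * y) ≤ z * (3 / 2 - 1 / y) := by
  have hy : 0 < y := by linarith
  have hz0 : 0 ≤ z := by
    rw [hz]
    nlinarith
  have hzy : z ≤ y := by
    rw [hz]
    nlinarith
  have e2 : y * (z / 2 - z ^ 2) / (16 + 4 * y) = y / (4 + y) * (r ^ 2 * z / 8) := by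
    have h1 : z / 2 - z ^ 2 = r ^ 2 * z / 2 := by
      rw [hz]
      ring
    have h2 : (4 + y) ≠ 0 := by positivity
    have h3 : (16 + 4 * y) ≠ 0 := by positivity
    rw [h1]
    field_simp
    ring
  rw [e2]
  have hrz : 0 ≤ r ^ 2 * z / 8 := by positivity
  have hr2 : r ^ 2 ≤ 1 := by nlinarith
  -- `1/y + r²/8 · y/(4+y)` is largest at `y = 39/10`
  have key : z * (1 / y) + y / (4 + y) * (r ^ 2 * z / 8) ≤
      z * (10 / 39) + 39 / 79 * (r ^ 2 * z / 8) := by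
    have k1 : 10 / 39 - 1 / y = (y - 39 / 10) * (10 / (39 * y)) := by
      field_simp
    have k2 : y / (4 + y) - 39 / 79 = (y - 39 / 10) * (40 / (79 * (4 + y))) := by
      field_simp
      ring
    have k3 : 40 / (79 * (4 + y)) * (1 / 8) ≤ 10 / (39 * y) := by
      rw [div_mul_div_comm, div_le_div_iff₀ (by positivity) (by positivity)]
      nlinarith
    have k4 : 0 ≤ y - 39 / 10 := by linarith
    have k5 : (y / (4 + y) - 39 / 79) * (1 / 8) ≤ 10 / 39 - 1 / y := by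
      rw [k1, k2, mul_assoc]
      exact mul_le_mul_of_nonneg_left k3 k4
    have k6 : 0 ≤ y / (4 + y) - 39 / 79 := by
      rw [k2]
      positivity
    have k7 : (y / (4 + y) - 39 / 79) * (r ^ 2 * z / 8) ≤
        (y / (4 + y) - 39 / 79) * (1 * z / 8) := by
      apply mul_le_mul_of_nonneg_left _ k6
      have := mul_le_mul_of_nonneg_right hr2 hz0
      linarith
    have k8 := mul_le_mul_of_nonneg_right k5 hz0
    nlinarith
  have b3 : (y - z) * m ≤ (y - z) * 0 := mul_le_mul_of_nonneg_left hm1 (by linarith)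
  have b5 : z - a / 2 ≤ (1 - r) * (1 + r - r ^ 2) / 2 := by
    rw [hz]
    nlinarith
  obtain ⟨c0, c1, c2, c3⟩ := bern3 hr0 hr1
  have hr : 0 ≤ 1 - r := by linarith
  have d0 := mul_nonneg hr c0
  have d1 := mul_nonneg hr c1
  have d2 := mul_nonneg hr c2
  have d3 := mul_nonneg hr c3
  have fin : (1 + 429 / 2500) * ((1 - r) * (1 + r - r ^ 2) / 2) + 429 / 2500 / 2 * (z / 2) +
      (z * (10 / 39) + 39 / 79 * (r ^ 2 * z / 8)) ≤ z * (3 / 2) := by
    rw [hz]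
    nlinarith
  nlinarith

end Pool.Agent.MP4da8b1Q1
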