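import Pool.Agent.Work.MP_4da8b1_Q1_helper46.V2
import Pool.Agent.Work.MP_4da8b1_Q1_helper46.V3Num

/-!
# Block V3
-/

set_option autoImplicit false

open Matrix Finset

namespace Pool.Agent.MP4da8b1Q1

theorem stmt_V3_of (hSM : Stmt_SM) (hV2 : Stmt_V2) : Stmt_V3 := by
  intro ι _ _ n S y hS hT hy hy1
  have h := fun i => hSM n (S i) (Wm S i) (yy S i) (hS i) (hT i) rfl rfl
  choose hW hy0 hy2 hS2 hq hq2 ω ρ hω0 hωy hω4 hωW hWy hρ0 hρ1 hρq hρ using h
  have tW := trWm S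
  have hypos : 0 < y := by linarith
  have hq0 : ∀ i, 0 ≤ 1 - 2 * yy S i := fun i => by linarith [hy2 i]
  have hr0 : ∀ i, 0 ≤ √(1 - 2 * yy S i) := fun i => Real.sqrt_nonneg _
  have hrs : ∀ i, √(1 - 2 * yy S i) ^ 2 = 1 - 2 * yy S i := fun i => Real.sq_sqrt (hq0 i)
  have hr1 : ∀ i, √(1 - 2 * yy S i) ≤ 1 := fun i => by
    rw [Real.sqrt_le_left (by norm_num)]
    linarith [hy0 i]
  have hz : ∀ i, yy S i = (1 - √(1 - 2 * yy S i) ^ 2) / 2 := fun i => by
    rw [hrs]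
    ring
  have ha : ∀ i, √(1 - 2 * yy S i) ^ 2 * (1 - √(1 - 2 * yy S i)) ≤ (Wm S i * S i).trace :=
    fun i => by
      rw [hrs]
      exact hq i
  have hw1 : ∀ i, (Wm S i * Wm S i).trace ≤ √(1 - 2 * yy S i) ^ 2 := fun i => by
    rw [hrs]
    exact hq2 i
  have hww : ∀ i, (Wm S i * Wm S i).trace ≤ ω i * (2 * yy S i) := by
    intro i
    have h1 := tr_mono_left (hωW i) (hW i)
    rwa [Matrix.smul_mul, Matrix.one_mul, Matrix.trace_smul, smul_eq_mul, tW] at h1
  have hw2 : ∀ i, (Wm S i * Wm S i).trace ≤ 2 * yy S i ^ 2 := fun i => by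
    have h1 := mul_le_mul_of_nonneg_right (hωy i) (by linarith [hy0 i] : 0 ≤ 2 * yy S i)
    nlinarith [hww i]
  have hw3 : ∀ i, (Wm S i * Wm S i).trace ≤ yy S i / 2 := fun i => by
    have h1 := mul_le_mul_of_nonneg_right (hω4 i) (by linarith [hy0 i] : 0 ≤ 2 * yy S i)
    linarith [hww i]
  -- from the inequality for one index to the statement
  have final : ∀ κ θ : ℝ, 0 ≤ κ → κ ≤ 1 / 2 → 0 ≤ θ →
      (1 + θ) ^ 2 * (1 - 2 * κ) ^ 2 / 8 ≤ θ →
      (∀ i, (1 + θ) * ((1 - 2 * κ) * (yy S i - (Wm S i * S i).trace / 2) +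
        (y - yy S i) * min (κ ^ 2) (2 * κ * yy S i)) +
        θ / 2 * (Wm S i * Wm S i).trace + y * (yy S i / 2 - yy S i ^ 2) / (16 + 4 * y) ≤
        yy S i * (3 / 2 - 1 / y)) →
      VV S - (EE S * EE S).trace + y * (y / 2 - ∑ i, yy S i ^ 2) / (16 + 4 * y) ≤
        3 / 2 * y - 1 := by
    intro κ θ h1 h2 h3 h4 hi
    have hv := hV2 ι n S κ θ hS hT h1 h2 h3 h4
    rw [← hy] at hv
    have hs := Finset.sum_le_sum fun i (_ : i ∈ Finset.univ) => hi i
    rw [Finset.sum_add_distrib, Finset.sum_add_distrib, ← Finset.mul_sum, ← Finset.mul_sum,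
      ← Finset.sum_div, ← Finset.mul_sum, ← Finset.sum_mul, Finset.sum_sub_distrib,
      ← Finset.sum_div, ← hy] at hs
    have e1 : y * (3 / 2 - 1 / y) = 3 / 2 * y - 1 := by
      field_simp
    rw [e1] at hs
    linarith
  rcases le_total y (12 / 5) with hA | hA
  · refine final (11 / 100) (181 / 2000) (by norm_num) (by norm_num) (by norm_num) (by norm_num) ?_
    intro i
    exact numA (hr0 i) (hr1 i) (hz i) hy1 hA (ha i) (hw1 i) (hw2 i) (min_le_left _ _)
      (min_le_right _ _)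
  rcases le_total y (39 / 10) with hB | hB
  · refine final (1 / 20) (1291 / 10000) (by norm_num) (by norm_num) (by norm_num) (by norm_num) ?_
    intro i
    exact numB (hr0 i) (hr1 i) (hz i) hA hB (ha i) (hw3 i) (min_le_left _ _) (min_le_right _ _)
  · refine final 0 (429 / 2500) (by norm_num) (by norm_num) (by norm_num) (by norm_num) ?_
    intro i
    refine numC (hr0 i) (hr1 i) (hz i) hB (ha i) (hw3 i) ?_
    exact (min_le_right _ _).trans (by norm_num)

end Pool.Agent.MP4da8b1Q1
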