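import Pool.Agent.Work.MP_4da8b1_Q1_helper46.FIND
import Pool.Agent.Work.MP_4da8b1_Q1_helper46.FINE
import Pool.Agent.Work.MP_4da8b1_Q1_helper46.NUC
import Pool.Agent.Work.MP_4da8b1_Q1_helper46.SPE
import Pool.Agent.Work.MP_4da8b1_Q1_helper46.SGN
import Pool.Agent.Work.MP_4da8b1_Q1_helper46.FRO
import Pool.Agent.Work.MP_4da8b1_Q1_helper46.MON
import Pool.Agent.Work.MP_4da8b1_Q1_helper46.CHD
import Pool.Agent.Work.MP_4da8b1_Q1_helper46.KER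
import Pool.Agent.Work.MP_4da8b1_Q1_helper46.C2
import Pool.Agent.Work.MP_4da8b1_Q1_helper46.EXB
import Pool.Agent.Work.MP_4da8b1_Q1_helper46.EX1
import Pool.Agent.Work.MP_4da8b1_Q1_helper46.EX2
import Pool.Agent.Work.MP_4da8b1_Q1_helper46.EXL
import Pool.Agent.Work.MP_4da8b1_Q1_helper46.EL2
import Pool.Agent.Work.MP_4da8b1_Q1_helper46.EF2
import Pool.Agent.Work.MP_4da8b1_Q1_helper46.EPS
import Pool.Agent.Work.MP_4da8b1_Q1_helper46.CAN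
import Pool.Agent.Work.MP_4da8b1_Q1_helper46.TIL
import Pool.Agent.Work.MP_4da8b1_Q1_helper46.EA
import Pool.Agent.Work.MP_4da8b1_Q1_helper46.PW
import Pool.Agent.Work.MP_4da8b1_Q1_helper46.H1
import Pool.Agent.Work.MP_4da8b1_Q1_helper46.H2
import Pool.Agent.Work.MP_4da8b1_Q1_helper46.H3
import Pool.Agent.Work.MP_4da8b1_Q1_helper46.H4
import Pool.Agent.Work.MP_4da8b1_Q1_helper46.SM
import Pool.Agent.Work.MP_4da8b1_Q1_helper46.V1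
import Pool.Agent.Work.MP_4da8b1_Q1_helper46.V2
import Pool.Agent.Work.MP_4da8b1_Q1_helper46.V3
import Pool.Agent.Work.MP_4da8b1_Q1_helper46.RB

/-!
# MP_4da8b1_gt, Q1: all blocks together
-/

set_option autoImplicit false

open scoped RealInnerProductSpace BigOperators

namespace Pool.Agent.MP4da8b1Q1

theorem stmt_MAIN : Stmt_MAIN :=
  stmt_MAIN_of stmt_EXB stmt_EX1 stmt_EPS stmt_EX2 stmt_EXL stmt_EL2 stmt_EF2 stmt_CAN stmt_TIL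
    stmt_EA (stmt_PW_of stmt_H1 stmt_H2 stmt_H3 stmt_H4)
    (stmt_C2_of stmt_NUC (stmt_MON_of stmt_NUC) (stmt_CHD_of stmt_NUC) (stmt_KER_of stmt_NUC))
    stmt_FRO
    (stmt_RB_of stmt_SM (stmt_V1_of stmt_SM) (stmt_V3_of stmt_SM (stmt_V2_of stmt_SM)))
    stmt_SGN stmt_NUC

/-- **Q1** -/
theorem far_sum (n : ℕ) (hn : 1 ≤ n) (U : Fin (n + 1) → Finset (E n))
    (hU1 : ∀ i, ∀ u ∈ U i, ‖u‖ = 1) (hU2 : ∀ i, (U i).Nonempty)
    (hU3 : ∀ i, ∃ lam : E n → ℝ, (∀ u ∈ U i, 0 < lam u) ∧ ∑ u ∈ U i, lam u • u = 0) (c : E n) :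
    ∃ u : Fin (n + 1) → E n, (∀ i, u i ∈ U i) ∧ (n : ℝ) + 2 ≤ ‖(∑ i, u i) - c‖ ^ 2 :=
  far_sum_of stmt_MAIN n hn U hU1 hU2 hU3 c

end Pool.Agent.MP4da8b1Q1
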