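import Pool.Agent.Work.MP_4da8b1_Q1_helper46.FamAux

/-!
# MP_4da8b1, Q1: block CAN (moments of the canonical coupling)
-/

set_option autoImplicit false

open Matrix Finset
open scoped RealInnerProductSpace BigOperators

namespace Pool.Agent.MP4da8b1Q1

namespace CANAux

open FamAux

variable {κ : Type} [Fintype κ] {n : ℕ} {s : κ → E n} {w : κ → ℝ}

lemma mom_psd (h : IsFam s w) : (mom w s).PosSemidef := by
  rw [Matrix.posSemidef_iff_dotProduct_mulVec]
  refine ⟨?_, ?_⟩
  · ext k l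
    simp only [Matrix.conjTranspose_apply, mom, star_trivial]
    exact Finset.sum_congr rfl fun u _ => by ring
  · intro x
    have : star x ⬝ᵥ (mom w s *ᵥ x) = ∑ u, w u * (∑ k, x k * s u k) ^ 2 := by
      simp only [dotProduct, Matrix.mulVec, mom, Pi.star_apply, star_trivial]
      calc ∑ k, x k * ∑ l, (∑ u, w u * (s u k * s u l)) * x l
          = ∑ k, ∑ l, ∑ u, w u * ((x k * s u k) * (x l * s u l)) := by
            refine Finset.sum_congr rfl fun k _ => ?_
            rw [Finset.mul_sum]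
            refine Finset.sum_congr rfl fun l _ => ?_
            rw [Finset.sum_mul, Finset.mul_sum]
            exact Finset.sum_congr rfl fun u _ => by ring
        _ = ∑ u, ∑ k, ∑ l, w u * ((x k * s u k) * (x l * s u l)) := by
            have : ∀ k, ∑ l, ∑ u, w u * ((x k * s u k) * (x l * s u l)) =
              ∑ u, ∑ l, w u * ((x k * s u k) * (x l * s u l)) := fun k => Finset.sum_comm
            simp only [this]
            rw [Finset.sum_comm]
        _ = _ := by
            refine Finset.sum_congr rfl fun u _ => ?_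
            rw [sq, Finset.sum_mul_sum, Finset.mul_sum]
            exact Finset.sum_congr rfl fun k _ => by rw [Finset.mul_sum]
    rw [this]
    exact Finset.sum_nonneg fun u _ => mul_nonneg (h.nonneg u) (sq_nonneg _)

lemma mom_trace (h : IsFam s w) : (mom w s).trace = 1 := by
  simp only [Matrix.trace, Matrix.diag_apply, mom]
  rw [Finset.sum_comm]
  simp only [← Finset.mul_sum, self_one h, mul_one]
  exact h.sum_one

/-- expectation of a polynomial of `t` for the canonical law -/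
lemma law0_sum (F : κ × κ → ℝ) :
    ∑ e, law0 s w e * F e = ∑ u, ∑ v, w u * w v * ((1 - ⟪s u, s v⟫) * F (u, v)) := by
  rw [Fintype.sum_prod_type]
  refine Finset.sum_congr rfl fun u _ => Finset.sum_congr rfl fun v _ => ?_
  simp only [law0]; ring

lemma law0_nonneg (h : IsFam s w) (e : κ × κ) : 0 ≤ law0 s w e :=
  mul_nonneg (ww_nonneg h _ _) (sub_nonneg.2 (inner_le h _ _))

lemma law0_one (h : IsFam s w) : ∑ e, law0 s w e = 1 := by
  have h1 := law0_sum (s := s) (w := w) (fun _ => 1)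
  simp only [mul_one] at h1
  rw [h1]
  have h2 := poly_sum h 1 (-1) 0 0 0 0
  calc _ = _ := ?_
    _ = _ := h2
    _ = _ := by ring
  refine Finset.sum_congr rfl fun u _ => Finset.sum_congr rfl fun v _ => ?_
  ring

lemma law0_lin (h : IsFam s w) (k : Fin n) : ∑ e, law0 s w e * mid s e k = 0 := by
  rw [law0_sum]
  simp only [mid_apply]
  have h1 : ∀ u v : κ, w u * w v * ((1 - ⟪s u, s v⟫) * (1 / 2 * (s u k + s v k))) =
      1 / 2 * (w u * w v * s u k) + 1 / 2 * (w u * w v * s v k)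
        - 1 / 2 * (w u * w v * (⟪s u, s v⟫ * s u k)) -
        1 / 2 * (w u * w v * (⟪s u, s v⟫ * s v k)) := fun u v => by ring
  simp only [h1, Finset.sum_add_distrib, Finset.sum_sub_distrib, ← Finset.mul_sum]
  rw [A1 h (fun u => s u k), A1' h (fun u => s u k), A3 h (fun u => s u k), A3' h (fun u => s u k),
    bal_k h]
  ring

lemma law0_vec (h : IsFam s w) : ∑ e, law0 s w e • mid s e = 0 := by
  ext k
  rw [sum_apply']
  have : ∀ e, (law0 s w e • mid s e) k = law0 s w e * mid s e k := fun e => by simp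
  simp only [this]
  rw [law0_lin h]
  simp

lemma A2' (h : IsFam s w) (k l : Fin n) : ∑ u, ∑ v, w u * w v * (s v k * s u l) = 0 := by
  rw [fswap]
  exact A2 h k l

lemma A5 (k l : Fin n) : ∑ u, ∑ v, w u * w v * (⟪s u, s v⟫ * (s u k * s v l)) =
    (mom w s * mom w s) k l := by
  rw [A4 (fun u => s u k) (fun v => s v l), Matrix.mul_apply]
  refine Finset.sum_congr rfl fun m _ => ?_
  congr 1
  simp only [mom]
  exact Finset.sum_congr rfl fun u _ => by ring

lemma A5' (k l : Fin n) : ∑ u, ∑ v, w u * w v * (⟪s u, s v⟫ * (s v k * s u l)) =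
    (mom w s * mom w s) k l := by
  rw [← A5 (s := s) (w := w) k l, fswap]
  refine Finset.sum_congr rfl fun u _ => Finset.sum_congr rfl fun v _ => ?_
  rw [real_inner_comm]

lemma law0_mom_mid (h : IsFam s w) :
    mom (law0 s w) (mid s) = (1 / 2 : ℝ) • (mom w s - mom w s * mom w s) := by
  ext k l
  have h0 : mom (law0 s w) (mid s) k l = ∑ e, law0 s w e * (mid s e k * mid s e l) := rfl
  rw [h0, law0_sum]
  simp only [mid_apply]
  have h1 : ∀ u v : κ, w u * w v * ((1 - ⟪s u, s v⟫) *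
      (1 / 2 * (s u k + s v k) * (1 / 2 * (s u l + s v l)))) =
      1 / 4 * (w u * w v * (s u k * s u l)) + 1 / 4 * (w u * w v * (s v k * s v l))
      + 1 / 4 * (w u * w v * (s u k * s v l)) + 1 / 4 * (w u * w v * (s v k * s u l))
      - 1 / 4 * (w u * w v * (⟪s u, s v⟫ * (s u k * s u l)))
      - 1 / 4 * (w u * w v * (⟪s u, s v⟫ * (s v k * s v l)))
      - 1 / 4 * (w u * w v * (⟪s u, s v⟫ * (s u k * s v l)))
      - 1 / 4 * (w u * w v * (⟪s u, s v⟫ * (s v k * s u l))) := fun u v => by ring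
  simp only [h1, Finset.sum_add_distrib, Finset.sum_sub_distrib, ← Finset.mul_sum]
  rw [A1 h (fun u => s u k * s u l), A1' h (fun u => s u k * s u l), A2 h, A2' h,
    A3 h (fun u => s u k * s u l), A3' h (fun u => s u k * s u l), A5, A5']
  have h2 : ∑ u, w u * (s u k * s u l) = mom w s k l := rfl
  rw [h2]
  simp only [Matrix.smul_apply, Matrix.sub_apply, smul_eq_mul]
  ring

lemma law0_mom_dif (h : IsFam s w) :
    mom (law0 s w) (dif s) = (1 / 2 : ℝ) • (mom w s + mom w s * mom w s) := by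
  ext k l
  have h0 : mom (law0 s w) (dif s) k l = ∑ e, law0 s w e * (dif s e k * dif s e l) := rfl
  rw [h0, law0_sum]
  simp only [dif_apply]
  have h1 : ∀ u v : κ, w u * w v * ((1 - ⟪s u, s v⟫) *
      (1 / 2 * (s u k - s v k) * (1 / 2 * (s u l - s v l)))) =
      1 / 4 * (w u * w v * (s u k * s u l)) + 1 / 4 * (w u * w v * (s v k * s v l))
      - 1 / 4 * (w u * w v * (s u k * s v l)) - 1 / 4 * (w u * w v * (s v k * s u l))
      - 1 / 4 * (w u * w v * (⟪s u, s v⟫ * (s u k * s u l)))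
      - 1 / 4 * (w u * w v * (⟪s u, s v⟫ * (s v k * s v l)))
      + 1 / 4 * (w u * w v * (⟪s u, s v⟫ * (s u k * s v l)))
      + 1 / 4 * (w u * w v * (⟪s u, s v⟫ * (s v k * s u l))) := fun u v => by ring
  simp only [h1, Finset.sum_add_distrib, Finset.sum_sub_distrib, ← Finset.mul_sum]
  rw [A1 h (fun u => s u k * s u l), A1' h (fun u => s u k * s u l), A2 h, A2' h,
    A3 h (fun u => s u k * s u l), A3' h (fun u => s u k * s u l), A5, A5']
  have h2 : ∑ u, w u * (s u k * s u l) = mom w s k l := rfl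
  rw [h2]
  simp only [Matrix.smul_apply, Matrix.add_apply, smul_eq_mul]
  ring

lemma law0_alpha (h : IsFam s w) :
    ∑ e, law0 s w e * ‖mid s e‖ ^ 2 = (1 - TT s w 2) / 2 := by
  rw [law0_sum]
  simp only [mid_sq h]
  have h2 := poly_sum h (1 / 2) 0 (-1 / 2) 0 0 0
  calc _ = _ := ?_
    _ = _ := h2
    _ = _ := by ring
  refine Finset.sum_congr rfl fun u _ => Finset.sum_congr rfl fun v _ => ?_
  ring

lemma law0_alpha_sq (h : IsFam s w) :
    ∑ e, law0 s w e * (‖mid s e‖ ^ 2) ^ 2 = (1 - TT s w 2 - TT s w 3) / 4 := by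
  rw [law0_sum]
  simp only [mid_sq h]
  have h2 := poly_sum h (1 / 4) (1 / 4) (-1 / 4) (-1 / 4) 0 0
  calc _ = _ := ?_
    _ = _ := h2
    _ = _ := by ring
  refine Finset.sum_congr rfl fun u _ => Finset.sum_congr rfl fun v _ => ?_
  ring

lemma quad_mom {Ω : Type} [Fintype Ω] (q : Ω → ℝ) (f : Ω → E n) (c : E n) :
    quad (mom q f) c = ∑ e, q e * ⟪c, f e⟫ ^ 2 := by
  unfold quad
  simp only [mom]
  calc ∑ k, ∑ l, (∑ u, q u * (f u k * f u l)) * (c k * c l)
      = ∑ k, ∑ l, ∑ u, q u * ((c k * f u k) * (c l * f u l)) := by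
        refine Finset.sum_congr rfl fun k _ => Finset.sum_congr rfl fun l _ => ?_
        rw [Finset.sum_mul]
        exact Finset.sum_congr rfl fun u _ => by ring
    _ = ∑ u, ∑ k, ∑ l, q u * ((c k * f u k) * (c l * f u l)) := by
        have : ∀ k, ∑ l, ∑ u, q u * ((c k * f u k) * (c l * f u l)) =
          ∑ u, ∑ l, q u * ((c k * f u k) * (c l * f u l)) := fun k => Finset.sum_comm
        simp only [this]
        rw [Finset.sum_comm]
    _ = _ := by
        refine Finset.sum_congr rfl fun u _ => ?_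
        rw [inner_eq, sq, Finset.sum_mul_sum, Finset.mul_sum]
        exact Finset.sum_congr rfl fun k _ => by rw [Finset.mul_sum]

end CANAux

open FamAux CANAux in
theorem stmt_CAN : Stmt_CAN := by
  intro κ _ n s w h S hS y hy
  subst hS
  have hT2 : TT s w 2 = (mom w s * mom w s).trace := T2_trace
  have hy' : y = (1 - TT s w 2) / 2 := by rw [hT2]; exact hy
  have hal : ∑ e, law0 s w e * ‖mid s e‖ ^ 2 = y := by rw [law0_alpha h, hy']
  have hal2 : ∑ e, law0 s w e * (‖mid s e‖ ^ 2) ^ 2 ≤ y / 2 := by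
    rw [law0_alpha_sq h, hy']
    have := T3_nonneg (s := s) (w := w)
    linarith
  refine ⟨mom_psd h, mom_trace h, law0_nonneg h, law0_one h, law0_vec h, law0_mom_mid h,
    law0_mom_dif h, hal, hal2, ?_⟩
  intro c
  rw [← law0_mom_mid h, quad_mom]
  have h1 : (⟪c, ∑ e, (law0 s w e * ‖mid s e‖ ^ 2) • mid s e⟫ : ℝ) =
      ∑ e, law0 s w e * (⟪c, mid s e⟫ * (‖mid s e‖ ^ 2 - y)) := by
    have h2 : ∑ e, law0 s w e * ⟪c, mid s e⟫ = 0 := by
      have h3 : (⟪c, ∑ e, law0 s w e • mid s e⟫ : ℝ) = ∑ e, law0 s w e * ⟪c, mid s e⟫ := by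
        rw [inner_sum]
        exact Finset.sum_congr rfl fun e _ => by rw [real_inner_smul_right]
      rw [← h3, law0_vec h, inner_zero_right]
    rw [inner_sum]
    calc ∑ e, (⟪c, (law0 s w e * ‖mid s e‖ ^ 2) • mid s e⟫ : ℝ)
        = ∑ e, (law0 s w e * (⟪c, mid s e⟫ * (‖mid s e‖ ^ 2 - y)) +
            y * (law0 s w e * ⟪c, mid s e⟫)) := by
          refine Finset.sum_congr rfl fun e _ => ?_
          rw [real_inner_smul_right]; ring
      _ = _ := by rw [Finset.sum_add_distrib, ← Finset.mul_sum, h2, mul_zero, add_zero]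
  rw [h1]
  have h4 : ∑ e, law0 s w e * (‖mid s e‖ ^ 2 - y) ^ 2 ≤ y / 2 - y ^ 2 := by
    have h5 : ∑ e, law0 s w e * (‖mid s e‖ ^ 2 - y) ^ 2 =
        ∑ e, law0 s w e * (‖mid s e‖ ^ 2) ^ 2 - 2 * y * ∑ e, law0 s w e * ‖mid s e‖ ^ 2 +
          y ^ 2 * ∑ e, law0 s w e := by
      rw [Finset.mul_sum, Finset.mul_sum, ← Finset.sum_sub_distrib, ← Finset.sum_add_distrib]
      exact Finset.sum_congr rfl fun e _ => by ring
    rw [h5, hal, law0_one h]
    linarith
  have h6 : (∑ e, law0 s w e * (⟪c, mid s e⟫ * (‖mid s e‖ ^ 2 - y))) ^ 2 ≤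
      (∑ e, law0 s w e * ⟪c, mid s e⟫ ^ 2) * ∑ e, law0 s w e * (‖mid s e‖ ^ 2 - y) ^ 2 := by
    have h7 := Finset.sum_mul_sq_le_sq_mul_sq Finset.univ
      (fun e => √(law0 s w e) * ⟪c, mid s e⟫) (fun e => √(law0 s w e) * (‖mid s e‖ ^ 2 - y))
    have h8 : ∀ e, √(law0 s w e) * √(law0 s w e) = law0 s w e := fun e =>
      Real.mul_self_sqrt (law0_nonneg h e)
    have e1 : ∀ e, √(law0 s w e) * ⟪c, mid s e⟫ * (√(law0 s w e) * (‖mid s e‖ ^ 2 - y)) =
        law0 s w e * (⟪c, mid s e⟫ * (‖mid s e‖ ^ 2 - y)) := fun e => by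
      linear_combination (⟪c, mid s e⟫ * (‖mid s e‖ ^ 2 - y)) * h8 e
    have e2 : ∀ e, (√(law0 s w e) * ⟪c, mid s e⟫) ^ 2 = law0 s w e * ⟪c, mid s e⟫ ^ 2 := fun e => by
      rw [mul_pow, sq, h8 e]
    have e3 : ∀ e, (√(law0 s w e) * (‖mid s e‖ ^ 2 - y)) ^ 2 =
        law0 s w e * (‖mid s e‖ ^ 2 - y) ^ 2 := fun e => by
      rw [mul_pow, sq, h8 e]
    simp only [e1, e2, e3] at h7
    exact h7
  refine h6.trans (mul_le_mul_of_nonneg_left h4 ?_)
  exact Finset.sum_nonneg fun e _ => mul_nonneg (law0_nonneg h e) (sq_nonneg _)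

end Pool.Agent.MP4da8b1Q1
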