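import Pool.Agent.Work.MP_4da8b1_Q1_helper46.Interface

/-!
# MP_4da8b1_gt, Q1: from a choice of edges to a choice of vectors
-/

set_option autoImplicit false

open Matrix Finset
open scoped RealInnerProductSpace BigOperators

namespace Pool.Agent.MP4da8b1Q1

section

variable {ι κ : Type} [Fintype ι] [DecidableEq ι] {n : ℕ}

/-- the `N + 1` vectors attached to a choice of edges -/
noncomputable def vec (s : κ → E n) (c : E n) (e : ι → κ × κ) : Option ι → E n
  | none => (∑ i, mid s (e i)) - c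
  | some i => dif s (e i)

lemma mid_add_dif (s : κ → E n) (e : κ × κ) : mid s e + dif s e = s e.1 := by
  simp only [mid, dif]
  rw [← smul_add]
  rw [show s e.1 + s e.2 + (s e.1 - s e.2) = (2 : ℝ) • s e.1 by rw [two_smul]; abel, smul_smul]
  norm_num

lemma mid_sub_dif (s : κ → E n) (e : κ × κ) : mid s e - dif s e = s e.2 := by
  simp only [mid, dif]
  rw [← smul_sub]
  rw [show s e.1 + s e.2 - (s e.1 - s e.2) = (2 : ℝ) • s e.2 by rw [two_smul]; abel, smul_smul]
  norm_num

lemma norm_mid_sq (s : κ → E n) (hs : ∀ k, ‖s k‖ = 1) (e : κ × κ) :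
    ‖mid s e‖ ^ 2 = (1 + ⟪s e.1, s e.2⟫) / 2 := by
  rw [mid, norm_smul, mul_pow, norm_add_sq_real, hs, hs]
  norm_num
  ring

lemma norm_dif_sq (s : κ → E n) (hs : ∀ k, ‖s k‖ = 1) (e : κ × κ) :
    ‖dif s e‖ ^ 2 = 1 - ‖mid s e‖ ^ 2 := by
  rw [norm_mid_sq s hs, dif, norm_smul, mul_pow, norm_sub_sq_real, hs, hs]
  norm_num
  ring

lemma inner_mid_dif (s : κ → E n) (hs : ∀ k, ‖s k‖ = 1) (e : κ × κ) :
    ⟪mid s e, dif s e⟫ = (0 : ℝ) := by
  rw [mid, dif, real_inner_smul_left, real_inner_smul_right, inner_add_left, inner_sub_right,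
    inner_sub_right, real_inner_self_eq_norm_sq, real_inner_self_eq_norm_sq, hs, hs,
    real_inner_comm (s e.1) (s e.2)]
  ring

/-- expansion of the square of a signed sum -/
lemma norm_signed_sum {m : Type} [Fintype m] [DecidableEq m] (v : m → E n) (ε : m → ℝ)
    (hε : ∀ i, ε i = 1 ∨ ε i = -1) :
    ‖∑ i, ε i • v i‖ ^ 2 = ∑ i, ‖v i‖ ^ 2 + ε ⬝ᵥ (offGram v *ᵥ ε) := by
  have h1 : ‖∑ i, ε i • v i‖ ^ 2 = ∑ i, ∑ j, ε i * (⟪v i, v j⟫ * ε j) := by
    rw [← real_inner_self_eq_norm_sq, sum_inner]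
    refine Finset.sum_congr rfl fun i _ => ?_
    rw [inner_sum]
    refine Finset.sum_congr rfl fun j _ => ?_
    rw [real_inner_smul_left, real_inner_smul_right]
    ring
  have h2 : ε ⬝ᵥ (offGram v *ᵥ ε) = ∑ i, ∑ j, ε i * (offGram v i j * ε j) := by
    simp only [dotProduct, mulVec, Finset.mul_sum]
  rw [h1, h2, ← Finset.sum_add_distrib]
  refine Finset.sum_congr rfl fun i _ => ?_
  rw [← Finset.sum_erase_add _ _ (Finset.mem_univ i)]
  conv_rhs => rw [← Finset.sum_erase_add _ _ (Finset.mem_univ i)]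
  have h3 : ∑ j ∈ Finset.univ.erase i, ε i * (⟪v i, v j⟫ * ε j) =
      ∑ j ∈ Finset.univ.erase i, ε i * (offGram v i j * ε j) := by
    refine Finset.sum_congr rfl fun j hj => ?_
    rw [offGram, if_neg (Finset.ne_of_mem_erase hj).symm]
  rw [h3]
  have h4 : offGram v i i = 0 := by simp [offGram]
  have h5 : ε i * ε i = 1 := by rcases hε i with h | h <;> rw [h] <;> norm_num
  rw [h4, real_inner_self_eq_norm_sq]
  linear_combination (‖v i‖ ^ 2) * h5

lemma offGram_isSymm {m : Type} [DecidableEq m] (v : m → E n) : (offGram v).IsSymm := by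
  ext i j
  simp only [transpose_apply, offGram]
  by_cases h : i = j
  · subst h; rfl
  · rw [if_neg h, if_neg (Ne.symm h), real_inner_comm]

/-- **a choice of edges gives a choice of vectors** -/
theorem edge_select (hS : Stmt_SGN) (s : κ → E n) (hs : ∀ k, ‖s k‖ = 1) (c : E n)
    (e : ι → κ × κ) :
    ∃ k : ι → κ, (∀ i, k i = (e i).1 ∨ k i = (e i).2) ∧
      (Fintype.card ι : ℝ) + Xv (mid s) c e + nuc (offGram (vec s c e)) ≤
        ‖(∑ i, s (k i)) - c‖ ^ 2 := by
  obtain ⟨ε, hε, h⟩ := hS (Option ι) (offGram (vec s c e)) (offGram_isSymm _)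
    (fun i => by simp [offGram])
  have hε2 : ∀ o, ε o * ε o = 1 := fun o => by rcases hε o with h | h <;> rw [h] <;> norm_num
  refine ⟨fun i => if ε none * ε (some i) = 1 then (e i).1 else (e i).2, fun i => ?_, ?_⟩
  · by_cases h1 : ε none * ε (some i) = 1
    · left; simp [h1]
    · right; simp [h1]
  have hk : ∀ i, s (if ε none * ε (some i) = 1 then (e i).1 else (e i).2) =
      mid s (e i) + (ε none * ε (some i)) • dif s (e i) := by
    intro i
    by_cases h1 : ε none * ε (some i) = 1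
    · rw [if_pos h1, h1, one_smul, mid_add_dif]
    · have h3 : (ε none * ε (some i)) * (ε none * ε (some i)) = 1 := by
        linear_combination (ε (some i) * ε (some i)) * hε2 none + hε2 (some i)
      have h2 : ε none * ε (some i) = -1 := (mul_self_eq_one_iff.1 h3).resolve_left h1
      rw [if_neg h1, h2, neg_one_smul, ← sub_eq_add_neg, mid_sub_dif]
  have h1 : (∑ i, s (if ε none * ε (some i) = 1 then (e i).1 else (e i).2)) - c =
      ε none • ∑ o, ε o • vec s c e o := by
    rw [Fintype.sum_option, smul_add, smul_smul, hε2, one_smul, Finset.smul_sum]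
    simp only [vec]
    rw [Finset.sum_congr rfl fun i _ => hk i, Finset.sum_add_distrib]
    have : ∑ i, ε none • ε (some i) • dif s (e i) =
        ∑ i, (ε none * ε (some i)) • dif s (e i) :=
      Finset.sum_congr rfl fun i _ => by rw [smul_smul]
    rw [this]
    abel
  have h2 : ‖ε none‖ ^ 2 = 1 := by
    rw [Real.norm_eq_abs, sq_abs, sq]; exact hε2 none
  rw [h1, norm_smul, mul_pow, h2, one_mul, norm_signed_sum _ ε hε]
  have h3 : ∑ o, ‖vec s c e o‖ ^ 2 = (Fintype.card ι : ℝ) + Xv (mid s) c e := by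
    rw [Fintype.sum_option]
    simp only [vec, Xv]
    rw [Finset.sum_congr rfl fun i _ => norm_dif_sq s hs (e i), Finset.sum_sub_distrib]
    simp only [Finset.sum_const, Finset.card_univ, nsmul_eq_mul, mul_one]
    ring
  rw [h3]
  linarith

/-- the squared Frobenius norm -/
lemma sum_offGram_sq (s : κ → E n) (c : E n) (e : ι → κ × κ) :
    ∑ o, ∑ o', (offGram (vec s c e) o o') ^ 2 = Fv (mid s) (dif s) c e := by
  rw [Fintype.sum_option]
  simp only [Fintype.sum_option]
  have h0 : offGram (vec s c e) none none = 0 := by simp [offGram]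
  have h1 : ∀ i : ι, offGram (vec s c e) none (some i) =
      ⟪(∑ i, mid s (e i)) - c, dif s (e i)⟫ := fun i => by simp [offGram, vec]
  have h2 : ∀ i : ι, offGram (vec s c e) (some i) none =
      ⟪(∑ i, mid s (e i)) - c, dif s (e i)⟫ := fun i => by
    simp only [offGram, vec]
    rw [if_neg (by simp), real_inner_comm]
  have h3 : ∀ i j : ι, (offGram (vec s c e) (some i) (some j)) ^ 2 =
      if i = j then 0 else ⟪dif s (e i), dif s (e j)⟫ ^ 2 := fun i j => by
    by_cases h : i = j
    · subst h; simp [offGram]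
    · simp [offGram, vec, h]
  simp_rw [h1, h2, h3]
  rw [h0, Finset.sum_add_distrib, Fv]
  ring

end

end Pool.Agent.MP4da8b1Q1
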