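import Pool.Agent.Work.MP_4da8b1_Q1_helper46.FINA

/-!
# MP_4da8b1_gt, Q1: the trivial case and region A
-/

set_option autoImplicit false

open Matrix Finset
open scoped RealInnerProductSpace BigOperators

namespace Pool.Agent.MP4da8b1Q1

variable {κ : Type} [Fintype κ] {n : ℕ}

/-- the conclusion of `MAIN` -/
def Good (s : κ → E n) (w : Fin (n + 1) → κ → ℝ) (c : E n) : Prop :=
  ∃ k : Fin (n + 1) → κ, (∀ i, 0 < w i (k i)) ∧ (n : ℝ) + 2 ≤ ‖(∑ i, s (k i)) - c‖ ^ 2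

/-- a good choice of edges in the support -/
lemma good_of_edge (hS : Stmt_SGN) (s : κ → E n) (hs : ∀ k, ‖s k‖ = 1)
    (w : Fin (n + 1) → κ → ℝ) (c : E n) (e : Fin (n + 1) → κ × κ)
    (he : ∀ i, 0 < w i (e i).1 ∧ 0 < w i (e i).2)
    (h : 1 ≤ Xv (mid s) c e + nuc (offGram (vec s c e))) : Good s w c := by
  obtain ⟨k, hk, h1⟩ := edge_select hS s hs c e
  refine ⟨k, fun i => ?_, ?_⟩
  · rcases hk i with h2 | h2 <;> rw [h2]
    · exact (he i).1
    · exact (he i).2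
  · rw [Fintype.card_fin] at h1
    push_cast at h1
    linarith

/-- the trivial case -/
lemma good_of_large (hB : Stmt_EXB) (h1 : Stmt_EX1) (s : κ → E n)
    (w : Fin (n + 1) → κ → ℝ) (hw : ∀ i, IsFam s (w i)) (c : E n) (hc : 1 ≤ ‖c‖ ^ 2) :
    Good s w c := by
  have hp : IsLaw w := ⟨fun i => (hw i).nonneg, fun i => (hw i).sum_one⟩
  have h2 := h1 (Fin (n + 1)) κ n w hp s c
  have h3 : ∀ i, ∑ k, w i k • s k = 0 := fun i => (hw i).bal
  simp only [h3, Finset.sum_const_zero, zero_sub, norm_neg, norm_zero] at h2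
  have h4 : Ex w (fun ω => Xv s c ω - 1) = Ex w (Xv s c) - Ex w (fun _ => 1) := by
    simp only [Ex, ← Finset.sum_sub_distrib, mul_sub]
  have hB' := hB (Fin (n + 1)) κ w hp
  have h5 : 0 ≤ Ex w (fun ω => Xv s c ω - 1) := by
    rw [h4, hB'.1, h2]
    simp
    exact (one_le_sq_iff_one_le_abs _).1 hc |>.trans (by rw [abs_norm])
  obtain ⟨ω, hω, h6⟩ := hB'.2.1 _ h5
  refine ⟨ω, hω, ?_⟩
  have h7 : ∀ k, ‖s k‖ ^ 2 = 1 := fun k => by rw [(hw 0).unit k]; norm_num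
  simp only [Xv, h7, Finset.sum_const, Finset.card_univ, Fintype.card_fin, nsmul_eq_mul,
    mul_one] at h6
  push_cast at h6
  linarith

/-- **region A** -/
theorem good_of_A (hB : Stmt_EXB) (hE1 : Stmt_EX1) (hEP : Stmt_EPS) (hT : Stmt_TIL)
    (hEA : Stmt_EA) (hPW : Stmt_PW) (hC2 : Stmt_C2) (hS : Stmt_SGN) (hN : Stmt_NUC)
    (hn : 1 ≤ n) (s : κ → E n) (w : Fin (n + 1) → κ → ℝ) (hw : ∀ i, IsFam s (w i)) (c : E n)
    (hy : ∑ i, (1 - TT s (w i) 2) / 2 ≤ 9 / 10) : Good s w c := by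
  classical
  have hs : ∀ k, ‖s k‖ = 1 := (hw 0).unit
  have hTi := fun i => hT κ n s (w i) (hw i) _ _ _ _ rfl rfl rfl rfl
  have hp : IsLaw (fun i => law1 s (w i)) :=
    ⟨fun i => (hTi i).2.2.2.2.2.2.1, fun i => (hTi i).2.2.2.2.2.2.2.1⟩
  have hB' := hB (Fin (n + 1)) (κ × κ) _ hp
  have hX := hE1 (Fin (n + 1)) (κ × κ) n _ hp (mid s) c
  have hP := hEP (Fin (n + 1)) (κ × κ) _ hp (fun e => ‖mid s e‖ ^ 2) _ (fun k i => rfl)
  -- the scalar inequality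
  have hA := hEA (Fin (n + 1)) (fun i => (1 - TT s (w i) 2) / 2) (fun i => TT s (w i) 3)
    (fun i => TT s (w i) 2 - TT s (w i) 4) (fun i => ∑ e, law1 s (w i) e * ‖mid s e‖ ^ 2)
    (fun i => ∑ e, law1 s (w i) e * (‖mid s e‖ ^ 2 - (‖mid s e‖ ^ 2) ^ 2))
    (fun i => ∑ e, law1 s (w i) e * (‖mid s e‖ ^ 2) ^ 3)
    (fun i => (hTi i).1) (fun i => (hTi i).2.1) (fun i => (hTi i).2.2.1)
    (fun i => (hTi i).2.2.2.1) (fun i => (hTi i).2.2.2.2.1) (fun i => (hTi i).2.2.2.2.2.1) hy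
    (fun i => (hTi i).2.2.2.2.2.2.2.2.2.1) (fun i => (hTi i).2.2.2.2.2.2.2.2.2.2.1)
    (fun i => (hTi i).2.2.2.2.2.2.2.2.2.2.2)
  have hx : ∑ i, ‖∑ e, law1 s (w i) e • mid s e‖ ^ 2 ≤
      ∑ i, (1 - 2 * ((1 - TT s (w i) 2) / 2)) * TT s (w i) 3 /
        (4 * (3 / 2 - (1 - TT s (w i) 2) / 2) ^ 2) :=
    Finset.sum_le_sum fun i _ => (hTi i).2.2.2.2.2.2.2.2.1
  have hd : ∀ i, ∑ e, law1 s (w i) e * (‖mid s e‖ ^ 2 - (‖mid s e‖ ^ 2) ^ 2) =
      (∑ e, law1 s (w i) e * (‖mid s e‖ ^ 2) ^ 1) -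
        ∑ e, law1 s (w i) e * (‖mid s e‖ ^ 2) ^ 2 := fun i => by
    rw [← Finset.sum_sub_distrib]
    exact Finset.sum_congr rfl fun e _ => by ring
  simp only [hd, pow_one] at hA
  simp only [pow_one] at hP
  have h0 : 0 ≤ Ex (fun i => law1 s (w i)) (fun ω => Xv (mid s) c ω +
      psi (fun i => ‖mid s (ω i)‖ ^ 2)) := by
    have h1 : Ex (fun i => law1 s (w i)) (fun ω => Xv (mid s) c ω +
        psi (fun i => ‖mid s (ω i)‖ ^ 2)) = Ex (fun i => law1 s (w i)) (Xv (mid s) c) +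
        Ex (fun i => law1 s (w i)) (fun ω => psi (fun i => ‖mid s (ω i)‖ ^ 2)) := by
      simp only [Ex, ← Finset.sum_add_distrib, mul_add]
    rw [h1, hX, hP]
    have h2 := sq_nonneg ‖(∑ i, ∑ e, law1 s (w i) e • mid s e) - c‖
    linarith
  obtain ⟨e, he, h1⟩ := hB'.2.1 _ h0
  have hsup : ∀ i, 0 < w i (e i).1 ∧ 0 < w i (e i).2 := by
    intro i
    have h2 := he i
    simp only [law1] at h2
    have h3 := (hw i).nonneg (e i).1
    have h4 := (hw i).nonneg (e i).2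
    constructor
    · refine lt_of_le_of_ne h3 fun h5 => ?_
      rw [← h5] at h2
      simp at h2
    · refine lt_of_le_of_ne h4 fun h5 => ?_
      rw [← h5] at h2
      simp at h2
  refine good_of_edge hS s hs w c e hsup ?_
  have hα : ∀ i, ‖mid s (e i)‖ ^ 2 ≤ 1 := fun i => by
    have h2 := norm_dif_sq s hs (e i)
    have h3 := sq_nonneg ‖dif s (e i)‖
    linarith
  have h2 := hPW (Fin (n + 1)) (fun i => ‖mid s (e i)‖ ^ 2) (‖(∑ i, mid s (e i)) - c‖ ^ 2)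
    (nuc (offGram (vec s c e))) (by rw [Fintype.card_fin]; omega) (fun i => sq_nonneg _) hα
    (sq_nonneg _) (hN _ _).2.2 ?_ ?_
  · simpa [Xv] using h2
  · intro len hl1 hl2 o₁ o₂ hne x y z hx0 hxy hyz h3 h4 h5
    have hlen : ∀ o, len o = ‖vec s c e o‖ ^ 2 := by
      intro o
      cases o with
      | none => rw [hl1]; rfl
      | some i => rw [hl2]; simp only [vec]; rw [norm_dif_sq s hs]
    refine hC2 (Option (Fin (n + 1))) n (vec s c e) (by simp) o₁ o₂ hne x y z hx0 hxy hyz ?_ ?_ ?_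
    · rw [← hlen]; exact h3
    · rw [← hlen]; exact h4
    · intro j hj1 hj2
      rw [← hlen]; exact h5 j hj1 hj2
  · simp only [Xv] at h1
    linarith

end Pool.Agent.MP4da8b1Q1
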