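import Pool.Agent.Work.MP_4da8b1_Q1_helper46.FINB

/-!
# MP_4da8b1_gt, Q1: region B
-/

set_option autoImplicit false

open Matrix Finset
open scoped RealInnerProductSpace BigOperators

namespace Pool.Agent.MP4da8b1Q1

section Prep

variable {ι Ω : Type} [Fintype ι] [DecidableEq ι] [Fintype Ω] {n : ℕ}

lemma Ex_add (p : ι → Ω → ℝ) (F G : (ι → Ω) → ℝ) :
    Ex p (fun ω => F ω + G ω) = Ex p F + Ex p G := by
  simp only [Ex, ← Finset.sum_add_distrib, mul_add]

lemma Ex_smul (p : ι → Ω → ℝ) (r : ℝ) (F : (ι → Ω) → ℝ) :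
    Ex p (fun ω => r * F ω) = r * Ex p F := by
  simp only [Ex, Finset.mul_sum]
  exact Finset.sum_congr rfl fun ω _ => by ring

lemma Ex_pos (hB : Stmt_EXB) (p : ι → Ω → ℝ) (hp : IsLaw p) (F : (ι → Ω) → ℝ)
    (hF : ∀ ω, (∀ i, 0 < p i (ω i)) → 0 < F ω) : 0 < Ex p F := by
  by_contra h
  have h1 : 0 ≤ Ex p (fun ω => (-1) * F ω) := by
    rw [Ex_smul]; linarith
  obtain ⟨ω, hω, h2⟩ := (hB ι Ω p hp).2.1 _ h1
  have := hF ω hω
  linarith

lemma quad_smul (r : ℝ) (A : Matrix (Fin n) (Fin n) ℝ) (c : E n) :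
    quad (r • A) c = r * quad A c := by
  simp only [quad, Matrix.smul_apply, smul_eq_mul, Finset.mul_sum]
  exact Finset.sum_congr rfl fun k _ => Finset.sum_congr rfl fun l _ => by ring

lemma quad_mom (q : Ω → ℝ) (f : Ω → E n) (c : E n) :
    quad (mom q f) c = ∑ w, q w * (∑ k, f w k * c k) ^ 2 := by
  simp only [quad, mom, Finset.sum_mul]
  have : ∀ k : Fin n, ∑ l, ∑ w, q w * (f w k * f w l) * (c k * c l) =
      ∑ w, ∑ l, q w * (f w k * f w l) * (c k * c l) := fun k => Finset.sum_comm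
  rw [Finset.sum_congr rfl fun k _ => this k, Finset.sum_comm]
  refine Finset.sum_congr rfl fun w _ => ?_
  rw [sq, Finset.sum_mul_sum, Finset.mul_sum]
  refine Finset.sum_congr rfl fun k _ => ?_
  rw [Finset.mul_sum]
  exact Finset.sum_congr rfl fun l _ => by ring

lemma quad_mom_nonneg (q : Ω → ℝ) (hq : ∀ w, 0 ≤ q w) (f : Ω → E n) (c : E n) :
    0 ≤ quad (mom q f) c := by
  rw [quad_mom]
  exact Finset.sum_nonneg fun w _ => mul_nonneg (hq w) (sq_nonneg _)

lemma trace_mom_sq (s : Ω → E n) (w : Ω → ℝ) : (mom w s * mom w s).trace = TT s w 2 := by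
  have h1 : ∀ u v : Ω, ⟪s u, s v⟫ = ∑ k, s u k * s v k := fun u v => by
    simp [PiLp.inner_apply, mul_comm]
  simp only [TT, Matrix.trace, Matrix.diag_apply, Matrix.mul_apply, mom, h1]
  have h2 : ∀ k l : Fin n, (∑ u, w u * (s u k * s u l)) * (∑ v, w v * (s v l * s v k)) =
      ∑ u, ∑ v, w u * w v * ((s u k * s v k) * (s u l * s v l)) := fun k l => by
    rw [Finset.sum_mul_sum]
    exact Finset.sum_congr rfl fun u _ => Finset.sum_congr rfl fun v _ => by ring
  simp_rw [h2]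
  have h3 : ∀ k : Fin n, ∑ l, ∑ u, ∑ v, w u * w v * ((s u k * s v k) * (s u l * s v l)) =
      ∑ u, ∑ v, ∑ l, w u * w v * ((s u k * s v k) * (s u l * s v l)) := fun k => by
    rw [Finset.sum_comm]
    exact Finset.sum_congr rfl fun u _ => Finset.sum_comm
  simp_rw [h3]
  rw [Finset.sum_comm]
  refine Finset.sum_congr rfl fun u _ => ?_
  rw [Finset.sum_comm]
  refine Finset.sum_congr rfl fun v _ => ?_
  rw [sq, Finset.sum_mul_sum, Finset.mul_sum]
  refine Finset.sum_congr rfl fun k _ => ?_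
  rw [Finset.mul_sum]

end Prep

/-- the matrix part of the mean of the squared Frobenius norm -/
lemma sum_trace_identity {ι : Type} [Fintype ι] [DecidableEq ι] {n : ℕ}
    (S : ι → Matrix (Fin n) (Fin n) ℝ) :
    (∑ i, ∑ j, if i = j then 0 else
      ((((1 / 2 : ℝ) • (S i + S i * S i)) * ((1 / 2 : ℝ) • (S j + S j * S j))).trace +
        2 * (((1 / 2 : ℝ) • (S i - S i * S i)) * ((1 / 2 : ℝ) • (S j + S j * S j))).trace)) =
      (∑ i, ∑ j, if i = j then 0 else (S i * S j).trace) - VV S / 2 := by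
  have e1 : ∀ i j : ι, ((((1 / 2 : ℝ) • (S i + S i * S i)) *
      ((1 / 2 : ℝ) • (S j + S j * S j))).trace +
        2 * (((1 / 2 : ℝ) • (S i - S i * S i)) * ((1 / 2 : ℝ) • (S j + S j * S j))).trace) =
      (S i * S j).trace - 1 / 4 * (Wm S i * Wm S j).trace + 1 / 2 * (S i * (S j * S j)).trace -
        1 / 2 * (S i * S i * S j).trace := by
    intro i j
    simp only [Wm, smul_mul_assoc, mul_smul_comm, Matrix.trace_smul, smul_eq_mul, mul_add,
      add_mul, mul_sub, sub_mul, Matrix.trace_add, Matrix.trace_sub]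
    ring
  have e2 : ∑ i, ∑ j, (if i = j then 0 else (S i * (S j * S j)).trace) =
      ∑ i, ∑ j, (if i = j then 0 else (S i * S i * S j).trace) := by
    rw [Finset.sum_comm]
    refine Finset.sum_congr rfl fun i _ => Finset.sum_congr rfl fun j _ => ?_
    by_cases h : i = j
    · subst h; simp
    · rw [if_neg h, if_neg (Ne.symm h), Matrix.trace_mul_comm]
  have e3 : ∀ i j : ι, (if i = j then 0 else
      ((((1 / 2 : ℝ) • (S i + S i * S i)) * ((1 / 2 : ℝ) • (S j + S j * S j))).trace +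
        2 * (((1 / 2 : ℝ) • (S i - S i * S i)) * ((1 / 2 : ℝ) • (S j + S j * S j))).trace)) =
      (if i = j then 0 else (S i * S j).trace) -
        1 / 4 * (if i = j then 0 else (Wm S i * Wm S j).trace) +
        1 / 2 * (if i = j then 0 else (S i * (S j * S j)).trace) -
        1 / 2 * (if i = j then 0 else (S i * S i * S j).trace) := by
    intro i j
    by_cases h : i = j
    · simp [h]
    · simp only [if_neg h]
      exact e1 i j
  simp_rw [e3]
  simp only [Finset.sum_sub_distrib, Finset.sum_add_distrib, ← Finset.mul_sum]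
  rw [e2, VV]
  ring

/-- the pointwise consequences of **FRO** -/
lemma fro_two {u f L F M : ℝ} (hf : 0 ≤ f) (hfu : f < u) (hL : 0 ≤ L) (hM : M = 1 - u + L)
    (hM0 : 0 ≤ M) (hF : F ≤ f ^ 2 + f + max (M - 1) 0 / 2 * f) :
    F < u ^ 2 + u + L ^ 2 / 8 ∧ F < 3 / 2 * u + u ^ 2 / 2 + u * L / 2 := by
  have hm : 0 ≤ max (M - 1) 0 := le_max_right _ _
  have h1 : F < u ^ 2 + u + max (M - 1) 0 / 2 * u := by
    have h2 : max (M - 1) 0 / 2 * f ≤ max (M - 1) 0 / 2 * u :=
      mul_le_mul_of_nonneg_left hfu.le (by linarith)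
    nlinarith
  have hu : 0 < u := lt_of_le_of_lt hf hfu
  rcases le_total (M - 1) 0 with h | h
  · rw [max_eq_right h] at h1
    constructor
    · nlinarith [sq_nonneg L]
    · nlinarith
  · rw [max_eq_left h] at h1
    constructor
    · nlinarith [sq_nonneg (L - 2 * u)]
    · nlinarith

end Pool.Agent.MP4da8b1Q1
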