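import Pool.Agent.Work.MP_4da8b1_Q1_helper46.FINC

/-!
# MP_4da8b1_gt, Q1: region B, main theorem in weighted form
-/

set_option autoImplicit false

open Matrix Finset
open scoped RealInnerProductSpace BigOperators

namespace Pool.Agent.MP4da8b1Q1

variable {κ : Type} [Fintype κ] {n : ℕ}

/-- **region B** -/
theorem good_of_B (hB : Stmt_EXB) (hE1 : Stmt_EX1) (hE2 : Stmt_EX2) (hXL : Stmt_EXL)
    (hL2 : Stmt_EL2) (hF2 : Stmt_EF2) (hC : Stmt_CAN) (hFRO : Stmt_FRO) (hRB : Stmt_RB)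
    (hS : Stmt_SGN) (hN : Stmt_NUC) (s : κ → E n) (w : Fin (n + 1) → κ → ℝ)
    (hw : ∀ i, IsFam s (w i)) (c : E n) (hc : ‖c‖ ^ 2 ≤ 1)
    (hy : 9 / 10 ≤ ∑ i, (1 - TT s (w i) 2) / 2) : Good s w c := by
  classical
  by_contra hbad
  have hs : ∀ k, ‖s k‖ = 1 := (hw 0).unit
  have hCi := fun i => hC κ n s (w i) (hw i) _ rfl _ rfl
  have hp : IsLaw (fun i => law0 s (w i)) := ⟨fun i => (hCi i).2.2.1, fun i => (hCi i).2.2.2.1⟩
  have hbal : ∀ i, ∑ e, law0 s (w i) e • mid s e = 0 := fun i => (hCi i).2.2.2.2.1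
  have hA : ∀ i, mom (law0 s (w i)) (mid s) =
      (1 / 2 : ℝ) • (mom (w i) s - mom (w i) s * mom (w i) s) := fun i => (hCi i).2.2.2.2.2.1
  have hD : ∀ i, mom (law0 s (w i)) (dif s) =
      (1 / 2 : ℝ) • (mom (w i) s + mom (w i) s * mom (w i) s) := fun i => (hCi i).2.2.2.2.2.2.1
  have hy1 : ∀ i, ∑ e, law0 s (w i) e * ‖mid s e‖ ^ 2 =
      (1 - (mom (w i) s * mom (w i) s).trace) / 2 := fun i => (hCi i).2.2.2.2.2.2.2.1
  have hy2 : ∀ i, ∑ e, law0 s (w i) e * (‖mid s e‖ ^ 2) ^ 2 ≤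
      (1 - (mom (w i) s * mom (w i) s).trace) / 2 / 2 := fun i => (hCi i).2.2.2.2.2.2.2.2.1
  have hyy : ∀ i, yy (fun i => mom (w i) s) i =
      (1 - (mom (w i) s * mom (w i) s).trace) / 2 := fun i => by
    rw [yy, Wm, Matrix.trace_sub, (hCi i).2.1]
  -- notation
  set S : Fin (n + 1) → Matrix (Fin n) (Fin n) ℝ := fun i => mom (w i) s with hSdef
  have hWm : ∀ i, Wm S i = mom (w i) s - mom (w i) s * mom (w i) s := fun i => rfl
  set x : ℝ := ‖c‖ ^ 2 with hx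
  set y : ℝ := ∑ i, yy S i with hydef
  set Y₂ : ℝ := ∑ i, yy S i ^ 2 with hY2
  have hysum : ∑ i, ∑ e, law0 s (w i) e * ‖mid s e‖ ^ 2 = y :=
    Finset.sum_congr rfl fun i _ => by rw [hy1, hyy]
  have hyge : 9 / 10 ≤ y := by
    refine hy.trans (le_of_eq (Finset.sum_congr rfl fun i _ => ?_))
    rw [hyy, trace_mom_sq]
  -- quadratic forms
  have hqA : ∑ i, quad (mom (law0 s (w i)) (mid s)) c = 1 / 2 * ∑ i, quad (Wm S i) c := by
    rw [Finset.mul_sum]
    exact Finset.sum_congr rfl fun i _ => by rw [hA, quad_smul, hWm]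
  have hqD : 2 * ∑ i, quad (mom (law0 s (w i)) (dif s)) c =
      ∑ i, quad (S i + S i * S i) c := by
    rw [Finset.mul_sum]
    exact Finset.sum_congr rfl fun i _ => by rw [hD, quad_smul]; ring
  have hVV : 2 * ∑ i, ∑ j, (if i = j then 0 else
      (mom (law0 s (w i)) (mid s) * mom (law0 s (w j)) (mid s)).trace) = VV S := by
    rw [VV]
    simp only [Finset.mul_sum]
    refine Finset.sum_congr rfl fun i _ => Finset.sum_congr rfl fun j _ => ?_
    by_cases h : i = j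
    · simp [h]
    · rw [if_neg h, if_neg h, hA, hA, hWm, hWm]
      simp only [smul_mul_assoc, mul_smul_comm, Matrix.trace_smul, smul_eq_mul]
      ring
  -- expectations
  set p : Fin (n + 1) → κ × κ → ℝ := fun i => law0 s (w i) with hpdef
  have X1 : Ex p (Xv (mid s) c) = x := by
    rw [hE1 (Fin (n + 1)) (κ × κ) n p hp (mid s) c]
    simp only [hpdef, hbal, Finset.sum_const_zero, zero_sub, norm_neg, norm_zero]
    simp [hx]
  have X2 : Ex p (fun ω => Xv (mid s) c ω ^ 2) =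
      x ^ 2 + 2 * ∑ i, quad (Wm S i) c + VV S := by
    rw [hE2 (Fin (n + 1)) (κ × κ) n p hp (mid s) c hbal]
    have h1 := hVV
    have h2 := hqA
    simp only [hpdef]
    rw [h1, h2]
    ring
  set γ : ℝ := -2 * ∑ i, ⟪c, ∑ e, (law0 s (w i) e * ‖mid s e‖ ^ 2) • mid s e⟫ with hγ
  have XL : Ex p (fun ω => Xv (mid s) c ω * Lv (mid s) ω) = x * y + γ := by
    rw [hXL (Fin (n + 1)) (κ × κ) n p hp (mid s) c hbal]
    have h1 := hysum
    simp only [hpdef]
    rw [h1, hγ, ← hx]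
    ring
  have L1 : Ex p (Lv (mid s)) = y := by
    rw [(hL2 (Fin (n + 1)) (κ × κ) n p hp (mid s)).1]
    exact hysum
  have L2 : Ex p (fun ω => Lv (mid s) ω ^ 2) ≤ y ^ 2 + y / 2 - Y₂ := by
    rw [(hL2 (Fin (n + 1)) (κ × κ) n p hp (mid s)).2]
    have h1 := hysum
    simp only [hpdef]
    rw [h1]
    have h2 : ∑ i, ((∑ e, law0 s (w i) e * (‖mid s e‖ ^ 2) ^ 2) -
        (∑ e, law0 s (w i) e * ‖mid s e‖ ^ 2) ^ 2) ≤ ∑ i, (yy S i / 2 - yy S i ^ 2) := by
      refine Finset.sum_le_sum fun i _ => ?_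
      have h3 := hy2 i
      rw [hy1, hyy]
      linarith
    have h4 : ∑ i, (yy S i / 2 - yy S i ^ 2) = y / 2 - Y₂ := by
      rw [Finset.sum_sub_distrib, ← Finset.sum_div]
    linarith
  have F2 : Ex p (Fv (mid s) (dif s) c) = (∑ i, ∑ j, if i = j then 0 else (S i * S j).trace) -
      VV S / 2 + ∑ i, quad (S i + S i * S i) c := by
    rw [hF2 (Fin (n + 1)) (κ × κ) n p hp (mid s) (dif s) c hbal (inner_mid_dif s hs)]
    have h1 := hqD
    simp only [hpdef]
    rw [h1, ← sum_trace_identity S]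
    congr 1
    refine Finset.sum_congr rfl fun i _ => Finset.sum_congr rfl fun j _ => ?_
    rw [hA, hD, hD]
  -- the pointwise inequalities on the support
  have hsup : ∀ ω : Fin (n + 1) → κ × κ, (∀ i, 0 < p i (ω i)) →
      Fv (mid s) (dif s) c ω < (1 - Xv (mid s) c ω) ^ 2 + (1 - Xv (mid s) c ω) +
        Lv (mid s) ω ^ 2 / 8 ∧
      Fv (mid s) (dif s) c ω < 3 / 2 * (1 - Xv (mid s) c ω) + (1 - Xv (mid s) c ω) ^ 2 / 2 +
        (1 - Xv (mid s) c ω) * Lv (mid s) ω / 2 := by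
    intro ω hω
    have hpos : ∀ i, 0 < w i (ω i).1 ∧ 0 < w i (ω i).2 := by
      intro i
      have h2 := hω i
      simp only [hpdef, law0] at h2
      have h3 := (hw i).nonneg (ω i).1
      have h4 := (hw i).nonneg (ω i).2
      constructor
      · refine lt_of_le_of_ne h3 fun h5 => ?_
        rw [← h5] at h2
        simp at h2
      · refine lt_of_le_of_ne h4 fun h5 => ?_
        rw [← h5] at h2
        simp at h2
    have hlt : nuc (offGram (vec s c ω)) < 1 - Xv (mid s) c ω := by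
      by_contra h
      exact hbad (good_of_edge hS s hs w c ω hpos (by linarith))
    have hfro := hFRO (Option (Fin (n + 1))) n (vec s c ω) none (by
      intro i hi
      cases i with
      | none => exact absurd rfl hi
      | some i =>
        simp only [vec]
        rw [norm_dif_sq s hs]
        have := sq_nonneg ‖mid s (ω i)‖
        linarith)
    rw [sum_offGram_sq] at hfro
    refine fro_two (hN _ _).2.2 hlt (Finset.sum_nonneg fun i _ => sq_nonneg _)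
      (M := ‖vec s c ω none‖ ^ 2) ?_ (sq_nonneg _) hfro
    simp only [vec, Xv, Lv]
    ring
  -- strict expected inequalities
  have P1 := Ex_pos hB p hp (fun ω => (2 + (-3) * Xv (mid s) c ω + Xv (mid s) c ω ^ 2 +
    1 / 8 * Lv (mid s) ω ^ 2) + (-1) * Fv (mid s) (dif s) c ω) (fun ω hω => by
      have := (hsup ω hω).1
      nlinarith)
  have P2 := Ex_pos hB p hp (fun ω => (2 + (-5 / 2) * Xv (mid s) c ω +
    1 / 2 * Xv (mid s) c ω ^ 2 + 1 / 2 * Lv (mid s) ω + (-1 / 2) * (Xv (mid s) c ω *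
      Lv (mid s) ω)) + (-1) * Fv (mid s) (dif s) c ω) (fun ω hω => by
      have := (hsup ω hω).2
      nlinarith)
  have hone : Ex p (fun _ => (2 : ℝ)) = 2 := by
    have h1 := Ex_smul p 2 (fun _ => (1 : ℝ))
    rw [(hB _ _ p hp).1] at h1
    simpa using h1
  rw [Ex_add, Ex_add, Ex_add, Ex_add, Ex_smul, Ex_smul, Ex_smul, hone, X1, X2, F2] at P1
  rw [Ex_add, Ex_add, Ex_add, Ex_add, Ex_add, Ex_smul, Ex_smul, Ex_smul, Ex_smul, Ex_smul, hone,
    X1, X2, L1, XL, F2] at P2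
  -- the bound on γ
  have hyi : ∀ i, 0 ≤ yy S i ∧ yy S i ≤ 1 / 2 := by
    intro i
    constructor
    · rw [hyy, ← hy1]
      exact Finset.sum_nonneg fun e _ => mul_nonneg ((hCi i).2.2.1 e) (sq_nonneg _)
    · rw [hyy, trace_mom_sq]
      have : 0 ≤ TT s (w i) 2 := Finset.sum_nonneg fun u _ => Finset.sum_nonneg fun v _ =>
        mul_nonneg (mul_nonneg ((hw i).nonneg u) ((hw i).nonneg v)) (sq_nonneg _)
      linarith
  have hγ2 : (γ / 2) ^ 2 ≤ (∑ i, quad (Wm S i) c) / 2 * (y / 2 - Y₂) := by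
    have h1 : (∑ i, ⟪c, ∑ e, (law0 s (w i) e * ‖mid s e‖ ^ 2) • mid s e⟫) ^ 2 ≤
        (∑ i, quad (mom (law0 s (w i)) (mid s)) c) * ∑ i, (yy S i / 2 - yy S i ^ 2) := by
      refine Finset.sum_sq_le_sum_mul_sum_of_sq_le_mul _
        (fun i _ => quad_mom_nonneg _ (hCi i).2.2.1 _ _) (fun i _ => ?_) (fun i _ => ?_)
      · have := hyi i
        nlinarith
      · have h2 := (hCi i).2.2.2.2.2.2.2.2.2 c
        rw [hA, hyy]
        exact h2
    rw [hqA, Finset.sum_sub_distrib, ← Finset.sum_div] at h1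
    have h3 : (γ / 2) ^ 2 =
        (∑ i, ⟪c, ∑ e, (law0 s (w i) e * ‖mid s e‖ ^ 2) • mid s e⟫) ^ 2 := by
      rw [hγ]; ring
    rw [h3]
    refine h1.trans (le_of_eq ?_)
    ring
  rcases hRB n S c x y Y₂ γ (VV S) (fun i => (hCi i).1) (fun i => (hCi i).2.1) hx hc rfl rfl rfl
    hyge hγ2 with h | h
  · linarith
  · linarith

/-- **MAIN** from the blocks -/
theorem stmt_MAIN_of (hB : Stmt_EXB) (hE1 : Stmt_EX1) (hEP : Stmt_EPS) (hE2 : Stmt_EX2)
    (hXL : Stmt_EXL) (hL2 : Stmt_EL2) (hF2 : Stmt_EF2) (hC : Stmt_CAN) (hT : Stmt_TIL)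
    (hEA : Stmt_EA) (hPW : Stmt_PW) (hC2 : Stmt_C2) (hFRO : Stmt_FRO) (hRB : Stmt_RB)
    (hS : Stmt_SGN) (hN : Stmt_NUC) : Stmt_MAIN := by
  intro κ _ n hn s w hw c
  by_cases hc : 1 ≤ ‖c‖ ^ 2
  · exact good_of_large hB hE1 s w hw c hc
  · push Not at hc
    rcases le_total (∑ i, (1 - TT s (w i) 2) / 2) (9 / 10) with hy | hy
    · exact good_of_A hB hE1 hEP hT hEA hPW hC2 hS hN hn s w hw c hy
    · exact good_of_B hB hE1 hE2 hXL hL2 hF2 hC hFRO hRB hS hN s w hw c hc.le hy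

end Pool.Agent.MP4da8b1Q1
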