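import Pool.Agent.Work.MP_4da8b1_Q1_helper46.Interface

/-!
# MP_4da8b1, Q1: common lemmas on one family (used by CAN and TIL)
-/

set_option autoImplicit false

open Matrix Finset
open scoped RealInnerProductSpace BigOperators

namespace Pool.Agent.MP4da8b1Q1

namespace FamAux

variable {κ : Type} [Fintype κ] {n : ℕ} {s : κ → E n} {w : κ → ℝ}

lemma inner_eq (x y : E n) : (⟪x, y⟫ : ℝ) = ∑ k, x k * y k := by
  rw [PiLp.inner_apply]
  refine Finset.sum_congr rfl fun k _ => ?_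
  simp [mul_comm]

lemma sum_apply' {α : Type} (t : Finset α) (f : α → E n) (k : Fin n) :
    (∑ a ∈ t, f a) k = ∑ a ∈ t, f a k := by
  classical
  induction t using Finset.induction_on with
  | empty => simp
  | insert a t ha ih => rw [Finset.sum_insert ha, Finset.sum_insert ha, ← ih]; rfl

lemma self_one (h : IsFam s w) (u : κ) : ∑ k, s u k * s u k = 1 := by
  rw [← inner_eq, real_inner_self_eq_norm_sq, h.unit u]; norm_num

lemma inner_self_one (h : IsFam s w) (u : κ) : (⟪s u, s u⟫ : ℝ) = 1 := by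
  rw [real_inner_self_eq_norm_sq, h.unit u]; norm_num

lemma bal_k (h : IsFam s w) (k : Fin n) : ∑ u, w u * s u k = 0 := by
  have := congrArg (fun x : E n => x k) h.bal
  simpa [sum_apply'] using this

lemma abs_inner_le (h : IsFam s w) (u v : κ) : |(⟪s u, s v⟫ : ℝ)| ≤ 1 := by
  have := abs_real_inner_le_norm (s u) (s v)
  rwa [h.unit u, h.unit v, mul_one] at this

lemma inner_le (h : IsFam s w) (u v : κ) : (⟪s u, s v⟫ : ℝ) ≤ 1 := (abs_le.1 (abs_inner_le h u v)).2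

lemma le_inner (h : IsFam s w) (u v : κ) : -1 ≤ (⟪s u, s v⟫ : ℝ) := (abs_le.1 (abs_inner_le h u v)).1

lemma ww_nonneg (h : IsFam s w) (u v : κ) : 0 ≤ w u * w v := mul_nonneg (h.nonneg u) (h.nonneg v)

lemma dsum (f g : κ → ℝ) :
    ∑ u, ∑ v, w u * w v * (f u * g v) = (∑ u, w u * f u) * (∑ v, w v * g v) := by
  rw [Finset.sum_mul_sum]
  refine Finset.sum_congr rfl fun u _ => Finset.sum_congr rfl fun v _ => ?_
  ring

lemma T0 (h : IsFam s w) : TT s w 0 = 1 := by
  have := dsum (w := w) (fun _ => 1) (fun _ => 1)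
  simp only [mul_one] at this
  simp only [TT, pow_zero, mul_one]
  rw [this, h.sum_one]; norm_num

/-- mean of `t * f u` vanishes -/
lemma A3 (h : IsFam s w) (f : κ → ℝ) : ∑ u, ∑ v, w u * w v * (⟪s u, s v⟫ * f u) = 0 := by
  have key : ∀ u, ∑ v, w u * w v * (⟪s u, s v⟫ * f u) = 0 := by
    intro u
    have h1 : ∑ v, w v * (⟪s u, s v⟫ : ℝ) = 0 := by
      have h2 : (⟪s u, ∑ v, w v • s v⟫ : ℝ) = ∑ v, w v * (⟪s u, s v⟫ : ℝ) := by
        rw [inner_sum]
        refine Finset.sum_congr rfl fun v _ => ?_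
        rw [real_inner_smul_right]
      rw [← h2, h.bal, inner_zero_right]
    calc ∑ v, w u * w v * (⟪s u, s v⟫ * f u) = (w u * f u) * ∑ v, w v * (⟪s u, s v⟫ : ℝ) := by
          rw [Finset.mul_sum]
          exact Finset.sum_congr rfl fun v _ => by ring
      _ = 0 := by rw [h1, mul_zero]
  exact Finset.sum_eq_zero fun u _ => key u

lemma fswap (F : κ → κ → ℝ) :
    ∑ u, ∑ v, w u * w v * F u v = ∑ u, ∑ v, w u * w v * F v u := by
  rw [Finset.sum_comm]
  refine Finset.sum_congr rfl fun u _ => Finset.sum_congr rfl fun v _ => ?_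
  ring

lemma A3' (h : IsFam s w) (f : κ → ℝ) : ∑ u, ∑ v, w u * w v * (⟪s u, s v⟫ * f v) = 0 := by
  rw [fswap, ← A3 h f]
  refine Finset.sum_congr rfl fun u _ => Finset.sum_congr rfl fun v _ => ?_
  rw [real_inner_comm]

lemma T1 (h : IsFam s w) : TT s w 1 = 0 := by
  have := A3 h (fun _ => 1)
  simp only [mul_one] at this
  simpa only [TT, pow_one] using this

lemma A1 (h : IsFam s w) (f : κ → ℝ) : ∑ u, ∑ v, w u * w v * f u = ∑ u, w u * f u := by
  have := dsum (w := w) f (fun _ => 1)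
  simp only [mul_one] at this
  rw [this, h.sum_one, mul_one]

lemma A1' (h : IsFam s w) (f : κ → ℝ) : ∑ u, ∑ v, w u * w v * f v = ∑ u, w u * f u := by
  rw [fswap, A1 h]

lemma A2 (h : IsFam s w) (k l : Fin n) : ∑ u, ∑ v, w u * w v * (s u k * s v l) = 0 := by
  rw [dsum (w := w) (fun u => s u k) (fun v => s v l), bal_k h, zero_mul]

lemma A4 (f g : κ → ℝ) : ∑ u, ∑ v, w u * w v * (⟪s u, s v⟫ * (f u * g v)) =
    ∑ m, (∑ u, w u * (s u m * f u)) * (∑ v, w v * (s v m * g v)) := by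
  simp only [inner_eq]
  calc ∑ u, ∑ v, w u * w v * ((∑ k, s u k * s v k) * (f u * g v))
      = ∑ u, ∑ v, ∑ k, w u * w v * ((s u k * f u) * (s v k * g v)) := by
        refine Finset.sum_congr rfl fun u _ => Finset.sum_congr rfl fun v _ => ?_
        rw [Finset.sum_mul, Finset.mul_sum]
        exact Finset.sum_congr rfl fun k _ => by ring
    _ = ∑ k, ∑ u, ∑ v, w u * w v * ((s u k * f u) * (s v k * g v)) := by
        rw [Finset.sum_comm]
        have : ∀ u, ∑ v, ∑ k, w u * w v * ((s u k * f u) * (s v k * g v)) =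
            ∑ k, ∑ v, w u * w v * ((s u k * f u) * (s v k * g v)) := fun u => Finset.sum_comm
        rw [Finset.sum_comm]
        simp only [this]
        rw [Finset.sum_comm]
    _ = _ := by
        refine Finset.sum_congr rfl fun k _ => ?_
        exact dsum (w := w) (fun u => s u k * f u) (fun v => s v k * g v)

lemma poly_sum (h : IsFam s w) (a0 a1 a2 a3 a4 a5 : ℝ) :
    ∑ u, ∑ v, w u * w v * (a0 + a1 * ⟪s u, s v⟫ + a2 * ⟪s u, s v⟫ ^ 2 + a3 * ⟪s u, s v⟫ ^ 3 +
      a4 * ⟪s u, s v⟫ ^ 4 + a5 * ⟪s u, s v⟫ ^ 5) =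
    a0 + a2 * TT s w 2 + a3 * TT s w 3 + a4 * TT s w 4 + a5 * TT s w 5 := by
  have h1 : ∑ u, ∑ v, w u * w v * (a0 + a1 * ⟪s u, s v⟫ + a2 * ⟪s u, s v⟫ ^ 2 +
      a3 * ⟪s u, s v⟫ ^ 3 + a4 * ⟪s u, s v⟫ ^ 4 + a5 * ⟪s u, s v⟫ ^ 5) =
      a0 * TT s w 0 + a1 * TT s w 1 + a2 * TT s w 2 + a3 * TT s w 3 + a4 * TT s w 4 +
        a5 * TT s w 5 := by
    simp only [TT, Finset.mul_sum, ← Finset.sum_add_distrib]
    refine Finset.sum_congr rfl fun u _ => Finset.sum_congr rfl fun v _ => ?_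
    ring
  rw [h1, T0 h, T1 h]; ring

/-- third order moments -/
lemma T3_eq : TT s w 3 = ∑ k, ∑ l, ∑ m, (∑ u, w u * (s u k * (s u l * s u m))) ^ 2 := by
  have h1 : TT s w 3 = ∑ u, ∑ v, w u * w v * (⟪s u, s v⟫ * (⟪s u, s v⟫ * ⟪s u, s v⟫)) := by
    unfold TT
    exact Finset.sum_congr rfl fun u _ => Finset.sum_congr rfl fun v _ => by ring
  have h2 : ∀ (f g : κ → ℝ), ∑ u, ∑ v, w u * w v * (⟪s u, s v⟫ * (⟪s u, s v⟫ * (f u * g v))) =
      ∑ k, ∑ l, (∑ u, w u * (s u k * (s u l * f u))) * (∑ v, w v * (s v k * (s v l * g v))) := by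
    intro f g
    have h3 : ∀ u v : κ, (⟪s u, s v⟫ : ℝ) * (⟪s u, s v⟫ * (f u * g v)) =
        ∑ k, ⟪s u, s v⟫ * ((s u k * f u) * (s v k * g v)) := by
      intro u v
      have h4 : (⟪s u, s v⟫ : ℝ) * (⟪s u, s v⟫ * (f u * g v)) =
          (∑ k, s u k * s v k) * (⟪s u, s v⟫ * (f u * g v)) := by
        rw [← inner_eq]
      rw [h4, Finset.sum_mul]
      exact Finset.sum_congr rfl fun k _ => by ring
    calc ∑ u, ∑ v, w u * w v * (⟪s u, s v⟫ * (⟪s u, s v⟫ * (f u * g v)))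
        = ∑ u, ∑ v, ∑ k, w u * w v * (⟪s u, s v⟫ * ((s u k * f u) * (s v k * g v))) := by
          refine Finset.sum_congr rfl fun u _ => Finset.sum_congr rfl fun v _ => ?_
          rw [h3, Finset.mul_sum]
      _ = ∑ k, ∑ u, ∑ v, w u * w v * (⟪s u, s v⟫ * ((s u k * f u) * (s v k * g v))) := by
          have : ∀ u, ∑ v, ∑ k, w u * w v * (⟪s u, s v⟫ * ((s u k * f u) * (s v k * g v))) =
              ∑ k, ∑ v, w u * w v * (⟪s u, s v⟫ * ((s u k * f u) * (s v k * g v))) :=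
            fun u => Finset.sum_comm
          simp only [this]
          rw [Finset.sum_comm]
      _ = _ := by
          refine Finset.sum_congr rfl fun k _ => ?_
          rw [A4 (fun u => s u k * f u) (fun v => s v k * g v)]
          refine Finset.sum_congr rfl fun l _ => ?_
          congr 1 <;> exact Finset.sum_congr rfl fun u _ => by ring
  rw [h1]
  have h5 : ∀ u v : κ, w u * w v * (⟪s u, s v⟫ * (⟪s u, s v⟫ * ⟪s u, s v⟫)) =
      ∑ m, w u * w v * (⟪s u, s v⟫ * (⟪s u, s v⟫ * (s u m * s v m))) := by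
    intro u v
    rw [← Finset.mul_sum]
    congr 1
    rw [← Finset.mul_sum, ← Finset.mul_sum, ← inner_eq]
  calc ∑ u, ∑ v, w u * w v * (⟪s u, s v⟫ * (⟪s u, s v⟫ * ⟪s u, s v⟫))
      = ∑ u, ∑ v, ∑ m, w u * w v * (⟪s u, s v⟫ * (⟪s u, s v⟫ * (s u m * s v m))) := by
        exact Finset.sum_congr rfl fun u _ => Finset.sum_congr rfl fun v _ => h5 u v
    _ = ∑ m, ∑ u, ∑ v, w u * w v * (⟪s u, s v⟫ * (⟪s u, s v⟫ * (s u m * s v m))) := by
        have : ∀ u, ∑ v, ∑ m, w u * w v * (⟪s u, s v⟫ * (⟪s u, s v⟫ * (s u m * s v m))) =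
            ∑ m, ∑ v, w u * w v * (⟪s u, s v⟫ * (⟪s u, s v⟫ * (s u m * s v m))) :=
          fun u => Finset.sum_comm
        simp only [this]
        rw [Finset.sum_comm]
    _ = ∑ m, ∑ k, ∑ l, (∑ u, w u * (s u k * (s u l * s u m))) ^ 2 := by
        refine Finset.sum_congr rfl fun m _ => ?_
        rw [h2 (fun u => s u m) (fun v => s v m)]
        refine Finset.sum_congr rfl fun k _ => Finset.sum_congr rfl fun l _ => ?_
        rw [sq]
    _ = _ := by
        rw [Finset.sum_comm]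
        refine Finset.sum_congr rfl fun k _ => ?_
        rw [Finset.sum_comm]

lemma T3_nonneg : 0 ≤ TT s w 3 := by
  rw [T3_eq]
  positivity

lemma T2_eq : TT s w 2 = ∑ k, ∑ l, (∑ u, w u * (s u k * s u l)) ^ 2 := by
  have h1 : TT s w 2 = ∑ u, ∑ v, w u * w v * (⟪s u, s v⟫ * ⟪s u, s v⟫) := by
    unfold TT
    exact Finset.sum_congr rfl fun u _ => Finset.sum_congr rfl fun v _ => by ring
  rw [h1]
  have h5 : ∀ u v : κ, w u * w v * (⟪s u, s v⟫ * ⟪s u, s v⟫) =
      ∑ m, w u * w v * (⟪s u, s v⟫ * (s u m * s v m)) := by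
    intro u v
    rw [← Finset.mul_sum]
    congr 1
    rw [← Finset.mul_sum, ← inner_eq]
  calc ∑ u, ∑ v, w u * w v * (⟪s u, s v⟫ * ⟪s u, s v⟫)
      = ∑ u, ∑ v, ∑ m, w u * w v * (⟪s u, s v⟫ * (s u m * s v m)) := by
        exact Finset.sum_congr rfl fun u _ => Finset.sum_congr rfl fun v _ => h5 u v
    _ = ∑ m, ∑ u, ∑ v, w u * w v * (⟪s u, s v⟫ * (s u m * s v m)) := by
        have : ∀ u, ∑ v, ∑ m, w u * w v * (⟪s u, s v⟫ * (s u m * s v m)) =
            ∑ m, ∑ v, w u * w v * (⟪s u, s v⟫ * (s u m * s v m)) :=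
          fun u => Finset.sum_comm
        simp only [this]
        rw [Finset.sum_comm]
    _ = ∑ m, ∑ k, (∑ u, w u * (s u k * s u m)) ^ 2 := by
        refine Finset.sum_congr rfl fun m _ => ?_
        rw [A4 (fun u => s u m) (fun v => s v m)]
        refine Finset.sum_congr rfl fun k _ => ?_
        rw [sq]
    _ = _ := by rw [Finset.sum_comm]

lemma T2_nonneg : 0 ≤ TT s w 2 := by
  rw [T2_eq]
  positivity

lemma T2_trace : TT s w 2 = (mom w s * mom w s).trace := by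
  rw [T2_eq, Matrix.trace]
  refine Finset.sum_congr rfl fun k _ => ?_
  rw [Matrix.diag_apply, Matrix.mul_apply]
  refine Finset.sum_congr rfl fun l _ => ?_
  have h1 : mom w s k l = ∑ u, w u * (s u k * s u l) := rfl
  have h2 : mom w s l k = ∑ u, w u * (s u k * s u l) := by
    unfold mom
    exact Finset.sum_congr rfl fun u _ => by ring
  rw [h1, h2, sq]

/-- squared length of a midpoint -/
lemma mid_sq (h : IsFam s w) (e : κ × κ) : ‖mid s e‖ ^ 2 = (1 + ⟪s e.1, s e.2⟫) / 2 := by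
  unfold mid
  rw [norm_smul, mul_pow, norm_add_sq_real, h.unit, h.unit]
  norm_num
  ring

omit [Fintype κ] in
lemma mid_apply (e : κ × κ) (k : Fin n) : mid s e k = 1 / 2 * (s e.1 k + s e.2 k) := by
  simp [mid]
  ring

omit [Fintype κ] in
lemma dif_apply (e : κ × κ) (k : Fin n) : dif s e k = 1 / 2 * (s e.1 k - s e.2 k) := by
  simp [dif]

end FamAux

end Pool.Agent.MP4da8b1Q1
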