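import Mathlib
import Pool.Agent.Work.MP_4da8b1_Q1_helper46.Interface

set_option autoImplicit false

open Matrix Finset
open scoped RealInnerProductSpace BigOperators

namespace Pool.Agent.MP4da8b1Q1

/-- the linear map whose kernel is `{x supported on J, ∑ x_j v_j = 0}` -/
noncomputable def kerMap {m : Type} [Fintype m] [DecidableEq m] {n : ℕ} (v : m → E n)
    (J : Finset m) : EuclideanSpace ℝ m →ₗ[ℝ] (E n × ({j // j ∉ J} → ℝ)) :=
  LinearMap.prod
    (∑ j, (LinearMap.toSpanSingleton ℝ (E n) (v j)) ∘ₗ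
      (EuclideanSpace.proj (𝕜 := ℝ) j : EuclideanSpace ℝ m →L[ℝ] ℝ).toLinearMap)
    (LinearMap.pi fun j : {j // j ∉ J} =>
      (EuclideanSpace.proj (𝕜 := ℝ) j.1 : EuclideanSpace ℝ m →L[ℝ] ℝ).toLinearMap)

theorem kerMap_mem {m : Type} [Fintype m] [DecidableEq m] {n : ℕ} (v : m → E n)
    (J : Finset m) (x : EuclideanSpace ℝ m) :
    x ∈ LinearMap.ker (kerMap v J) ↔ (∑ j, x j • v j = 0) ∧ ∀ j, j ∉ J → x j = 0 := by
  rw [LinearMap.mem_ker, kerMap, LinearMap.prod_apply, Prod.ext_iff]
  constructor
  · rintro ⟨h1, h2⟩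
    refine ⟨by simpa using h1, fun j hj => ?_⟩
    have := congrFun h2 ⟨j, hj⟩
    simpa using this
  · rintro ⟨h1, h2⟩
    refine ⟨by simpa using h1, ?_⟩
    funext j
    simpa using h2 j.1 j.2

theorem kerMap_finrank {m : Type} [Fintype m] [DecidableEq m] {n : ℕ} (v : m → E n)
    (J : Finset m) : J.card ≤ Module.finrank ℝ (LinearMap.ker (kerMap v J)) + n := by
  have h1 := LinearMap.finrank_range_add_finrank_ker (kerMap v J)
  have h2 : Module.finrank ℝ (LinearMap.range (kerMap v J)) ≤
      Module.finrank ℝ (E n × ({j // j ∉ J} → ℝ)) := Submodule.finrank_le _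
  have h3 : Module.finrank ℝ (E n × ({j // j ∉ J} → ℝ)) = n + (Fintype.card m - J.card) := by
    rw [Module.finrank_prod, finrank_euclideanSpace_fin, Module.finrank_fintype_fun_eq_card]
    congr 1
    rw [Fintype.card_subtype_compl]
    simp
  have h4 : Module.finrank ℝ (EuclideanSpace ℝ m) = Fintype.card m := by simp
  have h5 : J.card ≤ Fintype.card m := Finset.card_le_univ J
  omega

theorem stmt_KER_of (hN : Stmt_NUC) : Stmt_KER := by
  intro m _ _ n v J hv
  set B : Matrix m m ℝ := fun i j => if i ∈ J ∧ j ∈ J ∧ i ≠ j then ⟪v i, v j⟫ else 0 with hB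
  set W := LinearMap.ker (kerMap v J) with hW
  set d := Module.finrank ℝ W with hd
  let b := stdOrthonormalBasis ℝ W
  have hon : Orthonormal ℝ (fun k => ((b k : W) : EuclideanSpace ℝ m)) := by
    have := b.orthonormal
    exact this.comp_linearIsometry W.subtypeₗᵢ
  set Q : Matrix m m ℝ := fun i j => ∑ k, ((b k : W) : EuclideanSpace ℝ m) i *
    ((b k : W) : EuclideanSpace ℝ m) j with hQ
  have hQa : ∀ i j, Q i j = ∑ k, ((b k : W) : EuclideanSpace ℝ m) i *
    ((b k : W) : EuclideanSpace ℝ m) j := fun _ _ => rfl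
  have hBa : ∀ i j, B i j = if i ∈ J ∧ j ∈ J ∧ i ≠ j then ⟪v i, v j⟫ else 0 := fun _ _ => rfl
  have hbmem : ∀ k, (∑ j, ((b k : W) : EuclideanSpace ℝ m) j • v j = 0) ∧
      ∀ j, j ∉ J → ((b k : W) : EuclideanSpace ℝ m) j = 0 := fun k =>
    (kerMap_mem v J _).1 (b k).2
  -- B b_k = - b_k
  have hBb : ∀ k i, ∑ j, B i j * ((b k : W) : EuclideanSpace ℝ m) j =
      -((b k : W) : EuclideanSpace ℝ m) i := by
    intro k i
    obtain ⟨h1, h2⟩ := hbmem k
    by_cases hi : i ∈ J
    · have e1 : ∀ j, B i j * ((b k : W) : EuclideanSpace ℝ m) j =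
          ⟪v i, ((b k : W) : EuclideanSpace ℝ m) j • v j⟫ -
            (if j = i then ((b k : W) : EuclideanSpace ℝ m) i else 0) := by
        intro j
        rw [real_inner_smul_right]
        by_cases hj : j = i
        · subst hj
          have : ⟪v j, v j⟫ = (1 : ℝ) := by
            rw [real_inner_self_eq_norm_sq, hv j hi]; norm_num
          have hz : B j j = 0 := by rw [hBa]; simp
          rw [hz, this, if_pos rfl]; ring
        · by_cases hjJ : j ∈ J
          · have : B i j = ⟪v i, v j⟫ := by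
              rw [hBa, if_pos ⟨hi, hjJ, fun h => hj h.symm⟩]
            rw [this, if_neg hj]; ring
          · rw [h2 j hjJ, if_neg hj]; ring
      rw [Finset.sum_congr rfl (fun j _ => e1 j), Finset.sum_sub_distrib, ← inner_sum, h1]
      simp
    · have e1 : ∀ j, B i j = 0 := by
        intro j
        rw [hBa, if_neg (fun h => hi h.1)]
      rw [h2 i hi]
      simp [e1]
  have hBQ : B * Q = -Q := by
    ext i j
    rw [Matrix.mul_apply, Matrix.neg_apply]
    simp only [hQa]
    calc ∑ l, B i l * ∑ k, ((b k : W) : EuclideanSpace ℝ m) l * ((b k : W) : EuclideanSpace ℝ m) j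
        = ∑ l, ∑ k, (B i l * ((b k : W) : EuclideanSpace ℝ m) l) *
            ((b k : W) : EuclideanSpace ℝ m) j := by
          refine Finset.sum_congr rfl fun l _ => ?_
          rw [Finset.mul_sum]
          exact Finset.sum_congr rfl fun k _ => by ring
      _ = ∑ k, (∑ l, B i l * ((b k : W) : EuclideanSpace ℝ m) l) *
            ((b k : W) : EuclideanSpace ℝ m) j := by
          rw [Finset.sum_comm]
          refine Finset.sum_congr rfl fun k _ => ?_
          rw [Finset.sum_mul]
      _ = _ := by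
          rw [← Finset.sum_neg_distrib]
          refine Finset.sum_congr rfl fun k _ => ?_
          rw [hBb k i]; ring
  have hQtr : Q.trace = d := by
    have h0 : Q.trace = ∑ i, Q i i := rfl
    rw [h0]
    simp only [hQa]
    rw [Finset.sum_comm]
    have : ∀ k, ∑ i, ((b k : W) : EuclideanSpace ℝ m) i * ((b k : W) : EuclideanSpace ℝ m) i = 1 := by
      intro k
      have h1 := hon.1 k
      have h2 := EuclideanSpace.real_norm_sq_eq ((b k : W) : EuclideanSpace ℝ m)
      rw [h1] at h2
      rw [show (1 : ℝ) = 1 ^ 2 by norm_num, h2]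
      exact Finset.sum_congr rfl fun i _ => by ring
    rw [Finset.sum_congr rfl (fun k _ => this k)]
    simp [hd]
  have hBtr : B.trace = 0 := by
    have h0 : B.trace = ∑ i, B i i := rfl
    rw [h0]
    refine Finset.sum_eq_zero fun i _ => ?_
    rw [hBa]; simp
  have hH : Contr (1 - (2 : ℝ) • Q) := by
    refine ⟨?_, ?_⟩
    · ext i j
      simp only [Matrix.transpose_apply, Matrix.sub_apply, Matrix.smul_apply, hQa, smul_eq_mul,
        Matrix.one_apply]
      congr 1
      · simp [eq_comm]
      · congr 1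
        exact Finset.sum_congr rfl fun k _ => by ring
    · intro x
      have e1 : x ⬝ᵥ ((1 - (2 : ℝ) • Q) *ᵥ x) = x ⬝ᵥ x -
          2 * ∑ k, (∑ i, ((b k : W) : EuclideanSpace ℝ m) i * x i) ^ 2 := by
        rw [Matrix.sub_mulVec, Matrix.one_mulVec, dotProduct_sub, Matrix.smul_mulVec,
          dotProduct_smul, smul_eq_mul]
        congr 2
        simp only [dotProduct, Matrix.mulVec, hQa]
        calc ∑ i, x i * ∑ j, (∑ k, ((b k : W) : EuclideanSpace ℝ m) i *
              ((b k : W) : EuclideanSpace ℝ m) j) * x j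
            = ∑ i, ∑ j, ∑ k, (((b k : W) : EuclideanSpace ℝ m) i * x i) *
                (((b k : W) : EuclideanSpace ℝ m) j * x j) := by
              refine Finset.sum_congr rfl fun i _ => ?_
              rw [Finset.mul_sum]
              refine Finset.sum_congr rfl fun j _ => ?_
              rw [Finset.sum_mul, Finset.mul_sum]
              exact Finset.sum_congr rfl fun k _ => by ring
          _ = ∑ k, ∑ i, ∑ j, (((b k : W) : EuclideanSpace ℝ m) i * x i) *
                (((b k : W) : EuclideanSpace ℝ m) j * x j) := by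
              rw [Finset.sum_congr rfl (fun i _ => Finset.sum_comm), Finset.sum_comm]
          _ = _ := by
              refine Finset.sum_congr rfl fun k _ => ?_
              rw [sq, Finset.sum_mul_sum]
      have hbes := hon.sum_inner_products_le (x := (WithLp.toLp 2 x : EuclideanSpace ℝ m))
        (s := Finset.univ)
      have e2 : ∀ k, ‖⟪((b k : W) : EuclideanSpace ℝ m), (WithLp.toLp 2 x : EuclideanSpace ℝ m)⟫‖ ^ 2 =
          (∑ i, ((b k : W) : EuclideanSpace ℝ m) i * x i) ^ 2 := by
        intro k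
        rw [Real.norm_eq_abs, sq_abs, PiLp.inner_apply]
        congr 1
        refine Finset.sum_congr rfl fun i _ => ?_
        simp [mul_comm]
      have e3 : ‖(WithLp.toLp 2 x : EuclideanSpace ℝ m)‖ ^ 2 = x ⬝ᵥ x := by
        rw [EuclideanSpace.real_norm_sq_eq]
        simp only [dotProduct]
        exact Finset.sum_congr rfl fun i _ => by ring
      rw [Finset.sum_congr rfl (fun k _ => e2 k), e3] at hbes
      have h0 : 0 ≤ ∑ k, (∑ i, ((b k : W) : EuclideanSpace ℝ m) i * x i) ^ 2 :=
        Finset.sum_nonneg fun k _ => sq_nonneg _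
      rw [e1, abs_le]
      constructor <;> linarith
  have hle := (hN m B).1 _ hH
  have hval : (B * (1 - (2 : ℝ) • Q)).trace / 2 = d := by
    rw [Matrix.mul_sub, Matrix.mul_one, Matrix.mul_smul, hBQ, Matrix.trace_sub, hBtr,
      Matrix.trace_smul, Matrix.trace_neg, hQtr]
    simp
  rw [hval] at hle
  have hdim := kerMap_finrank v J
  have : (J.card : ℝ) ≤ d + n := by exact_mod_cast hdim
  linarith

end Pool.Agent.MP4da8b1Q1
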