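import Pool.Agent.Work.MP_4da8b1_Q1_helper46.Interface

/-!
# Traces of products of positive semidefinite real matrices
-/

set_option autoImplicit false

open Matrix Finset

namespace Pool.Agent.MP4da8b1Q1

section TrAux

variable {n : ℕ}

theorem tr_nn {A B : Matrix (Fin n) (Fin n) ℝ} (hA : A.PosSemidef) (hB : B.PosSemidef) :
    0 ≤ (A * B).trace := by
  obtain ⟨m, v, hv⟩ := Matrix.posSemidef_iff_eq_sum_vecMulVec.1 hA
  rw [hv, Finset.sum_mul, Matrix.trace_sum]
  refine Finset.sum_nonneg fun i _ => ?_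
  have h1 : (vecMulVec (v i) (star (v i)) * B).trace = star (v i) ⬝ᵥ (B *ᵥ v i) := by
    rw [Matrix.vecMulVec_mul, Matrix.trace_vecMulVec, dotProduct_comm, ← Matrix.dotProduct_mulVec]
  rw [h1]
  exact hB.dotProduct_mulVec_nonneg _

/-- `tr A C ≤ tr B C` for `B - A`, `C` positive semidefinite -/
theorem tr_mono_left {A B C : Matrix (Fin n) (Fin n) ℝ} (h : (B - A).PosSemidef)
    (hC : C.PosSemidef) : (A * C).trace ≤ (B * C).trace := by
  have := tr_nn h hC
  rw [Matrix.sub_mul, Matrix.trace_sub] at this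
  linarith

theorem tr_sq_nn {A : Matrix (Fin n) (Fin n) ℝ} (hA : A.IsHermitian) : 0 ≤ (A * A).trace := by
  have h1 := (Matrix.posSemidef_conjTranspose_mul_self A).trace_nonneg
  rwa [hA.eq] at h1

end TrAux

end Pool.Agent.MP4da8b1Q1
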