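import Pool.Agent.Work.MP_4da8b1_Q1_helper46.TrAux

/-!
# Block V1
-/

set_option autoImplicit false

open Matrix Finset

namespace Pool.Agent.MP4da8b1Q1

theorem offdiag_sum {ι : Type} [Fintype ι] [DecidableEq ι] (F : ι → ι → ℝ) :
    ∑ i, ∑ j, (if i = j then 0 else F i j) = (∑ i, ∑ j, F i j) - ∑ i, F i i := by
  rw [← Finset.sum_sub_distrib]
  refine Finset.sum_congr rfl fun i _ => ?_
  have h1 : ∀ j, (if i = j then 0 else F i j) = F i j - (if i = j then F i j else 0) := by
    intro j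
    split_ifs <;> ring
  simp_rw [h1]
  rw [Finset.sum_sub_distrib]
  simp

/-- the pair bound, in numbers -/
theorem pair_num {yi yj ωi ωj ρi ρj p a b : ℝ} (hyi : 0 ≤ yi) (hyj : 0 ≤ yj)
    (ha : 0 ≤ a) (hb : 0 ≤ b) (hρi : 0 ≤ ρi) (hρj : 0 ≤ ρj)
    (h1 : p ≤ yj * a + ωi * yj) (h2 : p ≤ 2 * ωi * yj)
    (h3 : p ≤ yi * b + ωj * yi) (h4 : p ≤ 2 * ωj * yi)
    (hi : ∀ h t : ℝ, 0 ≤ h → h * yi ≤ t * yi - (yi - ωi) → h * yi ≤ 2 * ωi - yi →
      h * yi ≤ ρi * t * yi)
    (hj : ∀ h t : ℝ, 0 ≤ h → h * yj ≤ t * yj - (yj - ωj) → h * yj ≤ 2 * ωj - yj →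
      h * yj ≤ ρj * t * yj) :
    p ≤ yi * yj + (ρi * yi * a + ρj * yj * b) / 2 := by
  have hA : 0 ≤ ρi * yi * a := by positivity
  have hB : 0 ≤ ρj * yj * b := by positivity
  have hY : 0 ≤ yi * yj := by positivity
  rcases hyi.eq_or_lt with h0 | hyi'
  · rw [← h0] at h4
    have : p ≤ 0 := by linarith
    linarith
  rcases hyj.eq_or_lt with h0 | hyj'
  · rw [← h0] at h2
    have : p ≤ 0 := by linarith
    linarith
  rcases le_or_gt p (yi * yj) with hp | hp
  · linarith
  set h : ℝ := p / (yi * yj) - 1 with hh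
  have hYpos : 0 < yi * yj := by positivity
  have hpos : 0 ≤ h := by
    rw [hh, sub_nonneg, le_div_iff₀ hYpos]
    linarith
  have e1 : h * yi = p / yj - yi := by
    rw [hh]
    field_simp
  have e2 : h * yj = p / yi - yj := by
    rw [hh]
    field_simp
  have e3 : h * (yi * yj) = p - yi * yj := by
    rw [hh]
    field_simp
  have k1 : p / yj ≤ a + ωi := by
    rw [div_le_iff₀ hyj']
    nlinarith
  have k2 : p / yj ≤ 2 * ωi := by
    rw [div_le_iff₀ hyj']
    exact h2
  have k3 : p / yi ≤ b + ωj := by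
    rw [div_le_iff₀ hyi']
    nlinarith
  have k4 : p / yi ≤ 2 * ωj := by
    rw [div_le_iff₀ hyi']
    exact h4
  have r1 := hi h (a / yi) hpos (by rw [e1, div_mul_cancel₀ _ hyi'.ne']; linarith)
    (by rw [e1]; linarith)
  have r2 := hj h (b / yj) hpos (by rw [e2, div_mul_cancel₀ _ hyj'.ne']; linarith)
    (by rw [e2]; linarith)
  have q1 : ρi * (a / yi) * yi = ρi * a := by
    field_simp
  have q2 : ρj * (b / yj) * yj = ρj * b := by
    field_simp
  rw [q1] at r1
  rw [q2] at r2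
  have s1 : h * (yi * yj) ≤ h * (yi ^ 2 + yj ^ 2) / 2 := by
    nlinarith [sq_nonneg (yi - yj), mul_nonneg hpos (sq_nonneg (yi - yj))]
  have s2 : h * yi * yi ≤ ρi * a * yi := mul_le_mul_of_nonneg_right r1 hyi
  have s3 : h * yj * yj ≤ ρj * b * yj := mul_le_mul_of_nonneg_right r2 hyj
  nlinarith

theorem trWm {ι : Type} [Fintype ι] [DecidableEq ι] {n : ℕ}
    (S : ι → Matrix (Fin n) (Fin n) ℝ) (i : ι) : (Wm S i).trace = 2 * yy S i := by
  unfold yy
  ring

theorem sumS {ι : Type} [Fintype ι] [DecidableEq ι] {n : ℕ}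
    (S : ι → Matrix (Fin n) (Fin n) ℝ) : ∑ j, S j = EE S + 1 := by
  unfold EE
  simp

theorem stmt_V1_of (hSM : Stmt_SM) : Stmt_V1 := by
  intro ι _ _ n S hS hT
  have h := fun i => hSM n (S i) (Wm S i) (yy S i) (hS i) (hT i) rfl rfl
  choose hW hy0 hy1 hS2 hq hq2 ω ρ hω0 hωy hω4 hωW hWy hρ0 hρ1 hρq hρ using h
  have tW := trWm S
  -- the pair bound
  have pair : ∀ i j, (Wm S i * Wm S j).trace ≤ yy S i * yy S j +
      (ρ i * yy S i * (Wm S i * S j).trace + ρ j * yy S j * (Wm S j * S i).trace) / 2 := by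
    intro i j
    have key : ∀ i j, (Wm S i * Wm S j).trace ≤ yy S j * (Wm S i * S j).trace +
        ω i * yy S j := by
      intro i j
      have h1 := tr_nn (hωW i) (hWy j)
      have e1 : ((ω i • (1 : Matrix (Fin n) (Fin n) ℝ) - Wm S i) *
          (Wm S j - yy S j • S j)).trace = ω i * (2 * yy S j) - ω i * yy S j -
          (Wm S i * Wm S j).trace + yy S j * (Wm S i * S j).trace := by
        simp only [Matrix.sub_mul, Matrix.mul_sub, Matrix.smul_mul, Matrix.mul_smul,
          Matrix.one_mul, Matrix.trace_sub, Matrix.trace_smul, smul_eq_mul, tW, hT]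
        ring
      rw [e1] at h1
      linarith
    have key2 : ∀ i j, (Wm S i * Wm S j).trace ≤ 2 * ω i * yy S j := by
      intro i j
      have h1 := tr_mono_left (hωW i) (hW j)
      rw [Matrix.smul_mul, Matrix.one_mul, Matrix.trace_smul, smul_eq_mul, tW] at h1
      linarith
    have hc : (Wm S j * Wm S i).trace = (Wm S i * Wm S j).trace := Matrix.trace_mul_comm _ _
    refine pair_num (hy0 i) (hy0 j) (tr_nn (hW i) (hS j)) (tr_nn (hW j) (hS i)) (hρ0 i) (hρ0 j)
      (key i j) (key2 i j) (by rw [← hc]; exact key j i) (by rw [← hc]; exact key2 j i)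
      (hρ i) (hρ j)
  have hc0 : ∀ i, 0 ≤ ρ i * yy S i := fun i => mul_nonneg (hρ0 i) (hy0 i)
  set K : Matrix (Fin n) (Fin n) ℝ := ∑ i, (ρ i * yy S i) • Wm S i with hK
  have hKp : K.PosSemidef := Matrix.posSemidef_sum _ fun i _ => (hW i).smul (hc0 i)
  have hKtr : K.trace ≤ 2 * ∑ i, yy S i ^ 2 := by
    rw [hK, Matrix.trace_sum, Finset.mul_sum]
    refine Finset.sum_le_sum fun i _ => ?_
    rw [Matrix.trace_smul, smul_eq_mul, tW]
    nlinarith [hρ1 i, hy0 i, mul_nonneg (hy0 i) (hy0 i), mul_le_mul_of_nonneg_right (hρ1 i)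
      (mul_nonneg (hy0 i) (hy0 i))]
  have hK4 : (((∑ i, yy S i) / 4) • (1 : Matrix (Fin n) (Fin n) ℝ) - K).PosSemidef := by
    have e1 : ((∑ i, yy S i) / 4) • (1 : Matrix (Fin n) (Fin n) ℝ) - K =
        ∑ i, ((ρ i * yy S i) • (ω i • (1 : Matrix (Fin n) (Fin n) ℝ) - Wm S i) +
          (yy S i / 4 - ρ i * yy S i * ω i) • (1 : Matrix (Fin n) (Fin n) ℝ)) := by
      rw [hK, Finset.sum_div, Finset.sum_smul, ← Finset.sum_sub_distrib]
      refine Finset.sum_congr rfl fun i _ => ?_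
      rw [smul_sub, smul_smul, sub_smul]
      abel
    rw [e1]
    refine Matrix.posSemidef_sum _ fun i _ => ?_
    refine ((hωW i).smul (hc0 i)).add (Matrix.PosSemidef.one.smul ?_)
    have h1 : ρ i * yy S i * ω i ≤ 1 * yy S i * (1 / 4) := by
      apply mul_le_mul _ (hω4 i) (hω0 i) (by linarith [hy0 i])
      exact mul_le_mul_of_nonneg_right (hρ1 i) (hy0 i)
    linarith
  have hy : 0 ≤ ∑ i, yy S i := Finset.sum_nonneg fun i _ => hy0 i
  refine ⟨K, hKp, ?_, hK4, ?_⟩
  · have h1 := tr_mono_left hK4 hKp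
    rw [Matrix.smul_mul, Matrix.one_mul, Matrix.trace_smul, smul_eq_mul] at h1
    nlinarith
  · have hV : VV S ≤ 1 / 2 * ∑ i, ∑ j, (if i = j then 0 else (yy S i * yy S j +
        (ρ i * yy S i * (Wm S i * S j).trace + ρ j * yy S j * (Wm S j * S i).trace) / 2)) := by
      unfold VV
      refine mul_le_mul_of_nonneg_left ?_ (by norm_num)
      refine Finset.sum_le_sum fun i _ => Finset.sum_le_sum fun j _ => ?_
      split_ifs
      · exact le_refl _
      · exact pair i j
    have eV : ∑ i, ∑ j, (if i = j then 0 else (yy S i * yy S j +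
        (ρ i * yy S i * (Wm S i * S j).trace + ρ j * yy S j * (Wm S j * S i).trace) / 2)) =
        (∑ i, yy S i) ^ 2 - ∑ i, yy S i ^ 2 + (K * EE S).trace +
          ∑ i, yy S i * (ρ i * (2 * yy S i - (Wm S i * S i).trace)) := by
      rw [offdiag_sum]
      simp only [Finset.sum_add_distrib, add_div]
      have e1 : ∑ i, ∑ j, yy S i * yy S j = (∑ i, yy S i) ^ 2 := by
        rw [sq, Finset.sum_mul_sum]
      have e2 : ∑ i, ∑ j, ρ j * yy S j * (Wm S j * S i).trace / 2 =
          ∑ i, ∑ j, ρ i * yy S i * (Wm S i * S j).trace / 2 := Finset.sum_comm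
      have e3 : ∑ i, ∑ j, ρ i * yy S i * (Wm S i * S j).trace / 2 =
          ∑ i, ρ i * yy S i * ((Wm S i * EE S).trace + 2 * yy S i) / 2 := by
        refine Finset.sum_congr rfl fun i _ => ?_
        rw [← Finset.sum_div, ← Finset.mul_sum, ← Matrix.trace_sum, ← Finset.mul_sum, sumS,
          Matrix.mul_add, Matrix.mul_one, Matrix.trace_add, tW]
      have e4 : (K * EE S).trace = ∑ i, ρ i * yy S i * (Wm S i * EE S).trace := by
        rw [hK, Finset.sum_mul, Matrix.trace_sum]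
        refine Finset.sum_congr rfl fun i _ => ?_
        rw [Matrix.smul_mul, Matrix.trace_smul, smul_eq_mul]
      rw [e1, e2, e3, e4]
      have e5 : ∑ i, ρ i * yy S i * ((Wm S i * EE S).trace + 2 * yy S i) / 2 =
          (∑ i, ρ i * yy S i * (Wm S i * EE S).trace) / 2 +
            (∑ i, yy S i * (ρ i * (2 * yy S i))) / 2 := by
        rw [← Finset.sum_div, ← add_div, ← Finset.sum_add_distrib]
        congr 1
        refine Finset.sum_congr rfl fun i _ => ?_
        ring
      have e6 : ∑ i, yy S i * (ρ i * (2 * yy S i - (Wm S i * S i).trace)) =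
          (∑ i, yy S i * (ρ i * (2 * yy S i))) - ∑ i, ρ i * yy S i * (Wm S i * S i).trace := by
        rw [← Finset.sum_sub_distrib]
        refine Finset.sum_congr rfl fun i _ => ?_
        ring
      have e7 : ∑ i, yy S i * yy S i = ∑ i, yy S i ^ 2 := by
        refine Finset.sum_congr rfl fun i _ => ?_
        ring
      rw [e5, e6, e7, ← Finset.sum_div]
      ring
    rw [eV] at hV
    have hfin : ∑ i, yy S i * (ρ i * (2 * yy S i - (Wm S i * S i).trace)) ≤
        283 / 250 * ∑ i, yy S i ^ 2 := by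
      rw [Finset.mul_sum]
      refine Finset.sum_le_sum fun i _ => ?_
      have := mul_le_mul_of_nonneg_left (hρq i) (hy0 i)
      nlinarith
    linarith

end Pool.Agent.MP4da8b1Q1
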